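import Pool.Agent.Q145.MT.Sq

set_option autoImplicit false
set_option maxHeartbeats 4000000

/-! # Even numbers minus a square: the primes among `N - k²`, `k` small -/

namespace Pool.Agent.Q145.MT

open Finset Filter
open Pool.Agent.H362R2.RQ (fib)
open Pool.Agent.TH101.RG

open scoped Classical

theorem nonres (p : ℕ) (hp : p.Prime) (C₀ : ℕ) :
    ∃ v : ℕ, ∀ m : ℕ, Odd m → ¬ (p : ℤ) ∣ (v : ℤ) + C₀ - (m : ℤ) ^ 2 := by
  rcases hp.eq_two_or_odd' with h2 | hodd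
  · subst h2
    refine ⟨C₀, fun m hm hd => ?_⟩
    have h1 : (2 : ℤ) ∣ (m : ℤ) ^ 2 := by
      have h3 : (m : ℤ) ^ 2 = 2 * C₀ - ((C₀ : ℤ) + C₀ - (m : ℤ) ^ 2) := by ring
      rw [h3]
      exact dvd_sub (dvd_mul_right _ _) hd
    have h3 : Odd ((m : ℤ) ^ 2) := (by exact_mod_cast hm : Odd (m : ℤ)).pow
    rw [← Int.not_even_iff_odd] at h3
    exact h3 (even_iff_two_dvd.2 h1)
  · haveI := Fact.mk hp
    have hch : ringChar (ZMod p) ≠ 2 := by
      rw [ZMod.ringChar_zmod_n]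
      rintro rfl
      exact absurd hodd (by decide)
    obtain ⟨a, ha⟩ := FiniteField.exists_nonsquare hch
    refine ⟨a.val + C₀ * (p - 1), fun m _ hd => ha ⟨(m : ZMod p), ?_⟩⟩
    have h1 := hp.one_le
    have h3 : (((a.val + C₀ * (p - 1) : ℕ) : ℤ) + C₀ - (m : ℤ) ^ 2) = (a.val : ℤ) - (m : ℤ) ^ 2 + p * C₀ := by
      push_cast [h1]
      ring
    rw [h3, dvd_add_left (dvd_mul_right _ _)] at hd
    have h4 := (ZMod.intCast_zmod_eq_zero_iff_dvd _ p).2 hd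
    push_cast at h4
    rw [ZMod.natCast_zmod_val] at h4
    linear_combination h4

theorem evS (c : ℝ) : ∀ᶠ X : ℝ in atTop, 16 ≤ X ∧ (c * (Real.log X * (Real.log (Real.log X)) ^ 2)) ^ 2 ≤ X / 4 ∧
    X ^ (1 / 1000 : ℝ) ≤ X / 4 ∧ 1 ≤ Real.log X ∧ 1 ≤ Real.log (Real.log X) ∧ (Real.log X) ^ 2 ≤ X / 4 := by
  have t1 := Real.tendsto_log_atTop
  have t2 : Tendsto (fun y : ℝ => Real.log (Real.log y)) atTop atTop := t1.comp t1
  have o1 := (Real.isLittleO_pow_log_id_atTop (n := 6)).bound (c := 1 / (4 * (c ^ 2 + 1))) (by positivity)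
  have o2 := (Real.isLittleO_pow_log_id_atTop (n := 2)).bound (c := 1 / 4) (by positivity)
  filter_upwards [o1, o2, eventually_ge_atTop 16, t1.eventually_ge_atTop 1, t2.eventually_ge_atTop 1]
    with X h1 h2 hX hL hA
  have hX0 : 0 < X := by linarith
  rw [Real.norm_eq_abs, Real.norm_eq_abs, id, abs_of_pos hX0, abs_of_nonneg (by positivity)] at h1 h2
  have hAL : Real.log (Real.log X) ≤ Real.log X := (Real.log_le_sub_one_of_pos (by linarith)).trans (by linarith)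
  refine ⟨hX, ?_, ?_, hL, hA, by linarith⟩
  · have h3 : Real.log X * (Real.log (Real.log X)) ^ 2 ≤ (Real.log X) ^ 3 := by
      calc Real.log X * (Real.log (Real.log X)) ^ 2 ≤ Real.log X * (Real.log X) ^ 2 := by gcongr
        _ = _ := by ring
    have h4 : (Real.log X * (Real.log (Real.log X)) ^ 2) ^ 2 ≤ (Real.log X) ^ 6 := by
      calc (Real.log X * (Real.log (Real.log X)) ^ 2) ^ 2 ≤ ((Real.log X) ^ 3) ^ 2 := by gcongr
        _ = _ := by ring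
    calc (c * (Real.log X * (Real.log (Real.log X)) ^ 2)) ^ 2
        = c ^ 2 * (Real.log X * (Real.log (Real.log X)) ^ 2) ^ 2 := by ring
      _ ≤ (c ^ 2 + 1) * (Real.log X) ^ 6 := by
        have : 0 ≤ (Real.log X * (Real.log (Real.log X)) ^ 2) ^ 2 := by positivity
        have : 0 ≤ c ^ 2 := by positivity
        nlinarith
      _ ≤ (c ^ 2 + 1) * (1 / (4 * (c ^ 2 + 1)) * X) := mul_le_mul_of_nonneg_left h1 (by positivity)
      _ = X / 4 := by field_simp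
  · have h5 : X ^ (1 / 1000 : ℝ) ≤ X ^ (1 / 2 : ℝ) := Real.rpow_le_rpow_of_exponent_le (by linarith) (by norm_num)
    refine h5.trans ?_
    rw [← Real.sqrt_eq_rpow]
    apply Real.sqrt_le_iff.2
    constructor
    · linarith
    · nlinarith

/-- **Tuples.** -/
theorem sqTuple : ∃ η : ℝ, 0 < η ∧ ∀ m : ℕ, 1 ≤ m → ∃ K : ℕ, m ≤ K ∧ ∃ c : ℝ, 0 < c ∧ ∀ᶠ X : ℝ in atTop,
    ∀ M : ℕ, (M : ℝ) ≤ c * (Real.log X * (Real.log (Real.log X)) ^ 2) →
    ∀ μ : Fin K → ℕ, Function.Injective μ → (∀ j, Odd (μ j) ∧ μ j ≤ M) →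
    (∀ i j, (μ i : ℝ) ^ 2 ≤ (μ j : ℝ) ^ 2 + (Real.log X) ^ 2) →
    ∀ col : Fin K → Fin m, (∀ e, K ≤ 2 * m * fib col e) →
    ∀ bad : Finset ℕ, (bad.card : ℝ) ≤ X ^ (9 / 10 : ℝ) →
    ∃ N : ℕ, Even N ∧ X < N ∧ (N : ℝ) ≤ 4 * X ∧ N ∉ bad ∧
      (∀ k ≤ M, (N - k ^ 2).Prime → ∃ j, k = μ j) ∧
      (∃ E : Finset (Fin m), η * m ≤ E.card ∧ ∀ e ∈ E, ∃ j, col j = e ∧ (N - (μ j) ^ 2).Prime) := by
  obtain ⟨η, hη, htup⟩ := tupR
  refine ⟨η, hη, fun m hm => ?_⟩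
  obtain ⟨K, hmK, hK⟩ := htup m hm
  obtain ⟨c₄, hc₄, heng⟩ := hK 1
  obtain ⟨c, hc, hsurv⟩ := sqSurv K (hm.trans hmK) c₄ hc₄
  refine ⟨K, hmK, c, hc, ?_⟩
  filter_upwards [heng 1 2 squarefree_one, hsurv, evS c] with X hX hS hev
  obtain ⟨hX16, hM2, hX1000, hL1, hA1, hLL⟩ := hev
  obtain ⟨P, hP1, hP2, hP3⟩ := hX
  intro M hM μ hinj hμ hspread col hcol bad hbad
  have hK0 : 0 < K := by omega
  have hX0 : 0 < X := by linarith
  have hMX : (M : ℝ) ^ 2 ≤ X / 4 := (pow_le_pow_left₀ (Nat.cast_nonneg M) hM 2).trans hM2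
  haveI : Nonempty (Fin K) := ⟨⟨0, hK0⟩⟩
  obtain ⟨j₀, hj₀⟩ := Finite.exists_max μ
  set C₀ : ℕ := (μ j₀) ^ 2 with hC₀
  have hC : ∀ j, (μ j) ^ 2 ≤ C₀ := fun j => Nat.pow_le_pow_left (hj₀ j) 2
  have hCM : C₀ ≤ M ^ 2 := Nat.pow_le_pow_left (hμ j₀).2 2
  set t : Fin K → ℕ := fun j => C₀ - (μ j) ^ 2 with ht
  have htz : ∀ j, (t j : ℤ) = (C₀ : ℤ) - (μ j : ℤ) ^ 2 := by
    intro j
    simp only [ht]
    push_cast [hC j]
    ring
  choose! v hv using fun (p : ℕ) (hp : p.Prime) => nonres p hp C₀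
  set Z : Finset ℤ := (((Icc 1 M).filter (fun k : ℕ => Odd k ∧ ∀ j, k ≠ μ j)).image (fun k : ℕ => (k : ℤ))) with hZ
  have hZ1 : ∀ z ∈ Z, 1 ≤ z ∧ z ≤ M ∧ ∀ j, z ≠ μ j := by
    intro z hz
    obtain ⟨k, hk, rfl⟩ := mem_image.1 hz
    rw [mem_filter, mem_Icc] at hk
    exact ⟨by exact_mod_cast hk.1.1, by exact_mod_cast hk.1.2, fun j h => hk.2.2 j (by exact_mod_cast h)⟩
  obtain ⟨ρ, hρ1, hρ2⟩ := hS P hP1 hP2 M hM C₀ μ (fun j => (hμ j).2) v
    (fun p hp j => hv p (hP1 p hp).1 (μ j) (hμ j).1) Z hZ1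
  have hsq : ∀ z ∈ Z, ∀ x : ℤ, 0 ≤ x → z ^ 2 = x ^ 2 → z = x := by
    intro z hz x hx h
    have h1 : 0 ≤ z := by have := (hZ1 z hz).1; omega
    exact (pow_left_inj₀ h1 hx (by norm_num)).1 h
  obtain ⟨n, hXn, hn3, hnb, -, hsmall, hE, hall⟩ := hP3 (fun _ => 1) (fun z => (C₀ : ℤ) - z ^ 2) 1 one_ne_zero
    (dvd_refl 1) (by simpa using (by linarith : (1 : ℝ) ≤ X)) t
    (by
      intro i j hij
      have h1 := htz i
      rw [hij, htz j] at h1
      have h2 : (μ j : ℤ) ^ 2 = (μ i : ℤ) ^ 2 := by linarith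
      have h3 : (μ j) ^ 2 = (μ i) ^ 2 := by exact_mod_cast h2
      exact hinj ((Nat.pow_left_injective (n := 2) (by norm_num)) h3).symm)
    (by
      intro j
      have h1 : (t j : ℝ) = (C₀ : ℝ) - (μ j : ℝ) ^ 2 := by exact_mod_cast htz j
      have h2 := hspread j₀ j
      have h3 : (C₀ : ℝ) = (μ j₀ : ℝ) ^ 2 := by simp [hC₀]
      linarith)
    (by
      intro p hp
      refine ⟨v p, fun j hd => hv p hp (μ j) (hμ j).1 ?_⟩
      have h1 : (v p : ℤ) + C₀ - (μ j : ℤ) ^ 2 = ((v p + t j : ℕ) : ℤ) := by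
        push_cast
        rw [htz j]
        ring
      rw [h1]
      exact Int.natCast_dvd_natCast.2 hd)
    0 (fun j => Nat.coprime_one_right _) col hcol (bad.image (fun N => N - C₀))
    (by
      have : ((bad.image (fun N => N - C₀)).card : ℝ) ≤ bad.card := by exact_mod_cast card_image_le
      linarith)
    Z
    (by
      intro z hz
      refine ⟨one_ne_zero, fun j h => ?_⟩
      rw [one_mul, htz j] at h
      exact (hZ1 z hz).2.2 j (hsq z hz _ (Int.natCast_nonneg _) (by linarith)))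
    (by
      intro z hz
      have h1 := hZ1 z hz
      refine ⟨by simpa using (by linarith : (1 : ℝ) ≤ X), ?_⟩
      push_cast
      rw [pow_one, abs_le]
      have h2 : (z : ℝ) ≤ M := by exact_mod_cast h1.2.1
      have h3 : (1 : ℝ) ≤ z := by exact_mod_cast h1.1
      have h4 : (z : ℝ) ^ 2 ≤ X / 4 := (pow_le_pow_left₀ (by linarith) h2 2).trans hMX
      have h5 : (C₀ : ℝ) ≤ X / 4 := le_trans (by exact_mod_cast hCM) hMX
      have h6 : (0 : ℝ) ≤ C₀ := Nat.cast_nonneg _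
      have h7 : 0 ≤ (z : ℝ) ^ 2 := by positivity
      constructor <;> linarith)
    (by
      intro k hk l hl hkl h
      simp only [one_mul] at h
      exact hkl (hsq k hk l (by have := (hZ1 l hl).1; omega) (by linarith)))
    ρ
    (by
      intro p hp _ j hd
      apply hρ1 p hp j
      have h1 : (ρ p : ℤ) + C₀ - (μ j : ℤ) ^ 2 = ((ρ p + t j : ℕ) : ℤ) := by
        push_cast
        rw [htz j]
        ring
      rw [h1]
      exact Int.natCast_dvd_natCast.2 hd)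
    (by
      refine le_trans ?_ hρ2
      have h1 : (Z.filter (fun z => ∀ p ∈ P, ¬ p ∣ 1 → ¬ (p : ℤ) ∣ 1 * (ρ p : ℤ) + ((C₀ : ℤ) - z ^ 2))).card ≤
          (Z.filter (fun z => ∀ p ∈ P, ¬ (p : ℤ) ∣ (ρ p : ℤ) + C₀ - z ^ 2)).card := by
        apply card_le_card
        intro z hz
        rw [mem_filter] at hz ⊢
        refine ⟨hz.1, fun p hp hd => hz.2 p hp ?_ ?_⟩
        · intro h
          exact (hP1 p hp).1.one_lt.ne' (Nat.dvd_one.1 h)
        · have : 1 * (ρ p : ℤ) + ((C₀ : ℤ) - z ^ 2) = (ρ p : ℤ) + C₀ - z ^ 2 := by ring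
          rwa [this]
      exact_mod_cast h1)
  have hsub : ∀ j, n + C₀ - (μ j) ^ 2 = n + t j := by
    intro j
    have := hC j
    simp only [ht]
    omega
  have hN4 : ((n + C₀ : ℕ) : ℝ) ≤ 4 * X := by
    push_cast
    have : (C₀ : ℝ) ≤ X / 4 := le_trans (by exact_mod_cast hCM) hMX
    linarith
  have hNX : X < ((n + C₀ : ℕ) : ℝ) := by
    push_cast
    have : (0 : ℝ) ≤ C₀ := Nat.cast_nonneg _
    linarith
  have hNeven : Even (n + C₀) := by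
    have h1 := hsmall j₀ 2 Nat.prime_two le_rfl
    have h2 : Odd (n + t j₀) := by
      rw [← Nat.not_even_iff_odd, even_iff_two_dvd]
      exact h1
    have h3 : n + C₀ = (n + t j₀) + (μ j₀) ^ 2 := by
      have := hC j₀
      simp only [ht]
      omega
    rw [h3]
    exact h2.add_odd ((hμ j₀).1.pow)
  refine ⟨n + C₀, hNeven, hNX, hN4, ?_, ?_, ?_⟩
  · intro h
    apply hnb
    rw [mem_image]
    exact ⟨n + C₀, h, by omega⟩
  · intro k hk hprime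
    have hk2 : (k : ℝ) ^ 2 ≤ X / 4 := (pow_le_pow_left₀ (Nat.cast_nonneg k) (by exact_mod_cast hk) 2).trans hMX
    have hkN : k ^ 2 ≤ n + C₀ := by
      have : ((k ^ 2 : ℕ) : ℝ) ≤ ((n + C₀ : ℕ) : ℝ) := by push_cast at hNX ⊢; linarith
      exact_mod_cast this
    have hval : ((n + C₀ - k ^ 2 : ℕ) : ℝ) = ((n + C₀ : ℕ) : ℝ) - (k : ℝ) ^ 2 := by
      rw [Nat.cast_sub hkN]
      push_cast
      ring
    have hbig : X / 2 < ((n + C₀ - k ^ 2 : ℕ) : ℝ) := by rw [hval]; linarith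
    rcases Nat.even_or_odd k with hke | hko
    · exfalso
      have h1 : Even (n + C₀ - k ^ 2) := (Nat.even_sub hkN).2 ⟨fun _ => (Nat.even_pow.2 ⟨hke, by norm_num⟩), fun _ => hNeven⟩
      have h2 := (hprime.even_iff).1 h1
      rw [h2] at hbig
      push_cast at hbig
      linarith
    · by_contra hcon
      push Not at hcon
      have hk1 : 1 ≤ k := hko.pos
      have hkZ : (k : ℤ) ∈ Z := mem_image.2 ⟨k, mem_filter.2 ⟨mem_Icc.2 ⟨hk1, hk⟩, hko, hcon⟩, rfl⟩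
      obtain ⟨q, hq, hqX, -, hqd⟩ := hall k hkZ
      have h1 : (1 : ℤ) * (n : ℤ) + ((C₀ : ℤ) - (k : ℤ) ^ 2) = ((n + C₀ - k ^ 2 : ℕ) : ℤ) := by
        push_cast [hkN]
        ring
      rw [h1] at hqd
      have h2 := (Nat.prime_dvd_prime_iff_eq hq hprime).1 (Int.natCast_dvd_natCast.1 hqd)
      rw [h2] at hqX
      linarith
  · obtain ⟨E, hE1, hE2⟩ := hE
    refine ⟨E, hE1, fun e he => ?_⟩
    obtain ⟨j, hj1, hj2⟩ := hE2 e he
    exact ⟨j, hj1, by rw [hsub j]; exact hj2⟩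

/-- **One prime.** -/
theorem sqOne : ∃ c : ℝ, 0 < c ∧ ∀ᶠ X : ℝ in atTop,
    ∀ M : ℕ, (M : ℝ) ≤ c * (Real.log X * (Real.log (Real.log X)) ^ 2) →
    ∀ m₀ : ℕ, Odd m₀ → m₀ ≤ M → ∀ bad : Finset ℕ, (bad.card : ℝ) ≤ X ^ (9 / 10 : ℝ) →
    ∃ N : ℕ, Even N ∧ X < N ∧ (N : ℝ) ≤ 4 * X ∧ N ∉ bad ∧ ∀ k ≤ M, (N - k ^ 2).Prime ↔ k = m₀ := by
  obtain ⟨c₄, hc₄, heng⟩ := oneR 1
  obtain ⟨c, hc, hsurv⟩ := sqSurv 1 le_rfl c₄ hc₄
  refine ⟨c, hc, ?_⟩
  filter_upwards [heng 1 2 squarefree_one, hsurv, evS c] with X hX hS hev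
  obtain ⟨hX16, hM2, hX1000, hL1, hA1, hLL⟩ := hev
  obtain ⟨P, hP1, hP2, hP3⟩ := hX
  intro M hM m₀ hm₀ hm₀M bad hbad
  have hX0 : 0 < X := by linarith
  have hMX : (M : ℝ) ^ 2 ≤ X / 4 := (pow_le_pow_left₀ (Nat.cast_nonneg M) hM 2).trans hM2
  set C₀ : ℕ := m₀ ^ 2 with hC₀
  have hCM : C₀ ≤ M ^ 2 := Nat.pow_le_pow_left hm₀M 2
  choose! v hv using fun (p : ℕ) (hp : p.Prime) => nonres p hp C₀
  set Z : Finset ℤ := (((Icc 1 M).filter (fun k : ℕ => Odd k ∧ k ≠ m₀)).image (fun k : ℕ => (k : ℤ))) with hZ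
  have hZ1 : ∀ z ∈ Z, 1 ≤ z ∧ z ≤ M ∧ ∀ j : Fin 1, z ≠ ((fun _ : Fin 1 => m₀) j : ℕ) := by
    intro z hz
    obtain ⟨k, hk, rfl⟩ := mem_image.1 hz
    rw [mem_filter, mem_Icc] at hk
    exact ⟨by exact_mod_cast hk.1.1, by exact_mod_cast hk.1.2, fun j h => hk.2.2 (by exact_mod_cast h)⟩
  obtain ⟨ρ, hρ1, hρ2⟩ := hS P hP1 hP2 M hM C₀ (fun _ => m₀) (fun j => hm₀M) v
    (fun p hp j => hv p (hP1 p hp).1 m₀ hm₀) Z hZ1
  have hsq : ∀ z ∈ Z, ∀ x : ℤ, 0 ≤ x → z ^ 2 = x ^ 2 → z = x := by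
    intro z hz x hx h
    have h1 : 0 ≤ z := by have := (hZ1 z hz).1; omega
    exact (pow_left_inj₀ h1 hx (by norm_num)).1 h
  have hC₀z : (C₀ : ℤ) = (m₀ : ℤ) ^ 2 := by simp [hC₀]
  obtain ⟨n, hnp, hXn, hn3, hnb, -, -, hall⟩ := hP3 (fun _ => 1) (fun z => (C₀ : ℤ) - z ^ 2) 1 one_ne_zero
    (dvd_refl 1) (by simpa using (by linarith : (1 : ℝ) ≤ X)) 0 (Nat.coprime_one_right _)
    (bad.image (fun N => N - C₀))
    (by
      have : ((bad.image (fun N => N - C₀)).card : ℝ) ≤ bad.card := by exact_mod_cast card_image_le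
      linarith)
    Z
    (by
      intro z hz
      refine ⟨one_ne_zero, fun h => ?_⟩
      exact (hZ1 z hz).2.2 0 (hsq z hz _ (Int.natCast_nonneg _) (by linarith)))
    (by
      intro z hz
      have h1 := hZ1 z hz
      refine ⟨by simpa using (by linarith : (1 : ℝ) ≤ X), ?_⟩
      push_cast
      rw [pow_one, abs_le]
      have h2 : (z : ℝ) ≤ M := by exact_mod_cast h1.2.1
      have h3 : (1 : ℝ) ≤ z := by exact_mod_cast h1.1
      have h4 : (z : ℝ) ^ 2 ≤ X / 4 := (pow_le_pow_left₀ (by linarith) h2 2).trans hMX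
      have h5 : (C₀ : ℝ) ≤ X / 4 := le_trans (by exact_mod_cast hCM) hMX
      have h6 : (0 : ℝ) ≤ C₀ := Nat.cast_nonneg _
      have h7 : 0 ≤ (z : ℝ) ^ 2 := by positivity
      constructor <;> linarith)
    (by
      intro k hk l hl hkl h
      simp only [one_mul] at h
      exact hkl (hsq k hk l (by have := (hZ1 l hl).1; omega) (by linarith)))
    ρ
    (by
      intro p hp _ hd
      apply hρ1 p hp 0
      have h1 : (ρ p : ℤ) + C₀ - ((fun _ : Fin 1 => m₀) 0 : ℕ) ^ 2 = (ρ p : ℤ) := by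
        rw [hC₀z]
        ring
      rw [h1]
      exact Int.natCast_dvd_natCast.2 hd)
    (by
      refine le_trans ?_ hρ2
      have h1 : (Z.filter (fun z => ∀ p ∈ P, ¬ p ∣ 1 → ¬ (p : ℤ) ∣ 1 * (ρ p : ℤ) + ((C₀ : ℤ) - z ^ 2))).card ≤
          (Z.filter (fun z => ∀ p ∈ P, ¬ (p : ℤ) ∣ (ρ p : ℤ) + C₀ - z ^ 2)).card := by
        apply card_le_card
        intro z hz
        rw [mem_filter] at hz ⊢
        refine ⟨hz.1, fun p hp hd => hz.2 p hp ?_ ?_⟩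
        · intro h
          exact (hP1 p hp).1.one_lt.ne' (Nat.dvd_one.1 h)
        · have : 1 * (ρ p : ℤ) + ((C₀ : ℤ) - z ^ 2) = (ρ p : ℤ) + C₀ - z ^ 2 := by ring
          rwa [this]
      exact_mod_cast h1)
  have hN4 : ((n + C₀ : ℕ) : ℝ) ≤ 4 * X := by
    push_cast
    have : (C₀ : ℝ) ≤ X / 4 := le_trans (by exact_mod_cast hCM) hMX
    linarith
  have hNX : X < ((n + C₀ : ℕ) : ℝ) := by
    push_cast
    have : (0 : ℝ) ≤ C₀ := Nat.cast_nonneg _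
    linarith
  have hnodd : Odd n := by
    rcases hnp.eq_two_or_odd' with h | h
    · exfalso
      rw [h] at hXn
      push_cast at hXn
      linarith
    · exact h
  have hNeven : Even (n + C₀) := hnodd.add_odd hm₀.pow
  refine ⟨n + C₀, hNeven, hNX, hN4, ?_, ?_⟩
  · intro h
    apply hnb
    rw [mem_image]
    exact ⟨n + C₀, h, by omega⟩
  · intro k hk
    constructor
    · intro hprime
      have hk2 : (k : ℝ) ^ 2 ≤ X / 4 := (pow_le_pow_left₀ (Nat.cast_nonneg k) (by exact_mod_cast hk) 2).trans hMX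
      have hkN : k ^ 2 ≤ n + C₀ := by
        have : ((k ^ 2 : ℕ) : ℝ) ≤ ((n + C₀ : ℕ) : ℝ) := by push_cast at hNX ⊢; linarith
        exact_mod_cast this
      have hval : ((n + C₀ - k ^ 2 : ℕ) : ℝ) = ((n + C₀ : ℕ) : ℝ) - (k : ℝ) ^ 2 := by
        rw [Nat.cast_sub hkN]
        push_cast
        ring
      have hbig : X / 2 < ((n + C₀ - k ^ 2 : ℕ) : ℝ) := by rw [hval]; linarith
      rcases Nat.even_or_odd k with hke | hko
      · exfalso
        have h1 : Even (n + C₀ - k ^ 2) := (Nat.even_sub hkN).2 ⟨fun _ => (Nat.even_pow.2 ⟨hke, by norm_num⟩), fun _ => hNeven⟩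
        have h2 := (hprime.even_iff).1 h1
        rw [h2] at hbig
        push_cast at hbig
        linarith
      · by_contra hcon
        have hk1 : 1 ≤ k := hko.pos
        have hkZ : (k : ℤ) ∈ Z := mem_image.2 ⟨k, mem_filter.2 ⟨mem_Icc.2 ⟨hk1, hk⟩, hko, hcon⟩, rfl⟩
        obtain ⟨q, hq, hqX, -, hqd⟩ := hall k hkZ
        have h1 : (1 : ℤ) * (n : ℤ) + ((C₀ : ℤ) - (k : ℤ) ^ 2) = ((n + C₀ - k ^ 2 : ℕ) : ℤ) := by
          push_cast [hkN]
          ring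
        rw [h1] at hqd
        have h2 := (Nat.prime_dvd_prime_iff_eq hq hprime).1 (Int.natCast_dvd_natCast.1 hqd)
        rw [h2] at hqX
        linarith
    · rintro rfl
      rw [hC₀, Nat.add_sub_cancel]
      exact hnp

end Pool.Agent.Q145.MT
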