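import Pool.Agent.Q145.MT.AvgLin
import Pool.Agent.Q145.MT.SqMain

set_option autoImplicit false
set_option maxHeartbeats 4000000

/-! # Greedy choice of residues for an arbitrary family of linear forms -/

namespace Pool.Agent.Q145.MT

open Finset Filter
open Pool.Agent.H378R2
open Pool.Agent.H318R2.Cr (cz_bounds Pz one_sub_inv_pos)
open Pool.Agent.TH101.RG

open scoped Classical

theorem card_filter_inst {γ : Type} (s : Finset γ) (p : γ → Prop) (i j : DecidablePred p) :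
    (@Finset.filter _ p i s).card = (@Finset.filter _ p j s).card := by
  have h : i = j := Subsingleton.elim _ _
  subst h
  rfl

/-- the local factor of an integer at the primes of `P` -/
noncomputable def lf (P : Finset ℕ) (a : ℤ) : ℝ := ∏ p ∈ P, (if (p : ℤ) ∣ a then (1 - 1 / (p : ℝ))⁻¹ else 1)

theorem one_le_inv_p (p : ℕ) (hp : p.Prime) : 1 ≤ (1 - 1 / (p : ℝ))⁻¹ := by
  have h2 : (2 : ℝ) ≤ p := by exact_mod_cast hp.two_le
  have h3 : 0 < 1 - 1 / (p : ℝ) := by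
    rw [sub_pos, div_lt_one (by linarith)]
    linarith
  rw [one_le_inv₀ h3]
  have : 0 < 1 / (p : ℝ) := by positivity
  linarith

theorem one_le_ite (p : ℕ) (hp : p.Prime) (A : Prop) [Decidable A] : 1 ≤ (if A then (1 - 1 / (p : ℝ))⁻¹ else 1) := by
  split_ifs
  · exact one_le_inv_p p hp
  · exact le_rfl

theorem one_le_lf (P : Finset ℕ) (hP : ∀ p ∈ P, p.Prime) (a : ℤ) : 1 ≤ lf P a := by
  unfold lf
  apply Finset.one_le_prod
  intro p hp
  exact one_le_ite p (hP p hp) _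

theorem lf_mul (P : Finset ℕ) (hP : ∀ p ∈ P, p.Prime) (a b : ℤ) :
    lf P (a * b) ≤ lf P a * ∏ p ∈ P.filter (fun p : ℕ => ¬ (p : ℤ) ∣ a), (if (p : ℤ) ∣ b then (1 - 1 / (p : ℝ))⁻¹ else 1) := by
  unfold lf
  rw [prod_filter, ← prod_mul_distrib]
  apply Finset.prod_le_prod
  · intro p hp
    exact zero_le_one.trans (one_le_ite p (hP p hp) _)
  · intro p hp
    have h1 := one_le_inv_p p (hP p hp)
    have hpp := Nat.prime_iff_prime_int.1 (hP p hp)
    by_cases ha : (p : ℤ) ∣ a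
    · have hab : (p : ℤ) ∣ a * b := ha.mul_right b
      simp [ha, hab]
    · by_cases hb : (p : ℤ) ∣ b
      · have hab : (p : ℤ) ∣ a * b := hb.mul_left a
        simp [ha, hb, hab]
      · have hab : ¬ (p : ℤ) ∣ a * b := fun h => (hpp.dvd_or_dvd h).elim ha hb
        simp [ha, hb, hab]

theorem lf_mul' (P : Finset ℕ) (hP : ∀ p ∈ P, p.Prime) (a b : ℤ) : lf P (a * b) ≤ lf P a * lf P b := by
  refine (lf_mul P hP a b).trans ?_
  apply mul_le_mul_of_nonneg_left _ (zero_le_one.trans (one_le_lf P hP a))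
  unfold lf
  rw [prod_filter]
  apply Finset.prod_le_prod
  · intro p hp
    have h0 := one_le_inv_p p (hP p hp)
    split_ifs <;> first | exact zero_le_one | exact zero_le_one.trans h0
  · intro p hp
    have h0 := one_le_inv_p p (hP p hp)
    split_ifs <;> first | exact le_rfl | exact h0

theorem lf_le (P : Finset ℕ) (hP : ∀ p ∈ P, p.Prime) (a : ℤ) (ha : a ≠ 0) :
    lf P a ≤ (a.natAbs : ℝ) / a.natAbs.totient := by
  have ha' : a.natAbs ≠ 0 := Int.natAbs_ne_zero.2 ha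
  rw [← prod_inv_primeFactors _ ha']
  unfold lf
  rw [← prod_filter]
  have hsub : P.filter (fun p : ℕ => (p : ℤ) ∣ a) ⊆ a.natAbs.primeFactors := by
    intro p hp
    obtain ⟨h1, h2⟩ := mem_filter.1 hp
    rw [Nat.mem_primeFactors]
    exact ⟨hP p h1, Int.natCast_dvd.1 h2, ha'⟩
  rw [← prod_sdiff hsub]
  have h1 : 1 ≤ ∏ p ∈ a.natAbs.primeFactors \ P.filter (fun p : ℕ => (p : ℤ) ∣ a), (1 - 1 / (p : ℝ))⁻¹ := by
    apply Finset.one_le_prod
    intro p hp
    exact one_le_inv_p p (Nat.prime_of_mem_primeFactors (mem_sdiff.1 hp).1)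
  have h2 : 0 ≤ ∏ p ∈ P.filter (fun p : ℕ => (p : ℤ) ∣ a), (1 - 1 / (p : ℝ))⁻¹ := by
    apply prod_nonneg
    intro p hp
    exact zero_le_one.trans (one_le_inv_p p (hP p (mem_filter.1 hp).1))
  exact le_mul_of_one_le_left h2 h1

/-- a nonzero class modulo `p` killing a linear form -/
theorem exists_kill (p : ℕ) (hp : p.Prime) (a b : ℤ) (h : ¬ (p : ℤ) ∣ a * b) :
    ∃ ρ ∈ Icc 1 (p - 1), (p : ℤ) ∣ a * ((ρ : ℕ) : ℤ) + b := by
  have hpp := Nat.prime_iff_prime_int.1 hp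
  have ha : ¬ (p : ℤ) ∣ a := fun h1 => h (h1.mul_right b)
  have hb : ¬ (p : ℤ) ∣ b := fun h1 => h (h1.mul_left a)
  obtain ⟨u, v, huv⟩ : IsCoprime (p : ℤ) a := (Prime.coprime_iff_not_dvd hpp).2 ha
  have hp0 : (0 : ℤ) < p := by exact_mod_cast hp.pos
  obtain ⟨r, hr⟩ : ∃ r : ℕ, (r : ℤ) = (-b * v) % p := ⟨((-b * v) % p).toNat, Int.toNat_of_nonneg (Int.emod_nonneg _ hp0.ne')⟩
  have hrlt : r < p := by
    have := Int.emod_lt_of_pos (-b * v) hp0
    omega
  have hdvd : (p : ℤ) ∣ a * (r : ℤ) + b := by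
    have h1 : (p : ℤ) ∣ (-b * v) - r := by
      rw [hr]
      exact Int.dvd_self_sub_emod
    have h2 : a * (r : ℤ) + b = -(a * ((-b * v) - r)) + b * u * p := by
      have : v * a = 1 - u * p := by linarith
      linear_combination (-b) * this
    rw [h2]
    exact dvd_add ((dvd_neg).2 (h1.mul_left a)) (dvd_mul_left _ _)
  refine ⟨r, mem_Icc.2 ⟨?_, by omega⟩, hdvd⟩
  rcases Nat.eq_zero_or_pos r with h0 | h0
  · exfalso
    rw [h0] at hdvd
    apply hb
    simpa using hdvd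
  · exact h0

theorem linGreedy : ∃ C : ℝ, 0 < C ∧ ∀ᶠ X : ℝ in atTop, ∀ P : Finset ℕ, (∀ p ∈ P, p.Prime ∧ p ≤ yy X) →
    ∑ p ∈ Pz (yy X) \ P, (1 : ℝ) / p ≤ 2 → ∀ (Z : Finset ℤ) (α β : ℤ → ℤ),
    ∃ ρ : ℕ → ℕ, (∀ p ∈ P, ¬ p ∣ ρ p) ∧
      ((Z.filter (fun z => ∀ p ∈ P, ¬ (p : ℤ) ∣ α z * ρ p + β z)).card : ℝ) ≤
        C / Real.log (Real.log X) * ∑ z ∈ Z, lf P (α z * β z) := by
  obtain ⟨C, hC, hprod⟩ := prodR 0
  refine ⟨C, hC, ?_⟩
  filter_upwards [hprod] with X hX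
  intro P hP hPs Z α β
  obtain ⟨ρ, hρ1, hρ2⟩ := greedyR (fun p r z => (p : ℤ) ∣ α z * r + β z)
    (fun p z => if (p : ℤ) ∣ α z * β z then 0 else 1 / (p : ℝ)) P (fun p => Icc 1 (p - 1)) Z
    (fun p hp => ⟨1, mem_Icc.2 ⟨le_rfl, by have := (hP p hp).1.two_le; omega⟩⟩)
    (by
      intro p hp z _
      have h2 : (2 : ℝ) ≤ p := by exact_mod_cast (hP p hp).1.two_le
      show (if (p : ℤ) ∣ α z * β z then 0 else 1 / (p : ℝ)) ≤ 1
      split_ifs
      · exact zero_le_one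
      · rw [div_le_one (by linarith)]
        linarith)
    (by
      intro p hp z _
      show (if (p : ℤ) ∣ α z * β z then 0 else 1 / (p : ℝ)) * _ ≤ _
      split_ifs with h
      · rw [zero_mul]
        exact Nat.cast_nonneg _
      · obtain ⟨r, hr1, hr2⟩ := exists_kill p (hP p hp).1 (α z) (β z) h
        have h5 : 0 < ((Icc 1 (p - 1)).filter (fun r : ℕ => (p : ℤ) ∣ α z * r + β z)).card :=
          card_pos.2 ⟨r, mem_filter.2 ⟨hr1, hr2⟩⟩
        have h6 : (1 : ℝ) ≤ (((Icc 1 (p - 1)).filter (fun r : ℕ => (p : ℤ) ∣ α z * r + β z)).card : ℝ) := by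
          exact_mod_cast h5
        have h2 : (2 : ℝ) ≤ p := by exact_mod_cast (hP p hp).1.two_le
        have h7 : 1 / (p : ℝ) * ((Icc 1 (p - 1)).card : ℝ) ≤ 1 := by
          rw [Nat.card_Icc, div_mul_eq_mul_div, one_mul, div_le_one (by linarith)]
          have : p - 1 + 1 - 1 ≤ p := by omega
          exact_mod_cast this
        exact (h7.trans h6).trans (le_of_eq (congrArg Nat.cast (card_filter_inst _ _ _ _)))) Z (Subset.refl _)
  refine ⟨ρ, ?_, (le_of_eq (congrArg Nat.cast (card_filter_inst _ _ _ _))).trans (hρ2.trans ?_)⟩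
  · intro p hp hd
    have h1 := mem_Icc.1 (hρ1 p hp)
    have h2 := Nat.le_of_dvd (by omega) hd
    have := (hP p hp).1.two_le
    omega
  · rw [mul_sum]
    apply sum_le_sum
    intro z _
    set B : ℕ := ∏ p ∈ P.filter (fun p : ℕ => (p : ℤ) ∣ α z * β z), p with hB
    have hBf : B.primeFactors = P.filter (fun p : ℕ => (p : ℤ) ∣ α z * β z) :=
      Nat.primeFactors_prod fun p hp => (hP p (mem_filter.1 hp).1).1
    have hB0 : B ≠ 0 := (prod_pos fun p hp => (hP p (mem_filter.1 hp).1).1.pos).ne'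
    have h1 := hX P hP hPs B hB0
    have h2 : (B : ℝ) / B.totient = lf P (α z * β z) := by
      rw [← prod_inv_primeFactors B hB0, hBf]
      unfold lf
      rw [prod_filter]
    rw [h2] at h1
    refine (le_of_eq ?_).trans h1
    apply prod_congr rfl
    intro p hp
    have h3 : p ∣ B ↔ (p : ℤ) ∣ α z * β z := by
      constructor
      · intro h
        have : p ∈ B.primeFactors := Nat.mem_primeFactors.2 ⟨(hP p hp).1, h, hB0⟩
        rw [hBf] at this
        exact (mem_filter.1 this).2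
      · intro h
        exact dvd_prod_of_mem (fun p => p) (mem_filter.2 ⟨hp, h⟩)
    by_cases h4 : (p : ℤ) ∣ α z * β z
    · rw [if_pos h4, if_neg (fun h => h.1 (h3.2 h4)), sub_zero]
    · rw [if_neg h4, if_pos ⟨fun h => h4 (h3.1 h), (hP p hp).1.pos⟩]

end Pool.Agent.Q145.MT
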