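import Pool.Agent.Q145.MT.LinGreedy

set_option autoImplicit false
set_option maxHeartbeats 4000000

/-! # Every family of `c log X log log X` linear forms has simultaneously composite values -/

namespace Pool.Agent.Q145.MT

open Finset Filter
open Pool.Agent.H378R2
open Pool.Agent.H318R2.Cr (cz_bounds Pz one_sub_inv_pos)
open Pool.Agent.TH101.RG

open scoped Classical

/-- `n / φ(n)` for integers -/
noncomputable def wt (a : ℤ) : ℝ := (a.natAbs : ℝ) / a.natAbs.totient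

theorem one_le_wt (a : ℤ) (ha : a ≠ 0) : 1 ≤ wt a := by
  unfold wt
  have h1 : 0 < a.natAbs := Int.natAbs_pos.2 ha
  have h2 : (0 : ℝ) < a.natAbs.totient := by exact_mod_cast Nat.totient_pos.2 h1
  rw [one_le_div h2]
  exact_mod_cast Nat.totient_le _

theorem evT : ∀ᶠ X : ℝ in atTop, 2000 ≤ Real.log X ∧ 1 ≤ Real.log (Real.log X) ∧
    Real.log (Real.log X) ≤ Real.log X / 4 ∧ (Real.log X) ^ 2 ≤ X / 4 ∧ 16 ≤ X := by
  have t1 := Real.tendsto_log_atTop
  have t2 : Tendsto (fun y : ℝ => Real.log (Real.log y)) atTop atTop := t1.comp t1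
  have h3 : ∀ᶠ L : ℝ in atTop, Real.log L ≤ L / 4 := by
    have h3 := Real.isLittleO_log_id_atTop.bound (c := 1 / 4) (by positivity)
    filter_upwards [h3, Filter.eventually_ge_atTop (2 : ℝ)] with L hL1 hL2
    rw [Real.norm_eq_abs, Real.norm_eq_abs, id, abs_of_nonneg (Real.log_nonneg (by linarith)),
      abs_of_nonneg (by linarith : (0 : ℝ) ≤ L)] at hL1
    linarith
  filter_upwards [t1.eventually_ge_atTop 2000, t2.eventually_ge_atTop 1, t1.eventually h3, evS 1] with X h1 h2 h4 h5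
  exact ⟨h1, h2, h4, h5.2.2.2.2.2, h5.1⟩

/-- a good translation -/
theorem good_shift (X : ℝ) (hX : 2000 ≤ Real.log X ∧ 1 ≤ Real.log (Real.log X) ∧
    Real.log (Real.log X) ≤ Real.log X / 4 ∧ (Real.log X) ^ 2 ≤ X / 4 ∧ 16 ≤ X) (P : Finset ℕ)
    (hP : ∀ p ∈ P, p.Prime ∧ p ≤ yy X) (Z : Finset ℤ) (α β : ℤ → ℤ) (hα : ∀ z ∈ Z, α z ≠ 0)
    (hZ : (Z.card : ℝ) ≤ Real.log X * Real.log (Real.log X)) :
    ∃ t : ℕ, 1 ≤ t ∧ (t : ℝ) ≤ (Real.log X) ^ 2 ∧ (∀ z ∈ Z, α z * t + β z ≠ 0) ∧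
      ∑ z ∈ Z, lf P (α z * (α z * t + β z)) ≤ 2 * (Real.exp 4 + Real.exp 2) * ∑ z ∈ Z, lf P (α z) := by
  obtain ⟨hL, hA, hAL, hL2, hX16⟩ := hX
  have hPp : ∀ p ∈ P, p.Prime := fun p hp => (hP p hp).1
  set T : ℕ := ⌊(Real.log X) ^ 2⌋₊ with hT
  have hT1 : (T : ℝ) ≤ (Real.log X) ^ 2 := Nat.floor_le (by positivity)
  have hT2 : (Real.log X) ^ 2 / 2 ≤ T := by
    have h1 : (Real.log X) ^ 2 < (T : ℝ) + 1 := Nat.lt_floor_add_one _
    nlinarith
  set y := yy X with hy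
  have hy1 : (y : ℝ) ≤ Real.log X / 1000 := Nat.floor_le (by positivity)
  have hy0 : 1 ≤ y := by
    have h1 : Real.log X / 1000 < (y : ℝ) + 1 := Nat.lt_floor_add_one _
    have h2 : (0 : ℝ) < y := by linarith
    exact_mod_cast h2
  have hy2 : (y : ℝ) ^ 2 ≤ T := by
    have h0 : (0 : ℝ) ≤ y := Nat.cast_nonneg y
    nlinarith
  set G : ℤ → ℕ → ℝ := fun z t => ∏ p ∈ P.filter (fun p : ℕ => ¬ (p : ℤ) ∣ α z),
    (if (p : ℤ) ∣ α z * (t : ℤ) + β z then (1 - 1 / (p : ℝ))⁻¹ else 1) with hG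
  have hG0 : ∀ z t, 0 ≤ G z t := by
    intro z t
    apply prod_nonneg
    intro p hp
    exact zero_le_one.trans (one_le_ite p (hPp p (mem_filter.1 hp).1) _)
  set M : ℝ := (Real.exp 4 + Real.exp 2) * ∑ z ∈ Z, lf P (α z) with hM
  have hM0 : 0 ≤ M := by
    apply mul_nonneg (by positivity)
    apply sum_nonneg
    intro z _
    exact zero_le_one.trans (one_le_lf P hPp _)
  have htot : ∑ t ∈ Icc 1 T, ∑ z ∈ Z, lf P (α z) * G z t ≤ M * T := by
    rw [sum_comm, hM, mul_assoc, mul_comm (∑ z ∈ Z, lf P (α z)), ← mul_assoc, mul_sum]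
    apply sum_le_sum
    intro z hz
    rw [← mul_sum]
    have h1 := avg_lin (α z) (β z) (P.filter (fun p : ℕ => ¬ (p : ℤ) ∣ α z)) (fun p hp => hPp p (mem_filter.1 hp).1)
      (fun p hp => (mem_filter.1 hp).2) y hy0 (fun p hp => (hP p (mem_filter.1 hp).1).2) T
    have h2 : ∑ t ∈ Icc 1 T, G z t ≤ (Real.exp 4 + Real.exp 2) * T := by
      refine h1.trans ?_
      have : Real.exp 2 * (y : ℝ) ^ 2 ≤ Real.exp 2 * T := mul_le_mul_of_nonneg_left hy2 (Real.exp_pos _).le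
      linarith
    calc lf P (α z) * ∑ t ∈ Icc 1 T, G z t ≤ lf P (α z) * ((Real.exp 4 + Real.exp 2) * T) :=
          mul_le_mul_of_nonneg_left h2 (zero_le_one.trans (one_le_lf P hPp _))
      _ = _ := by ring
  set Gd : Finset ℕ := (Icc 1 T).filter (fun t : ℕ => ∀ z ∈ Z, α z * (t : ℤ) + β z ≠ 0) with hGd
  have hbadc : ((Icc 1 T).filter (fun t : ℕ => ¬ ∀ z ∈ Z, α z * (t : ℤ) + β z ≠ 0)).card ≤ Z.card := by
    have h1 : (Icc 1 T).filter (fun t : ℕ => ¬ ∀ z ∈ Z, α z * (t : ℤ) + β z ≠ 0) ⊆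
        Z.biUnion (fun z => (Icc 1 T).filter (fun t : ℕ => α z * (t : ℤ) + β z = 0)) := by
      intro t ht
      rw [mem_filter] at ht
      obtain ⟨ht1, ht2⟩ := ht
      push Not at ht2
      obtain ⟨z, hz, hz2⟩ := ht2
      exact mem_biUnion.2 ⟨z, hz, mem_filter.2 ⟨ht1, hz2⟩⟩
    refine (card_le_card h1).trans (card_biUnion_le.trans ?_)
    calc ∑ z ∈ Z, ((Icc 1 T).filter (fun t : ℕ => α z * (t : ℤ) + β z = 0)).card ≤ ∑ z ∈ Z, 1 := by
          apply sum_le_sum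
          intro z hz
          rw [card_le_one]
          intro a ha b hb
          have ha2 := (mem_filter.1 ha).2
          have hb2 := (mem_filter.1 hb).2
          have h3 : α z * (a : ℤ) = α z * b := by linarith
          have h4 := mul_left_cancel₀ (hα z hz) h3
          exact_mod_cast h4
      _ = Z.card := by rw [sum_const, smul_eq_mul, mul_one]
  have hcards : Gd.card + ((Icc 1 T).filter (fun t : ℕ => ¬ ∀ z ∈ Z, α z * (t : ℤ) + β z ≠ 0)).card = T := by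
    rw [hGd, card_filter_add_card_filter_not, Nat.card_Icc]
    omega
  have hGc : (T : ℝ) / 2 ≤ Gd.card := by
    have h1 : (T : ℝ) ≤ Gd.card + Z.card := by
      have : T ≤ Gd.card + Z.card := by omega
      exact_mod_cast this
    have h2 : Real.log X * Real.log (Real.log X) ≤ (Real.log X) ^ 2 / 4 := by
      have h0 : 0 ≤ Real.log X := by linarith
      nlinarith
    linarith
  have hGne : Gd.Nonempty := by
    rw [← card_pos]
    have h1 : (0 : ℝ) < T := by nlinarith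
    have h2 : (0 : ℝ) < Gd.card := by linarith
    exact_mod_cast h2
  have hsum : ∑ t ∈ Gd, ∑ z ∈ Z, lf P (α z) * G z t ≤ ∑ _t ∈ Gd, 2 * M := by
    rw [sum_const, nsmul_eq_mul]
    have h1 : ∑ t ∈ Gd, ∑ z ∈ Z, lf P (α z) * G z t ≤ ∑ t ∈ Icc 1 T, ∑ z ∈ Z, lf P (α z) * G z t := by
      apply sum_le_sum_of_subset_of_nonneg (filter_subset _ _)
      intro t _ _
      apply sum_nonneg
      intro z _
      exact mul_nonneg (zero_le_one.trans (one_le_lf P hPp _)) (hG0 z t)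
    nlinarith
  obtain ⟨t, htG, ht⟩ := exists_le_of_sum_le hGne hsum
  obtain ⟨ht1, ht2⟩ := mem_filter.1 htG
  rw [mem_Icc] at ht1
  refine ⟨t, ht1.1, ?_, ht2, ?_⟩
  · have : (t : ℝ) ≤ T := by exact_mod_cast ht1.2
    linarith
  · calc ∑ z ∈ Z, lf P (α z * (α z * t + β z)) ≤ ∑ z ∈ Z, lf P (α z) * G z t := by
          apply sum_le_sum
          intro z _
          exact lf_mul P hPp (α z) (α z * t + β z)
      _ ≤ 2 * M := ht
      _ = _ := by rw [hM]; ring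

theorem anyZ (D : ℕ) : ∃ c : ℝ, 0 < c ∧ ∀ᶠ X : ℝ in atTop, ∀ (Z : Finset ℤ) (α β : ℤ → ℤ),
    (∀ z ∈ Z, α z ≠ 0) → (∀ z ∈ Z, |(α z : ℝ)| ≤ X ^ D ∧ |(β z : ℝ)| ≤ X ^ D) →
    (∀ k ∈ Z, ∀ l ∈ Z, k ≠ l → α k * β l ≠ α l * β k) →
    ∑ z ∈ Z, wt (α z) ≤ c * (Real.log X * Real.log (Real.log X)) →
    ∀ bad : Finset ℕ, (bad.card : ℝ) ≤ X ^ (9 / 10 : ℝ) →
    ∃ n : ℕ, X < n ∧ (n : ℝ) ≤ 4 * X ∧ n ∉ bad ∧
      ∀ z ∈ Z, ∃ q : ℕ, q.Prime ∧ (q : ℝ) ≤ X ^ (1 / 1000 : ℝ) ∧ (q : ℤ) ∣ α z * n + β z := by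
  obtain ⟨C1, hC1, hgr⟩ := linGreedy
  obtain ⟨c₄, hc₄, heng⟩ := oneR (D + 1)
  set C2 : ℝ := 2 * (Real.exp 4 + Real.exp 2) with hC2
  have hC2p : 0 < C2 := by positivity
  refine ⟨min (c₄ / (C1 * C2)) 1, by positivity, ?_⟩
  filter_upwards [hgr, heng 1 0 squarefree_one, evT] with X hgX hX hev
  intro Z α β hα hle hdet hsum bad hbad
  obtain ⟨P, hP1, hP2, hP3⟩ := hX
  have hev' := hev
  obtain ⟨hL, hA, hAL, hL2, hX16⟩ := hev
  have hX0 : 0 < X := by linarith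
  have hLA : 0 < Real.log X * Real.log (Real.log X) := by
    apply mul_pos <;> linarith
  have hPp : ∀ p ∈ P, p.Prime := fun p hp => (hP1 p hp).1
  have hZc : (Z.card : ℝ) ≤ ∑ z ∈ Z, wt (α z) := by
    calc (Z.card : ℝ) = ∑ _z ∈ Z, (1 : ℝ) := by rw [sum_const, nsmul_eq_mul, mul_one]
      _ ≤ _ := sum_le_sum fun z hz => one_le_wt _ (hα z hz)
  have hZc2 : (Z.card : ℝ) ≤ Real.log X * Real.log (Real.log X) := by
    refine hZc.trans (hsum.trans ?_)
    have := mul_le_mul_of_nonneg_right (min_le_right (c₄ / (C1 * C2)) 1) hLA.le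
    linarith
  obtain ⟨t, ht1, htL, ht0, hts⟩ := good_shift X hev' P hP1 Z α β hα hZc2
  obtain ⟨ρ, hρ1, hρ2⟩ := hgX P hP1 hP2 Z α (fun z => α z * t + β z)
  have hun : ((Z.filter (fun z => ∀ p ∈ P, ¬ (p : ℤ) ∣ α z * ρ p + (α z * t + β z))).card : ℝ) ≤ c₄ * Real.log X := by
    refine hρ2.trans ?_
    have h1 : ∑ z ∈ Z, lf P (α z) ≤ ∑ z ∈ Z, wt (α z) := sum_le_sum fun z hz => lf_le P hPp _ (hα z hz)
    have h2 : ∑ z ∈ Z, lf P (α z * (α z * t + β z)) ≤ C2 * (c₄ / (C1 * C2) * (Real.log X * Real.log (Real.log X))) := by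
      refine hts.trans ?_
      rw [← hC2]
      apply mul_le_mul_of_nonneg_left _ hC2p.le
      refine h1.trans (hsum.trans ?_)
      exact mul_le_mul_of_nonneg_right (min_le_left _ _) hLA.le
    have h3 : 0 < Real.log (Real.log X) := by linarith
    calc C1 / Real.log (Real.log X) * ∑ z ∈ Z, lf P (α z * (α z * t + β z))
        ≤ C1 / Real.log (Real.log X) * (C2 * (c₄ / (C1 * C2) * (Real.log X * Real.log (Real.log X)))) :=
          mul_le_mul_of_nonneg_left h2 (by positivity)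
      _ = c₄ * Real.log X := by field_simp
  obtain ⟨q, hqp, hXq, hq3, hqb, -, -, hall⟩ := hP3 α (fun z => α z * t + β z) 1 one_ne_zero (dvd_refl _)
    (by
      rw [Nat.cast_one]
      exact one_le_pow₀ (by linarith)) 1 (Nat.coprime_one_right _) (bad.image (fun n => n - t))
    (by
      have h1 : ((bad.image (fun n => n - t)).card : ℝ) ≤ bad.card := by exact_mod_cast card_image_le
      linarith) Z (fun z hz => ⟨hα z hz, ht0 z hz⟩)
    (by
      intro z hz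
      obtain ⟨h1, h2⟩ := hle z hz
      have hXD : 1 ≤ X ^ D := one_le_pow₀ (by linarith)
      have ht2 : (t : ℝ) + 1 ≤ X := by linarith
      have hXD1 : X ^ (D + 1) = X ^ D * X := pow_succ X D
      refine ⟨h1.trans ?_, ?_⟩
      · rw [hXD1]
        nlinarith
      · push_cast
        have h3 : |(α z : ℝ) * t + β z| ≤ |(α z : ℝ)| * t + |(β z : ℝ)| := by
          refine (abs_add_le _ _).trans ?_
          rw [abs_mul, Nat.abs_cast]
        have h4 : |(α z : ℝ)| * t ≤ X ^ D * t := mul_le_mul_of_nonneg_right h1 (Nat.cast_nonneg _)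
        rw [hXD1]
        nlinarith)
    (by
      intro k hk l hl hkl h
      apply hdet k hk l hl hkl
      linear_combination h) ρ (fun p hp _ => hρ1 p hp)
    (by
      refine le_trans ?_ hun
      have h1 : (Z.filter (fun z => ∀ p ∈ P, ¬ p ∣ 1 → ¬ (p : ℤ) ∣ α z * ρ p + (α z * t + β z))) ⊆
          (Z.filter (fun z => ∀ p ∈ P, ¬ (p : ℤ) ∣ α z * ρ p + (α z * t + β z))) := by
        intro z hz
        rw [mem_filter] at hz ⊢
        exact ⟨hz.1, fun p hp => hz.2 p hp (fun h => (hPp p hp).one_lt.ne' (Nat.dvd_one.1 h))⟩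
      exact_mod_cast card_le_card h1)
  refine ⟨q + t, ?_, ?_, ?_, ?_⟩
  · push_cast
    have : (0 : ℝ) ≤ t := Nat.cast_nonneg t
    linarith
  · push_cast
    linarith
  · intro hmem
    apply hqb
    rw [mem_image]
    exact ⟨q + t, hmem, by omega⟩
  · intro z hz
    obtain ⟨r, hr1, hr2, -, hr4⟩ := hall z hz
    refine ⟨r, hr1, hr2, ?_⟩
    have : α z * ((q + t : ℕ) : ℤ) + β z = α z * (q : ℤ) + (α z * t + β z) := by
      push_cast
      ring
    rw [this]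
    exact hr4

end Pool.Agent.Q145.MT
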