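import Pool.Agent.Q145.MT.MomPoly

set_option autoImplicit false
set_option maxHeartbeats 4000000

/-! # Moments of `n / φ(n)` over the values of a polynomial -/

namespace Pool.Agent.Q145.MT

open Finset Filter
open Pool.Agent.TH101.RG

open scoped Classical

theorem sum_inv_sq_le (z : ℕ) : ∑ p ∈ Icc 1 z, (1 : ℝ) / (p : ℝ) ^ 2 ≤ 2 := by
  have key : ∀ z : ℕ, 1 ≤ z → ∑ p ∈ Icc 1 z, (1 : ℝ) / (p : ℝ) ^ 2 ≤ 2 - 1 / z := by
    intro z hz
    induction z, hz using Nat.le_induction with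
    | base => norm_num
    | succ z hz ih =>
      rw [sum_Icc_succ_top (by omega)]
      have hz0 : (0 : ℝ) < z := by exact_mod_cast hz
      push_cast
      have h1 : (1 : ℝ) / ((z : ℝ) + 1) ^ 2 ≤ 1 / z - 1 / (z + 1) := by
        rw [div_sub_div _ _ hz0.ne' (by positivity), div_le_div_iff₀ (by positivity) (by positivity)]
        nlinarith
      linarith
  rcases Nat.eq_zero_or_pos z with h | h
  · subst h
    simp
  · have h1 := key z h
    have : (0 : ℝ) ≤ 1 / z := by positivity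
    linarith

theorem sum_inv_le_log (z : ℕ) : ∑ p ∈ Icc 1 z, (1 : ℝ) / (p : ℝ) ≤ 1 + Real.log z := by
  have h := harmonic_le_one_add_log z
  rw [harmonic_eq_sum_Icc] at h
  push_cast at h
  simpa [one_div] using h

theorem prod_one_add_le_exp (s : Finset ℕ) (f : ℕ → ℝ) (hf : ∀ p ∈ s, 0 ≤ f p) :
    ∏ p ∈ s, (1 + f p) ≤ Real.exp (∑ p ∈ s, f p) := by
  rw [Real.exp_sum]
  apply Finset.prod_le_prod
  · intro p hp
    have := hf p hp
    linarith
  · intro p _
    have := Real.add_one_le_exp (f p)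
    linarith

theorem mom_poly (G : Polynomial ℤ) (hG : 0 < G.natDegree) (k E : ℕ) : ∃ C : ℝ, 0 < C ∧ ∃ H₀ : ℕ, 1 ≤ H₀ ∧
    ∀ H : ℕ, H₀ ≤ H → ∀ b : ℤ, |b| ≤ (H : ℤ) ^ E →
    ∑ a ∈ (Icc 1 H).filter (fun a : ℕ => G.eval (a : ℤ) ≠ b),
      (((G.eval (a : ℤ) - b).natAbs : ℝ) / ((G.eval (a : ℤ) - b).natAbs.totient : ℝ)) ^ k ≤ C * H := by
  obtain ⟨CG, hCG⟩ := eval_abs_le G
  set h := G.natDegree with hh
  set ℓc := G.leadingCoeff.natAbs with hℓc
  have hlead : G.leadingCoeff ≠ 0 := by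
    intro h0
    rw [Polynomial.leadingCoeff_eq_zero] at h0
    rw [hh, h0] at hG
    simp at hG
  have hℓ1 : 1 ≤ ℓc := Int.natAbs_pos.2 hlead
  obtain ⟨B, hB⟩ : ∃ B : ℕ, B = 2 ^ (k + 1) := ⟨_, rfl⟩
  have hB0 : 0 < B := by rw [hB]; positivity
  set K1 : ℝ := B * ℓc + B * h with hK1
  -- the size of `H`
  have t1 := Real.tendsto_log_atTop
  have o1 := (Real.isLittleO_pow_log_id_atTop (n := 2 * (B * h))).bound (c := 1 / Real.exp K1) (by positivity)
  have hev : ∀ᶠ H : ℝ in atTop, (Real.log H) ^ (2 * (B * h)) ≤ 1 / Real.exp K1 * H ∧ (CG : ℝ) + 2 ≤ H ∧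
      (E + h + 2 : ℝ) + 4 ≤ Real.log H := by
    filter_upwards [o1, eventually_ge_atTop ((CG : ℝ) + 2), t1.eventually_ge_atTop ((E + h + 2 : ℝ) + 4)]
      with H e1 e2 e3
    refine ⟨?_, e2, e3⟩
    have hC0 : (0 : ℝ) ≤ CG := Nat.cast_nonneg _
    have h5 : (0 : ℝ) ≤ E + h + 2 := by positivity
    have h6 : 0 ≤ (Real.log H) ^ (2 * (B * h)) := pow_nonneg (by linarith) _
    have h7 : 0 ≤ H := by linarith
    rwa [Real.norm_eq_abs, Real.norm_eq_abs, id, abs_of_nonneg h6, abs_of_nonneg h7] at e1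
  obtain ⟨H₁, hH₁⟩ := eventually_atTop.1 (tendsto_natCast_atTop_atTop.eventually hev)
  refine ⟨(Real.exp 2) ^ k * (Real.exp (B * ℓc + B * h * 2) + 1), by positivity, max H₁ 1, le_max_right _ _,
    fun H hH b hb => ?_⟩
  obtain ⟨hlogH, hHC, hHL⟩ := hH₁ H ((le_max_left _ _).trans hH)
  have hH1 : 1 ≤ H := (le_max_right _ _).trans hH
  have hHC' : CG + 2 ≤ H := by exact_mod_cast hHC
  have hH0 : (0 : ℝ) < H := by exact_mod_cast hH1
  have hLpos : 0 ≤ Real.log H := Real.log_nonneg (by exact_mod_cast hH1)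
  obtain ⟨z, hz⟩ : ∃ z : ℕ, z = ⌈(E + h + 2 : ℝ) * Real.log H⌉₊ + 3 := ⟨_, rfl⟩
  have hz3 : 3 ≤ z := by omega
  have hzge : (E + h + 2 : ℝ) * Real.log H ≤ z := by
    rw [hz]
    push_cast
    have := Nat.le_ceil ((E + h + 2 : ℝ) * Real.log H)
    linarith
  have hzle : (z : ℝ) ≤ (Real.log H) ^ 2 := by
    rw [hz]
    push_cast
    have h1 := (Nat.ceil_lt_add_one (by positivity : 0 ≤ (E + h + 2 : ℝ) * Real.log H)).le
    have h2 : (0 : ℝ) ≤ E + h + 2 := by positivity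
    nlinarith
  -- the size of the values
  have hsize : ∀ a ∈ (Icc 1 H).filter (fun a : ℕ => G.eval (a : ℤ) ≠ b),
      (G.eval (a : ℤ) - b).natAbs ≠ 0 ∧ Real.log ((G.eval (a : ℤ) - b).natAbs : ℝ) ≤ z := by
    intro a ha
    rw [mem_filter, mem_Icc] at ha
    have hne : (G.eval (a : ℤ) - b).natAbs ≠ 0 := Int.natAbs_ne_zero.2 (sub_ne_zero.2 ha.2)
    refine ⟨hne, le_trans ?_ hzge⟩
    have h1 := hCG H a hH1 (by
      rw [abs_of_nonneg (Int.natCast_nonneg a)]
      exact_mod_cast ha.1.2)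
    have hHZ : (CG : ℤ) + 2 ≤ H := by exact_mod_cast hHC'
    have hHZ1 : (1 : ℤ) ≤ H := by exact_mod_cast hH1
    have h2 : ((G.eval (a : ℤ) - b).natAbs : ℤ) ≤ (H : ℤ) ^ (E + h + 2) := by
      rw [Int.natCast_natAbs]
      have e1 : (H : ℤ) ^ h ≤ (H : ℤ) ^ (E + h) := pow_le_pow_right₀ hHZ1 (by omega)
      have e2 : (H : ℤ) ^ E ≤ (H : ℤ) ^ (E + h) := pow_le_pow_right₀ hHZ1 (by omega)
      have e3 : (1 : ℤ) ≤ (H : ℤ) ^ (E + h) := one_le_pow₀ hHZ1
      have hC0 : (0 : ℤ) ≤ CG := Int.natCast_nonneg _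
      calc |G.eval (a : ℤ) - b| ≤ |G.eval (a : ℤ)| + |b| := abs_sub _ _
        _ ≤ CG * (H : ℤ) ^ h + (H : ℤ) ^ E := add_le_add h1 hb
        _ ≤ CG * (H : ℤ) ^ (E + h) + (H : ℤ) ^ (E + h) := add_le_add (mul_le_mul_of_nonneg_left e1 hC0) e2
        _ = (CG + 1) * (H : ℤ) ^ (E + h) := by ring
        _ ≤ (H : ℤ) ^ 2 * (H : ℤ) ^ (E + h) := by
          apply mul_le_mul_of_nonneg_right _ (by positivity)
          nlinarith
        _ = (H : ℤ) ^ (E + h + 2) := by ring
    have h3 : ((G.eval (a : ℤ) - b).natAbs : ℝ) ≤ (H : ℝ) ^ (E + h + 2) := by exact_mod_cast h2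
    have h4 : (0 : ℝ) < ((G.eval (a : ℤ) - b).natAbs : ℝ) := by
      exact_mod_cast Nat.pos_of_ne_zero hne
    calc Real.log ((G.eval (a : ℤ) - b).natAbs : ℝ) ≤ Real.log ((H : ℝ) ^ (E + h + 2)) := Real.log_le_log h4 h3
      _ = (E + h + 2 : ℝ) * Real.log H := by
        rw [Real.log_pow]
        push_cast
        ring
  set Q : Finset ℕ := (Icc 1 z).filter Nat.Prime with hQ
  have hQp : ∀ p ∈ Q, p.Prime := fun p hp => (mem_filter.1 hp).2
  set r : ℕ → ℕ := fun p => if (p : ℤ) ∣ G.leadingCoeff then p else h with hr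
  have hroots : ∀ p ∈ Q, ((range p).filter (fun x : ℕ => (p : ℤ) ∣ (G - Polynomial.C b).eval (x : ℤ))).card ≤ r p := by
    intro p hp
    simp only [hr]
    split_ifs with h1
    · exact (card_filter_le _ _).trans (by simp)
    · exact card_roots_mod G hG b p (hQp p hp) h1
  set w : ℕ → ℝ := fun a => ((G.eval (a : ℤ) - b).natAbs : ℝ) / ((G.eval (a : ℤ) - b).natAbs.totient : ℝ) with hw
  -- expansion
  have hgk0 : ∀ S ∈ Q.powerset, 0 ≤ ∏ p ∈ S, gk k p := fun S hS =>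
    prod_nonneg fun p hp => (gk_bounds k p (hQp p (mem_powerset.1 hS hp))).1
  have s1 : ∑ a ∈ (Icc 1 H).filter (fun a : ℕ => G.eval (a : ℤ) ≠ b), w a ^ k ≤
      ∑ a ∈ (Icc 1 H).filter (fun a : ℕ => G.eval (a : ℤ) ≠ b), (Real.exp 2) ^ k *
        ∑ S ∈ Q.powerset, (if ∀ p ∈ S, p ∣ (G.eval (a : ℤ) - b).natAbs then ∏ p ∈ S, gk k p else 0) := by
    apply sum_le_sum
    intro a ha
    obtain ⟨e1, e2⟩ := hsize a ha
    rw [← pow_expand, ← mul_pow]
    exact pow_le_pow_left₀ (by positivity) (ratio_small z _ hz3 e1 e2) k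
  have s2 : ∑ a ∈ (Icc 1 H).filter (fun a : ℕ => G.eval (a : ℤ) ≠ b),
      ∑ S ∈ Q.powerset, (if ∀ p ∈ S, p ∣ (G.eval (a : ℤ) - b).natAbs then ∏ p ∈ S, gk k p else 0) ≤
      ∑ S ∈ Q.powerset, (∏ p ∈ S, gk k p) * ((∏ p ∈ S, (r p : ℝ)) * ((H : ℝ) / (∏ p ∈ S, (p : ℝ)) + 1)) := by
    rw [sum_comm]
    apply sum_le_sum
    intro S hS
    rw [← sum_filter, sum_const, nsmul_eq_mul, mul_comm]
    apply mul_le_mul_of_nonneg_left _ (hgk0 S hS)
    refine le_trans ?_ (card_cls (G - Polynomial.C b) r S (fun p hp => hQp p (mem_powerset.1 hS hp))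
      (fun p hp => hroots p (mem_powerset.1 hS hp)) H)
    norm_cast
    apply card_le_card
    intro a ha
    rw [mem_filter, mem_filter] at ha
    rw [mem_filter]
    refine ⟨ha.1.1, fun p hp => ?_⟩
    rw [Polynomial.eval_sub, Polynomial.eval_C]
    exact Int.natCast_dvd.2 (ha.2 p hp)
  have s3 : ∑ S ∈ Q.powerset, (∏ p ∈ S, gk k p) * ((∏ p ∈ S, (r p : ℝ)) * ((H : ℝ) / (∏ p ∈ S, (p : ℝ)) + 1)) =
      H * ∏ p ∈ Q, (1 + gk k p * r p / p) + ∏ p ∈ Q, (1 + gk k p * r p) := by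
    rw [prod_one_add, prod_one_add, mul_sum, ← sum_add_distrib]
    apply sum_congr rfl
    intro S _
    rw [prod_div_distrib, prod_mul_distrib]
    ring
  have hBr : (B : ℝ) = 2 ^ (k + 1) := by rw [hB]; push_cast; rfl
  have hcardℓ : ∑ p ∈ Q, (if (p : ℤ) ∣ G.leadingCoeff then (B : ℝ) else 0) ≤ B * ℓc := by
    rw [← sum_filter, sum_const, nsmul_eq_mul, mul_comm]
    apply mul_le_mul_of_nonneg_left _ (Nat.cast_nonneg _)
    have : (Q.filter (fun p : ℕ => (p : ℤ) ∣ G.leadingCoeff)).card ≤ (Icc 1 ℓc).card := by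
      apply card_le_card
      intro p hp
      rw [mem_filter] at hp
      rw [mem_Icc]
      exact ⟨(hQp p hp.1).one_le, Nat.le_of_dvd hℓ1 (Int.natCast_dvd.1 hp.2)⟩
    rw [Nat.card_Icc, Nat.add_sub_cancel] at this
    exact_mod_cast this
  have hQsub : Q ⊆ Icc 1 z := filter_subset _ _
  have b1 : ∏ p ∈ Q, (1 + gk k p * r p / p) ≤ Real.exp (B * ℓc + B * h * 2) := by
    refine (prod_one_add_le_exp Q _ (fun p hp => by
      have := (gk_bounds k p (hQp p hp)).1
      positivity)).trans (Real.exp_le_exp.2 ?_)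
    calc ∑ p ∈ Q, gk k p * r p / p ≤ ∑ p ∈ Q, ((if (p : ℤ) ∣ G.leadingCoeff then (B : ℝ) else 0) + B * h * (1 / (p : ℝ) ^ 2)) := by
          apply sum_le_sum
          intro p hp
          obtain ⟨g1, g2⟩ := gk_bounds k p (hQp p hp)
          rw [← hBr] at g2
          have hp1 : (1 : ℝ) ≤ p := by exact_mod_cast (hQp p hp).one_le
          have hp0 : (0 : ℝ) < p := by linarith
          simp only [hr]
          split_ifs with h1
          · have e1 : gk k p * p / p = gk k p := by field_simp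
            rw [e1]
            have e2 : (B : ℝ) / p ≤ B := div_le_self (Nat.cast_nonneg _) hp1
            have e3 : 0 ≤ (B : ℝ) * h * (1 / (p : ℝ) ^ 2) := by positivity
            linarith
          · rw [zero_add]
            calc gk k p * h / p ≤ (B / p) * h / p := by gcongr
              _ = B * h * (1 / (p : ℝ) ^ 2) := by field_simp
      _ = ∑ p ∈ Q, (if (p : ℤ) ∣ G.leadingCoeff then (B : ℝ) else 0) + B * h * ∑ p ∈ Q, (1 / (p : ℝ) ^ 2) := by
          rw [sum_add_distrib, mul_sum]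
      _ ≤ B * ℓc + B * h * 2 := by
          apply add_le_add hcardℓ
          apply mul_le_mul_of_nonneg_left _ (by positivity)
          exact (sum_le_sum_of_subset_of_nonneg hQsub (fun i _ _ => by positivity)).trans (sum_inv_sq_le z)
  have b2 : ∏ p ∈ Q, (1 + gk k p * r p) ≤ H := by
    have e0 : ∏ p ∈ Q, (1 + gk k p * r p) ≤ Real.exp (B * ℓc + B * h * (1 + Real.log z)) := by
      refine (prod_one_add_le_exp Q _ (fun p hp => by
        have := (gk_bounds k p (hQp p hp)).1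
        positivity)).trans (Real.exp_le_exp.2 ?_)
      calc ∑ p ∈ Q, gk k p * r p ≤ ∑ p ∈ Q, ((if (p : ℤ) ∣ G.leadingCoeff then (B : ℝ) else 0) + B * h * (1 / (p : ℝ))) := by
            apply sum_le_sum
            intro p hp
            obtain ⟨g1, g2⟩ := gk_bounds k p (hQp p hp)
            rw [← hBr] at g2
            have hp1 : (1 : ℝ) ≤ p := by exact_mod_cast (hQp p hp).one_le
            have hp0 : (0 : ℝ) < p := by linarith
            simp only [hr]
            split_ifs with h1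
            · have e3 : 0 ≤ (B : ℝ) * h * (1 / (p : ℝ)) := by positivity
              have e4 : gk k p * p ≤ B := by
                rw [le_div_iff₀ hp0] at g2
                exact g2
              linarith
            · rw [zero_add]
              calc gk k p * h ≤ (B / p) * h := by gcongr
                _ = B * h * (1 / (p : ℝ)) := by field_simp
        _ = ∑ p ∈ Q, (if (p : ℤ) ∣ G.leadingCoeff then (B : ℝ) else 0) + B * h * ∑ p ∈ Q, (1 / (p : ℝ)) := by
            rw [sum_add_distrib, mul_sum]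
        _ ≤ B * ℓc + B * h * (1 + Real.log z) := by
            apply add_le_add hcardℓ
            apply mul_le_mul_of_nonneg_left _ (by positivity)
            exact (sum_le_sum_of_subset_of_nonneg hQsub (fun i _ _ => by positivity)).trans (sum_inv_le_log z)
    have hz0 : (0 : ℝ) < z := by
      have : (3 : ℝ) ≤ z := by exact_mod_cast hz3
      linarith
    have e1 : Real.exp (B * ℓc + B * h * (1 + Real.log z)) = Real.exp K1 * (z : ℝ) ^ (B * h) := by
      have : (z : ℝ) ^ (B * h) = Real.exp (B * h * Real.log z) := by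
        rw [← Real.exp_log (pow_pos hz0 _), Real.log_pow]
        push_cast
        rfl
      rw [this, ← Real.exp_add, hK1]
      congr 1
      ring
    have e2 : (z : ℝ) ^ (B * h) ≤ (Real.log H) ^ (2 * (B * h)) := by
      rw [pow_mul (Real.log H)]
      exact pow_le_pow_left₀ hz0.le hzle _
    calc ∏ p ∈ Q, (1 + gk k p * r p) ≤ Real.exp K1 * (z : ℝ) ^ (B * h) := e0.trans (le_of_eq e1)
      _ ≤ Real.exp K1 * (1 / Real.exp K1 * H) :=
        mul_le_mul_of_nonneg_left (e2.trans hlogH) (Real.exp_pos _).le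
      _ = H := by field_simp
  have hfin : ∑ a ∈ (Icc 1 H).filter (fun a : ℕ => G.eval (a : ℤ) ≠ b), w a ^ k ≤
      (Real.exp 2) ^ k * (Real.exp (B * ℓc + B * h * 2) + 1) * H := by
    refine s1.trans ?_
    rw [← mul_sum]
    calc (Real.exp 2) ^ k * ∑ a ∈ (Icc 1 H).filter (fun a : ℕ => G.eval (a : ℤ) ≠ b),
          ∑ S ∈ Q.powerset, (if ∀ p ∈ S, p ∣ (G.eval (a : ℤ) - b).natAbs then ∏ p ∈ S, gk k p else 0)
        ≤ (Real.exp 2) ^ k * (H * ∏ p ∈ Q, (1 + gk k p * r p / p) + ∏ p ∈ Q, (1 + gk k p * r p)) :=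
          mul_le_mul_of_nonneg_left (s2.trans (le_of_eq s3)) (by positivity)
      _ ≤ (Real.exp 2) ^ k * (H * Real.exp (B * ℓc + B * h * 2) + H) := by gcongr
      _ = _ := by ring
  exact hfin

end Pool.Agent.Q145.MT
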