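import Pool.Agent.Q145.MT.ProdR
import Pool.Agent.Q145.MT.MomPoly2

set_option autoImplicit false
set_option maxHeartbeats 4000000

/-! # Averages of local factors of a linear form over a short interval -/

namespace Pool.Agent.Q145.MT

open Finset Filter
open Pool.Agent.H378R2
open Pool.Agent.H318R2.Cr (cz_bounds Pz one_sub_inv_pos)
open Pool.Agent.TH101.RG

open scoped Classical

/-- at most one class modulo `p` is a zero of a linear form -/
theorem lin_root (α β : ℤ) (p : ℕ) (hp : p.Prime) (hα : ¬ (p : ℤ) ∣ α) (x y : ℕ) (hx : x < p) (hy : y < p)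
    (h1 : (p : ℤ) ∣ α * x + β) (h2 : (p : ℤ) ∣ α * y + β) : x = y := by
  have h3 : (p : ℤ) ∣ α * ((x : ℤ) - y) := by
    have := dvd_sub h1 h2
    have h4 : α * (x : ℤ) + β - (α * (y : ℤ) + β) = α * ((x : ℤ) - y) := by ring
    rwa [h4] at this
  have h4 : (p : ℤ) ∣ (x : ℤ) - y := ((Nat.prime_iff_prime_int.1 hp).dvd_or_dvd h3).resolve_left hα
  have h5 : (x : ℤ) - y = 0 := by
    apply Int.eq_zero_of_abs_lt_dvd h4
    rw [abs_lt]
    omega
  omega

theorem card_lin (α β : ℤ) (S : Finset ℕ) (hS : ∀ p ∈ S, p.Prime) (hα : ∀ p ∈ S, ¬ (p : ℤ) ∣ α) (T : ℕ) :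
    (((Icc 1 T).filter (fun t : ℕ => ∀ p ∈ S, (p : ℤ) ∣ α * t + β)).card : ℝ) ≤
      (T : ℝ) / (∏ p ∈ S, (p : ℝ)) + 1 := by
  have hev : ∀ x : ℤ, (Polynomial.C α * Polynomial.X + Polynomial.C β).eval x = α * x + β := by
    intro x
    simp
  have h := card_cls (Polynomial.C α * Polynomial.X + Polynomial.C β) (fun _ => 1) S hS (by
    intro p hp
    rw [card_le_one]
    intro x hx y hy
    rw [mem_filter, mem_range, hev] at hx hy
    exact lin_root α β p (hS p hp) (hα p hp) x y hx.1 hy.1 hx.2 hy.2) T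
  simp only [hev, Nat.cast_one, prod_const_one, one_mul] at h
  exact h

theorem sum_factor (Q : Finset ℕ) (f : ℕ → ℝ) (A : ℕ → Prop) [DecidablePred A] :
    ∏ p ∈ Q, (if A p then 1 + f p else 1) = ∑ S ∈ Q.powerset, (if ∀ p ∈ S, A p then ∏ p ∈ S, f p else 0) := by
  have h1 : ∏ p ∈ Q, (if A p then 1 + f p else 1) = ∏ p ∈ Q, (1 + (if A p then f p else 0)) := by
    apply prod_congr rfl
    intro p _
    split_ifs <;> simp
  rw [h1, prod_one_add]
  apply sum_congr rfl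
  intro S _
  split_ifs with h
  · apply prod_congr rfl
    intro p hp
    rw [if_pos (h p hp)]
  · push Not at h
    obtain ⟨p, hp, hA⟩ := h
    apply prod_eq_zero hp
    rw [if_neg hA]

theorem avg_lin (α β : ℤ) (Q : Finset ℕ) (hQ : ∀ p ∈ Q, p.Prime) (hα : ∀ p ∈ Q, ¬ (p : ℤ) ∣ α) (y : ℕ)
    (hy0 : 1 ≤ y) (hy : ∀ p ∈ Q, p ≤ y) (T : ℕ) :
    ∑ t ∈ Icc 1 T, ∏ p ∈ Q, (if (p : ℤ) ∣ α * (t : ℤ) + β then (1 - 1 / (p : ℝ))⁻¹ else 1) ≤
      Real.exp 4 * T + Real.exp 2 * (y : ℝ) ^ 2 := by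
  have hp2 : ∀ p ∈ Q, (2 : ℝ) ≤ p := fun p hp => by exact_mod_cast (hQ p hp).two_le
  have hinv : ∀ p ∈ Q, (1 - 1 / (p : ℝ))⁻¹ = 1 + 1 / ((p : ℝ) - 1) := by
    intro p hp
    have h1 := hp2 p hp
    have h2 : (p : ℝ) - 1 ≠ 0 := by linarith
    have h3 : (p : ℝ) ≠ 0 := by linarith
    rw [show (1 : ℝ) - 1 / p = (p - 1) / p by field_simp, inv_div]
    field_simp
    ring
  have h1 : ∀ t ∈ Icc 1 T, ∏ p ∈ Q, (if (p : ℤ) ∣ α * (t : ℤ) + β then (1 - 1 / (p : ℝ))⁻¹ else 1) =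
      ∑ S ∈ Q.powerset, (if ∀ p ∈ S, (p : ℤ) ∣ α * (t : ℤ) + β then ∏ p ∈ S, (1 / ((p : ℝ) - 1)) else 0) := by
    intro t _
    rw [← sum_factor Q (fun p => 1 / ((p : ℝ) - 1)) (fun p => (p : ℤ) ∣ α * (t : ℤ) + β)]
    apply prod_congr rfl
    intro p hp
    rw [hinv p hp]
  rw [sum_congr rfl h1, sum_comm]
  have h2 : ∀ S ∈ Q.powerset, ∑ t ∈ Icc 1 T, (if ∀ p ∈ S, (p : ℤ) ∣ α * (t : ℤ) + β then
      ∏ p ∈ S, (1 / ((p : ℝ) - 1)) else 0) ≤
      T * ∏ p ∈ S, (1 / (((p : ℝ) - 1) * p)) + ∏ p ∈ S, (1 / ((p : ℝ) - 1)) := by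
    intro S hS
    rw [mem_powerset] at hS
    rw [← sum_filter, sum_const, nsmul_eq_mul]
    have h3 := card_lin α β S (fun p hp => hQ p (hS hp)) (fun p hp => hα p (hS hp)) T
    have h4 : 0 ≤ ∏ p ∈ S, (1 / ((p : ℝ) - 1)) := by
      apply prod_nonneg
      intro p hp
      have := hp2 p (hS hp)
      apply div_nonneg zero_le_one
      linarith
    refine (mul_le_mul_of_nonneg_right h3 h4).trans (le_of_eq ?_)
    have h5 : ∏ p ∈ S, (1 / (((p : ℝ) - 1) * p)) = (∏ p ∈ S, (1 / ((p : ℝ) - 1))) / ∏ p ∈ S, (p : ℝ) := by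
      rw [← prod_div_distrib]
      apply prod_congr rfl
      intro p hp
      rw [div_div]
    rw [h5]
    ring
  refine (sum_le_sum h2).trans ?_
  rw [sum_add_distrib, ← mul_sum, ← prod_one_add, ← prod_one_add]
  have h3 : ∏ p ∈ Q, (1 + 1 / (((p : ℝ) - 1) * p)) ≤ Real.exp 4 := by
    refine (prod_one_add_le_exp Q _ (fun p hp => ?_)).trans ?_
    · have := hp2 p hp
      apply div_nonneg zero_le_one
      nlinarith
    · apply Real.exp_le_exp.2
      calc ∑ p ∈ Q, 1 / (((p : ℝ) - 1) * p) ≤ ∑ p ∈ Q, 2 * (1 / (p : ℝ) ^ 2) := by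
            apply sum_le_sum
            intro p hp
            have h5 := hp2 p hp
            rw [← mul_div_assoc, div_le_div_iff₀ (by nlinarith) (by positivity)]
            nlinarith
        _ ≤ ∑ p ∈ Icc 1 y, 2 * (1 / (p : ℝ) ^ 2) := by
            apply sum_le_sum_of_subset_of_nonneg
            · intro p hp
              rw [mem_Icc]
              exact ⟨(hQ p hp).one_le, hy p hp⟩
            · intro p _ _
              positivity
        _ = 2 * ∑ p ∈ Icc 1 y, 1 / (p : ℝ) ^ 2 := by rw [mul_sum]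
        _ ≤ 2 * 2 := by
            have := sum_inv_sq_le y
            linarith
        _ = 4 := by norm_num
  have h4 : ∏ p ∈ Q, (1 + 1 / ((p : ℝ) - 1)) ≤ Real.exp 2 * (y : ℝ) ^ 2 := by
    refine (prod_one_add_le_exp Q _ (fun p hp => ?_)).trans ?_
    · have := hp2 p hp
      apply div_nonneg zero_le_one
      linarith
    · have hy0' : (0 : ℝ) < y := by exact_mod_cast hy0
      have h5 : ∑ p ∈ Q, 1 / ((p : ℝ) - 1) ≤ 2 * (1 + Real.log y) := by
        calc ∑ p ∈ Q, 1 / ((p : ℝ) - 1) ≤ ∑ p ∈ Q, 2 * (1 / (p : ℝ)) := by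
              apply sum_le_sum
              intro p hp
              have h5 := hp2 p hp
              rw [← mul_div_assoc, div_le_div_iff₀ (by linarith) (by linarith)]
              linarith
          _ ≤ ∑ p ∈ Icc 1 y, 2 * (1 / (p : ℝ)) := by
              apply sum_le_sum_of_subset_of_nonneg
              · intro p hp
                rw [mem_Icc]
                exact ⟨(hQ p hp).one_le, hy p hp⟩
              · intro p _ _
                positivity
          _ = 2 * ∑ p ∈ Icc 1 y, 1 / (p : ℝ) := by rw [mul_sum]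
          _ ≤ 2 * (1 + Real.log y) := by
              have := sum_inv_le_log y
              linarith
      calc Real.exp (∑ p ∈ Q, 1 / ((p : ℝ) - 1)) ≤ Real.exp (2 * (1 + Real.log y)) := Real.exp_le_exp.2 h5
        _ = Real.exp 2 * (y : ℝ) ^ 2 := by
            rw [mul_add, mul_one, Real.exp_add, mul_comm 2 (Real.log y), Real.exp_mul, Real.exp_log hy0']
            norm_cast
  have hT : (0 : ℝ) ≤ T := Nat.cast_nonneg T
  nlinarith [mul_le_mul_of_nonneg_left h3 hT]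

end Pool.Agent.Q145.MT
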