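import Pool.Agent.H295R3.Hoheisel

set_option autoImplicit false
set_option maxHeartbeats 4000000

/-! # Few shifts catch a prime everywhere -/

namespace Pool.Agent.Q145.MT

open Finset Filter

open scoped Classical

theorem greedy_cover (U S : Finset ℕ) (hS : S.Nonempty) (R : ℕ → ℕ → Prop) [∀ n a, Decidable (R n a)] (δ : ℝ) (hδ1 : δ ≤ 1)
    (h : ∀ n ∈ U, δ * S.card ≤ ((S.filter (fun a => R n a)).card : ℝ)) :
    ∀ k : ℕ, ∃ A : Finset ℕ, A ⊆ S ∧ A.card ≤ k ∧
      ((U.filter (fun n => ∀ a ∈ A, ¬ R n a)).card : ℝ) ≤ (1 - δ) ^ k * U.card := by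
  intro k
  induction k with
  | zero => exact ⟨∅, by simp, by simp, by simp⟩
  | succ k ih =>
    obtain ⟨A, hA1, hA2, hA3⟩ := ih
    set V := U.filter (fun n => ∀ a ∈ A, ¬ R n a) with hV
    have hsum : ∑ _a ∈ S, δ * (V.card : ℝ) ≤ ∑ a ∈ S, ((V.filter (fun n => R n a)).card : ℝ) := by
      have h1 : ∑ a ∈ S, ((V.filter (fun n => R n a)).card : ℝ) = ∑ n ∈ V, ((S.filter (fun a => R n a)).card : ℝ) := by
        simp_rw [card_filter]
        push_cast
        rw [sum_comm]
      rw [h1, sum_const, nsmul_eq_mul]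
      calc (S.card : ℝ) * (δ * V.card) = ∑ _n ∈ V, δ * (S.card : ℝ) := by
            rw [sum_const, nsmul_eq_mul]
            ring
        _ ≤ _ := sum_le_sum fun n hn => h n (mem_filter.1 hn).1
    obtain ⟨a, ha, hle⟩ := exists_le_of_sum_le hS hsum
    refine ⟨insert a A, insert_subset ha hA1, (card_insert_le _ _).trans (by omega), ?_⟩
    have h2 : (U.filter (fun n => ∀ b ∈ insert a A, ¬ R n b)) = V.filter (fun n => ¬ R n a) := by
      ext n
      rw [mem_filter, mem_filter, hV, mem_filter]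
      constructor
      · rintro ⟨h3, h4⟩
        exact ⟨⟨h3, fun b hb => h4 b (mem_insert_of_mem hb)⟩, h4 a (mem_insert_self _ _)⟩
      · rintro ⟨⟨h3, h4⟩, h5⟩
        refine ⟨h3, fun b hb => ?_⟩
        rcases mem_insert.1 hb with h6 | h6
        · rw [h6]
          exact h5
        · exact h4 b h6
    rw [h2]
    have h3 : ((V.filter (fun n => R n a)).card : ℝ) + ((V.filter (fun n => ¬ R n a)).card : ℝ) = V.card := by
      have := card_filter_add_card_filter_not (s := V) (fun n => R n a)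
      exact_mod_cast this
    have h4 : ((V.filter (fun n => ¬ R n a)).card : ℝ) ≤ (1 - δ) * V.card := by linarith
    calc ((V.filter (fun n => ¬ R n a)).card : ℝ) ≤ (1 - δ) * V.card := h4
      _ ≤ (1 - δ) * ((1 - δ) ^ k * U.card) := mul_le_mul_of_nonneg_left hA3 (by linarith)
      _ = _ := by ring

theorem catch_primes : ∃ θ : ℝ, 0 < θ ∧ θ < 1 ∧ ∃ C : ℝ, 0 < C ∧ ∀ᶠ X : ℝ in atTop, ∀ Y : ℝ, X ^ θ ≤ Y → Y ≤ X →
    ∃ A : Finset ℕ, (∀ a ∈ A, 1 ≤ a ∧ (a : ℝ) ≤ Y) ∧ (A.card : ℝ) ≤ C * (Real.log X) ^ 2 ∧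
      ∀ n : ℕ, (n : ℝ) ≤ 4 * X → ∃ a ∈ A, (n + a).Prime := by
  obtain ⟨δ, η', hδ0, hδ1, hη', X₀, hX₀, hH⟩ := Pool.Agent.H295R3.D.hoheisel
  set η : ℝ := min η' 1 with hη
  have hη0 : 0 < η := lt_min hη' one_pos
  have hη1 : η ≤ 1 := min_le_right _ _
  refine ⟨1 - δ / 2, by linarith, by linarith, 16 / η + 2, by positivity, ?_⟩
  have hθ0 : 0 < 1 - δ / 2 := by linarith
  have e1 := (tendsto_rpow_atTop (y := δ / 2) (by linarith)).eventually_ge_atTop (40 : ℝ)
  have e2 := (tendsto_rpow_atTop hθ0).eventually_ge_atTop (4 * (X₀ : ℝ) + 8)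
  filter_upwards [e1, e2, eventually_ge_atTop 16, Real.tendsto_log_atTop.eventually_ge_atTop 4] with X hX1 hX2 hX16 hL
  intro Y hXY hYX
  have hX0 : 0 < X := by linarith
  set N : ℕ := ⌊Y⌋₊ with hN
  set H : ℕ := ⌊Y / 2⌋₊ with hHd
  have hY8 : 4 * (X₀ : ℝ) + 8 ≤ Y := hX2.trans hXY
  have hX₀0 : (0 : ℝ) ≤ X₀ := Nat.cast_nonneg _
  have hY0 : 0 < Y := by linarith
  have hN1 : (N : ℝ) ≤ Y := Nat.floor_le hY0.le
  have hN2 : Y < N + 1 := Nat.lt_floor_add_one _
  have hH1 : (H : ℝ) ≤ Y / 2 := Nat.floor_le (by linarith)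
  have hH2 : Y / 2 < H + 1 := Nat.lt_floor_add_one _
  have hHX : X₀ ≤ H := by
    have : (X₀ : ℝ) ≤ H := by linarith
    exact_mod_cast this
  have hSne : (Icc 1 N).Nonempty := ⟨1, mem_Icc.2 ⟨le_rfl, by
    have : (1 : ℝ) ≤ N := by linarith
    exact_mod_cast this⟩⟩
  have hpow : (5 * X) ^ (1 - δ) ≤ Y / 4 := by
    have h1 : (5 * X) ^ (1 - δ) ≤ 5 * X ^ (1 - δ) := by
      rw [Real.mul_rpow (by norm_num) hX0.le]
      apply mul_le_mul_of_nonneg_right _ (by positivity)
      calc (5 : ℝ) ^ (1 - δ) ≤ (5 : ℝ) ^ (1 : ℝ) := Real.rpow_le_rpow_of_exponent_le (by norm_num) (by linarith)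
        _ = 5 := by norm_num
    have h2 : X ^ (1 - δ) * X ^ (δ / 2) = X ^ (1 - δ / 2) := by
      rw [← Real.rpow_add hX0]
      congr 1
      ring
    have h3 : 0 < X ^ (1 - δ) := by positivity
    nlinarith
  -- the number of the shifts which catch a prime
  have hmany : ∀ n ∈ range (⌊4 * X⌋₊ + 1), η / (8 * Real.log X) * ((Icc 1 N).card : ℝ) ≤
      (((Icc 1 N).filter (fun a => (n + a).Prime)).card : ℝ) := by
    intro n hn
    rw [mem_range] at hn
    have hn4 : (n : ℝ) ≤ 4 * X := (Nat.le_floor_iff (by linarith)).1 (by omega)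
    set M : ℕ := max n H with hM
    have hMX : (M : ℝ) ≤ 4 * X := by
      rw [hM, Nat.cast_max]
      apply max_le hn4
      linarith
    have hMH : (H : ℝ) ≤ M := by exact_mod_cast le_max_right _ _
    have hM1 : X₀ ≤ M := hHX.trans (le_max_right _ _)
    have hM0 : (1 : ℝ) < M := by linarith
    have h1 := hH M H hM1 (by
      calc (M : ℝ) ^ (1 - δ) ≤ (5 * X) ^ (1 - δ) := by
            apply Real.rpow_le_rpow (Nat.cast_nonneg _) (by linarith) (by linarith)
        _ ≤ Y / 4 := hpow
        _ ≤ H := by linarith) (le_max_right _ _)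
    have h2 : ((Ioc M (M + H)).filter Nat.Prime).card ≤ ((Icc 1 N).filter (fun a => (n + a).Prime)).card := by
      apply card_le_card_of_injOn (fun q => q - n)
      · intro q hq
        have hq' := mem_filter.1 hq
        rw [mem_Ioc] at hq'
        obtain ⟨⟨q1, q2⟩, q3⟩ := hq'
        have hnM : n ≤ M := le_max_left _ _
        show q - n ∈ ((Icc 1 N).filter (fun a => (n + a).Prime) : Finset ℕ)
        rw [mem_filter, mem_Icc]
        have hHN : H + H ≤ N := by
          rw [hN]
          apply Nat.le_floor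
          push_cast
          linarith
        refine ⟨⟨by omega, ?_⟩, ?_⟩
        · rcases le_or_gt H n with h5 | h5
          · have : M = n := max_eq_left h5
            omega
          · have : M = H := max_eq_right h5.le
            omega
        · rw [show n + (q - n) = q by omega]
          exact q3
      · intro a ha b hb hab
        have ha' := mem_filter.1 ha
        have hb' := mem_filter.1 hb
        rw [mem_Ioc] at ha' hb'
        have hnM : n ≤ M := le_max_left _ _
        have : a - n = b - n := hab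
        omega
    have h3 : ((Icc 1 N).card : ℝ) ≤ 4 * H := by
      rw [Nat.card_Icc, Nat.add_sub_cancel]
      linarith
    have hlogM : Real.log M ≤ 2 * Real.log X := by
      calc Real.log M ≤ Real.log (X ^ 2) := by
            apply Real.log_le_log (by linarith)
            nlinarith
        _ = 2 * Real.log X := by
            rw [Real.log_pow]
            norm_num
    have hlogM0 : 0 < Real.log M := Real.log_pos hM0
    have h4 : η / (8 * Real.log X) * ((Icc 1 N).card : ℝ) ≤ η' * H / Real.log M := by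
      have hL0 : 0 < Real.log X := by linarith
      have hH0 : (0 : ℝ) ≤ H := Nat.cast_nonneg _
      calc η / (8 * Real.log X) * ((Icc 1 N).card : ℝ) ≤ η / (8 * Real.log X) * (4 * H) :=
            mul_le_mul_of_nonneg_left h3 (by positivity)
        _ = η * H / (2 * Real.log X) := by
            field_simp
            ring
        _ ≤ η' * H / (2 * Real.log X) := by
            apply div_le_div_of_nonneg_right _ (by positivity)
            exact mul_le_mul_of_nonneg_right (min_le_left _ _) hH0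
        _ ≤ η' * H / Real.log M := div_le_div_of_nonneg_left (by positivity) hlogM0 hlogM
    refine h4.trans (h1.trans ?_)
    exact_mod_cast h2
  have hL0 : 0 < Real.log X := by linarith
  have hδs : η / (8 * Real.log X) ≤ 1 := by
    rw [div_le_one (by positivity)]
    linarith
  set k : ℕ := ⌊16 / η * (Real.log X) ^ 2⌋₊ + 1 with hk
  obtain ⟨A, hA1, hA2, hA3⟩ := greedy_cover (range (⌊4 * X⌋₊ + 1)) (Icc 1 N) hSne (fun n a => (n + a).Prime)
    (η / (8 * Real.log X)) hδs hmany k
  have hk1 : 16 / η * (Real.log X) ^ 2 < k := by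
    rw [hk]
    push_cast
    exact Nat.lt_floor_add_one _
  have hk2 : (k : ℝ) ≤ 16 / η * (Real.log X) ^ 2 + 1 := by
    rw [hk]
    push_cast
    have := Nat.floor_le (show 0 ≤ 16 / η * (Real.log X) ^ 2 by positivity)
    linarith
  have hlt : (1 - η / (8 * Real.log X)) ^ k * ((range (⌊4 * X⌋₊ + 1)).card : ℝ) < 1 := by
    have h1 : (1 - η / (8 * Real.log X)) ≤ Real.exp (-(η / (8 * Real.log X))) := by
      have := Real.add_one_le_exp (-(η / (8 * Real.log X)))
      linarith
    have h2 : (1 - η / (8 * Real.log X)) ^ k ≤ Real.exp (-(η / (8 * Real.log X))) ^ k :=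
      pow_le_pow_left₀ (by linarith) h1 k
    rw [← Real.exp_nat_mul] at h2
    have h3 : ((k : ℝ) * -(η / (8 * Real.log X))) < -(2 * Real.log X) := by
      have h4 : 2 * Real.log X < k * (η / (8 * Real.log X)) := by
        calc 2 * Real.log X = 16 / η * (Real.log X) ^ 2 * (η / (8 * Real.log X)) := by
              field_simp
              ring
          _ < k * (η / (8 * Real.log X)) := mul_lt_mul_of_pos_right hk1 (by positivity)
      linarith
    have h5 : ((range (⌊4 * X⌋₊ + 1)).card : ℝ) ≤ X ^ 2 := by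
      rw [card_range]
      push_cast
      have := Nat.floor_le (show 0 ≤ 4 * X by linarith)
      nlinarith
    have h6 : X ^ 2 = Real.exp (2 * Real.log X) := by
      rw [mul_comm, Real.exp_mul, Real.exp_log hX0]
      norm_cast
    calc (1 - η / (8 * Real.log X)) ^ k * ((range (⌊4 * X⌋₊ + 1)).card : ℝ)
        ≤ Real.exp ((k : ℝ) * -(η / (8 * Real.log X))) * X ^ 2 := by
          apply mul_le_mul h2 h5 (Nat.cast_nonneg _) (Real.exp_pos _).le
      _ < Real.exp (-(2 * Real.log X)) * X ^ 2 := by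
          apply mul_lt_mul_of_pos_right (Real.exp_lt_exp.2 h3) (by positivity)
      _ = 1 := by
          rw [h6, ← Real.exp_add, neg_add_cancel, Real.exp_zero]
  have hemp : ((range (⌊4 * X⌋₊ + 1)).filter (fun n => ∀ a ∈ A, ¬ (n + a).Prime)).card = 0 := by
    have h1 := hA3.trans_lt hlt
    have h2 : ((range (⌊4 * X⌋₊ + 1)).filter (fun n => ∀ a ∈ A, ¬ (n + a).Prime)).card < 1 := by exact_mod_cast h1
    omega
  refine ⟨A, fun a ha => ?_, ?_, ?_⟩
  · have := mem_Icc.1 (hA1 ha)
    refine ⟨this.1, ?_⟩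
    have h2 : (a : ℝ) ≤ N := by exact_mod_cast this.2
    linarith
  · have h1 : (A.card : ℝ) ≤ k := by exact_mod_cast hA2
    have h2 : (1 : ℝ) ≤ (Real.log X) ^ 2 := by nlinarith
    calc (A.card : ℝ) ≤ k := h1
      _ ≤ 16 / η * (Real.log X) ^ 2 + 1 := hk2
      _ ≤ (16 / η + 2) * (Real.log X) ^ 2 := by nlinarith
  · intro n hn
    by_contra hcon
    push Not at hcon
    have hm : n ∈ (range (⌊4 * X⌋₊ + 1)).filter (fun n => ∀ a ∈ A, ¬ (n + a).Prime) := by
      rw [mem_filter, mem_range]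
      exact ⟨Nat.lt_succ_of_le (Nat.le_floor hn), hcon⟩
    rw [card_eq_zero] at hemp
    rw [hemp] at hm
    simp at hm

end Pool.Agent.Q145.MT
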