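import Pool.Agent.Q145.MT.Conv

set_option autoImplicit false
set_option maxHeartbeats 4000000

/-! # Families of forms with composite values at primes and at prime tuples -/

namespace Pool.Agent.Q145.MT

open Finset Filter
open Pool.Agent.H378R2
open Pool.Agent.H362R2.RQ (fib)
open Pool.Agent.H318R2.Cr (cz_bounds Pz one_sub_inv_pos)
open Pool.Agent.TH101.RG

open scoped Classical

theorem exists_root (p : ℕ) (hp : p.Prime) (a b : ℤ) (ha : ¬ (p : ℤ) ∣ a) :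
    ∃ r : ℕ, r < p ∧ (p : ℤ) ∣ a * (r : ℤ) + b := by
  have hpp := Nat.prime_iff_prime_int.1 hp
  obtain ⟨u, v, huv⟩ : IsCoprime (p : ℤ) a := (Prime.coprime_iff_not_dvd hpp).2 ha
  have hp0 : (0 : ℤ) < p := by exact_mod_cast hp.pos
  obtain ⟨r, hr⟩ : ∃ r : ℕ, (r : ℤ) = (-b * v) % p := ⟨((-b * v) % p).toNat, Int.toNat_of_nonneg (Int.emod_nonneg _ hp0.ne')⟩
  refine ⟨r, ?_, ?_⟩
  · have := Int.emod_lt_of_pos (-b * v) hp0
    omega
  · have h1 : (p : ℤ) ∣ (-b * v) - r := by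
      rw [hr]
      exact Int.dvd_self_sub_emod
    have h2 : a * (r : ℤ) + b = -(a * ((-b * v) - r)) + b * u * p := by
      have : v * a = 1 - u * p := by linarith
      linear_combination (-b) * this
    rw [h2]
    exact dvd_add ((dvd_neg).2 (h1.mul_left a)) (dvd_mul_left _ _)

theorem lf_prod (P : Finset ℕ) (hP : ∀ p ∈ P, p.Prime) {γ : Type} (s : Finset γ) (b : γ → ℤ) :
    lf P (∏ j ∈ s, b j) ≤ ∏ j ∈ s, lf P (b j) := by
  induction s using Finset.induction_on with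
  | empty =>
    rw [prod_empty, prod_empty]
    unfold lf
    apply le_of_eq
    apply prod_eq_one
    intro p hp
    rw [if_neg]
    intro h
    have := Int.eq_one_of_dvd_one (by positivity) h
    have h2 := (hP p hp).one_lt
    omega
  | insert a s ha ih =>
    rw [prod_insert ha, prod_insert ha]
    refine (lf_mul' P hP _ _).trans ?_
    exact mul_le_mul_of_nonneg_left ih (zero_le_one.trans (one_le_lf P hP _))

theorem linGreedyT (K : ℕ) : ∃ C : ℝ, 0 < C ∧ ∀ᶠ X : ℝ in atTop, ∀ P : Finset ℕ, (∀ p ∈ P, p.Prime ∧ p ≤ yy X) →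
    ∑ p ∈ Pz (yy X) \ P, (1 : ℝ) / p ≤ 2 → ∀ t : Fin K → ℕ, (∀ p : ℕ, p.Prime → ∃ v : ℕ, ∀ j, ¬ p ∣ v + t j) →
    ∀ (Z : Finset ℤ) (α β : ℤ → ℤ),
    ∃ ρ : ℕ → ℕ, (∀ p ∈ P, ∀ j, ¬ p ∣ ρ p + t j) ∧
      ((Z.filter (fun z => ∀ p ∈ P, ¬ (p : ℤ) ∣ α z * ρ p + β z)).card : ℝ) ≤
        C / Real.log (Real.log X) * ∑ z ∈ Z, lf P (α z * ∏ j, (α z * t j - β z)) := by
  obtain ⟨C, hC, hprod⟩ := prodR 0
  refine ⟨C, hC, ?_⟩
  filter_upwards [hprod] with X hX
  intro P hP hPs t hadm Z α β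
  obtain ⟨ρ, hρ1, hρ2⟩ := greedyR (fun p r z => (p : ℤ) ∣ α z * r + β z)
    (fun p z => if (p : ℤ) ∣ α z * ∏ j, (α z * t j - β z) then 0 else 1 / (p : ℝ)) P
    (fun p => (range p).filter (fun r : ℕ => ∀ j, ¬ p ∣ r + t j)) Z
    (by
      intro p hp
      obtain ⟨v, hv⟩ := hadm p (hP p hp).1
      refine ⟨v % p, mem_filter.2 ⟨mem_range.2 (Nat.mod_lt _ (hP p hp).1.pos), fun j hd => hv j ?_⟩⟩
      have h1 : v % p + t j ≡ v + t j [MOD p] := (Nat.mod_modEq v p).add_right _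
      exact (Nat.modEq_zero_iff_dvd).1 (h1.symm.trans ((Nat.modEq_zero_iff_dvd).2 hd)))
    (by
      intro p hp z _
      have h2 : (2 : ℝ) ≤ p := by exact_mod_cast (hP p hp).1.two_le
      show (if (p : ℤ) ∣ α z * ∏ j, (α z * t j - β z) then 0 else 1 / (p : ℝ)) ≤ 1
      split_ifs
      · exact zero_le_one
      · rw [div_le_one (by linarith)]
        linarith)
    (by
      intro p hp z _
      show (if (p : ℤ) ∣ α z * ∏ j, (α z * t j - β z) then 0 else 1 / (p : ℝ)) * _ ≤ _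
      split_ifs with h
      · rw [zero_mul]
        exact Nat.cast_nonneg _
      · have ha : ¬ (p : ℤ) ∣ α z := fun h1 => h (h1.mul_right _)
        obtain ⟨r, hr1, hr2⟩ := exists_root p (hP p hp).1 (α z) (β z) ha
        have hrt : ∀ j, ¬ p ∣ r + t j := by
          intro j hd
          apply h
          apply Dvd.dvd.mul_left
          refine Dvd.dvd.trans ?_ (dvd_prod_of_mem _ (mem_univ j))
          have h3 : (p : ℤ) ∣ (r : ℤ) + t j := by exact_mod_cast hd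
          have h4 : α z * t j - β z = α z * ((r : ℤ) + t j) - (α z * r + β z) := by ring
          rw [h4]
          exact dvd_sub (h3.mul_left _) hr2
        have h5 : 0 < (((range p).filter (fun r : ℕ => ∀ j, ¬ p ∣ r + t j)).filter
            (fun r : ℕ => (p : ℤ) ∣ α z * r + β z)).card :=
          card_pos.2 ⟨r, mem_filter.2 ⟨mem_filter.2 ⟨mem_range.2 hr1, hrt⟩, hr2⟩⟩
        have h6 : (1 : ℝ) ≤ ((((range p).filter (fun r : ℕ => ∀ j, ¬ p ∣ r + t j)).filter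
            (fun r : ℕ => (p : ℤ) ∣ α z * r + β z)).card : ℝ) := by
          exact_mod_cast h5
        have h2 : (2 : ℝ) ≤ p := by exact_mod_cast (hP p hp).1.two_le
        have h7 : 1 / (p : ℝ) * (((range p).filter (fun r : ℕ => ∀ j, ¬ p ∣ r + t j)).card : ℝ) ≤ 1 := by
          rw [div_mul_eq_mul_div, one_mul, div_le_one (by linarith)]
          have : ((range p).filter (fun r : ℕ => ∀ j, ¬ p ∣ r + t j)).card ≤ p := by
            refine (card_filter_le _ _).trans ?_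
            rw [card_range]
          exact_mod_cast this
        exact (h7.trans h6).trans (le_of_eq (congrArg Nat.cast (card_filter_inst _ _ _ _)))) Z (Subset.refl _)
  refine ⟨ρ, ?_, (le_of_eq (congrArg Nat.cast (card_filter_inst _ _ _ _))).trans (hρ2.trans ?_)⟩
  · intro p hp
    exact (mem_filter.1 (hρ1 p hp)).2
  · rw [mul_sum]
    apply sum_le_sum
    intro z _
    set w : ℤ := α z * ∏ j, (α z * t j - β z) with hw
    set B : ℕ := ∏ p ∈ P.filter (fun p : ℕ => (p : ℤ) ∣ w), p with hB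
    have hBf : B.primeFactors = P.filter (fun p : ℕ => (p : ℤ) ∣ w) :=
      Nat.primeFactors_prod fun p hp => (hP p (mem_filter.1 hp).1).1
    have hB0 : B ≠ 0 := (prod_pos fun p hp => (hP p (mem_filter.1 hp).1).1.pos).ne'
    have h1 := hX P hP hPs B hB0
    have h2 : (B : ℝ) / B.totient = lf P w := by
      rw [← prod_inv_primeFactors B hB0, hBf]
      unfold lf
      rw [prod_filter]
    rw [h2] at h1
    refine (le_of_eq ?_).trans h1
    apply prod_congr rfl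
    intro p hp
    have h3 : p ∣ B ↔ (p : ℤ) ∣ w := by
      constructor
      · intro h
        have : p ∈ B.primeFactors := Nat.mem_primeFactors.2 ⟨(hP p hp).1, h, hB0⟩
        rw [hBf] at this
        exact (mem_filter.1 this).2
      · intro h
        exact dvd_prod_of_mem (fun p => p) (mem_filter.2 ⟨hp, h⟩)
    by_cases h4 : (p : ℤ) ∣ w
    · rw [if_pos h4, if_neg (fun h => h.1 (h3.2 h4)), sub_zero]
    · rw [if_neg h4, if_pos ⟨fun h => h4 (h3.1 h), (hP p hp).1.pos⟩]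

/-- **Families with composite values at primes.** -/
theorem primeF (D : ℕ) : ∃ c : ℝ, 0 < c ∧ ∀ᶠ X : ℝ in atTop, ∀ F : Finset (ℤ × ℤ), (∀ f ∈ F, f.1 ≠ 0 ∧ f.2 ≠ 0) →
    (∀ f ∈ F, |(f.1 : ℝ)| ≤ X ^ D ∧ |(f.2 : ℝ)| ≤ X ^ D) →
    ∑ f ∈ F, wt f.1 * wt f.2 ≤ c * (Real.log X * Real.log (Real.log X)) →
    Many X (fun n => n.Prime ∧ NoPrime F n) := by
  obtain ⟨C1, hC1, hgr⟩ := linGreedy
  obtain ⟨c₄, hc₄, heng⟩ := oneR D
  refine ⟨min (c₄ / C1) 1, by positivity, ?_⟩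
  filter_upwards [hgr, heng 1 0 squarefree_one, evU, evT] with X hgX hX hU hT
  obtain ⟨hL, hA, hAL, hL2, hX16⟩ := hT
  obtain ⟨P, hP1, hP2, hP3⟩ := hX
  intro F hF hFs hFw
  have hX0 : 0 < X := by linarith
  have hPp : ∀ p ∈ P, p.Prime := fun p hp => (hP1 p hp).1
  have hLA : 0 < Real.log X * Real.log (Real.log X) := by
    apply mul_pos <;> linarith
  have h1w : ∀ f ∈ F, 1 ≤ wt f.1 * wt f.2 := by
    intro f hf
    have h1 := one_le_wt _ (hF f hf).1
    have h2 := one_le_wt _ (hF f hf).2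
    nlinarith
  refine conv D X (by linarith) Nat.Prime (fun f => f.2 ≠ 0) (fun f => wt f.1 * wt f.2)
    (c₄ / C1 * (Real.log X * Real.log (Real.log X))) hU ?_ F hF hFs
    (hFw.trans (mul_le_mul_of_nonneg_right (min_le_left _ _) hLA.le)) ?_ (fun f hf => zero_le_one.trans (h1w f hf)) ?_
  · intro Z α β h1 h2 h3 h4 bad hbad
    obtain ⟨ρ, hρ1, hρ2⟩ := hgX P hP1 hP2 Z α β
    have hun : ((Z.filter (fun z => ∀ p ∈ P, ¬ p ∣ 1 → ¬ (p : ℤ) ∣ α z * ρ p + β z)).card : ℝ) ≤ c₄ * Real.log X := by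
      have h5 : (Z.filter (fun z => ∀ p ∈ P, ¬ p ∣ 1 → ¬ (p : ℤ) ∣ α z * ρ p + β z)) ⊆
          (Z.filter (fun z => ∀ p ∈ P, ¬ (p : ℤ) ∣ α z * ρ p + β z)) := by
        intro z hz
        rw [mem_filter] at hz ⊢
        exact ⟨hz.1, fun p hp => hz.2 p hp (fun h => (hPp p hp).one_lt.ne' (Nat.dvd_one.1 h))⟩
      have h6 : ((Z.filter (fun z => ∀ p ∈ P, ¬ p ∣ 1 → ¬ (p : ℤ) ∣ α z * ρ p + β z)).card : ℝ) ≤
          ((Z.filter (fun z => ∀ p ∈ P, ¬ (p : ℤ) ∣ α z * ρ p + β z)).card : ℝ) := by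
        exact_mod_cast card_le_card h5
      refine h6.trans (hρ2.trans ?_)
      have h7 : ∑ z ∈ Z, lf P (α z * β z) ≤ c₄ / C1 * (Real.log X * Real.log (Real.log X)) := by
        refine le_trans (sum_le_sum fun z hz => ?_) h4
        refine (lf_mul' P hPp _ _).trans ?_
        exact mul_le_mul (lf_le P hPp _ (h1 z hz).1) (lf_le P hPp _ (h1 z hz).2)
          (zero_le_one.trans (one_le_lf P hPp _)) (zero_le_one.trans (one_le_wt _ (h1 z hz).1))
      have h8 : 0 < Real.log (Real.log X) := by linarith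
      calc C1 / Real.log (Real.log X) * ∑ z ∈ Z, lf P (α z * β z)
          ≤ C1 / Real.log (Real.log X) * (c₄ / C1 * (Real.log X * Real.log (Real.log X))) :=
            mul_le_mul_of_nonneg_left h7 (by positivity)
        _ = c₄ * Real.log X := by field_simp
    obtain ⟨q, hqp, hXq, hq3, hqb, -, -, hall⟩ := hP3 α β 1 one_ne_zero (dvd_refl _)
      (by
        rw [Nat.cast_one]
        exact one_le_pow₀ (by linarith)) 1 (Nat.coprime_one_right _) bad hbad Z h1 h2 h3 ρ (fun p hp _ => hρ1 p hp) hun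
    refine ⟨q, hXq, by linarith, hqb, hqp, fun z hz => ?_⟩
    obtain ⟨r, hr1, hr2, -, hr4⟩ := hall z hz
    exact ⟨r, hr1, hr2, hr4⟩
  · calc (F.card : ℝ) = ∑ _f ∈ F, (1 : ℝ) := by rw [sum_const, nsmul_eq_mul, mul_one]
      _ ≤ ∑ f ∈ F, wt f.1 * wt f.2 := sum_le_sum h1w
      _ ≤ min (c₄ / C1) 1 * (Real.log X * Real.log (Real.log X)) := hFw
      _ ≤ 1 * (Real.log X * Real.log (Real.log X)) := mul_le_mul_of_nonneg_right (min_le_right _ _) hLA.le
      _ ≤ (Real.log X) ^ 2 := by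
        have h0 : 0 ≤ Real.log X := by linarith
        nlinarith
  · intro f hf e k hk h1 h2
    have he2 : e.2 ≠ 0 := fun h => (hF f hf).2 (by rw [h2, h, mul_zero])
    have he1 : e.1 ≠ 0 := fun h => (hF f hf).1 (by rw [h1, h, mul_zero])
    refine ⟨he2, ?_⟩
    exact mul_le_mul (wt_mono _ _ ⟨k, by rw [h1]; ring⟩ (hF f hf).1) (wt_mono _ _ ⟨k, by rw [h2]; ring⟩ (hF f hf).2)
      (zero_le_one.trans (one_le_wt _ he2)) (zero_le_one.trans (one_le_wt _ (hF f hf).1))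

/-- **Families with composite values at prime tuples.** -/
theorem tupleF : ∃ η : ℝ, 0 < η ∧ ∀ m : ℕ, 1 ≤ m → ∃ K : ℕ, m ≤ K ∧ ∀ D : ℕ, ∃ c : ℝ, 0 < c ∧ ∀ᶠ X : ℝ in atTop,
    ∀ t : Fin K → ℕ, Function.Injective t → (∀ j, (t j : ℝ) ≤ (Real.log X) ^ 2) →
    (∀ p : ℕ, p.Prime → ∃ v : ℕ, ∀ j, ¬ p ∣ v + t j) →
    ∀ col : Fin K → Fin m, (∀ e, K ≤ 2 * m * fib col e) →
    ∀ F : Finset (ℤ × ℤ), (∀ f ∈ F, f.1 ≠ 0 ∧ ∀ j, f.1 * t j ≠ f.2) →
    (∀ f ∈ F, |(f.1 : ℝ)| ≤ X ^ D ∧ |(f.2 : ℝ)| ≤ X ^ D) →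
    ∑ f ∈ F, wt f.1 * ∏ j, wt (f.1 * t j - f.2) ≤ c * (Real.log X * Real.log (Real.log X)) →
    Many X (fun n => (∃ E : Finset (Fin m), η * m ≤ E.card ∧ ∀ e ∈ E, ∃ j, col j = e ∧ (n + t j).Prime) ∧
      NoPrime F n) := by
  obtain ⟨η, hη, htp⟩ := tupR
  refine ⟨η, hη, fun m hm => ?_⟩
  obtain ⟨K, hmK, htK⟩ := htp m hm
  refine ⟨K, hmK, fun D => ?_⟩
  obtain ⟨C1, hC1, hgr⟩ := linGreedyT K
  obtain ⟨c₄, hc₄, heng⟩ := htK D
  refine ⟨min (c₄ / C1) 1, by positivity, ?_⟩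
  filter_upwards [hgr, heng 1 0 squarefree_one, evU, evT] with X hgX hX hU hT
  obtain ⟨hL, hA, hAL, hL2, hX16⟩ := hT
  obtain ⟨P, hP1, hP2, hP3⟩ := hX
  intro t htinj htl hadm col hcol F hF hFs hFw
  have hX0 : 0 < X := by linarith
  have hPp : ∀ p ∈ P, p.Prime := fun p hp => (hP1 p hp).1
  have hLA : 0 < Real.log X * Real.log (Real.log X) := by
    apply mul_pos <;> linarith
  have hprodw : ∀ f : ℤ × ℤ, (∀ j, f.1 * t j ≠ f.2) → 1 ≤ ∏ j, wt (f.1 * t j - f.2) := by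
    intro f hf
    apply Finset.one_le_prod
    intro j _
    exact one_le_wt _ (sub_ne_zero.2 (hf j))
  have h1w : ∀ f ∈ F, 1 ≤ wt f.1 * ∏ j, wt (f.1 * t j - f.2) := by
    intro f hf
    have h1 := one_le_wt _ (hF f hf).1
    have h2 := hprodw f (hF f hf).2
    nlinarith
  refine conv D X (by linarith) _ (fun f => ∀ j, f.1 * t j ≠ f.2) (fun f => wt f.1 * ∏ j, wt (f.1 * t j - f.2))
    (c₄ / C1 * (Real.log X * Real.log (Real.log X))) hU ?_ F hF hFs
    (hFw.trans (mul_le_mul_of_nonneg_right (min_le_left _ _) hLA.le)) ?_ (fun f hf => zero_le_one.trans (h1w f hf)) ?_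
  · intro Z α β h1 h2 h3 h4 bad hbad
    obtain ⟨ρ, hρ1, hρ2⟩ := hgX P hP1 hP2 t hadm Z α β
    have hun : ((Z.filter (fun z => ∀ p ∈ P, ¬ p ∣ 1 → ¬ (p : ℤ) ∣ α z * ρ p + β z)).card : ℝ) ≤ c₄ * Real.log X := by
      have h5 : (Z.filter (fun z => ∀ p ∈ P, ¬ p ∣ 1 → ¬ (p : ℤ) ∣ α z * ρ p + β z)) ⊆
          (Z.filter (fun z => ∀ p ∈ P, ¬ (p : ℤ) ∣ α z * ρ p + β z)) := by
        intro z hz
        rw [mem_filter] at hz ⊢
        exact ⟨hz.1, fun p hp => hz.2 p hp (fun h => (hPp p hp).one_lt.ne' (Nat.dvd_one.1 h))⟩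
      have h6 : ((Z.filter (fun z => ∀ p ∈ P, ¬ p ∣ 1 → ¬ (p : ℤ) ∣ α z * ρ p + β z)).card : ℝ) ≤
          ((Z.filter (fun z => ∀ p ∈ P, ¬ (p : ℤ) ∣ α z * ρ p + β z)).card : ℝ) := by
        exact_mod_cast card_le_card h5
      refine h6.trans (hρ2.trans ?_)
      have h7 : ∑ z ∈ Z, lf P (α z * ∏ j, (α z * t j - β z)) ≤ c₄ / C1 * (Real.log X * Real.log (Real.log X)) := by
        refine le_trans (sum_le_sum fun z hz => ?_) h4
        refine (lf_mul' P hPp _ _).trans ?_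
        refine mul_le_mul (lf_le P hPp _ (h1 z hz).1) ?_
          (zero_le_one.trans (one_le_lf P hPp _)) (zero_le_one.trans (one_le_wt _ (h1 z hz).1))
        refine (lf_prod P hPp univ _).trans ?_
        apply Finset.prod_le_prod
        · intro j _
          exact zero_le_one.trans (one_le_lf P hPp _)
        · intro j _
          exact lf_le P hPp _ (sub_ne_zero.2 ((h1 z hz).2 j))
      have h8 : 0 < Real.log (Real.log X) := by linarith
      calc C1 / Real.log (Real.log X) * ∑ z ∈ Z, lf P (α z * ∏ j, (α z * t j - β z))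
          ≤ C1 / Real.log (Real.log X) * (c₄ / C1 * (Real.log X * Real.log (Real.log X))) :=
            mul_le_mul_of_nonneg_left h7 (by positivity)
        _ = c₄ * Real.log X := by field_simp
    obtain ⟨n, hXn, hn3, hnb, -, -, hE, hall⟩ := hP3 α β 1 one_ne_zero (dvd_refl _)
      (by
        rw [Nat.cast_one]
        exact one_le_pow₀ (by linarith)) t htinj htl hadm 0 (fun j => Nat.coprime_one_right _) col hcol bad hbad Z
      h1 h2 h3 ρ (fun p hp _ => hρ1 p hp) hun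
    refine ⟨n, hXn, by linarith, hnb, hE, fun z hz => ?_⟩
    obtain ⟨r, hr1, hr2, -, hr4⟩ := hall z hz
    exact ⟨r, hr1, hr2, hr4⟩
  · calc (F.card : ℝ) = ∑ _f ∈ F, (1 : ℝ) := by rw [sum_const, nsmul_eq_mul, mul_one]
      _ ≤ ∑ f ∈ F, wt f.1 * ∏ j, wt (f.1 * t j - f.2) := sum_le_sum h1w
      _ ≤ min (c₄ / C1) 1 * (Real.log X * Real.log (Real.log X)) := hFw
      _ ≤ 1 * (Real.log X * Real.log (Real.log X)) := mul_le_mul_of_nonneg_right (min_le_right _ _) hLA.le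
      _ ≤ (Real.log X) ^ 2 := by
        have h0 : 0 ≤ Real.log X := by linarith
        nlinarith
  · intro f hf e k hk h1 h2
    have he2 : ∀ j, e.1 * t j ≠ e.2 := by
      intro j h
      apply (hF f hf).2 j
      rw [h1, h2, ← h]
      ring
    refine ⟨he2, ?_⟩
    apply mul_le_mul (wt_mono _ _ ⟨k, by rw [h1]; ring⟩ (hF f hf).1) _
      (zero_le_one.trans (hprodw e he2)) (zero_le_one.trans (one_le_wt _ (hF f hf).1))
    apply Finset.prod_le_prod
    · intro j _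
      exact zero_le_one.trans (one_le_wt _ (sub_ne_zero.2 (he2 j)))
    · intro j _
      exact wt_mono _ _ ⟨k, by rw [h1, h2]; ring⟩ (sub_ne_zero.2 ((hF f hf).2 j))

end Pool.Agent.Q145.MT
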