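import Pool.Agent.Q145.MT.NormForms

set_option autoImplicit false
set_option maxHeartbeats 4000000

/-! # From indexed families without proportional forms to all finite sets of forms -/

namespace Pool.Agent.Q145.MT

open Finset Filter
open Pool.Agent.H378R2
open Pool.Agent.H318R2.Cr (cz_bounds Pz one_sub_inv_pos)
open Pool.Agent.TH101.RG

open scoped Classical

/-- all forms of `F` have non-prime values at `n` -/
def NoPrime (F : Finset (ℤ × ℤ)) (n : ℕ) : Prop := ∀ f ∈ F, ¬ (f.1 * (n : ℤ) + f.2).natAbs.Prime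

/-- more than `X ^ (4 / 5)` integers of `(X, 4 X]` have the property -/
def Many (X : ℝ) (A : ℕ → Prop) : Prop := X ^ (4 / 5 : ℝ) < ({n : ℕ | X < n ∧ (n : ℝ) ≤ 4 * X ∧ A n}.ncard : ℝ)

theorem many_iff (X : ℝ) (hX : 0 ≤ X) (A : ℕ → Prop) :
    Many X A ↔ X ^ (4 / 5 : ℝ) < (((Icc 1 ⌊4 * X⌋₊).filter (fun n : ℕ => X < n ∧ A n)).card : ℝ) := by
  unfold Many
  have h : {n : ℕ | X < n ∧ (n : ℝ) ≤ 4 * X ∧ A n} = (((Icc 1 ⌊4 * X⌋₊).filter (fun n : ℕ => X < n ∧ A n) : Finset ℕ) : Set ℕ) := by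
    ext n
    rw [Set.mem_ofPred_eq, mem_coe, mem_filter, mem_Icc]
    constructor
    · rintro ⟨h1, h2, h3⟩
      refine ⟨⟨?_, Nat.le_floor h2⟩, h1, h3⟩
      have : (0 : ℝ) < n := by linarith
      exact_mod_cast this
    · rintro ⟨⟨h1, h2⟩, h3, h4⟩
      exact ⟨h3, (Nat.le_floor_iff (by linarith)).1 h2, h4⟩
  rw [h, Set.ncard_coe_finset]

theorem conv (D : ℕ) (X : ℝ) (hX1 : 1 ≤ X) (good : ℕ → Prop) (side : ℤ × ℤ → Prop) (w : ℤ × ℤ → ℝ) (bd : ℝ)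
    (hU : X ^ (4 / 5 : ℝ) + (Real.log X) ^ 2 * (2 * X ^ (1 / 1000 : ℝ) + 1) ≤ X ^ (9 / 10 : ℝ))
    (hyp : ∀ (Z : Finset ℤ) (α β : ℤ → ℤ), (∀ z ∈ Z, α z ≠ 0 ∧ side (α z, β z)) →
      (∀ z ∈ Z, |(α z : ℝ)| ≤ X ^ D ∧ |(β z : ℝ)| ≤ X ^ D) →
      (∀ k ∈ Z, ∀ l ∈ Z, k ≠ l → α k * β l ≠ α l * β k) →
      ∑ z ∈ Z, w (α z, β z) ≤ bd → ∀ bad : Finset ℕ, (bad.card : ℝ) ≤ X ^ (9 / 10 : ℝ) →
      ∃ n : ℕ, X < n ∧ (n : ℝ) ≤ 4 * X ∧ n ∉ bad ∧ good n ∧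
        ∀ z ∈ Z, ∃ q : ℕ, q.Prime ∧ (q : ℝ) ≤ X ^ (1 / 1000 : ℝ) ∧ (q : ℤ) ∣ α z * n + β z)
    (F : Finset (ℤ × ℤ)) (hF : ∀ f ∈ F, f.1 ≠ 0 ∧ side f) (hFs : ∀ f ∈ F, |(f.1 : ℝ)| ≤ X ^ D ∧ |(f.2 : ℝ)| ≤ X ^ D)
    (hFw : ∑ f ∈ F, w f ≤ bd) (hFc : (F.card : ℝ) ≤ (Real.log X) ^ 2) (hw0 : ∀ f ∈ F, 0 ≤ w f)
    (hmono : ∀ f ∈ F, ∀ e : ℤ × ℤ, ∀ k : ℤ, k ≠ 0 → f.1 = k * e.1 → f.2 = k * e.2 → side e ∧ w e ≤ w f) :
    Many X (fun n => good n ∧ NoPrime F n) := by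
  rw [many_iff X (by linarith)]
  by_contra hcon
  push Not at hcon
  set F' : Finset (ℤ × ℤ) := F.image prim with hF'
  have hprim : ∀ e ∈ F', 0 < e.1 ∧ IsCoprime e.1 e.2 ∧ side e ∧ |(e.1 : ℝ)| ≤ X ^ D ∧ |(e.2 : ℝ)| ≤ X ^ D := by
    intro e he
    obtain ⟨f, hf, rfl⟩ := mem_image.1 he
    obtain ⟨h1, h2, k, hk, h3, h4⟩ := prim_spec f (hF f hf).1
    obtain ⟨h5, h6⟩ := hFs f hf
    have hk1 : (1 : ℝ) ≤ |(k : ℝ)| := by
      have : (1 : ℤ) ≤ |k| := Int.one_le_abs hk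
      exact_mod_cast this
    refine ⟨h1, h2, (hmono f hf (prim f) k hk h3 h4).1, ?_, ?_⟩
    · refine le_trans ?_ h5
      rw [h3]
      push_cast
      rw [abs_mul]
      exact le_mul_of_one_le_left (abs_nonneg _) hk1
    · refine le_trans ?_ h6
      rw [h4]
      push_cast
      rw [abs_mul]
      exact le_mul_of_one_le_left (abs_nonneg _) hk1
  set Z : Finset ℤ := F'.image (fun f : ℤ × ℤ => ((Encodable.encode f : ℕ) : ℤ)) with hZ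
  have hZdec : ∀ z ∈ Z, dec z ∈ F' := by
    intro z hz
    obtain ⟨f, hf, rfl⟩ := mem_image.1 hz
    rw [dec_enc]
    exact hf
  have hdecinj : ∀ k ∈ Z, ∀ l ∈ Z, dec k = dec l → k = l := by
    intro k hk l hl h
    obtain ⟨f, hf, rfl⟩ := mem_image.1 hk
    obtain ⟨f', hf', rfl⟩ := mem_image.1 hl
    rw [dec_enc, dec_enc] at h
    rw [h]
  have hsum : ∑ z ∈ Z, w ((dec z).1, (dec z).2) ≤ bd := by
    rw [hZ, sum_image (fun a _ b _ h => enc_inj h)]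
    have h1 : ∑ f ∈ F', w ((dec ((Encodable.encode f : ℕ) : ℤ)).1, (dec ((Encodable.encode f : ℕ) : ℤ)).2) =
        ∑ f ∈ F', w f := by
      apply sum_congr rfl
      intro f _
      rw [dec_enc]
    rw [h1]
    refine le_trans ?_ hFw
    apply sum_image_le F prim w w hw0
    intro f hf
    obtain ⟨-, -, k, hk, h3, h4⟩ := prim_spec f (hF f hf).1
    exact (hmono f hf (prim f) k hk h3 h4).2
  set B : ℕ := ⌊X ^ (1 / 1000 : ℝ)⌋₊ with hB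
  set N : ℕ := ⌊4 * X⌋₊ with hN
  set bad : Finset ℕ := ((Icc 1 N).filter (fun n : ℕ => X < n ∧ good n ∧ NoPrime F n)) ∪
    ((Icc 1 N).filter (fun n : ℕ => ∃ f ∈ F', (f.1 * (n : ℤ) + f.2).natAbs ≤ B)) with hbad
  have hcon' : (((Icc 1 N).filter (fun n : ℕ => X < n ∧ good n ∧ NoPrime F n)).card : ℝ) ≤ X ^ (4 / 5 : ℝ) :=
    (le_of_eq (congrArg Nat.cast (card_filter_inst _ _ _ _))).trans hcon
  have hbadc : (bad.card : ℝ) ≤ X ^ (9 / 10 : ℝ) := by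
    have h1 : (bad.card : ℝ) ≤ (((Icc 1 N).filter (fun n : ℕ => X < n ∧ good n ∧ NoPrime F n)).card : ℝ) +
        (((Icc 1 N).filter (fun n : ℕ => ∃ f ∈ F', (f.1 * (n : ℤ) + f.2).natAbs ≤ B)).card : ℝ) := by
      exact_mod_cast card_union_le _ _
    have h2 : (((Icc 1 N).filter (fun n : ℕ => ∃ f ∈ F', (f.1 * (n : ℤ) + f.2).natAbs ≤ B)).card : ℝ) ≤
        F'.card * (2 * B + 1) := by
      exact_mod_cast card_small F' (fun f hf => (hprim f hf).1.ne') N B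
    have h3 : (F'.card : ℝ) ≤ F.card := by exact_mod_cast card_image_le
    have h4 : (B : ℝ) ≤ X ^ (1 / 1000 : ℝ) := Nat.floor_le (by positivity)
    have h5 : (F'.card : ℝ) * (2 * B + 1) ≤ (Real.log X) ^ 2 * (2 * X ^ (1 / 1000 : ℝ) + 1) := by
      apply mul_le_mul (h3.trans hFc) _ (by positivity) (by positivity)
      linarith
    linarith
  obtain ⟨n, hn1, hn2, hn3, hn4, hn5⟩ := hyp Z (fun z => (dec z).1) (fun z => (dec z).2)
    (fun z hz => ⟨(hprim _ (hZdec z hz)).1.ne', (hprim _ (hZdec z hz)).2.2.1⟩)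
    (fun z hz => (hprim _ (hZdec z hz)).2.2.2)
    (by
      intro k hk l hl hkl h
      apply hkl
      apply hdecinj k hk l hl
      exact prim_unique _ _ (hprim _ (hZdec k hk)).1 (hprim _ (hZdec l hl)).1 (hprim _ (hZdec k hk)).2.1
        (hprim _ (hZdec l hl)).2.1 h) hsum bad hbadc
  have hn0 : (0 : ℝ) < n := by linarith
  have hnI : n ∈ Icc 1 N := by
    rw [mem_Icc]
    refine ⟨?_, Nat.le_floor hn2⟩
    exact_mod_cast hn0
  apply hn3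
  rw [hbad, mem_union]
  by_cases hsm : ∃ f ∈ F', (f.1 * (n : ℤ) + f.2).natAbs ≤ B
  · right
    exact mem_filter.2 ⟨hnI, hsm⟩
  · left
    push Not at hsm
    refine mem_filter.2 ⟨hnI, hn1, hn4, ?_⟩
    intro f hf
    obtain ⟨-, -, k, hk, h3, h4⟩ := prim_spec f (hF f hf).1
    have he : prim f ∈ F' := mem_image_of_mem _ hf
    have hz : ((Encodable.encode (prim f) : ℕ) : ℤ) ∈ Z := mem_image_of_mem _ he
    obtain ⟨q, hq1, hq2, hq3⟩ := hn5 _ hz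
    rw [dec_enc] at hq3
    exact not_prime_of f (prim f) k hk h3 h4 n B q hq1 (Nat.le_floor hq2) hq3 (hsm _ he)

/-- **Every family of `c log X log log X` linear forms.** -/
theorem anyF (D : ℕ) : ∃ c : ℝ, 0 < c ∧ ∀ᶠ X : ℝ in atTop, ∀ F : Finset (ℤ × ℤ), (∀ f ∈ F, f.1 ≠ 0) →
    (∀ f ∈ F, |(f.1 : ℝ)| ≤ X ^ D ∧ |(f.2 : ℝ)| ≤ X ^ D) →
    ∑ f ∈ F, wt f.1 ≤ c * (Real.log X * Real.log (Real.log X)) →
    Many X (NoPrime F) := by
  obtain ⟨c, hc, h⟩ := anyZ D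
  refine ⟨min c 1, by positivity, ?_⟩
  filter_upwards [h, evU, evT] with X hX hU hT
  obtain ⟨hL, hA, hAL, hL2, hX16⟩ := hT
  intro F hF hFs hFw
  have hLA : 0 < Real.log X * Real.log (Real.log X) := by
    apply mul_pos <;> linarith
  have key := conv D X (by linarith) (fun _ => True) (fun _ => True) (fun f => wt f.1)
    (c * (Real.log X * Real.log (Real.log X))) hU ?_ F (fun f hf => ⟨hF f hf, trivial⟩) hFs
    (hFw.trans (mul_le_mul_of_nonneg_right (min_le_left _ _) hLA.le)) ?_ ?_ ?_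
  · simpa only [true_and] using key
  · intro Z α β h1 h2 h3 h4 bad hbad
    obtain ⟨n, a1, a2, a3, a4⟩ := hX Z α β (fun z hz => (h1 z hz).1) h2 h3 h4 bad hbad
    exact ⟨n, a1, a2, a3, trivial, a4⟩
  · calc (F.card : ℝ) = ∑ _f ∈ F, (1 : ℝ) := by rw [sum_const, nsmul_eq_mul, mul_one]
      _ ≤ ∑ f ∈ F, wt f.1 := sum_le_sum fun f hf => one_le_wt _ (hF f hf)
      _ ≤ min c 1 * (Real.log X * Real.log (Real.log X)) := hFw
      _ ≤ 1 * (Real.log X * Real.log (Real.log X)) := mul_le_mul_of_nonneg_right (min_le_right _ _) hLA.le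
      _ ≤ (Real.log X) ^ 2 := by
        have h0 : 0 ≤ Real.log X := by linarith
        nlinarith
  · intro f hf
    exact zero_le_one.trans (one_le_wt _ (hF f hf))
  · intro f hf e k hk h1 h2
    exact ⟨trivial, wt_mono _ _ ⟨k, by rw [h1]; ring⟩ (hF f hf)⟩

end Pool.Agent.Q145.MT
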