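import Pool.Agent.Q145.MT.TupG

set_option autoImplicit false
set_option maxHeartbeats 4000000

/-! # Engines with a prescribed choice of residues for the small primes -/

namespace Pool.Agent.Q145.MT

open Finset Filter
open Pool.Agent.H378R2
open Pool.Agent.H312R2.RG (BVat)
open Pool.Agent.H362R2.RQ (fib)
open Pool.Agent.H318R2.Cr (cz_bounds Pz one_sub_inv_pos)
open Pool.Agent.TH101.RG

open scoped Classical

/-- greedy choice of residues `ρ p ∈ R p`: few elements of `Z` are not killed -/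
theorem greedyR (kill : ℕ → ℕ → ℤ → Prop) (κ : ℕ → ℤ → ℝ) (P : Finset ℕ) (R : ℕ → Finset ℕ) (Z₀ : Finset ℤ)
    (hR : ∀ p ∈ P, (R p).Nonempty) (hκ1 : ∀ p ∈ P, ∀ z ∈ Z₀, κ p z ≤ 1)
    (hκ : ∀ p ∈ P, ∀ z ∈ Z₀, κ p z * ((R p).card : ℝ) ≤ (((R p).filter (fun ρ => kill p ρ z)).card : ℝ)) :
    ∀ Z : Finset ℤ, Z ⊆ Z₀ → ∃ ρ : ℕ → ℕ, (∀ p ∈ P, ρ p ∈ R p) ∧
      ((Z.filter (fun z => ∀ p ∈ P, ¬ kill p (ρ p) z)).card : ℝ) ≤ ∑ z ∈ Z, ∏ p ∈ P, (1 - κ p z) := by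
  induction P using Finset.induction_on with
  | empty => exact fun Z _ => ⟨fun _ => 0, by simp, by simp⟩
  | insert q P hq ih =>
    intro Z hZ
    have hih := ih (fun p hp => hR p (mem_insert_of_mem hp)) (fun p hp => hκ1 p (mem_insert_of_mem hp))
      (fun p hp => hκ p (mem_insert_of_mem hp))
    have hqR := hR q (mem_insert_self _ _)
    set Φ : ℤ → ℝ := fun z => ∏ p ∈ P, (1 - κ p z) with hΦ
    have hΦ0 : ∀ z ∈ Z₀, 0 ≤ Φ z := by
      intro z hz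
      apply prod_nonneg
      intro p hp
      have := hκ1 p (mem_insert_of_mem hp) z hz
      linarith
    have hsum : ∑ _ρ ∈ R q, ∑ z ∈ Z, κ q z * Φ z ≤ ∑ ρ ∈ R q, ∑ z ∈ Z.filter (fun z => kill q ρ z), Φ z := by
      have h1 : ∑ ρ ∈ R q, ∑ z ∈ Z.filter (fun z => kill q ρ z), Φ z =
          ∑ z ∈ Z, (((R q).filter (fun ρ => kill q ρ z)).card : ℝ) * Φ z := by
        simp_rw [sum_filter]
        rw [sum_comm]
        apply sum_congr rfl
        intro z _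
        rw [← sum_filter, sum_const, nsmul_eq_mul]
      rw [h1, sum_const, nsmul_eq_mul, mul_sum]
      apply sum_le_sum
      intro z hz
      have h2 := hκ q (mem_insert_self _ _) z (hZ hz)
      have h3 := hΦ0 z (hZ hz)
      calc ((R q).card : ℝ) * (κ q z * Φ z) = (κ q z * ((R q).card : ℝ)) * Φ z := by ring
        _ ≤ _ := mul_le_mul_of_nonneg_right h2 h3
    obtain ⟨c, hcR, hc⟩ := exists_le_of_sum_le hqR hsum
    obtain ⟨ρ, hρ1, hρ2⟩ := hih (Z.filter (fun z => ¬ kill q c z)) ((filter_subset _ _).trans hZ)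
    refine ⟨fun p => if p = q then c else ρ p, ?_, ?_⟩
    · intro p hp
      by_cases hpq : p = q
      · simp only [hpq, if_true]
        exact hcR
      · simp only [hpq, if_false]
        exact hρ1 p ((mem_insert.1 hp).resolve_left hpq)
    · have h1 : (Z.filter (fun z => ∀ p ∈ insert q P, ¬ kill p (if p = q then c else ρ p) z)).card ≤
          ((Z.filter (fun z => ¬ kill q c z)).filter (fun z => ∀ p ∈ P, ¬ kill p (ρ p) z)).card := by
        apply card_le_card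
        intro z hz
        rw [mem_filter] at hz
        rw [mem_filter, mem_filter]
        refine ⟨⟨hz.1, ?_⟩, fun p hp => ?_⟩
        · have := hz.2 q (mem_insert_self _ _)
          rwa [if_pos rfl] at this
        · have := hz.2 p (mem_insert_of_mem hp)
          rwa [if_neg (fun h : p = q => hq (by rw [← h]; exact hp))] at this
      have h1' : ((Z.filter (fun z => ∀ p ∈ insert q P, ¬ kill p (if p = q then c else ρ p) z)).card : ℝ) ≤
          (((Z.filter (fun z => ¬ kill q c z)).filter (fun z => ∀ p ∈ P, ¬ kill p (ρ p) z)).card : ℝ) := by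
        exact_mod_cast h1
      refine h1'.trans (hρ2.trans ?_)
      have h2 : ∑ z ∈ Z, ∏ p ∈ insert q P, (1 - κ p z) = ∑ z ∈ Z, Φ z - ∑ z ∈ Z, κ q z * Φ z := by
        rw [← sum_sub_distrib]
        apply sum_congr rfl
        intro z _
        rw [prod_insert hq, sub_mul, one_mul]
      have h3 : ∑ z ∈ Z.filter (fun z => ¬ kill q c z), Φ z = ∑ z ∈ Z, Φ z - ∑ z ∈ Z.filter (fun z => kill q c z), Φ z := by
        rw [eq_sub_iff_add_eq, add_comm]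
        exact sum_filter_add_sum_filter_not _ _ _
      rw [h2]
      have h4 : ∑ z ∈ Z.filter (fun z => ¬ kill q c z), ∏ p ∈ P, (1 - κ p z) =
          ∑ z ∈ Z.filter (fun z => ¬ kill q c z), Φ z := rfl
      rw [h4, h3]
      linarith

/-- the primes of the modulus are almost all small primes -/
theorem PW_big {X : ℝ} {S : Finset ℕ} {ps : ℕ} (hS : ∑ q ∈ S, (1 : ℝ) / q ≤ 1) :
    (∀ p ∈ PW X S ps, p.Prime ∧ p ≤ yy X) ∧ ∑ p ∈ Pz (yy X) \ PW X S ps, (1 : ℝ) / p ≤ 2 := by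
  refine ⟨fun p hp => ⟨(mem_PW.1 hp).2.1, (mem_PW.1 hp).1⟩, ?_⟩
  have hpos : ∀ i : ℕ, 0 ≤ (1 : ℝ) / (i : ℝ) := fun i => by positivity
  have hsub : Pz (yy X) \ PW X S ps ⊆ S ∪ ({ps} : Finset ℕ).filter Nat.Prime := by
    intro p hp
    obtain ⟨h1, h2⟩ := mem_sdiff.1 hp
    unfold Pool.Agent.H318R2.Cr.Pz at h1
    rw [mem_filter, mem_Ioc] at h1
    rw [mem_union, mem_filter, mem_singleton]
    by_contra hcon
    push Not at hcon
    apply h2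
    rw [mem_PW]
    exact ⟨h1.1.2, h1.2, hcon.1, fun h => hcon.2 h h1.2⟩
  have h2 : ∑ q ∈ ({ps} : Finset ℕ).filter Nat.Prime, (1 : ℝ) / q ≤ 1 := by
    rw [filter_singleton]
    split_ifs with h
    · rw [sum_singleton, div_le_one (by exact_mod_cast h.pos)]
      exact_mod_cast h.one_lt.le
    · simp
  have h3 := (sum_le_sum_of_subset_of_nonneg hsub (fun i _ _ => hpos i)).trans (sum_union_le' _ hpos)
  linarith

/-- **Tuples of primes, with prescribed residues for the small primes.** -/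
theorem tupR : ∃ η : ℝ, 0 < η ∧ ∀ m : ℕ, 1 ≤ m → ∃ K : ℕ, m ≤ K ∧ ∀ D : ℕ, ∃ c₄ : ℝ, 0 < c₄ ∧
    ∀ d z₀ : ℕ, Squarefree d → ∀ᶠ X : ℝ in atTop, ∃ P : Finset ℕ, (∀ p ∈ P, p.Prime ∧ p ≤ yy X) ∧
    ∑ p ∈ Pz (yy X) \ P, (1 : ℝ) / p ≤ 2 ∧
    ∀ (α β : ℤ → ℤ) (g : ℕ), g ≠ 0 → d ∣ g → (g : ℝ) ≤ X ^ D →
    ∀ t : Fin K → ℕ, Function.Injective t → (∀ j, (t j : ℝ) ≤ (Real.log X) ^ 2) →
    (∀ p : ℕ, p.Prime → ∃ v : ℕ, ∀ j, ¬ p ∣ v + t j) →
    ∀ h : ℕ, (∀ j, (h + t j).Coprime d) →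
    ∀ col : Fin K → Fin m, (∀ e, K ≤ 2 * m * fib col e) →
    ∀ bad : Finset ℕ, (bad.card : ℝ) ≤ X ^ (9 / 10 : ℝ) →
    ∀ Z : Finset ℤ, (∀ z ∈ Z, α z ≠ 0 ∧ ∀ j, α z * t j ≠ β z) →
    (∀ z ∈ Z, |(α z : ℝ)| ≤ X ^ D ∧ |(β z : ℝ)| ≤ X ^ D) →
    (∀ k ∈ Z, ∀ l ∈ Z, k ≠ l → α k * β l ≠ α l * β k) →
    ∀ ρg : ℕ → ℕ, (∀ p ∈ P, ¬ p ∣ g → ∀ j, ¬ p ∣ ρg p + t j) →
    ((Z.filter (fun z => ∀ p ∈ P, ¬ p ∣ g → ¬ (p : ℤ) ∣ α z * ρg p + β z)).card : ℝ) ≤ c₄ * Real.log X →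
    ∃ n : ℕ, X < n ∧ (n : ℝ) ≤ 3 * X ∧ n ∉ bad ∧ n ≡ h [MOD d] ∧
      (∀ j, ∀ p : ℕ, p.Prime → p ≤ z₀ → ¬ p ∣ n + t j) ∧
      (∃ E : Finset (Fin m), η * m ≤ E.card ∧ ∀ e ∈ E, ∃ j, col j = e ∧ (n + t j).Prime) ∧
      ∀ z ∈ Z, ∃ q : ℕ, q.Prime ∧ (q : ℝ) ≤ X ^ (1 / 1000 : ℝ) ∧ ¬ q ∣ g ∧ (q : ℤ) ∣ α z * n + β z := by
  obtain ⟨η, hη, htp⟩ := templT2
  refine ⟨η, hη, fun m hm => ?_⟩
  obtain ⟨K, hmK, htK⟩ := htp m hm
  refine ⟨K, hmK, fun D => ?_⟩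
  obtain ⟨Abv, c₄, hc₄, ht⟩ := htK D
  refine ⟨c₄, hc₄, fun d z₀ hd => ?_⟩
  obtain ⟨Zm, hZm⟩ : ∃ Zm : ℕ, Zm = max 4 (max d z₀) := ⟨_, rfl⟩
  have hZ4 : 4 ≤ Zm := by rw [hZm]; exact le_max_left _ _
  have hZd : d ≤ Zm := by rw [hZm]; exact (le_max_left _ _).trans (le_max_right _ _)
  have hZz : z₀ ≤ Zm := by rw [hZm]; exact (le_max_right _ _).trans (le_max_right _ _)
  obtain ⟨X1, hbv⟩ := bvrel_holds Abv Zm
  have t1 := Real.tendsto_log_atTop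
  have t2 : Tendsto (fun y : ℝ => Real.log (Real.log y)) atTop atTop := t1.comp t1
  filter_upwards [ht Zm hZ4, eventually_ge_atTop X1, eventually_ge_atTop 4,
    t1.eventually_ge_atTop 4000, t1.eventually_ge_atTop (1000 * Zm), t2.eventually_ge_atTop (Zm + 1),
    t2.eventually_ge_atTop 100]
    with X htX hX1 hX4 hL1 hLd hL2d hL2
  obtain ⟨ps, S, hps, hS, hBV⟩ := hbv X hX1
  have hS1 : ∑ q ∈ S, (1 : ℝ) / q ≤ 1 := by
    refine hS.2.trans ?_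
    rw [div_le_one (by positivity)]
    nlinarith only [hL2]
  refine ⟨PW X S ps, (PW_big hS1).1, (PW_big hS1).2, ?_⟩
  intro α β g hg0 hdg hgD t htinj htl hadm h hhd col hcol bad hbad Z hne hle hdet ρg hρg hU0c
  have hX0 : 0 < X := by linarith
  choose! v hv using hadm
  set u : ℕ → ℕ := fun p => if p ∣ d then h else v p with hu
  have hup : ∀ p, p.Prime → ∀ j, ¬ p ∣ u p + t j := by
    intro p hp j
    simp only [hu]
    split_ifs with hpd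
    · intro hph
      exact hp.one_lt.ne' (Nat.dvd_one.1 ((hhd j) ▸ Nat.dvd_gcd hph hpd))
    · exact hv p hp j
  set U0 : Finset ℤ := Z.filter (fun z => ∀ p ∈ PW X S ps, ¬ p ∣ g → ¬ (p : ℤ) ∣ α z * ρg p + β z) with hU0
  -- the residues
  set ρ : ℕ → ℕ := fun p => if ¬ p ∣ g then ρg p else u p with hρ
  have hρt : ∀ p ∈ PW X S ps, ∀ j, ¬ p ∣ ρ p + t j := by
    intro p hp j
    by_cases h1 : p ∣ g
    · have h2 : ρ p = u p := by
        simp only [hρ]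
        rw [if_neg (not_not.2 h1)]
      rw [h2]
      exact hup p (mem_PW.1 hp).2.1 j
    · have h2 : ρ p = ρg p := by
        simp only [hρ]
        rw [if_pos h1]
      rw [h2]
      exact hρg p hp h1 j
  obtain ⟨r, hr⟩ := Nat.chineseRemainderOfFinset ρ (fun p => p) (PW X S ps)
    (fun p hp => (mem_PW.1 hp).2.1.ne_zero)
    (fun p hp q hq hpq => (Nat.coprime_primes (mem_PW.1 (by simpa using hp)).2.1
      (mem_PW.1 (by simpa using hq)).2.1).2 hpq)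
  have hrc : ∀ j, (r + t j).Coprime (WW X S ps) := by
    intro j
    unfold WW
    rw [Nat.coprime_prod_right_iff]
    intro p hp
    have hpp := (mem_PW.1 hp).2.1
    rw [Nat.coprime_comm, Nat.Prime.coprime_iff_not_dvd hpp]
    intro hd
    apply hρt p hp j
    exact (Nat.modEq_zero_iff_dvd).1 (((hr p hp).add_right (t j)).symm.trans ((Nat.modEq_zero_iff_dvd).2 hd))
  have hU0Z : ∀ z ∈ U0, z ∈ Z := fun z hz => (mem_filter.1 hz).1
  obtain ⟨n, hXn, hn3, hnb, hnr, hE, hU⟩ := htX ps S hps hS hBV t htinj htl U0 hU0c α β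
    (fun z hz => hne z (hU0Z z hz))
    (fun z hz => hle z (hU0Z z hz)) (fun k hk l hl => hdet k (hU0Z k hk) l (hU0Z l hl)) g hg0
    hgD r hrc col hcol bad hbad
  refine ⟨n, hXn, hn3, hnb, ?_, ?_, hE, fun z hz => ?_⟩
  · apply modEq_of_primes hd
    intro p hp
    have hpp := Nat.prime_of_mem_primeFactors hp
    have hpd := Nat.dvd_of_mem_primeFactors hp
    have hd0 : 0 < d := Nat.pos_of_ne_zero hd.ne_zero
    have hpled : p ≤ d := Nat.le_of_dvd hd0 hpd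
    have hpPW := small_mem_PW hLd hL2d hps le_rfl hS hpp (hpled.trans hZd)
    have h1 := hr p hpPW
    have h2 : ρ p = u p := by
      simp only [hρ]
      rw [if_neg]
      exact not_not.2 (hpd.trans hdg)
    have h3 : u p = h := by simp only [hu]; rw [if_pos hpd]
    rw [h2, h3] at h1
    exact (hnr.of_dvd ((prime_dvd_WW hpp).2 hpPW)).trans h1
  · intro j p hpp hpz hpd
    have hpPW := small_mem_PW hLd hL2d hps le_rfl hS hpp (hpz.trans hZz)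
    have hpW := (prime_dvd_WW (X := X) (S := S) (ps := ps) hpp).2 hpPW
    have h1 : n + t j ≡ r + t j [MOD p] := (hnr.of_dvd hpW).add_right _
    have h2 : p ∣ r + t j := (Nat.modEq_zero_iff_dvd).1 (h1.symm.trans ((Nat.modEq_zero_iff_dvd).2 hpd))
    exact hpp.one_lt.ne' (Nat.dvd_one.1 ((hrc j) ▸ Nat.dvd_gcd h2 hpW))
  · by_cases hzU : z ∈ U0
    · exact hU z hzU
    · have h1 : ∃ p ∈ PW X S ps, ¬ p ∣ g ∧ (p : ℤ) ∣ α z * ρg p + β z := by
        by_contra hcon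
        push Not at hcon
        exact hzU (mem_filter.2 ⟨hz, hcon⟩)
      obtain ⟨p, hpW, hpg, hpz⟩ := h1
      have hpp := (mem_PW.1 hpW).2.1
      refine ⟨p, hpp, le_rpow_of_le_yy hX0 (by linarith) (mem_PW.1 hpW).1, hpg, ?_⟩
      have h2 : n ≡ ρg p [MOD p] := by
        have h3 := (hnr.of_dvd ((prime_dvd_WW hpp).2 hpW)).trans (hr p hpW)
        have h4 : ρ p = ρg p := by simp only [hρ]; rw [if_pos hpg]
        rwa [h4] at h3
      have h3 : (p : ℤ) ∣ (n : ℤ) - ρg p := Nat.modEq_iff_dvd.1 h2.symm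
      have h4 : α z * (n : ℤ) + β z = α z * ((n : ℤ) - ρg p) + (α z * ρg p + β z) := by ring
      rw [h4]
      exact dvd_add (h3.mul_left _) hpz

/-- **One prime, with prescribed residues for the small primes.** -/
theorem oneR (D : ℕ) : ∃ c₄ : ℝ, 0 < c₄ ∧
    ∀ d z₀ : ℕ, Squarefree d → ∀ᶠ X : ℝ in atTop, ∃ P : Finset ℕ, (∀ p ∈ P, p.Prime ∧ p ≤ yy X) ∧
    ∑ p ∈ Pz (yy X) \ P, (1 : ℝ) / p ≤ 2 ∧
    ∀ (α β : ℤ → ℤ) (g : ℕ), g ≠ 0 → d ∣ g → (g : ℝ) ≤ X ^ D →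
    ∀ h : ℕ, h.Coprime d →
    ∀ bad : Finset ℕ, (bad.card : ℝ) ≤ X ^ (9 / 10 : ℝ) →
    ∀ Z : Finset ℤ, (∀ z ∈ Z, α z ≠ 0 ∧ β z ≠ 0) →
    (∀ z ∈ Z, |(α z : ℝ)| ≤ X ^ D ∧ |(β z : ℝ)| ≤ X ^ D) →
    (∀ k ∈ Z, ∀ l ∈ Z, k ≠ l → α k * β l ≠ α l * β k) →
    ∀ ρg : ℕ → ℕ, (∀ p ∈ P, ¬ p ∣ g → ¬ p ∣ ρg p) →
    ((Z.filter (fun z => ∀ p ∈ P, ¬ p ∣ g → ¬ (p : ℤ) ∣ α z * ρg p + β z)).card : ℝ) ≤ c₄ * Real.log X →
    ∃ n : ℕ, n.Prime ∧ X < n ∧ (n : ℝ) ≤ 3 * X ∧ n ∉ bad ∧ n ≡ h [MOD d] ∧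
      (∀ p : ℕ, p.Prime → p ≤ z₀ → ¬ p ∣ n) ∧
      ∀ z ∈ Z, ∃ q : ℕ, q.Prime ∧ (q : ℝ) ≤ X ^ (1 / 1000 : ℝ) ∧ ¬ q ∣ g ∧ (q : ℤ) ∣ α z * n + β z := by
  obtain ⟨Abv, c₄, hc₄, ht⟩ := templ2 D
  refine ⟨c₄, hc₄, fun d z₀ hd => ?_⟩
  obtain ⟨Zm, hZm⟩ : ∃ Zm : ℕ, Zm = max 4 (max d z₀) := ⟨_, rfl⟩
  have hZd : d ≤ Zm := by rw [hZm]; exact (le_max_left _ _).trans (le_max_right _ _)
  have hZz : z₀ ≤ Zm := by rw [hZm]; exact (le_max_right _ _).trans (le_max_right _ _)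
  obtain ⟨X1, hbv⟩ := bvrel_holds Abv Zm
  have t1 := Real.tendsto_log_atTop
  have t2 : Tendsto (fun y : ℝ => Real.log (Real.log y)) atTop atTop := t1.comp t1
  filter_upwards [ht Zm, eventually_ge_atTop X1, eventually_ge_atTop 4,
    t1.eventually_ge_atTop 4000, t1.eventually_ge_atTop (1000 * Zm), t2.eventually_ge_atTop (Zm + 1),
    t2.eventually_ge_atTop 100]
    with X htX hX1 hX4 hL1 hLd hL2d hL2
  obtain ⟨ps, S, hps, hS, hBV⟩ := hbv X hX1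
  have hS1 : ∑ q ∈ S, (1 : ℝ) / q ≤ 1 := by
    refine hS.2.trans ?_
    rw [div_le_one (by positivity)]
    nlinarith only [hL2]
  refine ⟨PW X S ps, (PW_big hS1).1, (PW_big hS1).2, ?_⟩
  intro α β g hg0 hdg hgD h hhd bad hbad Z hne hle hdet ρg hρg hU0c
  have hX0 : 0 < X := by linarith
  set u : ℕ → ℕ := fun p => if p ∣ d then h else 1 with hu
  have hup : ∀ p, p.Prime → ¬ p ∣ u p := by
    intro p hp
    simp only [hu]
    split_ifs with hpd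
    · intro hph
      exact hp.one_lt.ne' (Nat.dvd_one.1 (hhd ▸ Nat.dvd_gcd hph hpd))
    · intro h1
      exact hp.one_lt.ne' (Nat.dvd_one.1 h1)
  set U0 : Finset ℤ := Z.filter (fun z => ∀ p ∈ PW X S ps, ¬ p ∣ g → ¬ (p : ℤ) ∣ α z * ρg p + β z) with hU0
  set ρ : ℕ → ℕ := fun p => if ¬ p ∣ g then ρg p else u p with hρ
  have hρt : ∀ p ∈ PW X S ps, ¬ p ∣ ρ p := by
    intro p hp
    by_cases h1 : p ∣ g
    · have h2 : ρ p = u p := by
        simp only [hρ]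
        rw [if_neg (not_not.2 h1)]
      rw [h2]
      exact hup p (mem_PW.1 hp).2.1
    · have h2 : ρ p = ρg p := by
        simp only [hρ]
        rw [if_pos h1]
      rw [h2]
      exact hρg p hp h1
  obtain ⟨r, hr⟩ := Nat.chineseRemainderOfFinset ρ (fun p => p) (PW X S ps)
    (fun p hp => (mem_PW.1 hp).2.1.ne_zero)
    (fun p hp q hq hpq => (Nat.coprime_primes (mem_PW.1 (by simpa using hp)).2.1
      (mem_PW.1 (by simpa using hq)).2.1).2 hpq)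
  have hrc : r.Coprime (WW X S ps) := by
    unfold WW
    rw [Nat.coprime_prod_right_iff]
    intro p hp
    have hpp := (mem_PW.1 hp).2.1
    rw [Nat.coprime_comm, Nat.Prime.coprime_iff_not_dvd hpp]
    intro hd
    apply hρt p hp
    exact (Nat.modEq_zero_iff_dvd).1 ((hr p hp).symm.trans ((Nat.modEq_zero_iff_dvd).2 hd))
  have hU0Z : ∀ z ∈ U0, z ∈ Z := fun z hz => (mem_filter.1 hz).1
  obtain ⟨n, hnp, hXn, hn3, hnb, hnr, hU⟩ := htX ps S hps hBV U0 hU0c α β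
    (fun z hz => hne z (hU0Z z hz))
    (fun z hz => hle z (hU0Z z hz)) (fun k hk l hl => hdet k (hU0Z k hk) l (hU0Z l hl)) g hg0
    hgD r hrc bad hbad
  refine ⟨n, hnp, hXn, hn3, hnb, ?_, ?_, fun z hz => ?_⟩
  · apply modEq_of_primes hd
    intro p hp
    have hpp := Nat.prime_of_mem_primeFactors hp
    have hpd := Nat.dvd_of_mem_primeFactors hp
    have hd0 : 0 < d := Nat.pos_of_ne_zero hd.ne_zero
    have hpled : p ≤ d := Nat.le_of_dvd hd0 hpd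
    have hpPW := small_mem_PW hLd hL2d hps le_rfl hS hpp (hpled.trans hZd)
    have h1 := hr p hpPW
    have h2 : ρ p = u p := by
      simp only [hρ]
      rw [if_neg]
      exact not_not.2 (hpd.trans hdg)
    have h3 : u p = h := by simp only [hu]; rw [if_pos hpd]
    rw [h2, h3] at h1
    exact (hnr.of_dvd ((prime_dvd_WW hpp).2 hpPW)).trans h1
  · intro p hpp hpz hpd
    have hpPW := small_mem_PW hLd hL2d hps le_rfl hS hpp (hpz.trans hZz)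
    have hpW := (prime_dvd_WW (X := X) (S := S) (ps := ps) hpp).2 hpPW
    have h1 : n ≡ r [MOD p] := hnr.of_dvd hpW
    have h2 : p ∣ r := (Nat.modEq_zero_iff_dvd).1 (h1.symm.trans ((Nat.modEq_zero_iff_dvd).2 hpd))
    exact hpp.one_lt.ne' (Nat.dvd_one.1 (hrc ▸ Nat.dvd_gcd h2 hpW))
  · by_cases hzU : z ∈ U0
    · exact hU z hzU
    · have h1 : ∃ p ∈ PW X S ps, ¬ p ∣ g ∧ (p : ℤ) ∣ α z * ρg p + β z := by
        by_contra hcon
        push Not at hcon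
        exact hzU (mem_filter.2 ⟨hz, hcon⟩)
      obtain ⟨p, hpW, hpg, hpz⟩ := h1
      have hpp := (mem_PW.1 hpW).2.1
      refine ⟨p, hpp, le_rpow_of_le_yy hX0 (by linarith) (mem_PW.1 hpW).1, hpg, ?_⟩
      have h2 : n ≡ ρg p [MOD p] := by
        have h3 := (hnr.of_dvd ((prime_dvd_WW hpp).2 hpW)).trans (hr p hpW)
        have h4 : ρ p = ρg p := by simp only [hρ]; rw [if_pos hpg]
        rwa [h4] at h3
      have h3 : (p : ℤ) ∣ (n : ℤ) - ρg p := Nat.modEq_iff_dvd.1 h2.symm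
      have h4 : α z * (n : ℤ) + β z = α z * ((n : ℤ) - ρg p) + (α z * ρg p + β z) := by ring
      rw [h4]
      exact dvd_add (h3.mul_left _) hpz

end Pool.Agent.Q145.MT
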