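import Pool.Agent.Q145.MT.TupPat
import Pool.Agent.Q145.GB.Mom

set_option autoImplicit false
set_option maxHeartbeats 4000000

/-! # The small primes in the Goldbach representations -/

namespace Pool.Agent.Q145.MT

open Finset Filter
open Pool.Agent.H378R2
open Pool.Agent.H362R2.RQ (fib)
open Pool.Agent.H256R2.SC (ff)
open Pool.Agent.TH101.RG

open scoped Classical

/-- `F(x) = log x (log₂ x)³ log₄ x / (log₃ x)²`. -/
noncomputable def FF (x : ℝ) : ℝ := ff x * Real.log (Real.log x)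

theorem log_sq_le {t : ℝ} (ht : 1 ≤ t) : (Real.log t) ^ 2 ≤ 4 * t := by
  have hs : 0 < Real.sqrt t := Real.sqrt_pos.2 (by linarith)
  have h1 := Real.log_le_sub_one_of_pos hs
  rw [Real.log_sqrt (by linarith)] at h1
  have h2 : Real.sqrt t ^ 2 = t := Real.sq_sqrt (by linarith)
  have h3 := Real.log_nonneg ht
  nlinarith

/-- simple bounds for `F` -/
theorem FF_bounds {x : ℝ} (h1 : 1 ≤ Real.log x) (h2 : 1 ≤ Real.log (Real.log x))
    (h3 : 1 ≤ Real.log (Real.log (Real.log x))) (h4 : 1 ≤ Real.log (Real.log (Real.log (Real.log x)))) :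
    FF x ≤ Real.log x * (Real.log (Real.log x)) ^ 4 ∧
      Real.log x * (Real.log (Real.log x)) ^ 2 / 4 ≤ FF x := by
  have h0 : FF x = Real.log x * (Real.log (Real.log x)) ^ 3 * Real.log (Real.log (Real.log (Real.log x))) /
      (Real.log (Real.log (Real.log x))) ^ 2 := by
    unfold FF Pool.Agent.H256R2.SC.ff
    ring
  rw [h0]
  set l1 := Real.log x with hl1
  set l2 := Real.log l1 with hl2
  set l3 := Real.log l2 with hl3
  set l4 := Real.log l3 with hl4
  have p1 : 0 < l1 := by linarith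
  have p2 : 0 < l2 := by linarith
  have p3 : 0 < l3 := by linarith
  have p4 : 0 < l4 := by linarith
  have q1 : l3 ^ 2 ≤ 4 * l2 := log_sq_le (by linarith)
  have q3 : l4 ≤ l3 := by
    have := Real.log_le_sub_one_of_pos p3
    linarith
  constructor
  · have e1 : l4 / l3 ^ 2 ≤ 1 := by
      rw [div_le_one (by positivity)]
      nlinarith
    have e2 : l2 ^ 3 ≤ l2 ^ 4 := pow_le_pow_right₀ (by linarith) (by norm_num)
    calc l1 * l2 ^ 3 * l4 / l3 ^ 2 = l1 * l2 ^ 3 * (l4 / l3 ^ 2) := by ring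
      _ ≤ l1 * l2 ^ 3 * 1 := by gcongr
      _ ≤ l1 * l2 ^ 4 := by rw [mul_one]; gcongr
  · have e1 : l1 * l2 ^ 3 * l4 / (4 * l2) ≤ l1 * l2 ^ 3 * l4 / l3 ^ 2 :=
      div_le_div_of_nonneg_left (by positivity) (by positivity) q1
    refine le_trans ?_ e1
    have e2 : l1 * l2 ^ 3 * l4 / (4 * l2) = l1 * l2 ^ 2 * l4 / 4 := by
      field_simp
    rw [e2]
    have : l1 * l2 ^ 2 * 1 ≤ l1 * l2 ^ 2 * l4 := by gcongr
    linarith

/-- the iterated logarithms are large -/
theorem ev (B : ℝ) : ∀ᶠ x : ℝ in atTop, B ≤ x ∧ B ≤ Real.log x ∧ B ≤ Real.log (Real.log x) ∧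
    B ≤ Real.log (Real.log (Real.log x)) ∧ B ≤ Real.log (Real.log (Real.log (Real.log x))) := by
  have t1 := Real.tendsto_log_atTop
  have t2 : Tendsto (fun x : ℝ => Real.log (Real.log x)) atTop atTop := t1.comp t1
  have t3 : Tendsto (fun x : ℝ => Real.log (Real.log (Real.log x))) atTop atTop := t1.comp t2
  have t4 : Tendsto (fun x : ℝ => Real.log (Real.log (Real.log (Real.log x)))) atTop atTop := t1.comp t3
  filter_upwards [eventually_ge_atTop B, t1.eventually_ge_atTop B, t2.eventually_ge_atTop B,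
    t3.eventually_ge_atTop B, t4.eventually_ge_atTop B] with x a1 a2 a3 a4 a5
  exact ⟨a1, a2, a3, a4, a5⟩

/-- a class avoided by a tuple of primes larger than the length of the tuple -/
theorem adm_of_primes {K Q : ℕ} (q : Fin K → ℕ) (hq : ∀ j, (q j).Prime ∧ K < q j ∧ q j ≤ Q) (p : ℕ)
    (hp : p.Prime) : ∃ v : ℕ, ∀ j, ¬ p ∣ v + (Q - q j) := by
  rcases Nat.lt_or_ge K p with hpK | hpK
  · by_contra hcon
    push Not at hcon
    choose f hf using hcon
    have hinj : Set.InjOn f (range p : Finset ℕ) := by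
      intro v hv v' hv' h
      rw [mem_coe, mem_range] at hv hv'
      have h1 := hf v
      have h2 := hf v'
      rw [h] at h1
      have h3 : (v + (Q - q (f v'))) ≡ (v' + (Q - q (f v'))) [MOD p] :=
        ((Nat.modEq_zero_iff_dvd).2 h1).trans ((Nat.modEq_zero_iff_dvd).2 h2).symm
      have h4 := Nat.ModEq.add_right_cancel' _ h3
      exact Nat.ModEq.eq_of_lt_of_lt h4 hv hv'
    have h1 := card_le_card_of_injOn f (fun v _ => mem_coe.2 (mem_univ (f v))) hinj
    rw [card_range, card_univ, Fintype.card_fin] at h1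
    omega
  · refine ⟨(p - 1) * Q, fun j hd => ?_⟩
    obtain ⟨h1, h2, h3⟩ := hq j
    have h4 : (p - 1) * Q + (Q - q j) + q j = p * Q := by
      have h5 : (p - 1) * Q + Q = p * Q := by
        rw [← Nat.succ_mul]
        congr 1
        have := hp.pos
        omega
      omega
    have h5 : p ∣ q j := by
      have h6 : p ∣ (p - 1) * Q + (Q - q j) + q j := by rw [h4]; exact dvd_mul_right _ _
      exact (Nat.dvd_add_right hd).1 h6
    have h6 := (Nat.prime_dvd_prime_iff_eq hp h1).1 h5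
    omega

/-- a product is at most the sum of the powers -/
theorem prod_le_sum_pow {K : ℕ} (hK : 1 ≤ K) (w : Fin K → ℝ) (hw : ∀ j, 0 ≤ w j) :
    ∏ j, w j ≤ ∑ j, w j ^ K := by
  have : Nonempty (Fin K) := ⟨⟨0, by omega⟩⟩
  obtain ⟨j₀, hj₀⟩ := Finite.exists_max w
  calc ∏ j, w j ≤ ∏ _j : Fin K, w j₀ := Finset.prod_le_prod (fun j _ => hw j) (fun j _ => hj₀ j)
    _ = w j₀ ^ K := by simp
    _ ≤ ∑ j, w j ^ K := single_le_sum (f := fun j => w j ^ K) (fun j _ => pow_nonneg (hw j) K) (mem_univ j₀)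

theorem sum_biUnion_le {ι : Type} (s : Finset ι) (t : ι → Finset ℤ) (w : ℤ → ℝ) (hw : ∀ z, 0 ≤ w z) :
    ∑ z ∈ s.biUnion t, w z ≤ ∑ i ∈ s, ∑ z ∈ t i, w z := by
  induction s using Finset.induction_on with
  | empty => simp
  | insert a s ha ih =>
    rw [biUnion_insert, sum_insert ha]
    have h1 := sum_union_inter (s₁ := t a) (s₂ := s.biUnion t) (f := w)
    have h2 : 0 ≤ ∑ z ∈ t a ∩ s.biUnion t, w z := sum_nonneg fun z _ => hw z
    linarith

/-- **The set of the small primes in the Goldbach representations.** -/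
theorem signatures : ∃ η : ℝ, 0 < η ∧ ∀ m : ℕ, 1 ≤ m → ∃ K : ℕ, m ≤ K ∧ ∀ J : ℕ, 1 ≤ J → ∃ c : ℝ, 0 < c ∧
    c ≤ 1 ∧ ∀ᶠ x : ℝ in atTop,
    ∀ q : Fin K → ℕ, Function.Injective q → (∀ j, (q j).Prime ∧ K < q j ∧ q j ≠ 2 ∧ (q j : ℝ) ≤ c * FF x) →
    ∀ col : Fin K → Fin m, (∀ e, K ≤ 2 * m * fib col e) →
    ∀ bad : Finset ℕ, (bad.card : ℝ) ≤ x ^ (9 / 10 : ℝ) →
    ∃ N : ℕ, x < N ∧ (N : ℝ) ≤ 4 * x ∧ Even N ∧ N ∉ bad ∧ (∀ j, q j ≤ N) ∧
      (∃ E : Finset (Fin m), η * m ≤ E.card ∧ ∀ e ∈ E, ∃ j, col j = e ∧ (N - q j).Prime) ∧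
      ∀ i : ℕ, 1 ≤ i → i ≤ J → ∀ p p' : ℕ, p.Prime → p'.Prime → (p : ℝ) ≤ c * FF x →
        (p + p' = i * N → i = 1 ∧ ∃ l, p = q l) ∧ i * N + p ≠ p' := by
  obtain ⟨η, hη, htup⟩ := tuple_pattern_free
  refine ⟨η, hη, fun m hm => ?_⟩
  obtain ⟨K, hmK, htupK⟩ := htup m hm
  refine ⟨K, hmK, fun J hJ => ?_⟩
  have hK1 : 1 ≤ K := hm.trans hmK
  have hKr : (1 : ℝ) ≤ K := by exact_mod_cast hK1
  have hJr : (1 : ℝ) ≤ J := by exact_mod_cast hJ
  obtain ⟨C, hC, hmom⟩ := Pool.Agent.Q145.GB.sum_ratio_pow K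
  obtain ⟨c₁, hc₁, hone⟩ := htupK 5 J 2 Nat.prime_two.squarefree
  obtain ⟨c, hc⟩ : ∃ c : ℝ, c = min 1 (c₁ / (3 * (J + 1) * (K * C))) := ⟨_, rfl⟩
  have hJp : 0 < 3 * ((J : ℝ) + 1) * (K * C) := by positivity
  have hc0 : 0 < c := by rw [hc]; exact lt_min one_pos (by positivity)
  have hc1 : c ≤ 1 := by rw [hc]; exact min_le_left _ _
  have hc2 : 3 * (J + 1) * (K * C) * c ≤ c₁ := by
    have : c ≤ c₁ / (3 * (J + 1) * (K * C)) := by rw [hc]; exact min_le_right _ _
    rw [le_div_iff₀ hJp] at this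
    linarith
  refine ⟨c, hc0, hc1, ?_⟩
  have t1 := Real.tendsto_log_atTop
  have t2 : Tendsto (fun x : ℝ => Real.log (Real.log x)) atTop atTop := t1.comp t1
  filter_upwards [hone, ev (100 + J + 8 / c + 16 * ((2 * J : ℕ) + 1 : ℝ) ^ 2),
    t2.eventually (ev_pow_exp 4 1 1 one_pos), t1.eventually (ev_pow_exp 2 1 1 one_pos)]
    with x hx hev hl24 hl12
  obtain ⟨m0, m1, m2, m3, m4⟩ := hev
  intro q hqinj hq col hcol bad hbad
  have hJ2 : 0 ≤ 16 * (((2 * J : ℕ) : ℝ) + 1) ^ 2 := by positivity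
  have hc8 : 0 < 8 / c := by positivity
  obtain ⟨b1, b2⟩ := FF_bounds (x := x) (by linarith) (by linarith) (by linarith) (by linarith)
  obtain ⟨l1, hl1⟩ : ∃ l1 : ℝ, l1 = Real.log x := ⟨_, rfl⟩
  obtain ⟨l2, hl2⟩ : ∃ l2 : ℝ, l2 = Real.log l1 := ⟨_, rfl⟩
  rw [← hl1] at m1 m2 b1 b2 hl12 hl24
  rw [← hl2] at m2 b1 b2 hl24
  have p1 : 0 < l1 := by linarith
  have p2 : 0 < l2 := by linarith
  have hx0 : 0 < x := by linarith
  have hl24' : l2 ^ 4 ≤ l1 := by
    have h1 : Real.exp (1 * l2) = l1 := by rw [one_mul, hl2, Real.exp_log p1]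
    rw [h1, one_mul] at hl24
    exact hl24
  have hl12' : l1 ^ 2 ≤ x := by
    have h1 : Real.exp (1 * l1) = x := by rw [one_mul, hl1, Real.exp_log hx0]
    rw [h1, one_mul] at hl12
    exact hl12
  have hF0 : 0 < FF x := lt_of_lt_of_le (by positivity) b2
  have hFf : FF x = ff x * l2 := by rw [hl2, hl1]; rfl
  have hf0 : 0 < ff x := by
    rw [hFf] at hF0
    exact (mul_pos_iff_of_pos_right p2).1 hF0
  -- lower bound for c F
  have hFlow : l1 + 1 ≤ c * FF x := by
    have h1 : 8 / c ≤ l2 := by linarith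
    have h2 : 8 ≤ c * l2 := by
      rw [div_le_iff₀ hc0] at h1
      linarith
    have h3 : c * (l1 * l2 ^ 2 / 4) ≤ c * FF x := by gcongr
    have h4 : l1 * (8 * 1) / 4 ≤ l1 * ((c * l2) * l2) / 4 := by
      have : 8 * 1 ≤ (c * l2) * l2 := mul_le_mul h2 (by linarith) (by norm_num) (by positivity)
      gcongr
    have h5 : c * (l1 * l2 ^ 2 / 4) = l1 * ((c * l2) * l2) / 4 := by ring
    linarith
  obtain ⟨M, hM⟩ : ∃ M : ℕ, M = ⌊c * FF x⌋₊ := ⟨_, rfl⟩
  have hM1 : (M : ℝ) ≤ c * FF x := by rw [hM]; exact Nat.floor_le (by positivity)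
  have hM2 : l1 ≤ M := by
    have := Nat.lt_floor_add_one (c * FF x)
    rw [← hM] at this
    linarith
  have hMle : ∀ p : ℕ, (p : ℝ) ≤ c * FF x → p ≤ M := fun p hp => by
    rw [hM]
    exact Nat.le_floor hp
  have hMJ : 16 * (2 * J + 1) ^ 2 ≤ M := by
    have : (16 : ℝ) * (((2 * J : ℕ) : ℝ) + 1) ^ 2 ≤ M := by linarith
    exact_mod_cast this
  have hMpos : (0 : ℝ) < M := by linarith
  have hlogM : l2 ≤ Real.log M := by
    rw [hl2]
    exact Real.log_le_log p1 hM2
  have hMlog : (M : ℝ) / Real.log M ≤ c * ff x := by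
    rw [div_le_iff₀ (by linarith)]
    calc (M : ℝ) ≤ c * FF x := hM1
      _ = c * ff x * l2 := by rw [hFf]; ring
      _ ≤ c * ff x * Real.log M := by gcongr
  have hMF : (M : ℝ) ≤ l1 * l2 ^ 4 := by
    calc (M : ℝ) ≤ c * FF x := hM1
      _ ≤ 1 * FF x := by gcongr
      _ ≤ l1 * l2 ^ 4 := by rw [one_mul]; exact b1
  have hMl : (M : ℝ) ≤ l1 ^ 2 := by
    calc (M : ℝ) ≤ l1 * l2 ^ 4 := hMF
      _ ≤ l1 * l1 := by gcongr
      _ = l1 ^ 2 := by ring
  have hMx : (M : ℝ) ≤ x := hMl.trans hl12'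
  have hqM : ∀ j, (q j).Prime ∧ K < q j ∧ q j ≤ M := fun j =>
    ⟨(hq j).1, (hq j).2.1, hMle _ (hq j).2.2.2⟩
  have hqodd : ∀ j, Odd (q j) := fun j => ((hq j).1.eq_two_or_odd').resolve_left (hq j).2.2.1
  -- the tuple
  set t : Fin K → ℕ := fun j => M - q j with ht
  have htinj : Function.Injective t := by
    intro j j' h
    have h1 : M - q j = M - q j' := h
    have h2 := (hqM j).2.2
    have h3 := (hqM j').2.2
    exact hqinj (by omega)
  have htM : ∀ j, t j ≤ M := fun j => Nat.sub_le _ _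
  have htl : ∀ j, (t j : ℝ) ≤ (Real.log x) ^ 2 := by
    intro j
    rw [← hl1]
    have : (t j : ℝ) ≤ M := by exact_mod_cast htM j
    linarith
  have hh : ∀ j, (M + t j).Coprime 2 := by
    intro j
    rw [Nat.coprime_two_right]
    obtain ⟨k, hk⟩ := hqodd j
    have h2 := (hqM j).2.2
    refine ⟨M - k - 1, ?_⟩
    show M + (M - q j) = 2 * (M - k - 1) + 1
    omega
  -- the set of the shifts
  obtain ⟨I, hI⟩ : ∃ I : Finset ℤ, I = (Icc (-(J : ℤ)) J).filter (fun i => i ≠ 0) := ⟨_, rfl⟩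
  obtain ⟨PS, hPS⟩ : ∃ PS : Finset ℕ, PS = (Icc 1 M).filter (fun p : ℕ => p.Prime) := ⟨_, rfl⟩
  obtain ⟨Z, hZ⟩ : ∃ Z : Finset ℤ, Z = I.biUnion (fun i => PS.image (fun p : ℕ => (i * M - p : ℤ))) := ⟨_, rfl⟩
  have hIabs : ∀ i ∈ I, i.natAbs ≤ J := by
    intro i hi
    rw [hI, mem_filter, mem_Icc] at hi
    omega
  have hIcard : (I.card : ℝ) ≤ 3 * (J + 1) := by
    have h1 : I.card ≤ (Icc (-(J : ℤ)) J).card := by rw [hI]; exact card_le_card (filter_subset _ _)
    rw [Int.card_Icc] at h1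
    have h2 : I.card ≤ 3 * (J + 1) := by omega
    exact_mod_cast h2
  have hZ0 : ∀ z ∈ Z, |(z : ℝ)| ≤ Real.log x * (Real.log (Real.log x)) ^ 5 := by
    intro z hz
    rw [hZ, mem_biUnion] at hz
    obtain ⟨i, hi, hz⟩ := hz
    obtain ⟨p, hp, rfl⟩ := mem_image.1 hz
    rw [hPS, mem_filter, mem_Icc] at hp
    obtain ⟨⟨hp1, hp2⟩, hp3⟩ := hp
    have h1 : |(i : ℝ)| ≤ J := by
      have := hIabs i hi
      have h2 : ((i.natAbs : ℕ) : ℝ) ≤ J := by exact_mod_cast this
      rwa [Nat.cast_natAbs, Int.cast_abs] at h2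
    have h2 : (p : ℝ) ≤ M := by exact_mod_cast hp2
    rw [← hl1, ← hl2]
    push_cast
    calc |(i : ℝ) * M - p| ≤ |(i : ℝ) * M| + |(p : ℝ)| := abs_sub _ _
      _ = |(i : ℝ)| * M + p := by
          rw [abs_mul, Nat.abs_cast, Nat.abs_cast]
      _ ≤ J * M + M := by gcongr
      _ = (J + 1) * M := by ring
      _ ≤ l2 * (l1 * l2 ^ 4) := mul_le_mul (by linarith) hMF hMpos.le p2.le
      _ = l1 * l2 ^ 5 := by ring
  have hZw : ∀ i' : ℤ, 1 ≤ |i'| → |i'| ≤ J → ∑ z ∈ Z, wZ (fun j => i' * t j) z ≤ c₁ * ff x := by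
    intro i' hi1 hi2
    have h1 : ∑ z ∈ Z, wZ (fun j => i' * t j) z ≤
        ∑ i ∈ I, ∑ p ∈ PS, wZ (fun j => i' * t j) (i * M - p) := by
      rw [hZ]
      refine (sum_biUnion_le _ _ _ (wZ_nonneg _)).trans (sum_le_sum fun i _ => ?_)
      exact sum_image_le' _ _ _ (wZ_nonneg _)
    refine h1.trans ?_
    have h2 : ∀ i ∈ I, ∑ p ∈ PS, wZ (fun j => i' * t j) (i * M - p) ≤ K * (C * (M / Real.log M)) := by
      intro i hi
      have h3 : ∀ p ∈ PS, wZ (fun j => i' * (t j : ℤ)) (i * M - p) ≤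
          ∑ j : Fin K, ((((i * M - i' * t j) - p : ℤ).natAbs : ℝ) /
            (((i * M - i' * t j) - p : ℤ).natAbs.totient : ℝ)) ^ K := by
        intro p _
        unfold wZ
        refine (prod_le_sum_pow hK1 _ (fun j => by positivity)).trans (le_of_eq ?_)
        apply sum_congr rfl
        intro j _
        have h4 : i * (M : ℤ) - p - i' * t j = (i * M - i' * t j) - p := by ring
        rw [h4]
      refine (sum_le_sum h3).trans ?_
      rw [sum_comm]
      have h4 : ∀ j ∈ (univ : Finset (Fin K)), ∑ p ∈ PS, ((((i * M - i' * t j) - p : ℤ).natAbs : ℝ) /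
            (((i * M - i' * t j) - p : ℤ).natAbs.totient : ℝ)) ^ K ≤ C * (M / Real.log M) := by
        intro j _
        have h5 := hmom (2 * J) M hMJ (i * M - i' * t j) (by
          have e1 := hIabs i hi
          have e2 := htM j
          have e3 : (i * (M : ℤ) - i' * t j).natAbs ≤ i.natAbs * M + i'.natAbs * t j := by
            have := Int.natAbs_sub_le (i * (M : ℤ)) (i' * t j)
            rw [Int.natAbs_mul, Int.natAbs_mul, Int.natAbs_natCast, Int.natAbs_natCast] at this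
            exact this
          have e4 : i'.natAbs ≤ J := by
            rw [Int.abs_eq_natAbs] at hi2
            exact_mod_cast hi2
          calc (i * (M : ℤ) - i' * t j).natAbs ≤ i.natAbs * M + i'.natAbs * t j := e3
            _ ≤ J * M + J * M := Nat.add_le_add (Nat.mul_le_mul_right _ e1) (Nat.mul_le_mul e4 e2)
            _ = 2 * J * M := by ring)
        refine le_trans (le_of_eq ?_) h5
        symm
        apply sum_subset
        · intro p hp
          rw [mem_filter] at hp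
          rw [hPS, mem_filter]
          exact ⟨hp.1, hp.2.1⟩
        · intro p hp hp2
          rw [hPS, mem_filter] at hp
          have h6 : (p : ℤ) = i * M - i' * t j := by
            by_contra hne
            exact hp2 (mem_filter.2 ⟨hp.1, hp.2, hne⟩)
          rw [h6, sub_self, Int.natAbs_zero, Nat.cast_zero, zero_div, zero_pow (by omega)]
      refine (sum_le_card_nsmul _ _ _ h4).trans (le_of_eq ?_)
      rw [nsmul_eq_mul, card_univ, Fintype.card_fin]
    refine (sum_le_card_nsmul _ _ _ h2).trans ?_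
    rw [nsmul_eq_mul]
    calc (I.card : ℝ) * (K * (C * (M / Real.log M))) ≤ (3 * (J + 1)) * (K * (C * (c * ff x))) := by gcongr
      _ = (3 * (J + 1) * (K * C) * c) * ff x := by ring
      _ ≤ c₁ * ff x := by gcongr
  obtain ⟨n, hxn, hn3, hnb, hn2, ⟨E, hE1, hE2⟩, hmain⟩ := hx t htinj htl (adm_of_primes q hqM) M hh col hcol Z hZ0
    hZw (bad.image (fun N => N - M)) (le_trans (by exact_mod_cast card_image_le) hbad)
  have hnM : (M : ℝ) < n := by linarith
  have hnM' : M < n := by exact_mod_cast hnM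
  refine ⟨n + M, by push_cast; linarith, by push_cast; linarith, ?_, ?_,
    fun j => (hqM j).2.2.trans (Nat.le_add_left _ _), ⟨E, hE1, fun e he => ?_⟩, ?_⟩
  · have h1 : n % 2 = M % 2 := hn2
    rw [Nat.even_iff]
    omega
  · intro h
    apply hnb
    rw [mem_image]
    exact ⟨n + M, h, Nat.add_sub_cancel n M⟩
  · obtain ⟨j, hj1, hj2⟩ := hE2 e he
    refine ⟨j, hj1, ?_⟩
    have h1 := (hqM j).2.2
    have h2 : n + M - q j = n + t j := by
      show n + M - q j = n + (M - q j)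
      omega
    rw [h2]
    exact hj2
  · intro i hi1 hi2 p p' hp hp' hpF
    have hpM : p ≤ M := hMle p hpF
    have hpPS : p ∈ PS := by
      rw [hPS, mem_filter, mem_Icc]
      exact ⟨⟨hp.one_lt.le, hpM⟩, hp⟩
    constructor
    · intro h
      have h2 : ((p + p' : ℕ) : ℤ) = ((i * (n + M) : ℕ) : ℤ) := by rw [h]
      push_cast at h2
      obtain ⟨l, hl⟩ := hmain i 1 (by simp; omega) (by simp; omega) (by simp) (by simp; omega) p' hp' (by
        rw [hZ, mem_biUnion]
        refine ⟨i, ?_, ?_⟩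
        · rw [hI, mem_filter, mem_Icc]
          omega
        · rw [mem_image]
          exact ⟨p, hpPS, by linarith⟩)
      have h3 := (hqM l).2.2
      have h4 : p' = n + (M - q l) := hl
      have h5 : i = 1 := by
        by_contra hne
        have h6 : 2 ≤ i := by omega
        have h7 : 2 * (n + M) ≤ i * (n + M) := Nat.mul_le_mul_right _ h6
        omega
      refine ⟨h5, l, ?_⟩
      rw [h5] at h
      omega
    · intro h
      have h2 : ((i * (n + M) + p : ℕ) : ℤ) = (p' : ℤ) := by rw [h]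
      push_cast at h2
      obtain ⟨l, hl⟩ := hmain (-i) (-1) (by simp; omega) (by simp; omega) (by simp) (by simp; omega) p' hp' (by
        rw [hZ, mem_biUnion]
        refine ⟨-i, ?_, ?_⟩
        · rw [hI, mem_filter, mem_Icc]
          omega
        · rw [mem_image]
          exact ⟨p, hpPS, by linarith⟩)
      have h4 : p' = n + (M - q l) := hl
      have h7 : 1 * (n + M) ≤ i * (n + M) := Nat.mul_le_mul_right _ hi1
      have h8 := hp.pos
      omega

end Pool.Agent.Q145.MT
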