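import Pool.Agent.Q145.MT.Gold

set_option autoImplicit false
set_option maxHeartbeats 4000000

/-! # The small summands from an arbitrary set of primes in the Goldbach representations -/

namespace Pool.Agent.Q145.MT

open Finset Filter
open Pool.Agent.H378R2
open Pool.Agent.H362R2.RQ (fib)
open Pool.Agent.H256R2.SC (ff)
open Pool.Agent.TH101.RG

open scoped Classical

/-- Hölder's inequality for one function on a subset -/
theorem holder_sub {ι : Type} (s t : Finset ι) (hst : s ⊆ t) (w : ι → ℝ) (hw : ∀ i, 0 ≤ w i) (k : ℕ) (hk : 1 ≤ k) :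
    ∑ i ∈ s, w i ≤ (s.card : ℝ) ^ (1 - 1 / (k : ℝ)) * (∑ i ∈ t, w i ^ k) ^ (1 / (k : ℝ)) := by
  have hk0 : (0 : ℝ) < k := by exact_mod_cast hk
  have hT : 0 ≤ ∑ i ∈ t, w i ^ k := sum_nonneg fun i _ => pow_nonneg (hw i) k
  rcases s.eq_empty_or_nonempty with he | hne
  · rw [he]
    simp only [sum_empty]
    positivity
  have hc : 0 < (s.card : ℝ) := by exact_mod_cast hne.card_pos
  have h1 : (∑ i ∈ s, w i) ^ k ≤ (s.card : ℝ) ^ (k - 1) * ∑ i ∈ s, w i ^ k := by
    have h0 := Pool.Agent.Q145.GB.inner_le_pow_mean s (fun _ => 1 / (s.card : ℝ)) w (fun _ _ => by positivity)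
      (by rw [sum_const, nsmul_eq_mul, mul_one_div, div_self hc.ne']) (fun i _ => hw i) k
    rw [← mul_sum, ← mul_sum, mul_pow] at h0
    have e0 : (s.card : ℝ) ≠ 0 := hc.ne'
    have e2 : (∑ i ∈ s, w i) ^ k = (s.card : ℝ) ^ k * ((1 / (s.card : ℝ)) ^ k * (∑ i ∈ s, w i) ^ k) := by
      rw [← mul_assoc, ← mul_pow, mul_one_div_cancel e0, one_pow, one_mul]
    have e3 := mul_le_mul_of_nonneg_left h0 (pow_nonneg hc.le k)
    rw [← e2] at e3
    refine e3.trans (le_of_eq ?_)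
    obtain ⟨k', rfl⟩ : ∃ k', k = k' + 1 := ⟨k - 1, by omega⟩
    rw [Nat.add_sub_cancel, pow_succ, mul_assoc, ← mul_assoc (s.card : ℝ) (1 / (s.card : ℝ)), mul_one_div_cancel e0,
      one_mul]
  have h2 : ∑ i ∈ s, w i ^ k ≤ ∑ i ∈ t, w i ^ k :=
    sum_le_sum_of_subset_of_nonneg hst fun i _ _ => pow_nonneg (hw i) k
  have h3 : (∑ i ∈ s, w i) ^ k ≤ (s.card : ℝ) ^ (k - 1) * ∑ i ∈ t, w i ^ k :=
    h1.trans (mul_le_mul_of_nonneg_left h2 (by positivity))
  have hs : 0 ≤ ∑ i ∈ s, w i := sum_nonneg fun i _ => hw i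
  have h4 := Real.rpow_le_rpow (pow_nonneg hs k) h3 (one_div_nonneg.2 hk0.le)
  rw [← Real.rpow_natCast, ← Real.rpow_mul hs, mul_one_div_cancel hk0.ne', Real.rpow_one,
    Real.mul_rpow (by positivity) hT, ← Real.rpow_natCast, ← Real.rpow_mul hc.le] at h4
  refine h4.trans (le_of_eq ?_)
  congr 2
  rw [Nat.cast_sub hk]
  field_simp
  norm_num

/-- **The small summands from an arbitrary set of primes.** -/
theorem sigQ : ∃ η : ℝ, 0 < η ∧ ∀ m : ℕ, 1 ≤ m → ∃ K : ℕ, m ≤ K ∧ ∀ A k : ℕ, 1 ≤ k → ∃ c : ℝ, 0 < c ∧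
    ∀ᶠ x : ℝ in atTop, ∀ (S : Finset ℕ) (y : ℝ), (∀ p ∈ S, p.Prime ∧ (p : ℝ) ≤ y) →
    y ≤ Real.log x * (Real.log (Real.log x)) ^ A →
    (S.card : ℝ) ^ (1 - 1 / (k : ℝ)) * y ^ (1 / (k : ℝ)) ≤ c * ff x →
    ∀ q : Fin K → ℕ, Function.Injective q → (∀ j, (q j).Prime ∧ K < q j ∧ q j ≠ 2 ∧ (q j : ℝ) ≤ y) →
    ∀ col : Fin K → Fin m, (∀ e, K ≤ 2 * m * fib col e) →
    ∀ bad : Finset ℕ, (bad.card : ℝ) ≤ x ^ (9 / 10 : ℝ) →
    ∃ N : ℕ, x < N ∧ (N : ℝ) ≤ 4 * x ∧ Even N ∧ N ∉ bad ∧ (∀ j, q j ≤ N) ∧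
      (∃ E : Finset (Fin m), η * m ≤ E.card ∧ ∀ e ∈ E, ∃ j, col j = e ∧ (N - q j).Prime) ∧
      ∀ p ∈ S, ∀ p' : ℕ, p'.Prime → p + p' = N → ∃ l, p = q l := by
  obtain ⟨η, hη, htup⟩ := tuple_pattern_free
  refine ⟨η, hη, fun m hm => ?_⟩
  obtain ⟨K, hmK, htupK⟩ := htup m hm
  refine ⟨K, hmK, fun A k hk => ?_⟩
  have hK1 : 1 ≤ K := hm.trans hmK
  have hKr : (1 : ℝ) ≤ K := by exact_mod_cast hK1
  have hkr : (1 : ℝ) ≤ k := by exact_mod_cast hk
  obtain ⟨C₀, hC₀, hmom⟩ := Pool.Agent.Q145.GB.sum_ratio_pow (K * k)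
  obtain ⟨C, hC⟩ : ∃ C : ℝ, C = max C₀ 1 := ⟨_, rfl⟩
  have hC1 : 1 ≤ C := by rw [hC]; exact le_max_right _ _
  have hC01 : C₀ ≤ C := by rw [hC]; exact le_max_left _ _
  obtain ⟨c₁, hc₁, hone⟩ := htupK (A + 1) 1 2 Nat.prime_two.squarefree
  obtain ⟨c, hc⟩ : ∃ c : ℝ, c = c₁ / (K * C) := ⟨_, rfl⟩
  have hc0 : 0 < c := by rw [hc]; positivity
  have hcc : K * (C * c) = c₁ := by
    rw [hc]
    field_simp
  refine ⟨c, hc0, ?_⟩
  have t1 := Real.tendsto_log_atTop
  have t2 : Tendsto (fun x : ℝ => Real.log (Real.log x)) atTop atTop := t1.comp t1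
  filter_upwards [hone, ev (200 + 8 / c), t2.eventually (ev_pow_exp (A + 1) 1 1 one_pos),
    t1.eventually (ev_pow_exp 2 1 1 one_pos)] with x hx hev hl24 hl12
  obtain ⟨m0, m1, m2, m3, m4⟩ := hev
  intro S y hS hy hSy q hqinj hq col hcol bad hbad
  have hc8 : 0 < 8 / c := by positivity
  obtain ⟨-, b2⟩ := FF_bounds (x := x) (by linarith) (by linarith) (by linarith) (by linarith)
  obtain ⟨l1, hl1⟩ : ∃ l1 : ℝ, l1 = Real.log x := ⟨_, rfl⟩
  obtain ⟨l2, hl2⟩ : ∃ l2 : ℝ, l2 = Real.log l1 := ⟨_, rfl⟩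
  rw [← hl1] at m1 m2 b2 hl12 hl24 hy
  rw [← hl2] at m2 b2 hl24 hy
  have p1 : 0 < l1 := by linarith
  have p2 : 0 < l2 := by linarith
  have hx0 : 0 < x := by linarith
  have hl24' : l2 ^ (A + 1) ≤ l1 := by
    have h1 : Real.exp (1 * l2) = l1 := by rw [one_mul, hl2, Real.exp_log p1]
    rw [h1, one_mul] at hl24
    exact hl24
  have hl12' : l1 ^ 2 ≤ x := by
    have h1 : Real.exp (1 * l1) = x := by rw [one_mul, hl1, Real.exp_log hx0]
    rw [h1, one_mul] at hl12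
    exact hl12
  have hff : l1 + 1 ≤ c * ff x := by
    have hFf : FF x = ff x * l2 := by rw [hl2, hl1]; rfl
    have h1 : l1 * l2 / 4 ≤ ff x := by
      rw [hFf] at b2
      have h3 : l1 * l2 / 4 * l2 ≤ ff x * l2 := by
        refine le_trans (le_of_eq ?_) b2
        ring
      exact le_of_mul_le_mul_right h3 p2
    have h2 : 8 ≤ c * l2 := by
      have h3 : 8 / c ≤ l2 := by linarith
      rw [div_le_iff₀ hc0] at h3
      linarith
    have h3 : c * (l1 * l2 / 4) ≤ c * ff x := by gcongr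
    have h4 : l1 * 8 / 4 ≤ l1 * (c * l2) / 4 := by gcongr
    have h5 : c * (l1 * l2 / 4) = l1 * (c * l2) / 4 := by ring
    linarith
  obtain ⟨M, hM⟩ : ∃ M : ℕ, M = ⌊max y (l1 + 1)⌋₊ := ⟨_, rfl⟩
  have hY0 : 0 ≤ max y (l1 + 1) := le_trans (by linarith) (le_max_right _ _)
  have hM1 : (M : ℝ) ≤ max y (l1 + 1) := by rw [hM]; exact Nat.floor_le hY0
  have hM2 : l1 ≤ M := by
    have h1 := Nat.lt_floor_add_one (max y (l1 + 1))
    have h2 := le_max_right y (l1 + 1)
    rw [← hM] at h1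
    linarith
  have hMle : ∀ p : ℕ, (p : ℝ) ≤ y → p ≤ M := fun p hp => by
    rw [hM]
    exact Nat.le_floor (hp.trans (le_max_left _ _))
  have hMpos : (0 : ℝ) < M := by linarith
  have hMJ : 16 * (2 + 1) ^ 2 ≤ M := by
    have : (144 : ℝ) ≤ M := by linarith
    exact_mod_cast this
  have hlogM : 1 ≤ Real.log M := by
    have : l2 ≤ Real.log M := by
      rw [hl2]
      exact Real.log_le_log p1 hM2
    linarith
  have hl2A : 1 ≤ l2 ^ A := one_le_pow₀ (by linarith)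
  have hMF : (M : ℝ) ≤ l1 * l2 ^ (A + 1) := by
    refine hM1.trans (max_le ?_ ?_)
    · calc y ≤ l1 * l2 ^ A := hy
        _ ≤ l1 * l2 ^ (A + 1) := by
          apply mul_le_mul_of_nonneg_left _ p1.le
          exact pow_le_pow_right₀ (by linarith) (by omega)
    · rw [pow_succ]
      have h1 : 1 * 2 ≤ l2 ^ A * l2 := mul_le_mul hl2A (by linarith) (by norm_num) (by positivity)
      nlinarith
  have hMl : (M : ℝ) ≤ l1 ^ 2 := by
    calc (M : ℝ) ≤ l1 * l2 ^ (A + 1) := hMF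
      _ ≤ l1 * l1 := by gcongr
      _ = l1 ^ 2 := by ring
  have hMx : (M : ℝ) ≤ x := hMl.trans hl12'
  have hqM : ∀ j, (q j).Prime ∧ K < q j ∧ q j ≤ M := fun j =>
    ⟨(hq j).1, (hq j).2.1, hMle _ (hq j).2.2.2⟩
  have hqodd : ∀ j, Odd (q j) := fun j => ((hq j).1.eq_two_or_odd').resolve_left (hq j).2.2.1
  -- the size of the sum
  have hkk : 0 ≤ 1 - 1 / (k : ℝ) := by
    rw [sub_nonneg, div_le_one (by linarith)]
    exact hkr
  have hmain2 : (S.card : ℝ) ^ (1 - 1 / (k : ℝ)) * (M : ℝ) ^ (1 / (k : ℝ)) ≤ c * ff x := by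
    rcases le_or_gt (l1 + 1) y with h | h
    · refine le_trans ?_ hSy
      rw [max_eq_left h] at hM1
      gcongr
    · rw [max_eq_right h.le] at hM1
      have hSc : (S.card : ℝ) ≤ l1 + 1 := by
        have h1 : S ⊆ Icc 1 M := fun p hp => by
          rw [mem_Icc]
          exact ⟨(hS p hp).1.one_lt.le, hMle p (hS p hp).2⟩
        have h2 := card_le_card h1
        rw [Nat.card_Icc] at h2
        have h3 : (S.card : ℝ) ≤ M := by exact_mod_cast (by omega : S.card ≤ M)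
        linarith
      have h1 : (S.card : ℝ) ^ (1 - 1 / (k : ℝ)) ≤ (l1 + 1) ^ (1 - 1 / (k : ℝ)) :=
        Real.rpow_le_rpow (Nat.cast_nonneg _) hSc hkk
      have h2 : (M : ℝ) ^ (1 / (k : ℝ)) ≤ (l1 + 1) ^ (1 / (k : ℝ)) :=
        Real.rpow_le_rpow (Nat.cast_nonneg _) hM1 (by positivity)
      refine (mul_le_mul h1 h2 (by positivity) (by positivity)).trans ?_
      rw [← Real.rpow_add (by linarith)]
      have h3 : 1 - 1 / (k : ℝ) + 1 / k = 1 := by ring
      rw [h3, Real.rpow_one]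
      exact hff
  -- the tuple
  set t : Fin K → ℕ := fun j => M - q j with ht
  have htinj : Function.Injective t := by
    intro j j' h
    have h1 : M - q j = M - q j' := h
    have h2 := (hqM j).2.2
    have h3 := (hqM j').2.2
    exact hqinj (by omega)
  have htM : ∀ j, t j ≤ M := fun j => Nat.sub_le _ _
  have htl : ∀ j, (t j : ℝ) ≤ (Real.log x) ^ 2 := by
    intro j
    rw [← hl1]
    have : (t j : ℝ) ≤ M := by exact_mod_cast htM j
    linarith
  have hh : ∀ j, (M + t j).Coprime 2 := by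
    intro j
    rw [Nat.coprime_two_right]
    obtain ⟨k, hk⟩ := hqodd j
    have h2 := (hqM j).2.2
    refine ⟨M - k - 1, ?_⟩
    show M + (M - q j) = 2 * (M - k - 1) + 1
    omega
  -- the set of the shifts
  obtain ⟨Z, hZ⟩ : ∃ Z : Finset ℤ, Z = S.image (fun p : ℕ => (M - p : ℤ)) := ⟨_, rfl⟩
  have hZ0 : ∀ z ∈ Z, |(z : ℝ)| ≤ Real.log x * (Real.log (Real.log x)) ^ (A + 1) := by
    intro z hz
    rw [hZ] at hz
    obtain ⟨p, hp, rfl⟩ := mem_image.1 hz
    have h2 : (p : ℝ) ≤ M := by exact_mod_cast hMle p (hS p hp).2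
    rw [← hl1, ← hl2]
    push_cast
    rw [abs_of_nonneg (by linarith)]
    have : (0 : ℝ) ≤ p := Nat.cast_nonneg p
    linarith
  have hZw : ∀ i' : ℤ, 1 ≤ |i'| → |i'| ≤ (1 : ℕ) → ∑ z ∈ Z, wZ (fun j => i' * t j) z ≤ c₁ * ff x := by
    intro i' hi1 hi2
    have h1 : ∑ z ∈ Z, wZ (fun j => i' * t j) z ≤ ∑ p ∈ S, wZ (fun j => i' * t j) (M - p) := by
      rw [hZ]
      exact sum_image_le' _ _ _ (wZ_nonneg _)
    refine h1.trans ?_
    have h3 : ∀ p ∈ S, wZ (fun j => i' * (t j : ℤ)) (M - p) ≤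
        ∑ j : Fin K, ((((M - i' * t j) - p : ℤ).natAbs : ℝ) /
          (((M - i' * t j) - p : ℤ).natAbs.totient : ℝ)) ^ K := by
      intro p _
      unfold wZ
      refine (prod_le_sum_pow hK1 _ (fun j => by positivity)).trans (le_of_eq ?_)
      apply sum_congr rfl
      intro j _
      have h4 : (M : ℤ) - p - i' * t j = (M - i' * t j) - p := by ring
      rw [h4]
    refine (sum_le_sum h3).trans ?_
    rw [sum_comm]
    have h4 : ∀ j ∈ (univ : Finset (Fin K)), ∑ p ∈ S, ((((M - i' * t j) - p : ℤ).natAbs : ℝ) /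
          (((M - i' * t j) - p : ℤ).natAbs.totient : ℝ)) ^ K ≤ C * (c * ff x) := by
      intro j _
      have h5 := hmom 2 M hMJ (M - i' * t j) (by
        have e2 := htM j
        have e3 : ((M : ℤ) - i' * t j).natAbs ≤ M + i'.natAbs * t j := by
          have := Int.natAbs_sub_le (M : ℤ) (i' * t j)
          rw [Int.natAbs_mul, Int.natAbs_natCast, Int.natAbs_natCast] at this
          exact this
        have e4 : i'.natAbs ≤ 1 := by
          rw [Int.abs_eq_natAbs] at hi2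
          exact_mod_cast hi2
        calc ((M : ℤ) - i' * t j).natAbs ≤ M + i'.natAbs * t j := e3
          _ ≤ M + 1 * M := Nat.add_le_add_left (Nat.mul_le_mul e4 e2) _
          _ = 2 * M := by ring)
      -- Hölder's inequality
      have h6 := holder_sub S ((Icc 1 M).filter (fun p : ℕ => p.Prime)) (fun p hp => by
        rw [mem_filter, mem_Icc]
        exact ⟨⟨(hS p hp).1.one_lt.le, hMle p (hS p hp).2⟩, (hS p hp).1⟩)
        (fun p => ((((M - i' * t j) - p : ℤ).natAbs : ℝ) / (((M - i' * t j) - p : ℤ).natAbs.totient : ℝ)) ^ K)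
        (fun p => by positivity) k hk
      have h7 : ∑ p ∈ (Icc 1 M).filter (fun p : ℕ => p.Prime),
          (((((M - i' * t j) - p : ℤ).natAbs : ℝ) / (((M - i' * t j) - p : ℤ).natAbs.totient : ℝ)) ^ K) ^ k ≤
          C₀ * (M / Real.log M) := by
        refine le_trans (le_of_eq ?_) h5
        have h8 : ∑ p ∈ (Icc 1 M).filter (fun p : ℕ => p.Prime ∧ (p : ℤ) ≠ M - i' * t j),
            (((((M - i' * t j) - p : ℤ).natAbs : ℝ) /
              (((M - i' * t j) - p : ℤ).natAbs.totient : ℝ)) ^ K) ^ k =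
            ∑ p ∈ (Icc 1 M).filter (fun p : ℕ => p.Prime),
            (((((M - i' * t j) - p : ℤ).natAbs : ℝ) /
              (((M - i' * t j) - p : ℤ).natAbs.totient : ℝ)) ^ K) ^ k := by
          apply sum_subset
          · intro p hp
            rw [mem_filter] at hp ⊢
            exact ⟨hp.1, hp.2.1⟩
          · intro p hp hp2
            rw [mem_filter] at hp
            have h6 : (p : ℤ) = M - i' * t j := by
              by_contra hne
              exact hp2 (mem_filter.2 ⟨hp.1, hp.2, hne⟩)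
            rw [h6, sub_self, Int.natAbs_zero, Nat.cast_zero, zero_div, zero_pow (by omega), zero_pow (by omega)]
        rw [← h8]
        apply sum_congr rfl
        intro p _
        rw [← pow_mul]
      refine h6.trans ?_
      have h9 : (∑ p ∈ (Icc 1 M).filter (fun p : ℕ => p.Prime),
          (((((M - i' * t j) - p : ℤ).natAbs : ℝ) /
            (((M - i' * t j) - p : ℤ).natAbs.totient : ℝ)) ^ K) ^ k) ^ (1 / (k : ℝ)) ≤
          C * (M : ℝ) ^ (1 / (k : ℝ)) := by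
        have e1 : C₀ * (M / Real.log M) ≤ C * M := by
          apply mul_le_mul hC01 _ (by positivity) (by positivity)
          exact div_le_self hMpos.le hlogM
        refine (Real.rpow_le_rpow (sum_nonneg fun p _ => by positivity) (h7.trans e1) (by positivity)).trans ?_
        rw [Real.mul_rpow (by positivity) hMpos.le]
        apply mul_le_mul_of_nonneg_right _ (by positivity)
        calc C ^ (1 / (k : ℝ)) ≤ C ^ (1 : ℝ) := by
              apply Real.rpow_le_rpow_of_exponent_le hC1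
              rw [div_le_one (by linarith)]
              exact hkr
          _ = C := Real.rpow_one C
      calc (S.card : ℝ) ^ (1 - 1 / (k : ℝ)) * _ ≤ (S.card : ℝ) ^ (1 - 1 / (k : ℝ)) * (C * (M : ℝ) ^ (1 / (k : ℝ))) :=
            mul_le_mul_of_nonneg_left h9 (by positivity)
        _ = C * ((S.card : ℝ) ^ (1 - 1 / (k : ℝ)) * (M : ℝ) ^ (1 / (k : ℝ))) := by ring
        _ ≤ C * (c * ff x) := by gcongr
    refine (sum_le_card_nsmul _ _ _ h4).trans (le_of_eq ?_)
    rw [nsmul_eq_mul, card_univ, Fintype.card_fin, ← hcc]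
    ring
  obtain ⟨n, hxn, hn3, hnb, hn2, ⟨E, hE1, hE2⟩, hmain⟩ := hx t htinj htl (adm_of_primes q hqM) M hh col hcol Z hZ0
    hZw (bad.image (fun N => N - M)) (le_trans (by exact_mod_cast card_image_le) hbad)
  have hnM : (M : ℝ) < n := by linarith
  have hnM' : M < n := by exact_mod_cast hnM
  refine ⟨n + M, by push_cast; linarith, by push_cast; linarith, ?_, ?_,
    fun j => (hqM j).2.2.trans (Nat.le_add_left _ _), ⟨E, hE1, fun e he => ?_⟩, ?_⟩
  · have h1 : n % 2 = M % 2 := hn2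
    rw [Nat.even_iff]
    omega
  · intro h
    apply hnb
    rw [mem_image]
    exact ⟨n + M, h, Nat.add_sub_cancel n M⟩
  · obtain ⟨j, hj1, hj2⟩ := hE2 e he
    refine ⟨j, hj1, ?_⟩
    have h1 := (hqM j).2.2
    have h2 : n + M - q j = n + t j := by
      show n + M - q j = n + (M - q j)
      omega
    rw [h2]
    exact hj2
  · intro p hp p' hp' h
    have h2 : ((p + p' : ℕ) : ℤ) = ((n + M : ℕ) : ℤ) := by rw [h]
    push_cast at h2
    obtain ⟨l, hl⟩ := hmain 1 1 (by simp) (by simp) (by simp) (by simp) p' hp' (by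
      rw [hZ, mem_image]
      exact ⟨p, hp, by linarith⟩)
    have h3 := (hqM l).2.2
    have h4 : p' = n + (M - q l) := hl
    exact ⟨l, by omega⟩

end Pool.Agent.Q145.MT
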