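import Pool.Agent.Q145.MT.ProdR

set_option autoImplicit false
set_option maxHeartbeats 4000000

/-! # Moments of `n / φ(n)` over the values of a polynomial -/

namespace Pool.Agent.Q145.MT

open Finset Filter
open Pool.Agent.TH101.RG

open scoped Classical

theorem card_big (z n : ℕ) (hz : 3 ≤ z) (hn : n ≠ 0) (hnz : Real.log n ≤ z) :
    ((n.primeFactors.filter (fun p => z < p)).card : ℝ) ≤ z := by
  have h1 : z ^ (n.primeFactors.filter (fun p => z < p)).card ≤ n := by
    calc z ^ (n.primeFactors.filter (fun p => z < p)).card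
        = ∏ _p ∈ n.primeFactors.filter (fun p => z < p), z := by rw [prod_const]
      _ ≤ ∏ p ∈ n.primeFactors.filter (fun p => z < p), p :=
        Finset.prod_le_prod (fun _ _ => Nat.zero_le _) (fun p hp => (mem_filter.1 hp).2.le)
      _ ≤ n := by
        apply Nat.le_of_dvd (Nat.pos_of_ne_zero hn)
        refine (prod_dvd_prod_of_subset _ _ _ (filter_subset _ _)).trans ?_
        exact Nat.prod_primeFactors_dvd n
  have hz0 : (0 : ℝ) < z := by
    have : (3 : ℝ) ≤ z := by exact_mod_cast hz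
    linarith
  have h2 : ((n.primeFactors.filter (fun p => z < p)).card : ℝ) * Real.log z ≤ Real.log n := by
    rw [← Real.log_pow]
    apply Real.log_le_log (by positivity)
    exact_mod_cast h1
  have h3 : 1 ≤ Real.log z := by
    rw [← Real.log_exp 1]
    apply Real.log_le_log (Real.exp_pos _)
    have := Real.exp_one_lt_d9
    have : (3 : ℝ) ≤ z := by exact_mod_cast hz
    linarith
  have h4 : (0 : ℝ) ≤ ((n.primeFactors.filter (fun p => z < p)).card : ℝ) := Nat.cast_nonneg _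
  nlinarith

/-- only the small primes matter -/
theorem ratio_small (z n : ℕ) (hz : 3 ≤ z) (hn : n ≠ 0) (hnz : Real.log n ≤ z) :
    (n : ℝ) / n.totient ≤ Real.exp 2 * ∏ p ∈ ((Icc 1 z).filter Nat.Prime).filter (fun p => p ∣ n), (1 - 1 / (p : ℝ))⁻¹ := by
  rw [← prod_inv_primeFactors n hn]
  have h1 : n.primeFactors = (((Icc 1 z).filter Nat.Prime).filter (fun p => p ∣ n)) ∪ n.primeFactors.filter (fun p => z < p) := by
    ext p
    simp only [mem_union, mem_filter, mem_Icc, Nat.mem_primeFactors]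
    constructor
    · rintro ⟨hp, hd, -⟩
      by_cases h : z < p
      · exact Or.inr ⟨⟨hp, hd, hn⟩, h⟩
      · exact Or.inl ⟨⟨⟨hp.one_le, by omega⟩, hp⟩, hd⟩
    · rintro (⟨⟨-, hp⟩, hd⟩ | ⟨h, -⟩)
      · exact ⟨hp, hd, hn⟩
      · exact h
  have hdisj : Disjoint (((Icc 1 z).filter Nat.Prime).filter (fun p => p ∣ n)) (n.primeFactors.filter (fun p => z < p)) := by
    rw [disjoint_left]
    intro p hp hp'
    simp only [mem_filter, mem_Icc] at hp hp'
    omega
  rw [h1, prod_union hdisj, mul_comm]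
  apply mul_le_mul_of_nonneg_right
  · have h2 := inv_prod_le (n.primeFactors.filter (fun p => z < p))
      (fun q hq => Nat.prime_of_mem_primeFactors (mem_filter.1 hq).1) 1 (by
        have hz0 : (0 : ℝ) < z := by
          have : (3 : ℝ) ≤ z := by exact_mod_cast hz
          linarith
        calc ∑ q ∈ n.primeFactors.filter (fun p => z < p), (1 : ℝ) / q
            ≤ ∑ _q ∈ n.primeFactors.filter (fun p => z < p), (1 : ℝ) / z := by
              apply sum_le_sum
              intro q hq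
              apply one_div_le_one_div_of_le hz0
              exact_mod_cast (mem_filter.1 hq).2.le
          _ = ((n.primeFactors.filter (fun p => z < p)).card : ℝ) * (1 / z) := by rw [sum_const, nsmul_eq_mul]
          _ ≤ z * (1 / z) := mul_le_mul_of_nonneg_right (card_big z n hz hn hnz) (by positivity)
          _ = 1 := by field_simp)
    rwa [mul_one] at h2
  · apply prod_nonneg
    intro p hp
    exact (lt_of_lt_of_le one_pos (inv_ge_one (mem_filter.1 (mem_filter.1 hp).1).2)).le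

/-- `(1 - 1/p)^(-k) - 1` -/
noncomputable def gk (k p : ℕ) : ℝ := ((1 - 1 / (p : ℝ))⁻¹) ^ k - 1

theorem one_add_pow_le (t : ℝ) (h0 : 0 ≤ t) (h1 : t ≤ 1) (k : ℕ) : (1 + t) ^ k ≤ 1 + (2 ^ k - 1) * t := by
  induction k with
  | zero => simp
  | succ k ih =>
    have h2 : (1 : ℝ) ≤ 2 ^ k := one_le_pow₀ (by norm_num)
    calc (1 + t) ^ (k + 1) = (1 + t) ^ k * (1 + t) := pow_succ _ _
      _ ≤ (1 + (2 ^ k - 1) * t) * (1 + t) := mul_le_mul_of_nonneg_right ih (by linarith)
      _ = 1 + 2 ^ k * t + (2 ^ k - 1) * (t * t) := by ring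
      _ ≤ 1 + 2 ^ k * t + (2 ^ k - 1) * t := by
        have : t * t ≤ t := by nlinarith
        have h3 : (0 : ℝ) ≤ 2 ^ k - 1 := by linarith
        nlinarith
      _ = 1 + (2 ^ (k + 1) - 1) * t := by rw [pow_succ]; ring

theorem gk_bounds (k p : ℕ) (hp : p.Prime) : 0 ≤ gk k p ∧ gk k p ≤ 2 ^ (k + 1) / p := by
  have hp2 : (2 : ℝ) ≤ p := by exact_mod_cast hp.two_le
  have h1 : (1 - 1 / (p : ℝ))⁻¹ = 1 + 1 / ((p : ℝ) - 1) := by
    have : (p : ℝ) - 1 ≠ 0 := by linarith
    field_simp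
    ring
  unfold gk
  rw [h1]
  have ht0 : 0 ≤ 1 / ((p : ℝ) - 1) := div_nonneg one_pos.le (by linarith)
  have ht1 : 1 / ((p : ℝ) - 1) ≤ 1 := by rw [div_le_one (by linarith)]; linarith
  constructor
  · rw [sub_nonneg]
    exact one_le_pow₀ (by linarith)
  · have h2 := one_add_pow_le _ ht0 ht1 k
    have h3 : 1 / ((p : ℝ) - 1) ≤ 2 / p := by
      rw [div_le_div_iff₀ (by linarith) (by linarith)]
      linarith
    have h4 : (0 : ℝ) ≤ 2 ^ k - 1 := sub_nonneg.2 (one_le_pow₀ (by norm_num))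
    calc (1 + 1 / ((p : ℝ) - 1)) ^ k - 1 ≤ (2 ^ k - 1) * (1 / ((p : ℝ) - 1)) := by linarith
      _ ≤ (2 ^ k - 1) * (2 / p) := mul_le_mul_of_nonneg_left h3 h4
      _ ≤ 2 ^ k * (2 / p) := mul_le_mul_of_nonneg_right (by linarith) (by positivity)
      _ = _ := by rw [pow_succ]; ring

/-- the power of the product over the small primes as a sum over sets of primes -/
theorem pow_expand (Q : Finset ℕ) (n k : ℕ) :
    (∏ p ∈ Q.filter (fun p => p ∣ n), (1 - 1 / (p : ℝ))⁻¹) ^ k =
      ∑ S ∈ Q.powerset, (if ∀ p ∈ S, p ∣ n then ∏ p ∈ S, gk k p else 0) := by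
  rw [← prod_pow]
  have h1 : ∏ p ∈ Q.filter (fun p => p ∣ n), ((1 - 1 / (p : ℝ))⁻¹) ^ k =
      ∏ p ∈ Q.filter (fun p => p ∣ n), (1 + gk k p) := by
    apply prod_congr rfl
    intro p _
    unfold gk
    ring
  rw [h1, prod_one_add, ← sum_filter]
  apply sum_congr _ (fun _ _ => rfl)
  ext S
  rw [mem_powerset, mem_filter, mem_powerset]
  constructor
  · intro h
    exact ⟨h.trans (filter_subset _ _), fun p hp => (mem_filter.1 (h hp)).2⟩
  · rintro ⟨h2, h3⟩ p hp
    exact mem_filter.2 ⟨h2 hp, h3 p hp⟩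

/-- roots modulo a product of primes -/
theorem card_res (P : Polynomial ℤ) (r : ℕ → ℕ) (S : Finset ℕ) (hS : ∀ p ∈ S, p.Prime)
    (hr : ∀ p ∈ S, ((range p).filter (fun x : ℕ => (p : ℤ) ∣ P.eval (x : ℤ))).card ≤ r p) :
    ((range (∏ p ∈ S, p)).filter (fun x : ℕ => ∀ p ∈ S, (p : ℤ) ∣ P.eval (x : ℤ))).card ≤ ∏ p ∈ S, r p := by
  induction S using Finset.induction_on with
  | empty => simp
  | insert q S hq ih =>
    have ih' := ih (fun p hp => hS p (mem_insert_of_mem hp)) (fun p hp => hr p (mem_insert_of_mem hp))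
    have hqp := hS q (mem_insert_self _ _)
    rw [prod_insert hq, prod_insert hq]
    have hcop : Nat.Coprime q (∏ p ∈ S, p) := by
      rw [Nat.coprime_prod_right_iff]
      intro p hp
      exact (Nat.coprime_primes hqp (hS p (mem_insert_of_mem hp))).2 (fun h => hq (h ▸ hp))
    have hd0 : 0 < ∏ p ∈ S, p := prod_pos fun p hp => (hS p (mem_insert_of_mem hp)).pos
    have hmod : ∀ (x m p : ℕ), p ∣ m → ((p : ℤ) ∣ P.eval ((x % m : ℕ) : ℤ) ↔ (p : ℤ) ∣ P.eval (x : ℤ)) := by
      intro x m p hpm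
      have h1 : (p : ℤ) ∣ (x : ℤ) - ((x % m : ℕ) : ℤ) := by
        refine (Int.natCast_dvd_natCast.2 hpm).trans ?_
        push_cast
        exact Int.dvd_self_sub_emod
      have h2 : (p : ℤ) ∣ P.eval (x : ℤ) - P.eval ((x % m : ℕ) : ℤ) := h1.trans (Polynomial.sub_dvd_eval_sub _ _ P)
      constructor
      · intro h
        have := dvd_add h2 h
        rwa [sub_add_cancel] at this
      · intro h
        have := dvd_sub h h2
        rwa [sub_sub_cancel] at this
    refine le_trans ?_ (Nat.mul_le_mul (hr q (mem_insert_self _ _)) ih')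
    rw [← card_product]
    apply card_le_card_of_injOn (fun x => (x % q, x % ∏ p ∈ S, p))
    · intro x hx
      simp only [coe_filter, mem_range, Set.mem_ofPred_eq] at hx
      simp only [coe_product, coe_filter, mem_range, Set.mem_prod, Set.mem_ofPred_eq]
      refine ⟨⟨Nat.mod_lt _ hqp.pos, ?_⟩, Nat.mod_lt _ hd0, fun p hp => ?_⟩
      · exact (hmod x q q (dvd_refl q)).2 (hx.2 q (mem_insert_self _ _))
      · exact (hmod x _ p (dvd_prod_of_mem _ hp)).2 (hx.2 p (mem_insert_of_mem hp))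
    · intro x hx y hy hxy
      simp only [coe_filter, mem_range, Set.mem_ofPred_eq] at hx hy
      simp only [Prod.mk.injEq] at hxy
      have h1 : x ≡ y [MOD q * ∏ p ∈ S, p] := (Nat.modEq_and_modEq_iff_modEq_mul hcop).1 hxy
      exact Nat.ModEq.eq_of_lt_of_lt h1 hx.1 hy.1

theorem card_cls (P : Polynomial ℤ) (r : ℕ → ℕ) (S : Finset ℕ) (hS : ∀ p ∈ S, p.Prime)
    (hr : ∀ p ∈ S, ((range p).filter (fun x : ℕ => (p : ℤ) ∣ P.eval (x : ℤ))).card ≤ r p) (H : ℕ) :
    (((Icc 1 H).filter (fun a : ℕ => ∀ p ∈ S, (p : ℤ) ∣ P.eval (a : ℤ))).card : ℝ) ≤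
      (∏ p ∈ S, (r p : ℝ)) * ((H : ℝ) / (∏ p ∈ S, (p : ℝ)) + 1) := by
  set d := ∏ p ∈ S, p with hd
  have hd0 : 0 < d := prod_pos fun p hp => (hS p hp).pos
  have h1 : ((Icc 1 H).filter (fun a : ℕ => ∀ p ∈ S, (p : ℤ) ∣ P.eval (a : ℤ))).card ≤
      (H / d + 1) * ((range d).filter (fun x : ℕ => ∀ p ∈ S, (p : ℤ) ∣ P.eval (x : ℤ))).card := by
    apply card_le_mul_card_image_of_maps_to (f := fun a => a % d)
    · intro a ha
      rw [mem_filter, mem_range]
      refine ⟨Nat.mod_lt _ hd0, fun p hp => ?_⟩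
      have h1 : (p : ℤ) ∣ (a : ℤ) - ((a % d : ℕ) : ℤ) := by
        have hpd : p ∣ d := dvd_prod_of_mem (fun p => p) hp
        refine (Int.natCast_dvd_natCast.2 hpd).trans ?_
        rw [Int.natCast_mod]
        exact Int.dvd_self_sub_emod
      have h2 : (p : ℤ) ∣ P.eval (a : ℤ) - P.eval ((a % d : ℕ) : ℤ) := h1.trans (Polynomial.sub_dvd_eval_sub _ _ P)
      have := dvd_sub ((mem_filter.1 ha).2 p hp) h2
      rwa [sub_sub_cancel] at this
    · intro x hx
      rw [mem_filter, mem_range] at hx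
      refine (card_le_card ?_).trans (class_count d x H hd0)
      intro a ha
      rw [mem_filter, mem_filter, mem_Icc] at ha
      rw [mem_filter, mem_range, Nat.mod_eq_of_lt hx.1]
      exact ⟨by omega, ha.2⟩
  have h2 := card_res P r S hS hr
  have h3 : (((Icc 1 H).filter (fun a : ℕ => ∀ p ∈ S, (p : ℤ) ∣ P.eval (a : ℤ))).card : ℝ) ≤
      ((H / d : ℕ) + 1) * ∏ p ∈ S, (r p : ℝ) := by
    exact_mod_cast h1.trans (Nat.mul_le_mul_left _ h2)
  refine h3.trans ?_
  rw [mul_comm]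
  apply mul_le_mul_of_nonneg_left _ (prod_nonneg fun p _ => Nat.cast_nonneg _)
  have h4 : ((H / d : ℕ) : ℝ) ≤ (H : ℝ) / d := Nat.cast_div_le
  have h5 : (d : ℝ) = ∏ p ∈ S, (p : ℝ) := by rw [hd]; push_cast; rfl
  rw [← h5]
  linarith

/-- the number of roots modulo `p` -/
theorem card_roots_mod (G : Polynomial ℤ) (hG : 0 < G.natDegree) (b : ℤ) (p : ℕ) (hp : p.Prime)
    (hpl : ¬ (p : ℤ) ∣ G.leadingCoeff) :
    ((range p).filter (fun x : ℕ => (p : ℤ) ∣ (G - Polynomial.C b).eval (x : ℤ))).card ≤ G.natDegree := by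
  have := Fact.mk hp
  set Q : Polynomial (ZMod p) := (G - Polynomial.C b).map (Int.castRingHom (ZMod p)) with hQ
  have hcoeff : Q.coeff G.natDegree ≠ 0 := by
    rw [hQ, Polynomial.coeff_map, Polynomial.coeff_sub, Polynomial.coeff_C, if_neg hG.ne', sub_zero]
    intro h
    apply hpl
    exact (ZMod.intCast_zmod_eq_zero_iff_dvd _ p).1 h
  have hQ0 : Q ≠ 0 := by
    intro h
    rw [h] at hcoeff
    simp at hcoeff
  have hdeg : Q.natDegree ≤ G.natDegree := by
    refine (Polynomial.natDegree_map_le).trans ?_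
    refine (Polynomial.natDegree_sub_le _ _).trans ?_
    simp
  refine le_trans ?_ ((Polynomial.card_roots' Q).trans hdeg)
  refine le_trans ?_ (Multiset.toFinset_card_le _)
  apply card_le_card_of_injOn (fun x : ℕ => (x : ZMod p))
  · intro x hx
    simp only [coe_filter, mem_range, Set.mem_ofPred_eq] at hx
    simp only [Multiset.mem_toFinset, Finset.mem_coe]
    rw [Polynomial.mem_roots hQ0, Polynomial.IsRoot.def, hQ]
    have h1 : ((x : ℕ) : ZMod p) = Int.castRingHom (ZMod p) (x : ℤ) := by simp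
    rw [h1, Polynomial.eval_map, Polynomial.eval₂_at_apply]
    exact (ZMod.intCast_zmod_eq_zero_iff_dvd _ p).2 hx.2
  · intro x hx y hy hxy
    simp only [coe_filter, mem_range, Set.mem_ofPred_eq] at hx hy
    have h1 := (ZMod.natCast_eq_natCast_iff' x y p).1 hxy
    rwa [Nat.mod_eq_of_lt hx.1, Nat.mod_eq_of_lt hy.1] at h1

/-- a polynomial is at most a constant times a power -/
theorem eval_abs_le (G : Polynomial ℤ) : ∃ C : ℕ, ∀ (H : ℕ) (x : ℤ), 1 ≤ H → |x| ≤ H →
    |G.eval x| ≤ C * (H : ℤ) ^ G.natDegree := by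
  refine ⟨(∑ i ∈ range (G.natDegree + 1), (G.coeff i).natAbs), fun H x hH hx => ?_⟩
  rw [Polynomial.eval_eq_sum_range]
  refine (abs_sum_le_sum_abs _ _).trans ?_
  push_cast
  rw [sum_mul]
  apply sum_le_sum
  intro i hi
  rw [abs_mul, abs_pow]
  have hH' : (1 : ℤ) ≤ H := by exact_mod_cast hH
  apply mul_le_mul_of_nonneg_left _ (abs_nonneg _)
  calc |x| ^ i ≤ (H : ℤ) ^ i := pow_le_pow_left₀ (abs_nonneg _) hx i
    _ ≤ (H : ℤ) ^ G.natDegree := pow_le_pow_right₀ hH' (by rw [mem_range] at hi; omega)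

end Pool.Agent.Q145.MT
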