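import Pool.Agent.Q145.MT.AnyForms

set_option autoImplicit false
set_option maxHeartbeats 4000000

/-! # Normalised linear forms and counting -/

namespace Pool.Agent.Q145.MT

open Finset Filter
open Pool.Agent.H378R2
open Pool.Agent.H318R2.Cr (cz_bounds Pz one_sub_inv_pos)
open Pool.Agent.TH101.RG

open scoped Classical

/-- every linear form is a multiple of a primitive one with positive leading coefficient -/
theorem exists_prim (f : ℤ × ℤ) : ∃ e : ℤ × ℤ, f.1 ≠ 0 → 0 < e.1 ∧ IsCoprime e.1 e.2 ∧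
    ∃ k : ℤ, k ≠ 0 ∧ f.1 = k * e.1 ∧ f.2 = k * e.2 := by
  by_cases hf : f.1 = 0
  · exact ⟨(1, 1), fun h => absurd hf h⟩
  have hg : 0 < Int.gcd f.1 f.2 := Int.gcd_pos_of_ne_zero_left _ hf
  obtain ⟨a, b, hab, ha, hb⟩ := Int.exists_gcd_one hg
  set g : ℤ := ((Int.gcd f.1 f.2 : ℕ) : ℤ) with hgd
  have hg0 : g ≠ 0 := by
    rw [hgd]
    exact_mod_cast hg.ne'
  have hcop : IsCoprime a b := Int.isCoprime_iff_gcd_eq_one.2 hab
  have ha0 : a ≠ 0 := by
    intro h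
    rw [h, zero_mul] at ha
    exact hf ha
  rcases lt_or_gt_of_ne ha0 with h | h
  · refine ⟨(-a, -b), fun _ => ⟨by simpa using h, hcop.neg_neg, -g, by simpa using hg0, ?_, ?_⟩⟩
    · show f.1 = -g * -a
      rw [ha]
      ring
    · show f.2 = -g * -b
      rw [hb]
      ring
  · refine ⟨(a, b), fun _ => ⟨h, hcop, g, hg0, ?_, ?_⟩⟩
    · show f.1 = g * a
      rw [ha]
      ring
    · show f.2 = g * b
      rw [hb]
      ring

/-- the primitive form -/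
noncomputable def prim (f : ℤ × ℤ) : ℤ × ℤ := (exists_prim f).choose

theorem prim_spec (f : ℤ × ℤ) (hf : f.1 ≠ 0) : 0 < (prim f).1 ∧ IsCoprime (prim f).1 (prim f).2 ∧
    ∃ k : ℤ, k ≠ 0 ∧ f.1 = k * (prim f).1 ∧ f.2 = k * (prim f).2 :=
  (exists_prim f).choose_spec hf

theorem prim_unique (e e' : ℤ × ℤ) (h1 : 0 < e.1) (h2 : 0 < e'.1) (c1 : IsCoprime e.1 e.2) (c2 : IsCoprime e'.1 e'.2)
    (h : e.1 * e'.2 = e'.1 * e.2) : e = e' := by
  have d1 : e.1 ∣ e'.1 := by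
    have : e.1 ∣ e'.1 * e.2 := ⟨e'.2, h.symm⟩
    exact c1.dvd_of_dvd_mul_right this
  have d2 : e'.1 ∣ e.1 := by
    have : e'.1 ∣ e.1 * e'.2 := ⟨e.2, h⟩
    exact c2.dvd_of_dvd_mul_right this
  have h3 : e.1 = e'.1 := Int.dvd_antisymm h1.le h2.le d1 d2
  have h4 : e.2 = e'.2 := by
    rw [h3] at h
    exact (mul_left_cancel₀ h2.ne' h).symm
  exact Prod.ext h3 h4

theorem wt_mono (a b : ℤ) (hab : a ∣ b) (hb : b ≠ 0) : wt a ≤ wt b := by
  have ha : a ≠ 0 := fun h => hb (zero_dvd_iff.1 (h ▸ hab))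
  unfold wt
  rw [← prod_inv_primeFactors _ (Int.natAbs_ne_zero.2 ha), ← prod_inv_primeFactors _ (Int.natAbs_ne_zero.2 hb)]
  have hsub : a.natAbs.primeFactors ⊆ b.natAbs.primeFactors :=
    Nat.primeFactors_mono (Int.natAbs_dvd_natAbs.2 hab) (Int.natAbs_ne_zero.2 hb)
  rw [← prod_sdiff hsub]
  have h1 : 1 ≤ ∏ p ∈ b.natAbs.primeFactors \ a.natAbs.primeFactors, (1 - 1 / (p : ℝ))⁻¹ := by
    apply Finset.one_le_prod
    intro p hp
    exact one_le_inv_p p (Nat.prime_of_mem_primeFactors (mem_sdiff.1 hp).1)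
  have h2 : 0 ≤ ∏ p ∈ a.natAbs.primeFactors, (1 - 1 / (p : ℝ))⁻¹ := by
    apply prod_nonneg
    intro p hp
    exact zero_le_one.trans (one_le_inv_p p (Nat.prime_of_mem_primeFactors hp))
  exact le_mul_of_one_le_left h2 h1

theorem sum_image_le {γ δ : Type} [DecidableEq δ] (s : Finset γ) (g : γ → δ) (u : δ → ℝ) (v : γ → ℝ) (hv : ∀ x ∈ s, 0 ≤ v x)
    (h : ∀ x ∈ s, u (g x) ≤ v x) : ∑ y ∈ s.image g, u y ≤ ∑ x ∈ s, v x := by
  rw [← sum_fiberwise_of_maps_to (g := g) (fun x hx => mem_image_of_mem g hx) v]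
  apply sum_le_sum
  intro y hy
  obtain ⟨x, hx, hxy⟩ := mem_image.1 hy
  have hm : x ∈ s.filter (fun x => g x = y) := mem_filter.2 ⟨hx, hxy⟩
  calc u y = u (g x) := by rw [hxy]
    _ ≤ v x := h x hx
    _ ≤ _ := single_le_sum (fun i hi => hv i (mem_filter.1 hi).1) hm

/-- decoding of pairs -/
noncomputable def dec (z : ℤ) : ℤ × ℤ := (Encodable.decode (α := ℤ × ℤ) z.toNat).getD (1, 1)

theorem dec_enc (f : ℤ × ℤ) : dec ((Encodable.encode f : ℕ) : ℤ) = f := by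
  unfold dec
  rw [Int.toNat_natCast, Encodable.encodek]
  rfl

theorem enc_inj : Function.Injective (fun f : ℤ × ℤ => ((Encodable.encode f : ℕ) : ℤ)) := by
  intro a b h
  have h1 := congrArg dec h
  simpa only [dec_enc] using h1

/-- the few `n` at which a form is small -/
theorem card_small (F : Finset (ℤ × ℤ)) (hF : ∀ f ∈ F, f.1 ≠ 0) (N B : ℕ) :
    ((Icc 1 N).filter (fun n : ℕ => ∃ f ∈ F, (f.1 * (n : ℤ) + f.2).natAbs ≤ B)).card ≤ F.card * (2 * B + 1) := by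
  have h1 : (Icc 1 N).filter (fun n : ℕ => ∃ f ∈ F, (f.1 * (n : ℤ) + f.2).natAbs ≤ B) ⊆
      F.biUnion (fun f => (Icc 1 N).filter (fun n : ℕ => (f.1 * (n : ℤ) + f.2).natAbs ≤ B)) := by
    intro n hn
    obtain ⟨h1, f, hf, h2⟩ := mem_filter.1 hn
    exact mem_biUnion.2 ⟨f, hf, mem_filter.2 ⟨h1, h2⟩⟩
  refine (card_le_card h1).trans (card_biUnion_le.trans ?_)
  calc ∑ f ∈ F, ((Icc 1 N).filter (fun n : ℕ => (f.1 * (n : ℤ) + f.2).natAbs ≤ B)).card ≤ ∑ f ∈ F, (2 * B + 1) := by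
        apply sum_le_sum
        intro f hf
        have h2 : ((Icc 1 N).filter (fun n : ℕ => (f.1 * (n : ℤ) + f.2).natAbs ≤ B)).card ≤
            (Icc (-(B : ℤ)) B).card := by
          apply card_le_card_of_injOn (fun n : ℕ => f.1 * (n : ℤ) + f.2)
          · intro n hn
            have h3 := (mem_filter.1 hn).2
            show f.1 * (n : ℤ) + f.2 ∈ (Icc (-(B : ℤ)) B : Finset ℤ)
            rw [mem_Icc]
            omega
          · intro a _ b _ hab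
            have h3 : f.1 * (a : ℤ) = f.1 * b := by
              have : f.1 * (a : ℤ) + f.2 = f.1 * (b : ℤ) + f.2 := hab
              linarith
            have h4 := mul_left_cancel₀ (hF f hf) h3
            exact_mod_cast h4
        refine h2.trans ?_
        rw [Int.card_Icc]
        omega
    _ = F.card * (2 * B + 1) := by rw [sum_const, smul_eq_mul]

theorem evU : ∀ᶠ X : ℝ in atTop, X ^ (4 / 5 : ℝ) + (Real.log X) ^ 2 * (2 * X ^ (1 / 1000 : ℝ) + 1) ≤ X ^ (9 / 10 : ℝ) := by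
  have h1 := (isLittleO_log_rpow_atTop (r := 1 / 10) (by norm_num)).bound (c := 1) one_pos
  have h2 := (tendsto_rpow_atTop (y := 1 / 10) (by norm_num)).eventually_ge_atTop (4 : ℝ)
  filter_upwards [h1, h2, eventually_ge_atTop 3] with X h1 h2 h3
  have hX0 : 0 < X := by linarith
  have hL0 : 0 ≤ Real.log X := Real.log_nonneg (by linarith)
  rw [Real.norm_eq_abs, Real.norm_eq_abs, abs_of_nonneg hL0, abs_of_nonneg (by positivity), one_mul] at h1
  have h4 : (Real.log X) ^ 2 ≤ X ^ (2 / 10 : ℝ) := by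
    calc (Real.log X) ^ 2 ≤ (X ^ (1 / 10 : ℝ)) ^ 2 := pow_le_pow_left₀ hL0 h1 2
      _ = X ^ (2 / 10 : ℝ) := by
        rw [← Real.rpow_natCast, ← Real.rpow_mul hX0.le]
        norm_num
  have h5 : 1 ≤ X ^ (1 / 1000 : ℝ) := Real.one_le_rpow (by linarith) (by norm_num)
  have h6 : X ^ (1 / 1000 : ℝ) ≤ X ^ (1 / 10 : ℝ) := Real.rpow_le_rpow_of_exponent_le (by linarith) (by norm_num)
  have h7 : X ^ (2 / 10 : ℝ) * X ^ (1 / 10 : ℝ) = X ^ (3 / 10 : ℝ) := by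
    rw [← Real.rpow_add hX0]
    norm_num
  have h8 : X ^ (3 / 10 : ℝ) ≤ X ^ (4 / 5 : ℝ) := Real.rpow_le_rpow_of_exponent_le (by linarith) (by norm_num)
  have h9 : X ^ (4 / 5 : ℝ) * X ^ (1 / 10 : ℝ) = X ^ (9 / 10 : ℝ) := by
    rw [← Real.rpow_add hX0]
    norm_num
  have h10 : 0 ≤ X ^ (2 / 10 : ℝ) := by positivity
  have h11 : (Real.log X) ^ 2 * (2 * X ^ (1 / 1000 : ℝ) + 1) ≤ 3 * X ^ (3 / 10 : ℝ) := by
    calc (Real.log X) ^ 2 * (2 * X ^ (1 / 1000 : ℝ) + 1) ≤ X ^ (2 / 10 : ℝ) * (3 * X ^ (1 / 10 : ℝ)) := by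
          apply mul_le_mul h4 _ (by positivity) h10
          linarith
      _ = 3 * (X ^ (2 / 10 : ℝ) * X ^ (1 / 10 : ℝ)) := by ring
      _ = _ := by rw [h7]
  have h12 : 0 ≤ X ^ (4 / 5 : ℝ) := by positivity
  nlinarith

/-- a form which has a small prime factor and is not small is not prime -/
theorem not_prime_of (f e : ℤ × ℤ) (k : ℤ) (hk : k ≠ 0) (h1 : f.1 = k * e.1) (h2 : f.2 = k * e.2) (n B q : ℕ)
    (hq : q.Prime) (hqB : q ≤ B) (hd : (q : ℤ) ∣ e.1 * (n : ℤ) + e.2) (hB : B < (e.1 * (n : ℤ) + e.2).natAbs) :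
    ¬ (f.1 * (n : ℤ) + f.2).natAbs.Prime := by
  intro hp
  have h3 : f.1 * (n : ℤ) + f.2 = k * (e.1 * (n : ℤ) + e.2) := by
    rw [h1, h2]
    ring
  have h4 : q ∣ (e.1 * (n : ℤ) + e.2).natAbs := Int.natCast_dvd.1 hd
  rw [h3, Int.natAbs_mul] at hp
  have h5 : q ∣ k.natAbs * (e.1 * (n : ℤ) + e.2).natAbs := h4.mul_left _
  have h6 := (Nat.prime_dvd_prime_iff_eq hq hp).1 h5
  have h7 : 1 ≤ k.natAbs := Int.natAbs_pos.2 hk
  have h8 : (e.1 * (n : ℤ) + e.2).natAbs ≤ k.natAbs * (e.1 * (n : ℤ) + e.2).natAbs := Nat.le_mul_of_pos_left _ h7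
  omega

end Pool.Agent.Q145.MT
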