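import Pool.Agent.Q145.MT.Gold
import Pool.Agent.Q145.LP.Ch

set_option autoImplicit false
set_option maxHeartbeats 4000000

/-! # Prime-indexed primes of every order: the count and short intervals -/

namespace Pool.Agent.Q145.MT

open Finset Filter

open scoped Classical

/-- `p, π(p), …, π^k(p)` are all prime -/
def PI (k p : ℕ) : Prop := ∀ j ≤ k, (Nat.primeCounting^[j] p).Prime

theorem PI_zero (p : ℕ) : PI 0 p ↔ p.Prime := by
  unfold PI
  constructor
  · intro h
    exact h 0 le_rfl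
  · intro h j hj
    obtain rfl : j = 0 := by omega
    exact h

theorem PI_succ (k p : ℕ) : PI (k + 1) p ↔ p.Prime ∧ PI k (Nat.primeCounting p) := by
  unfold PI
  constructor
  · intro h
    refine ⟨h 0 (by omega), fun j hj => ?_⟩
    have := h (j + 1) (by omega)
    rwa [Function.iterate_succ_apply] at this
  · rintro ⟨h1, h2⟩ j hj
    rcases Nat.eq_zero_or_pos j with rfl | hj0
    · exact h1
    · obtain ⟨i, rfl⟩ : ∃ i, j = i + 1 := ⟨j - 1, by omega⟩
      rw [Function.iterate_succ_apply]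
      exact h2 i (by omega)

theorem PI_prime {k p : ℕ} (h : PI k p) : p.Prime := h 0 (by omega)

/-- the primes of order `k` up to `y` -/
noncomputable def PIset (k y : ℕ) : Finset ℕ := (Icc 1 y).filter (fun p => PI k p)

theorem primeCounting_lt {p q : ℕ} (hq : q.Prime) (h : p < q) : Nat.primeCounting p < Nat.primeCounting q := by
  have h1 : Nat.primeCounting p ≤ Nat.count Nat.Prime q := Nat.count_monotone _ h
  have h2 : Nat.primeCounting q = Nat.count Nat.Prime q + 1 := by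
    show Nat.count Nat.Prime (q + 1) = _
    rw [Nat.count_succ, if_pos hq]
  omega

theorem primeCounting_inj {p q : ℕ} (hp : p.Prime) (hq : q.Prime) (h : Nat.primeCounting p = Nat.primeCounting q) :
    p = q := by
  rcases lt_trichotomy p q with h1 | h1 | h1
  · exact absurd h (primeCounting_lt hq h1).ne
  · exact h1
  · exact absurd h (primeCounting_lt hp h1).ne'

theorem card_PIset_succ (k y : ℕ) : (PIset (k + 1) y).card ≤ (PIset k (Nat.primeCounting y)).card := by
  apply card_le_card_of_injOn Nat.primeCounting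
  · intro p hp
    unfold PIset at hp ⊢
    rw [mem_coe, mem_filter, mem_Icc, PI_succ] at hp
    obtain ⟨⟨h1, h2⟩, h3, h4⟩ := hp
    rw [mem_coe, mem_filter, mem_Icc]
    exact ⟨⟨(PI_prime h4).one_lt.le, Nat.monotone_primeCounting h2⟩, h4⟩
  · intro p hp q hq h
    unfold PIset at hp hq
    rw [mem_coe, mem_filter, PI_succ] at hp hq
    exact primeCounting_inj hp.2.1 hq.2.1 h

/-- the bounds of Chebyshev type for `π` -/
theorem pi_bounds : ∃ y₀ : ℕ, ∀ y : ℕ, y₀ ≤ y → (1 : ℝ) ≤ Real.log y ∧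
    (Nat.primeCounting y : ℝ) * Real.log y ≤ 2 * y ∧ Real.log y ≤ 2 * Real.log (Nat.primeCounting y) := by
  have h1 := Pool.Agent.Helper923.PNT.pi_tendsto
  have h2 : ∀ᶠ x : ℝ in atTop, (Nat.primeCounting ⌊x⌋₊ : ℝ) * Real.log x / x < 2 :=
    h1.eventually (gt_mem_nhds (by norm_num))
  have h3 : ∀ᶠ x : ℝ in atTop, 1 / 2 < (Nat.primeCounting ⌊x⌋₊ : ℝ) * Real.log x / x :=
    h1.eventually (lt_mem_nhds (by norm_num))
  have h4 : ∀ᶠ x : ℝ in atTop, 2 * Real.log x ≤ Real.sqrt x := by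
    have := Real.tendsto_log_atTop.eventually (Pool.Agent.H378R2.ev_pow_exp 1 (1 / 2) 2 (by norm_num))
    filter_upwards [this, eventually_gt_atTop 0] with x hx hx0
    rw [pow_one] at hx
    have e1 : Real.exp (1 / 2 * Real.log x) = Real.sqrt x := by
      rw [Real.sqrt_eq_rpow, Real.rpow_def_of_pos hx0]
      congr 1
      ring
    rw [e1] at hx
    exact hx
  obtain ⟨X, hX⟩ := eventually_atTop.1 (((h2.and h3).and h4).and
    ((Real.tendsto_log_atTop.eventually_ge_atTop 1).and (eventually_ge_atTop 1)))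
  refine ⟨⌈X⌉₊, fun y hy => ?_⟩
  have hyX : X ≤ y := (Nat.le_ceil X).trans (by exact_mod_cast hy)
  obtain ⟨⟨⟨a1, a2⟩, a3⟩, a4, a5⟩ := hX y hyX
  rw [Nat.floor_natCast] at a1 a2
  have hy0 : (0 : ℝ) < y := by linarith
  refine ⟨a4, ?_, ?_⟩
  · rw [div_lt_iff₀ hy0] at a1
    exact a1.le
  · rw [lt_div_iff₀ hy0] at a2
    have hs0 : 0 < Real.sqrt y := Real.sqrt_pos.2 hy0
    have hss : Real.sqrt y * Real.sqrt y = y := Real.mul_self_sqrt hy0.le
    have h5 : Real.sqrt y ≤ Nat.primeCounting y := by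
      by_contra hcon
      push Not at hcon
      have h6 : (Nat.primeCounting y : ℝ) * Real.log y ≤ Real.sqrt y * (Real.sqrt y / 2) :=
        mul_le_mul hcon.le (by linarith) (by linarith) hs0.le
      linarith
    have h6 := Real.log_le_log hs0 h5
    rw [Real.log_sqrt hy0.le] at h6
    linarith

/-- the count of the primes of order `k` -/
theorem card_PIset (k : ℕ) : ∃ C : ℝ, 1 ≤ C ∧ ∃ y₀ : ℕ, ∀ y : ℕ, y₀ ≤ y →
    ((PIset k y).card : ℝ) * Real.log y ^ (k + 1) ≤ C * y := by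
  obtain ⟨y₁, hy₁⟩ := pi_bounds
  induction k with
  | zero =>
    refine ⟨2, by norm_num, y₁, fun y hy => ?_⟩
    obtain ⟨h1, h2, h3⟩ := hy₁ y hy
    have h4 : (PIset 0 y).card ≤ Nat.primeCounting y := by
      rw [← Nat.primesLE_card_eq_primeCounting]
      apply card_le_card
      intro p hp
      unfold PIset at hp
      rw [mem_filter, mem_Icc, PI_zero] at hp
      rw [Nat.mem_primesLE]
      exact ⟨hp.1.2, hp.2⟩
    rw [zero_add, pow_one]
    refine le_trans ?_ h2
    apply mul_le_mul_of_nonneg_right _ (by linarith)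
    exact_mod_cast h4
  | succ k ih =>
    obtain ⟨C, hC, y₀, hy₀⟩ := ih
    have ht := tendsto_atTop.1 Nat.tendsto_primeCounting y₀
    obtain ⟨y₂, hy₂⟩ := eventually_atTop.1 ht
    refine ⟨C * 2 ^ (k + 2), ?_, max y₁ y₂, fun y hy => ?_⟩
    · have : (1 : ℝ) ≤ 2 ^ (k + 2) := one_le_pow₀ (by norm_num)
      nlinarith
    · obtain ⟨h1, h2, h3⟩ := hy₁ y ((le_max_left _ _).trans hy)
      have h4 := hy₀ _ (hy₂ y ((le_max_right _ _).trans hy))
      have h5 : ((PIset (k + 1) y).card : ℝ) ≤ (PIset k (Nat.primeCounting y)).card := by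
        exact_mod_cast card_PIset_succ k y
      have hl0 : 0 < Real.log y := by linarith
      have h6 : Real.log y ^ (k + 1) ≤ 2 ^ (k + 1) * Real.log (Nat.primeCounting y) ^ (k + 1) := by
        rw [← mul_pow]
        exact pow_le_pow_left₀ hl0.le h3 _
      calc ((PIset (k + 1) y).card : ℝ) * Real.log y ^ (k + 1 + 1)
          = ((PIset (k + 1) y).card : ℝ) * Real.log y ^ (k + 1) * Real.log y := by ring
        _ ≤ ((PIset k (Nat.primeCounting y)).card : ℝ) * (2 ^ (k + 1) *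
            Real.log (Nat.primeCounting y) ^ (k + 1)) * Real.log y := by gcongr
        _ = 2 ^ (k + 1) * (((PIset k (Nat.primeCounting y)).card : ℝ) *
            Real.log (Nat.primeCounting y) ^ (k + 1)) * Real.log y := by ring
        _ ≤ 2 ^ (k + 1) * (C * Nat.primeCounting y) * Real.log y := by gcongr
        _ = 2 ^ (k + 1) * C * (Nat.primeCounting y * Real.log y) := by ring
        _ ≤ 2 ^ (k + 1) * C * (2 * y) := by gcongr
        _ = C * 2 ^ (k + 2) * y := by ring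

/-- `π` is almost linear on short scales -/
theorem pi_shrink (ε : ℝ) (hε : 0 < ε) (hε1 : ε < 1) : ∃ y₀ : ℝ, ∀ y : ℝ, y₀ ≤ y →
    (Nat.primeCounting ⌊(1 - ε) * y⌋₊ : ℝ) ≤ (1 - ε / 2) * Nat.primeCounting ⌊y⌋₊ := by
  obtain ⟨δ, hδ⟩ : ∃ δ : ℝ, δ = ε / 16 := ⟨_, rfl⟩
  have hδ0 : 0 < δ := by rw [hδ]; positivity
  have h1 := Pool.Agent.Helper923.PNT.pi_tendsto
  have h2 : ∀ᶠ x : ℝ in atTop, (Nat.primeCounting ⌊x⌋₊ : ℝ) * Real.log x / x < 1 + δ :=
    h1.eventually (gt_mem_nhds (by linarith))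
  have h3 : ∀ᶠ x : ℝ in atTop, 1 - δ < (Nat.primeCounting ⌊x⌋₊ : ℝ) * Real.log x / x :=
    h1.eventually (lt_mem_nhds (by linarith))
  have h1ε : 0 < 1 - ε := by linarith
  have ht : Tendsto (fun x : ℝ => (1 - ε) * x) atTop atTop := tendsto_id.const_mul_atTop h1ε
  have h4 : ∀ᶠ x : ℝ in atTop, (1 - δ) * Real.log x ≤ Real.log ((1 - ε) * x) := by
    filter_upwards [Real.tendsto_log_atTop.eventually_ge_atTop (-Real.log (1 - ε) / δ), eventually_gt_atTop 0]
      with x hx hx0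
    rw [Real.log_mul h1ε.ne' hx0.ne']
    rw [div_le_iff₀ hδ0] at hx
    linarith
  obtain ⟨X, hX⟩ := eventually_atTop.1 (((ht.eventually h2).and h3).and
    (h4.and ((Real.tendsto_log_atTop.eventually_ge_atTop 1).and (eventually_ge_atTop 1))))
  refine ⟨X, fun y hy => ?_⟩
  obtain ⟨⟨a1, a2⟩, a3, a4, a5⟩ := hX y hy
  have hy0 : (0 : ℝ) < y := by linarith
  set P1 : ℝ := (Nat.primeCounting ⌊(1 - ε) * y⌋₊ : ℝ) with hP1
  set P : ℝ := (Nat.primeCounting ⌊y⌋₊ : ℝ) with hP
  have hP10 : 0 ≤ P1 := Nat.cast_nonneg _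
  rw [div_lt_iff₀ (by positivity)] at a1
  rw [lt_div_iff₀ hy0] at a2
  set l := Real.log y with hl
  have hl0 : 0 < l := by linarith
  have e1 : P1 * ((1 - δ) * l) ≤ (1 + δ) * ((1 - ε) * y) := (mul_le_mul_of_nonneg_left a3 hP10).trans a1.le
  have e2 : (1 - δ) * y ≤ P * l := a2.le
  have h1δ : 0 < 1 - δ := by rw [hδ]; linarith
  -- combine
  have e3 : P1 * ((1 - δ) * l) * (1 - δ) ≤ ((1 - ε / 2) * P) * ((1 - δ) * l) * (1 - δ) := by
    have f1 : P1 * ((1 - δ) * l) * (1 - δ) ≤ (1 + δ) * ((1 - ε) * y) * (1 - δ) :=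
      mul_le_mul_of_nonneg_right e1 h1δ.le
    have f2 : (1 + δ) * (1 - ε) ≤ (1 - ε / 2) * (1 - δ) ^ 2 := by
      have g1 : (1 - ε / 2) * (1 - 2 * δ) ≤ (1 - ε / 2) * (1 - δ) ^ 2 := by
        apply mul_le_mul_of_nonneg_left _ (by linarith)
        nlinarith [sq_nonneg δ]
      have g2 : (1 + δ) * (1 - ε) ≤ 1 + δ - ε := by nlinarith [mul_pos hδ0 hε]
      have g3 : 1 - ε / 2 - 2 * δ ≤ (1 - ε / 2) * (1 - 2 * δ) := by nlinarith [mul_pos hδ0 hε]
      rw [hδ] at g1 g2 g3 ⊢
      linarith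
    have f3 : (1 + δ) * ((1 - ε) * y) * (1 - δ) = (1 + δ) * (1 - ε) * ((1 - δ) * y) := by ring
    have f4 : (1 + δ) * (1 - ε) * ((1 - δ) * y) ≤ (1 - ε / 2) * (1 - δ) ^ 2 * (P * l) := by
      apply mul_le_mul f2 e2 (by positivity)
      have : 0 < 1 - ε / 2 := by linarith
      positivity
    have f5 : (1 - ε / 2) * (1 - δ) ^ 2 * (P * l) = ((1 - ε / 2) * P) * ((1 - δ) * l) * (1 - δ) := by ring
    linarith
  have e4 := le_of_mul_le_mul_right e3 h1δ
  exact le_of_mul_le_mul_right e4 (by positivity)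

/-- primes of order `k` just below `y` -/
theorem PI_below (k : ℕ) : ∀ ε : ℝ, 0 < ε → ε < 1 → ∃ y₀ : ℝ, ∀ y : ℝ, y₀ ≤ y →
    ∃ p : ℕ, PI k p ∧ (1 - ε) * y < p ∧ (p : ℝ) ≤ y := by
  induction k with
  | zero =>
    intro ε hε hε1
    obtain ⟨y₀, h⟩ := Pool.Agent.Q145.LP.theta_gap ε hε hε1
    refine ⟨max y₀ 1, fun y hy => ?_⟩
    have h1 := h y ((le_max_left _ _).trans hy)
    have hy1 : 1 ≤ y := (le_max_right _ _).trans hy
    by_contra hcon
    push Not at hcon
    have h2 : Chebyshev.theta y ≤ Chebyshev.theta ((1 - ε) * y) := by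
      unfold Chebyshev.theta
      apply sum_le_sum_of_subset_of_nonneg
      · intro p hp
        rw [mem_filter, mem_Ioc] at hp ⊢
        obtain ⟨⟨g1, g2⟩, g3⟩ := hp
        refine ⟨⟨g1, ?_⟩, g3⟩
        apply Nat.le_floor
        by_contra h3
        push Not at h3
        have h4 := hcon p ((PI_zero p).2 g3) h3
        have h5 := (Nat.le_floor_iff (by linarith : 0 ≤ y)).1 g2
        linarith
      · intro p hp _
        rw [mem_filter] at hp
        exact Real.log_nonneg (by exact_mod_cast hp.2.one_lt.le)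
    nlinarith
  | succ k ih =>
    intro ε hε hε1
    obtain ⟨y₁, hy₁⟩ := ih (ε / 2) (by positivity) (by linarith)
    obtain ⟨y₂, hy₂⟩ := pi_shrink ε hε hε1
    have ht : Tendsto (fun y : ℝ => (Nat.primeCounting ⌊y⌋₊ : ℝ)) atTop atTop :=
      tendsto_natCast_atTop_atTop.comp (Nat.tendsto_primeCounting.comp tendsto_nat_floor_atTop)
    obtain ⟨y₃, hy₃⟩ := eventually_atTop.1 (ht.eventually_ge_atTop y₁)
    refine ⟨max (max y₂ y₃) 1, fun y hy => ?_⟩
    have g2 := hy₂ y (((le_max_left _ _).trans (le_max_left _ _)).trans hy)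
    have g3 := hy₃ y (((le_max_right _ _).trans (le_max_left _ _)).trans hy)
    have hy1 : 1 ≤ y := (le_max_right _ _).trans hy
    obtain ⟨q, hq, hq1, hq2⟩ := hy₁ _ g3
    have hqp := PI_prime hq
    have hq0 := hqp.pos
    have hq2' : q ≤ Nat.primeCounting ⌊y⌋₊ := by exact_mod_cast hq2
    obtain ⟨p, hp⟩ : ∃ p : ℕ, p = Nat.nth Nat.Prime (q - 1) := ⟨_, rfl⟩
    have hpp : p.Prime := by rw [hp]; exact Nat.prime_nth_prime _
    have hpq : Nat.primeCounting p = q := by
      have h1 : Nat.count Nat.Prime p = q - 1 := by rw [hp]; exact Nat.primeCounting'_nth_eq (q - 1)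
      show Nat.count Nat.Prime (p + 1) = q
      rw [Nat.count_succ, if_pos hpp, h1]
      omega
    have hpy : p ≤ ⌊y⌋₊ := by
      by_contra hcon
      push Not at hcon
      have := primeCounting_lt hpp hcon
      omega
    refine ⟨p, (PI_succ k p).2 ⟨hpp, by rw [hpq]; exact hq⟩, ?_, (Nat.le_floor_iff (by linarith)).1 hpy⟩
    by_contra hcon
    push Not at hcon
    have h1 : p ≤ ⌊(1 - ε) * y⌋₊ := Nat.le_floor hcon
    have h2 := Nat.monotone_primeCounting h1
    rw [hpq] at h2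
    have h3 : (q : ℝ) ≤ Nat.primeCounting ⌊(1 - ε) * y⌋₊ := by exact_mod_cast h2
    linarith

end Pool.Agent.Q145.MT
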