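import Pool.Agent.Q145.MT.MomPoly2

set_option autoImplicit false
set_option maxHeartbeats 4000000

/-! # Growth, irreducibility and fixed prime divisors of `N - G` -/

namespace Pool.Agent.Q145.MT

open Finset Filter

open scoped Classical

/-- differences of powers -/
theorem pow_sub_bounds (n m : ℤ) (hm : 0 ≤ m) (hmn : m ≤ n) (i : ℕ) :
    0 ≤ n ^ i - m ^ i ∧ n * (n ^ i - m ^ i) ≤ i * (n - m) * n ^ i ∧ (1 ≤ i → (n - m) * n ^ (i - 1) ≤ n ^ i - m ^ i) := by
  have hn : 0 ≤ n := hm.trans hmn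
  have h0 : ∀ i : ℕ, 0 ≤ n ^ i - m ^ i := fun i => sub_nonneg.2 (pow_le_pow_left₀ hm hmn i)
  refine ⟨h0 i, ?_, ?_⟩
  · induction i with
    | zero => simp
    | succ i ih =>
      have e : n ^ (i + 1) - m ^ (i + 1) = n ^ i * (n - m) + m * (n ^ i - m ^ i) := by ring
      rw [e]
      have h1 : m * (n ^ i - m ^ i) ≤ n * (n ^ i - m ^ i) := mul_le_mul_of_nonneg_right hmn (h0 i)
      calc n * (n ^ i * (n - m) + m * (n ^ i - m ^ i)) ≤ n * (n ^ i * (n - m) + n * (n ^ i - m ^ i)) := by gcongr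
        _ ≤ n * (n ^ i * (n - m) + i * (n - m) * n ^ i) := by gcongr
        _ = ((i + 1 : ℕ) : ℤ) * (n - m) * n ^ (i + 1) := by push_cast; ring
  · intro hi
    obtain ⟨i, rfl⟩ : ∃ j, i = j + 1 := ⟨i - 1, by omega⟩
    have e : n ^ (i + 1) - m ^ (i + 1) = n ^ i * (n - m) + m * (n ^ i - m ^ i) := by ring
    rw [e, Nat.add_sub_cancel]
    have := mul_nonneg hm (h0 i)
    linarith

/-- a polynomial with positive leading coefficient is eventually larger than at all smaller arguments -/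
theorem ev_mono (G : Polynomial ℤ) (hG : 0 < G.natDegree) (hl : 0 < G.leadingCoeff) :
    ∃ n₀ : ℕ, ∀ n : ℕ, n₀ ≤ n → ∀ m : ℕ, m < n → G.eval (m : ℤ) < G.eval (n : ℤ) := by
  set h := G.natDegree with hh
  obtain ⟨S, hS⟩ : ∃ S : ℕ, S = ∑ i ∈ range h, (G.coeff i).natAbs := ⟨_, rfl⟩
  refine ⟨h * S + 1, fun n hn m hmn => ?_⟩
  have hn' : (h : ℤ) * S + 1 ≤ n := by exact_mod_cast hn
  have hm0 : (0 : ℤ) ≤ m := Int.natCast_nonneg m
  have hmn' : (m : ℤ) < n := by exact_mod_cast hmn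
  have hn0 : (0 : ℤ) < n := by linarith
  have e1 : G.eval (n : ℤ) - G.eval (m : ℤ) = G.leadingCoeff * ((n : ℤ) ^ h - (m : ℤ) ^ h) +
      ∑ i ∈ range h, G.coeff i * ((n : ℤ) ^ i - (m : ℤ) ^ i) := by
    rw [Polynomial.eval_eq_sum_range, Polynomial.eval_eq_sum_range, ← hh, sum_range_succ, sum_range_succ]
    have : ∑ i ∈ range h, G.coeff i * ((n : ℤ) ^ i - (m : ℤ) ^ i) =
        ∑ i ∈ range h, G.coeff i * (n : ℤ) ^ i - ∑ i ∈ range h, G.coeff i * (m : ℤ) ^ i := by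
      rw [← sum_sub_distrib]
      apply sum_congr rfl
      intro i _
      ring
    rw [this]
    unfold Polynomial.leadingCoeff
    rw [← hh]
    ring
  have e2 : (n : ℤ) * ∑ i ∈ range h, G.coeff i * ((n : ℤ) ^ i - (m : ℤ) ^ i) ≥
      -(h * S * ((n - m) * (n : ℤ) ^ (h - 1))) := by
    have h1 : |(n : ℤ) * ∑ i ∈ range h, G.coeff i * ((n : ℤ) ^ i - (m : ℤ) ^ i)| ≤
        ∑ i ∈ range h, ((G.coeff i).natAbs : ℤ) * (h * ((n - m) * (n : ℤ) ^ (h - 1))) := by
      rw [mul_sum]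
      refine (abs_sum_le_sum_abs _ _).trans (sum_le_sum fun i hi => ?_)
      rw [mem_range] at hi
      obtain ⟨a1, a2, -⟩ := pow_sub_bounds (n : ℤ) (m : ℤ) hm0 hmn'.le i
      have a3 : (n : ℤ) * (G.coeff i * ((n : ℤ) ^ i - (m : ℤ) ^ i)) = G.coeff i * ((n : ℤ) * ((n : ℤ) ^ i - (m : ℤ) ^ i)) := by ring
      rw [a3, abs_mul, abs_of_nonneg (mul_nonneg hn0.le a1), Int.natCast_natAbs]
      apply mul_le_mul_of_nonneg_left _ (abs_nonneg _)
      refine a2.trans ?_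
      have a4 : (n : ℤ) ^ i ≤ (n : ℤ) ^ (h - 1) := pow_le_pow_right₀ (by linarith) (by omega)
      have a5 : (i : ℤ) ≤ h := by exact_mod_cast hi.le
      have a6 : (0 : ℤ) ≤ n - m := by linarith
      calc (i : ℤ) * (n - m) * (n : ℤ) ^ i ≤ h * (n - m) * (n : ℤ) ^ (h - 1) := by gcongr
        _ = _ := by ring
    have h2 := neg_abs_le ((n : ℤ) * ∑ i ∈ range h, G.coeff i * ((n : ℤ) ^ i - (m : ℤ) ^ i))
    have h3 : ∑ i ∈ range h, ((G.coeff i).natAbs : ℤ) * (h * ((n - m) * (n : ℤ) ^ (h - 1))) =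
        h * S * ((n - m) * (n : ℤ) ^ (h - 1)) := by
      rw [← sum_mul, hS]
      push_cast
      ring
    rw [h3] at h1
    linarith
  have e3 : (n : ℤ) * (G.leadingCoeff * ((n : ℤ) ^ h - (m : ℤ) ^ h)) ≥ n * ((n - m) * (n : ℤ) ^ (h - 1)) := by
    obtain ⟨a1, -, a2⟩ := pow_sub_bounds (n : ℤ) (m : ℤ) hm0 hmn'.le h
    apply mul_le_mul_of_nonneg_left _ hn0.le
    calc ((n : ℤ) - m) * (n : ℤ) ^ (h - 1) ≤ (n : ℤ) ^ h - (m : ℤ) ^ h := a2 hG
      _ ≤ G.leadingCoeff * ((n : ℤ) ^ h - (m : ℤ) ^ h) := le_mul_of_one_le_left a1 hl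
  have e4 : 0 < (n : ℤ) * (G.eval (n : ℤ) - G.eval (m : ℤ)) := by
    rw [e1, mul_add]
    have h4 : 0 < ((n : ℤ) - m) * (n : ℤ) ^ (h - 1) := mul_pos (by linarith) (pow_pos hn0 _)
    nlinarith
  have := (mul_pos_iff_of_pos_left hn0).1 e4
  linarith

/-- growth -/
theorem ev_large (G : Polynomial ℤ) (hG : 0 < G.natDegree) (hl : 0 < G.leadingCoeff) (B : ℤ) :
    ∃ n₀ : ℕ, ∀ n : ℕ, n₀ ≤ n → B < G.eval (n : ℤ) := by
  obtain ⟨n₁, h₁⟩ := ev_mono G hG hl
  have h2 : ∀ k : ℕ, G.eval (n₁ : ℤ) + k ≤ G.eval ((n₁ + k : ℕ) : ℤ) := by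
    intro k
    induction k with
    | zero => simp
    | succ k ih =>
      have := h₁ (n₁ + (k + 1)) (by omega) (n₁ + k) (by omega)
      push_cast at this ih ⊢
      linarith
  refine ⟨n₁ + (B - G.eval (n₁ : ℤ)).toNat + 1, fun n hn => ?_⟩
  have h3 := h2 (n - n₁)
  rw [Nat.add_sub_cancel' (by omega)] at h3
  have h4 : (B - G.eval (n₁ : ℤ)) ≤ ((B - G.eval (n₁ : ℤ)).toNat : ℤ) := Int.self_le_toNat _
  have h5 : (((B - G.eval (n₁ : ℤ)).toNat : ℤ)) + 1 ≤ ((n - n₁ : ℕ) : ℤ) := by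
    have : (B - G.eval (n₁ : ℤ)).toNat + 1 ≤ n - n₁ := by omega
    exact_mod_cast this
  linarith

theorem ms_prod (s : Multiset ℝ) (h : ∀ x ∈ s, 2 ≤ x) : (2 : ℝ) ^ s.card ≤ s.prod := by
  induction s using Multiset.induction_on with
  | empty => simp
  | cons a s ih =>
    have h1 := h a (Multiset.mem_cons_self a s)
    have h2 := ih (fun x hx => h x (Multiset.mem_cons_of_mem hx))
    rw [Multiset.card_cons, Multiset.prod_cons, pow_succ, mul_comm]
    have h3 : (0 : ℝ) < 2 ^ s.card := by positivity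
    exact mul_le_mul h1 h2 h3.le (by linarith)

/-- complex values -/
theorem cnorm_le (G : Polynomial ℤ) (w : ℂ) (R : ℕ) (hR : 1 ≤ R) (hw : ‖w‖ ≤ R) :
    ‖(G.map (Int.castRingHom ℂ)).eval w‖ ≤ ((∑ i ∈ range (G.natDegree + 1), (G.coeff i).natAbs : ℕ) : ℝ) * (R : ℝ) ^ G.natDegree := by
  rw [Polynomial.eval_map, Polynomial.eval₂_eq_sum_range]
  refine (norm_sum_le _ _).trans ?_
  push_cast
  rw [sum_mul]
  apply sum_le_sum
  intro i hi
  rw [norm_mul, norm_pow]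
  have h1 : ‖(Int.castRingHom ℂ) (G.coeff i)‖ = |((G.coeff i : ℤ) : ℝ)| := by
    rw [eq_intCast, Complex.norm_intCast]
  rw [h1, Nat.cast_natAbs, Int.cast_abs]
  have hR' : (1 : ℝ) ≤ R := by exact_mod_cast hR
  apply mul_le_mul_of_nonneg_left _ (abs_nonneg _)
  calc ‖w‖ ^ i ≤ (R : ℝ) ^ i := pow_le_pow_left₀ (norm_nonneg _) hw i
    _ ≤ (R : ℝ) ^ G.natDegree := pow_le_pow_right₀ hR' (by rw [mem_range] at hi; omega)

/-- a factor with a unit value at `a` is constant when all roots are far away -/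
theorem factor_const (P Q R : Polynomial ℤ) (hP : P = Q * R) (hP0 : P ≠ 0) (a : ℕ)
    (hroot : ∀ w : ℂ, (P.map (Int.castRingHom ℂ)).eval w = 0 → (a : ℝ) + 2 ≤ ‖w‖) (hQ : |Q.eval (a : ℤ)| = 1) :
    Q.natDegree = 0 := by
  by_contra hdeg
  set Qc := Q.map (Int.castRingHom ℂ) with hQc
  have hinj : Function.Injective (Int.castRingHom ℂ) := (Int.castRingHom ℂ).injective_int
  have hQ0 : Q ≠ 0 := by
    rintro rfl
    rw [zero_mul] at hP
    exact hP0 hP
  have hQc0 : Qc ≠ 0 := (Polynomial.map_ne_zero_iff hinj).2 hQ0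
  have hdegc : Qc.natDegree = Q.natDegree := Polynomial.natDegree_map_eq_of_injective hinj Q
  have hsp : Qc.Splits := IsAlgClosed.splits Qc
  have h1 := hsp.eval_eq_prod_roots (a : ℂ)
  have hcard : Qc.roots.card = Qc.natDegree := (Polynomial.splits_iff_card_roots).1 hsp
  have h2 : Qc.eval (a : ℂ) = ((Q.eval (a : ℤ) : ℤ) : ℂ) := by
    have : ((a : ℕ) : ℂ) = Int.castRingHom ℂ (a : ℤ) := by simp
    rw [this, hQc, Polynomial.eval_map, Polynomial.eval₂_at_apply]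
    rfl
  have h3 : ‖Qc.eval (a : ℂ)‖ = 1 := by
    rw [h2, Complex.norm_intCast]
    exact_mod_cast hQ
  rw [h1, norm_mul] at h3
  have h4 : (1 : ℝ) ≤ ‖Qc.leadingCoeff‖ := by
    have e1 : Qc.leadingCoeff = ((Q.leadingCoeff : ℤ) : ℂ) := by
      unfold Polynomial.leadingCoeff
      rw [hdegc, hQc, Polynomial.coeff_map]
      rfl
    rw [e1, Complex.norm_intCast]
    have e2 : Q.leadingCoeff ≠ 0 := Polynomial.leadingCoeff_ne_zero.2 hQ0
    exact_mod_cast Int.one_le_abs e2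
  have h5 : (2 : ℝ) ≤ ‖(Qc.roots.map (fun x => (a : ℂ) - x)).prod‖ := by
    have e1 : ‖(Qc.roots.map (fun x => (a : ℂ) - x)).prod‖ = (Qc.roots.map (fun x => ‖(a : ℂ) - x‖)).prod := by
      have := map_multiset_prod (normHom (α := ℂ)) (Qc.roots.map (fun x => (a : ℂ) - x))
      rw [Multiset.map_map] at this
      exact this
    rw [e1]
    have e2 := ms_prod (Qc.roots.map (fun x => ‖(a : ℂ) - x‖)) (by
      intro y hy
      obtain ⟨x, hx, rfl⟩ := Multiset.mem_map.1 hy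
      have hx0 : Qc.eval x = 0 := (Polynomial.mem_roots hQc0).1 hx
      have hPx : (P.map (Int.castRingHom ℂ)).eval x = 0 := by
        rw [hP, Polynomial.map_mul, Polynomial.eval_mul, ← hQc, hx0, zero_mul]
      have h6 := hroot x hPx
      have h7 : ‖x‖ - ‖(a : ℂ)‖ ≤ ‖(a : ℂ) - x‖ := by
        rw [norm_sub_rev]
        exact norm_sub_norm_le _ _
      rw [Complex.norm_natCast] at h7
      linarith)
    rw [Multiset.card_map, hcard] at e2
    refine le_trans ?_ e2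
    calc (2 : ℝ) = 2 ^ 1 := (pow_one _).symm
      _ ≤ 2 ^ Qc.natDegree := pow_le_pow_right₀ (by norm_num) (by omega)
  nlinarith [norm_nonneg ((Qc.roots.map (fun x => (a : ℂ) - x)).prod)]

/-- **`N - G` is irreducible when `N - G(a)` is prime for a small `a`.** -/
theorem irr_sub (G : Polynomial ℤ) (hG : 0 < G.natDegree) (N a : ℕ) (hp : Prime ((N : ℤ) - G.eval (a : ℤ)))
    (hN : (∑ i ∈ range (G.natDegree + 1), (G.coeff i).natAbs) * (a + 2) ^ G.natDegree < N) :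
    Irreducible (Polynomial.C (N : ℤ) - G) := by
  set P := Polynomial.C (N : ℤ) - G with hP
  have hev : ∀ x : ℤ, P.eval x = N - G.eval x := fun x => by rw [hP, Polynomial.eval_sub, Polynomial.eval_C]
  have hP0 : P ≠ 0 := by
    intro h
    have h1 := hev a
    rw [h, Polynomial.eval_zero] at h1
    exact hp.ne_zero h1.symm
  have hroot : ∀ w : ℂ, (P.map (Int.castRingHom ℂ)).eval w = 0 → (a : ℝ) + 2 ≤ ‖w‖ := by
    intro w hw
    by_contra hcon
    push Not at hcon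
    have h1 := cnorm_le G w (a + 2) (by omega) (by push_cast; exact hcon.le)
    have h2 : (G.map (Int.castRingHom ℂ)).eval w = N := by
      rw [hP, Polynomial.map_sub, Polynomial.eval_sub, Polynomial.map_C, Polynomial.eval_C, sub_eq_zero] at hw
      rw [← hw]
      simp
    rw [h2, Complex.norm_natCast] at h1
    have h3 : (N : ℝ) ≤ (((∑ i ∈ range (G.natDegree + 1), (G.coeff i).natAbs) * (a + 2) ^ G.natDegree : ℕ) : ℝ) := by
      rw [Nat.cast_mul, Nat.cast_pow]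
      exact h1
    have h4 : N ≤ (∑ i ∈ range (G.natDegree + 1), (G.coeff i).natAbs) * (a + 2) ^ G.natDegree := by exact_mod_cast h3
    omega
  have hunit : ∀ Q R : Polynomial ℤ, P = Q * R → |Q.eval (a : ℤ)| = 1 → IsUnit Q := by
    intro Q R hQR hQ
    have h1 := factor_const P Q R hQR hP0 a hroot hQ
    rw [Polynomial.eq_C_of_natDegree_eq_zero h1] at hQ ⊢
    rw [Polynomial.eval_C] at hQ
    exact Polynomial.isUnit_C.2 (Int.isUnit_iff.2 ((abs_eq one_pos.le).1 hQ))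
  refine ⟨?_, ?_⟩
  · intro hu
    have h1 := Polynomial.natDegree_eq_zero_of_isUnit hu
    have h2 : P.natDegree = G.natDegree := by
      rw [hP]
      exact Polynomial.natDegree_sub_eq_right_of_natDegree_lt (by rw [Polynomial.natDegree_C]; exact hG)
    omega
  · intro Q R hQR
    have h1 : Q.eval (a : ℤ) * R.eval (a : ℤ) = (N : ℤ) - G.eval (a : ℤ) := by
      rw [← Polynomial.eval_mul, ← hQR, hev]
    have h2 := (hp.irreducible).isUnit_or_isUnit h1.symm
    rcases h2 with h | h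
    · exact Or.inl (hunit Q R hQR (Int.isUnit_iff_abs_eq.1 h))
    · exact Or.inr (hunit R Q (by rw [hQR, mul_comm]) (Int.isUnit_iff_abs_eq.1 h))

/-- **No fixed prime divisor.** -/
theorem no_fixed (F G : Polynomial ℤ) (hG : 0 < G.natDegree) (N a : ℕ)
    (hF : ∀ ℓ : ℕ, ℓ.Prime → ∃ n : ℤ, ¬ (ℓ : ℤ) ∣ F.eval n)
    (hFa : ∀ ℓ : ℕ, ℓ.Prime → (ℓ : ℤ) ∣ F.eval (a : ℤ) → F.natDegree + G.natDegree < ℓ)
    (p : ℕ) (hp : p.Prime) (hpv : (p : ℤ) = N - G.eval (a : ℤ)) (hpbig : F.natDegree + G.natDegree < p)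
    (hpl : ¬ (p : ℤ) ∣ G.leadingCoeff) :
    ∀ ℓ : ℕ, ℓ.Prime → ∃ n : ℤ, ¬ (ℓ : ℤ) ∣ F.eval n * (N - G.eval n) := by
  intro ℓ hℓ
  have hℓp : Prime (ℓ : ℤ) := Nat.prime_iff_prime_int.1 hℓ
  by_cases hsmall : ℓ ≤ F.natDegree + G.natDegree
  · refine ⟨a, fun h => ?_⟩
    rcases hℓp.dvd_or_dvd h with h1 | h1
    · have := hFa ℓ hℓ h1
      omega
    · rw [← hpv] at h1
      have h2 := (Nat.prime_dvd_prime_iff_eq hℓ hp).1 (Int.natCast_dvd_natCast.1 h1)
      omega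
  · push Not at hsmall
    have := Fact.mk hℓ
    set φ := Int.castRingHom (ZMod ℓ) with hφ
    set P := Polynomial.C (N : ℤ) - G with hP
    have hz : ∀ x : ℤ, ∀ Q : Polynomial ℤ, (Q.map φ).eval (φ x) = 0 ↔ (ℓ : ℤ) ∣ Q.eval x := by
      intro x Q
      rw [Polynomial.eval_map, Polynomial.eval₂_at_apply]
      exact ZMod.intCast_zmod_eq_zero_iff_dvd _ ℓ
    have hF0 : F.map φ ≠ 0 := by
      intro h
      obtain ⟨n, hn⟩ := hF ℓ hℓ
      apply hn
      rw [← hz, h, Polynomial.eval_zero]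
    have hP0 : P.map φ ≠ 0 := by
      intro h
      have h1 : (ℓ : ℤ) ∣ P.eval (a : ℤ) := by rw [← hz, h, Polynomial.eval_zero]
      have h2 : P.eval (a : ℤ) = p := by rw [hP, Polynomial.eval_sub, Polynomial.eval_C, hpv]
      rw [h2] at h1
      have h3 := (Nat.prime_dvd_prime_iff_eq hℓ hp).1 (Int.natCast_dvd_natCast.1 h1)
      have h4 : (P.map φ).coeff G.natDegree = 0 := by rw [h, Polynomial.coeff_zero]
      rw [Polynomial.coeff_map, hP, Polynomial.coeff_sub, Polynomial.coeff_C, if_neg hG.ne', zero_sub] at h4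
      have h5 : (ℓ : ℤ) ∣ -G.coeff G.natDegree := (ZMod.intCast_zmod_eq_zero_iff_dvd _ ℓ).1 h4
      rw [dvd_neg, h3] at h5
      exact hpl h5
    by_contra hcon
    push Not at hcon
    have h6 : (F * P).map φ = 0 := by
      apply Polynomial.eq_zero_of_natDegree_lt_card_of_eval_eq_zero' _ (univ : Finset (ZMod ℓ))
      · intro x _
        obtain ⟨y, rfl⟩ := ZMod.intCast_surjective x
        have h7 := hcon y
        have h8 : F.eval y * (N - G.eval y) = (F * P).eval y := by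
          rw [Polynomial.eval_mul, hP, Polynomial.eval_sub, Polynomial.eval_C]
        rw [h8] at h7
        exact (hz y (F * P)).2 h7
      · rw [card_univ, ZMod.card]
        refine lt_of_le_of_lt ?_ hsmall
        refine Polynomial.natDegree_map_le.trans (Polynomial.natDegree_mul_le.trans ?_)
        apply Nat.add_le_add_left
        rw [hP]
        exact le_of_eq (Polynomial.natDegree_sub_eq_right_of_natDegree_lt (by rw [Polynomial.natDegree_C]; exact hG))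
    rw [Polynomial.map_mul, mul_eq_zero] at h6
    rcases h6 with h | h
    · exact hF0 h
    · exact hP0 h

end Pool.Agent.Q145.MT
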