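import Pool.Agent.Q145.MT.PolyFacts
import Pool.Agent.Q145.MT.GoldQ
import Pool.Agent.Q145.MT.SqMain

set_option autoImplicit false
set_option maxHeartbeats 4000000

/-! # Only one argument of a set gives a prime `N - G(a)` -/

namespace Pool.Agent.Q145.MT

open Finset Filter
open Pool.Agent.TH101.RG

open scoped Classical

/-- the choice of residues -/
theorem linRes (b : ℤ) (P : Finset ℕ) (hP : ∀ p ∈ P, p.Prime) (Z : Finset ℤ) :
    ∃ ρ : ℕ → ℕ, (∀ p ∈ P, ¬ p ∣ ρ p) ∧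
      ((Z.filter (fun z => ∀ p ∈ P, ¬ (p : ℤ) ∣ 1 * (ρ p : ℤ) + (b - z))).card : ℝ) ≤
        ∑ z ∈ Z, ∏ p ∈ P, (if ¬ p ∣ (z - b).natAbs ∧ 0 < p then 1 - 1 / (p : ℝ) else 1) := by
  set κ : ℕ → ℤ → ℝ := fun p z => if ¬ p ∣ (z - b).natAbs ∧ 0 < p then 1 / (p : ℝ) else 0 with hκ
  obtain ⟨ρ, hρ1, hρ2⟩ := greedyR (fun p ρ z => (p : ℤ) ∣ 1 * (ρ : ℤ) + (b - z)) κ P (fun p => Icc 1 (p - 1)) Z
    (by
      intro p hp
      have := (hP p hp).two_le
      rw [nonempty_Icc]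
      omega)
    (by
      intro p hp z _
      simp only [hκ]
      split_ifs with h1
      · have h2 : (1 : ℝ) ≤ p := by exact_mod_cast (hP p hp).one_le
        rw [div_le_one (by linarith)]
        exact h2
      · norm_num)
    (by
      intro p hp z _
      have hp2 := (hP p hp).two_le
      have hp0 : (0 : ℝ) < p := by exact_mod_cast (hP p hp).pos
      by_cases h1 : ¬ p ∣ (z - b).natAbs ∧ 0 < p
      · simp only [hκ]
        rw [if_pos h1]
        refine le_trans ?_ (?_ : (1 : ℝ) ≤ _)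
        · rw [Nat.card_Icc, Nat.sub_add_cancel (by omega)]
          have h3 : ((p - 1 : ℕ) : ℝ) ≤ p := by exact_mod_cast Nat.sub_le _ _
          calc 1 / (p : ℝ) * ((p - 1 : ℕ) : ℝ) ≤ 1 / (p : ℝ) * p := mul_le_mul_of_nonneg_left h3 (by positivity)
            _ = 1 := by field_simp
        · obtain ⟨r, hr⟩ : ∃ r : ℕ, (r : ℤ) = (z - b) % p :=
            ⟨((z - b) % p).toNat, Int.toNat_of_nonneg (Int.emod_nonneg _ (by omega))⟩
          have hr1 : r < p := by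
            have := Int.emod_lt_of_pos (z - b) (by omega : (0 : ℤ) < p)
            omega
          have hr0 : r ≠ 0 := by
            intro h
            apply h1.1
            apply Int.natCast_dvd.1
            apply Int.dvd_of_emod_eq_zero
            rw [← hr, h]
            rfl
          have hd : (p : ℤ) ∣ 1 * (r : ℤ) + (b - z) := by
            have h5 : (p : ℤ) ∣ (z - b) - r := by
              rw [hr]
              exact Int.dvd_self_sub_emod
            have : 1 * (r : ℤ) + (b - z) = -((z - b) - r) := by ring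
            rw [this]
            exact (dvd_neg).2 h5
          have h5 : 0 < ((Icc 1 (p - 1)).filter (fun ρ : ℕ => (p : ℤ) ∣ 1 * (ρ : ℤ) + (b - z))).card :=
            card_pos.2 ⟨r, mem_filter.2 ⟨mem_Icc.2 ⟨by omega, by omega⟩, hd⟩⟩
          have h6 : (1 : ℝ) ≤ (((Icc 1 (p - 1)).filter (fun ρ : ℕ => (p : ℤ) ∣ 1 * (ρ : ℤ) + (b - z))).card : ℝ) := by
            exact_mod_cast h5
          refine h6.trans (le_of_eq ?_)
          congr!
      · simp only [hκ]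
        rw [if_neg h1, zero_mul]
        positivity) Z (Subset.refl _)
  refine ⟨ρ, ?_, (le_of_eq ?_ : _ ≤ _).trans (hρ2.trans (le_of_eq ?_))⟩
  · intro p hp hd
    have h1 := mem_Icc.1 (hρ1 p hp)
    have h2 := Nat.le_of_dvd (by omega) hd
    have := (hP p hp).two_le
    omega
  · congr!
  · apply sum_congr rfl
    intro z _
    apply prod_congr rfl
    intro p _
    simp only [hκ]
    split_ifs <;> ring

theorem polyOne (G : Polynomial ℤ) (hG : 0 < G.natDegree) (k : ℕ) (hk : 1 ≤ k) : ∃ c : ℝ, 0 < c ∧ ∀ᶠ X : ℝ in atTop,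
    ∀ (A : Finset ℕ) (H a₀ : ℕ), (∀ a ∈ A, 1 ≤ a ∧ a ≤ H) → a₀ ∈ A → 0 < G.eval (a₀ : ℤ) →
    (A.card : ℝ) ^ (1 - 1 / (k : ℝ)) * (H : ℝ) ^ (1 / (k : ℝ)) ≤ c * (Real.log X * Real.log (Real.log X)) →
    ∀ bad : Finset ℕ, (bad.card : ℝ) ≤ X ^ (9 / 10 : ℝ) →
    ∃ N p : ℕ, p.Prime ∧ X < p ∧ (p : ℤ) = N - G.eval (a₀ : ℤ) ∧ (N : ℝ) ≤ 4 * X ∧ N ∉ bad ∧
      (∑ i ∈ range (G.natDegree + 1), (G.coeff i).natAbs) * (a₀ + 2) ^ G.natDegree < N ∧
      ∀ a ∈ A, G.eval (a : ℤ) ≠ G.eval (a₀ : ℤ) → ¬ ((N : ℤ) - G.eval (a : ℤ)).toNat.Prime := by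
  set h := G.natDegree with hh
  obtain ⟨C1, hC1, hprod⟩ := prodR 0
  obtain ⟨c₄, hc₄, heng⟩ := oneR 1
  obtain ⟨Cm, hCm, H₀, hH₀, hmom⟩ := mom_poly G hG k (h + 1)
  obtain ⟨CG, hCG⟩ := eval_abs_le G
  obtain ⟨SG, hSG⟩ : ∃ SG : ℕ, SG = ∑ i ∈ range (h + 1), (G.coeff i).natAbs := ⟨_, rfl⟩
  rw [← hSG]
  set H₁ : ℕ := max H₀ (CG + 1) with hH₁
  have hH₁1 : 1 ≤ H₁ := hH₀.trans (le_max_left _ _)
  have hH₁r : (1 : ℝ) ≤ H₁ := by exact_mod_cast hH₁1
  set κ : ℝ := (Cm * H₁) ^ (1 / (k : ℝ)) with hκ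
  have hκ0 : 0 < κ := Real.rpow_pos_of_pos (by positivity) _
  set c : ℝ := c₄ / (C1 * κ) with hc
  have hc0 : 0 < c := by positivity
  refine ⟨c, hc0, ?_⟩
  have hk0 : (0 : ℝ) < k := by exact_mod_cast hk
  have t1 := Real.tendsto_log_atTop
  have t2 : Tendsto (fun y : ℝ => Real.log (Real.log y)) atTop atTop := t1.comp t1
  have o1 := (Real.isLittleO_pow_log_id_atTop (n := 2 * (k * h))).bound
    (c := 1 / (8 * ((CG + SG * 3 ^ h + 1) * (c + 1) ^ (k * h)))) (by positivity)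
  filter_upwards [hprod, heng 1 2 squarefree_one, o1, evS 1, eventually_ge_atTop 16]
    with X hpr hX hsmall hev hX16
  obtain ⟨-, -, hX1000, hL1, hA1, -⟩ := hev
  intro A H a₀ hA ha₀ hGa₀ hcond bad hbad
  obtain ⟨P, hP1, hP2, hP3⟩ := hX
  have hX0 : 0 < X := by linarith
  have hAL : Real.log (Real.log X) ≤ Real.log X := (Real.log_le_sub_one_of_pos (by linarith)).trans (by linarith)
  have hH1 : 1 ≤ H := (hA a₀ ha₀).1.trans (hA a₀ ha₀).2
  have hHr : (1 : ℝ) ≤ H := by exact_mod_cast hH1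
  have hcard1 : (1 : ℝ) ≤ A.card := by exact_mod_cast card_pos.2 ⟨a₀, ha₀⟩
  -- the size of `H`
  have hHle : (H : ℝ) ≤ ((c + 1) * (Real.log X) ^ 2) ^ k := by
    have h1 : (H : ℝ) ^ (1 / (k : ℝ)) ≤ (c + 1) * (Real.log X) ^ 2 := by
      have h2 : (1 : ℝ) ≤ (A.card : ℝ) ^ (1 - 1 / (k : ℝ)) := by
        apply Real.one_le_rpow hcard1
        rw [sub_nonneg, div_le_one hk0]
        exact_mod_cast hk
      have h3 : 0 ≤ (H : ℝ) ^ (1 / (k : ℝ)) := by positivity
      calc (H : ℝ) ^ (1 / (k : ℝ)) ≤ (A.card : ℝ) ^ (1 - 1 / (k : ℝ)) * (H : ℝ) ^ (1 / (k : ℝ)) :=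
            le_mul_of_one_le_left h3 h2
        _ ≤ c * (Real.log X * Real.log (Real.log X)) := hcond
        _ ≤ (c + 1) * (Real.log X * Real.log X) := by
          have : 0 ≤ Real.log (Real.log X) := by linarith
          gcongr
          linarith
        _ = _ := by ring
    have h4 := pow_le_pow_left₀ (by positivity : 0 ≤ (H : ℝ) ^ (1 / (k : ℝ))) h1 k
    rwa [← Real.rpow_natCast, ← Real.rpow_mul (by positivity), one_div, inv_mul_cancel₀ hk0.ne', Real.rpow_one] at h4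
  have hbigH : ((CG + SG * 3 ^ h + 1 : ℕ) : ℝ) * (H : ℝ) ^ h ≤ X / 8 := by
    have h6 : 0 ≤ (Real.log X) ^ (2 * (k * h)) := by positivity
    rw [Real.norm_eq_abs, Real.norm_eq_abs, id, abs_of_nonneg h6, abs_of_pos hX0] at hsmall
    have h7 : (H : ℝ) ^ h ≤ (c + 1) ^ (k * h) * (Real.log X) ^ (2 * (k * h)) := by
      calc (H : ℝ) ^ h ≤ (((c + 1) * (Real.log X) ^ 2) ^ k) ^ h := pow_le_pow_left₀ (by positivity) hHle h
        _ = _ := by rw [← pow_mul, mul_pow, ← pow_mul]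
    push_cast
    calc ((CG : ℝ) + SG * 3 ^ h + 1) * (H : ℝ) ^ h
        ≤ ((CG : ℝ) + SG * 3 ^ h + 1) * ((c + 1) ^ (k * h) *
          (1 / (8 * ((CG + SG * 3 ^ h + 1) * (c + 1) ^ (k * h))) * X)) := by
          apply mul_le_mul_of_nonneg_left _ (by positivity)
          exact h7.trans (mul_le_mul_of_nonneg_left hsmall (by positivity))
      _ = X / 8 := by field_simp
  have hG1 : ∀ a ∈ A, |((G.eval (a : ℤ) : ℤ) : ℝ)| ≤ X / 8 := by
    intro a ha
    have h1 := hCG H a hH1 (by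
      rw [abs_of_nonneg (Int.natCast_nonneg a)]
      exact_mod_cast (hA a ha).2)
    have h2 : |((G.eval (a : ℤ) : ℤ) : ℝ)| ≤ (CG : ℝ) * (H : ℝ) ^ h := by exact_mod_cast h1
    refine h2.trans (le_trans ?_ hbigH)
    push_cast
    apply mul_le_mul_of_nonneg_right _ (by positivity)
    have : (0 : ℝ) ≤ SG * 3 ^ h := by positivity
    linarith
  have hG2 : SG * (a₀ + 2) ^ h ≤ SG * 3 ^ h * H ^ h := by
    rw [mul_assoc, ← mul_pow]
    apply Nat.mul_le_mul_left
    apply Nat.pow_le_pow_left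
    have := (hA a₀ ha₀).2
    omega
  have hG3 : ((SG * (a₀ + 2) ^ h : ℕ) : ℝ) ≤ X / 8 := by
    refine le_trans (by exact_mod_cast hG2 : ((SG * (a₀ + 2) ^ h : ℕ) : ℝ) ≤ ((SG * 3 ^ h * H ^ h : ℕ) : ℝ)) (le_trans ?_ hbigH)
    push_cast
    apply mul_le_mul_of_nonneg_right _ (by positivity)
    have : (0 : ℝ) ≤ CG := Nat.cast_nonneg _
    linarith
  -- the forms
  set b := G.eval (a₀ : ℤ) with hb
  set A' := A.filter (fun a : ℕ => G.eval (a : ℤ) ≠ b) with hA'
  set Z : Finset ℤ := A'.image (fun a : ℕ => G.eval (a : ℤ)) with hZ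
  have hZ1 : ∀ z ∈ Z, z ≠ b ∧ |(z : ℝ)| ≤ X / 8 := by
    intro z hz
    obtain ⟨a, ha, rfl⟩ := mem_image.1 hz
    rw [hA', mem_filter] at ha
    exact ⟨ha.2, hG1 a ha.1⟩
  have hb8 : |(b : ℝ)| ≤ X / 8 := hG1 a₀ ha₀
  obtain ⟨ρ, hρ1, hρ2⟩ := linRes b P (fun p hp => (hP1 p hp).1) Z
  have hA0 : 0 < Real.log (Real.log X) := by linarith
  have hL0 : 0 < Real.log X := by linarith
  have hsurv : ((Z.filter (fun z => ∀ p ∈ P, ¬ (p : ℤ) ∣ 1 * (ρ p : ℤ) + (b - z))).card : ℝ) ≤ c₄ * Real.log X := by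
    refine hρ2.trans ?_
    set w : ℤ → ℝ := fun z => ((z - b).natAbs : ℝ) / ((z - b).natAbs.totient : ℝ) with hw
    have e1 : ∑ z ∈ Z, ∏ p ∈ P, (if ¬ p ∣ (z - b).natAbs ∧ 0 < p then 1 - 1 / (p : ℝ) else 1) ≤
        ∑ z ∈ Z, C1 / Real.log (Real.log X) * w z := by
      apply sum_le_sum
      intro z hz
      exact hpr P hP1 hP2 _ (Int.natAbs_ne_zero.2 (sub_ne_zero.2 (hZ1 z hz).1))
    have e2 : ∑ z ∈ Z, w z ≤ ∑ a ∈ A', w (G.eval (a : ℤ)) := by
      rw [hZ]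
      exact sum_image_le_of_nonneg (fun z _ => by positivity)
    set Hm := max H H₁ with hHm
    have hsub : A' ⊆ (Icc 1 Hm).filter (fun a : ℕ => G.eval (a : ℤ) ≠ b) := by
      intro a ha
      rw [hA', mem_filter] at ha
      rw [mem_filter, mem_Icc]
      exact ⟨⟨(hA a ha.1).1, (hA a ha.1).2.trans (le_max_left _ _)⟩, ha.2⟩
    have e3 := holder_sub A' _ hsub (fun a : ℕ => w (G.eval (a : ℤ))) (fun a => by positivity) k hk
    have hHmr : (0 : ℝ) < Hm := by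
      have : 1 ≤ Hm := hH1.trans (le_max_left _ _)
      exact_mod_cast this
    have e4 : ∑ a ∈ (Icc 1 Hm).filter (fun a : ℕ => G.eval (a : ℤ) ≠ b), w (G.eval (a : ℤ)) ^ k ≤ Cm * Hm := by
      apply hmom Hm ((le_max_left _ _).trans (le_max_right _ _)) b
      have h1 := hCG Hm a₀ (hH1.trans (le_max_left _ _)) (by
        rw [abs_of_nonneg (Int.natCast_nonneg _)]
        exact_mod_cast (hA a₀ ha₀).2.trans (le_max_left _ _))
      refine h1.trans ?_
      have h2 : (CG : ℤ) ≤ Hm := by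
        have : CG ≤ Hm := (Nat.le_succ _).trans ((le_max_right _ _).trans (le_max_right _ _))
        exact_mod_cast this
      calc (CG : ℤ) * (Hm : ℤ) ^ G.natDegree ≤ (Hm : ℤ) * (Hm : ℤ) ^ G.natDegree :=
            mul_le_mul_of_nonneg_right h2 (by positivity)
        _ = (Hm : ℤ) ^ (h + 1) := by rw [pow_succ, mul_comm]
    have e5 : (∑ a ∈ (Icc 1 Hm).filter (fun a : ℕ => G.eval (a : ℤ) ≠ b), w (G.eval (a : ℤ)) ^ k) ^ (1 / (k : ℝ)) ≤
        κ * (H : ℝ) ^ (1 / (k : ℝ)) := by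
      have h1 : (Hm : ℝ) ≤ H₁ * H := by
        rw [hHm]
        push_cast
        apply max_le
        · exact le_mul_of_one_le_left (by linarith) hH₁r
        · exact le_mul_of_one_le_right (by linarith) hHr
      rw [hκ, ← Real.mul_rpow (by positivity) (by positivity)]
      apply Real.rpow_le_rpow (sum_nonneg fun a _ => by positivity) _ (by positivity)
      calc _ ≤ Cm * Hm := e4
        _ ≤ Cm * (H₁ * H) := mul_le_mul_of_nonneg_left h1 hCm.le
        _ = Cm * H₁ * H := by ring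
    have e6 : (A'.card : ℝ) ^ (1 - 1 / (k : ℝ)) ≤ (A.card : ℝ) ^ (1 - 1 / (k : ℝ)) := by
      apply Real.rpow_le_rpow (Nat.cast_nonneg _)
      · exact_mod_cast card_filter_le _ _
      · rw [sub_nonneg, div_le_one hk0]
        exact_mod_cast hk
    calc ∑ z ∈ Z, ∏ p ∈ P, (if ¬ p ∣ (z - b).natAbs ∧ 0 < p then 1 - 1 / (p : ℝ) else 1)
        ≤ ∑ z ∈ Z, C1 / Real.log (Real.log X) * w z := e1
      _ = C1 / Real.log (Real.log X) * ∑ z ∈ Z, w z := by rw [mul_sum]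
      _ ≤ C1 / Real.log (Real.log X) * ((A.card : ℝ) ^ (1 - 1 / (k : ℝ)) * (κ * (H : ℝ) ^ (1 / (k : ℝ)))) := by
        apply mul_le_mul_of_nonneg_left _ (by positivity)
        refine e2.trans (e3.trans ?_)
        apply mul_le_mul e6 e5 _ (by positivity)
        exact Real.rpow_nonneg (sum_nonneg fun a _ => by positivity) _
      _ = C1 / Real.log (Real.log X) * κ * ((A.card : ℝ) ^ (1 - 1 / (k : ℝ)) * (H : ℝ) ^ (1 / (k : ℝ))) := by ring
      _ ≤ C1 / Real.log (Real.log X) * κ * (c * (Real.log X * Real.log (Real.log X))) :=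
        mul_le_mul_of_nonneg_left hcond (by positivity)
      _ = c₄ * Real.log X := by
        rw [hc]
        field_simp
  have hX8 : X / 8 ≤ X := by linarith
  obtain ⟨p, hp, hXp, hp3, hpb, -, -, hall⟩ := hP3 (fun _ => 1) (fun z => b - z) 1 one_ne_zero
    (dvd_refl 1) (by simpa using (by linarith : (1 : ℝ) ≤ X)) 0 (Nat.coprime_one_right _)
    (bad.image (fun N => N - b.toNat))
    (by
      have : ((bad.image (fun N => N - b.toNat)).card : ℝ) ≤ bad.card := by exact_mod_cast card_image_le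
      linarith)
    Z
    (by
      intro z hz
      exact ⟨one_ne_zero, fun h => (hZ1 z hz).1 (by linarith)⟩)
    (by
      intro z hz
      refine ⟨by simpa using (by linarith : (1 : ℝ) ≤ X), ?_⟩
      push_cast
      rw [pow_one]
      refine (abs_sub _ _).trans ?_
      have := (hZ1 z hz).2
      linarith)
    (by
      intro x _ y _ hxy h
      simp only [one_mul] at h
      exact hxy (by linarith))
    ρ
    (fun p hp _ => hρ1 p hp)
    (by
      refine le_trans ?_ hsurv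
      have h1 : (Z.filter (fun z => ∀ p ∈ P, ¬ p ∣ 1 → ¬ (p : ℤ) ∣ 1 * (ρ p : ℤ) + (b - z))).card ≤
          (Z.filter (fun z => ∀ p ∈ P, ¬ (p : ℤ) ∣ 1 * (ρ p : ℤ) + (b - z))).card := by
        apply card_le_card
        intro z hz
        rw [mem_filter] at hz ⊢
        refine ⟨hz.1, fun p hp hd => hz.2 p hp ?_ hd⟩
        intro h
        exact (hP1 p hp).1.one_lt.ne' (Nat.dvd_one.1 h)
      exact_mod_cast h1)
  have hbt : (b.toNat : ℤ) = b := Int.toNat_of_nonneg hGa₀.le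
  have hbtr : (b.toNat : ℝ) = (b : ℝ) := by exact_mod_cast hbt
  have hbr := abs_le.1 hb8
  refine ⟨p + b.toNat, p, hp, hXp, ?_, ?_, ?_, ?_, ?_⟩
  · push_cast
    rw [hbt]
    ring
  · push_cast
    rw [hbtr]
    linarith
  · intro hN
    apply hpb
    rw [mem_image]
    exact ⟨p + b.toNat, hN, by omega⟩
  · have h1 : ((SG * (a₀ + 2) ^ h : ℕ) : ℝ) < ((p + b.toNat : ℕ) : ℝ) := by
      push_cast at hG3 ⊢
      rw [hbtr]
      linarith
    exact_mod_cast h1
  · intro a ha hne hprime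
    obtain ⟨q, hq, hqX, -, hqd⟩ := hall (G.eval (a : ℤ)) (mem_image.2 ⟨a, mem_filter.2 ⟨ha, hne⟩, rfl⟩)
    have hval : (((p + b.toNat : ℕ) : ℤ) - G.eval (a : ℤ)) = 1 * (p : ℤ) + (b - G.eval (a : ℤ)) := by
      push_cast
      rw [hbt]
      ring
    have hga := abs_le.1 (hG1 a ha)
    have hpos : 0 < (((p + b.toNat : ℕ) : ℤ) - G.eval (a : ℤ)) := by
      have h1 : (0 : ℝ) < ((((p + b.toNat : ℕ) : ℤ) - G.eval (a : ℤ) : ℤ) : ℝ) := by
        push_cast
        rw [hbtr]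
        linarith
      exact_mod_cast h1
    obtain ⟨v, hv⟩ : ∃ v : ℕ, (v : ℤ) = (((p + b.toNat : ℕ) : ℤ) - G.eval (a : ℤ)) := ⟨_, Int.toNat_of_nonneg hpos.le⟩
    have hvp : v.Prime := by
      rw [← hv] at hprime
      simpa using hprime
    rw [← hval, ← hv] at hqd
    have h2 := (Nat.prime_dvd_prime_iff_eq hq hvp).1 (Int.natCast_dvd_natCast.1 hqd)
    have h3 : (v : ℝ) = p + b - G.eval (a : ℤ) := by
      have : ((v : ℤ) : ℝ) = ((((p + b.toNat : ℕ) : ℤ) - G.eval (a : ℤ) : ℤ) : ℝ) := by rw [hv]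
      push_cast at this
      rw [hbtr] at this
      exact this
    rw [h2, h3] at hqX
    linarith

end Pool.Agent.Q145.MT
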