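import Pool.Agent.Q145.MT.EngR
import Pool.Agent.Q145.GB.Mom

set_option autoImplicit false
set_option maxHeartbeats 4000000

/-! # Products over the small primes and moments of `n / φ(n)` -/

namespace Pool.Agent.Q145.MT

open Finset Filter
open Pool.Agent.H378R2
open Pool.Agent.H318R2.Cr (cz_bounds Pz one_sub_inv_pos)
open Pool.Agent.TH101.RG

open scoped Classical

theorem prodR (L : ℕ) : ∃ C : ℝ, 0 < C ∧ ∀ᶠ X : ℝ in atTop, ∀ P : Finset ℕ, (∀ p ∈ P, p.Prime ∧ p ≤ yy X) →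
    ∑ p ∈ Pz (yy X) \ P, (1 : ℝ) / p ≤ 2 → ∀ B : ℕ, B ≠ 0 →
    ∏ p ∈ P, (if ¬ p ∣ B ∧ L < p then 1 - 1 / (p : ℝ) else 1) ≤
      C / Real.log (Real.log X) * ((B : ℝ) / B.totient) := by
  obtain ⟨c₁, c₂, hc₁, hc₁₂, hV⟩ := cz_bounds
  have hc₂ : 0 < c₂ := hc₁.trans_le hc₁₂
  refine ⟨2 * c₂ * Real.exp (2 * (2 + L)), by positivity, ?_⟩
  have t1 := Real.tendsto_log_atTop
  have t2 : Tendsto (fun y : ℝ => Real.log (Real.log y)) atTop atTop := t1.comp t1
  filter_upwards [t1.eventually_ge_atTop 4000, t2.eventually_ge_atTop 100] with X hL1 hL2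
  intro P hP hPs B hB
  set T := Real.log X with hT
  set A' := Real.log T with hA'
  set y := yy X with hy
  have hyT : (y : ℝ) ≤ T / 1000 := Nat.floor_le (by positivity)
  have hyT2 : T / 2000 ≤ y := by
    have h1 : T / 1000 < (y : ℝ) + 1 := Nat.lt_floor_add_one _
    linarith
  have hT0 : 0 < T := by linarith
  have hA'0 : 0 < A' := by linarith
  have hy2 : 2 ≤ y := by
    have : (2 : ℝ) ≤ y := by linarith
    exact_mod_cast this
  have hy0 : (0 : ℝ) < y := by linarith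
  have hly : A' / 2 ≤ Real.log y := by
    have h1 : Real.log (T / 2000) ≤ Real.log y := Real.log_le_log (by positivity) hyT2
    rw [Real.log_div hT0.ne' (by norm_num)] at h1
    have h2 : Real.log 2000 ≤ 11 * Real.log 2 := by
      rw [← Real.log_rpow (by norm_num)]
      apply Real.log_le_log (by norm_num)
      norm_num
    have := Real.log_two_lt_d9
    linarith
  have hPzp : ∀ p ∈ Pz y, p.Prime := by
    intro p hp
    unfold Pool.Agent.H318R2.Cr.Pz at hp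
    exact (mem_filter.1 hp).2
  have hpos : ∀ i : ℕ, 0 ≤ (1 : ℝ) / (i : ℝ) := fun i => by positivity
  have hprod : ∏ p ∈ Pz y, (1 - 1 / (p : ℝ)) ≤ 2 * c₂ / A' := by
    have h1 := (hV y hy2).2
    unfold Pool.Agent.H318R2.Cr.V at h1
    have h2 : 0 < Real.log y := by linarith
    rw [← le_div_iff₀ h2] at h1
    refine h1.trans ?_
    rw [div_le_div_iff₀ h2 hA'0]
    nlinarith
  set P' := P.filter (fun p => L < p) with hP'
  have hP'sub : P' ⊆ Pz y := by
    intro p hp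
    have h1 := hP p (mem_filter.1 hp).1
    unfold Pool.Agent.H318R2.Cr.Pz
    rw [mem_filter, mem_Ioc]
    exact ⟨⟨h1.1.pos, h1.2⟩, h1.1⟩
  have hdiff : ∑ p ∈ Pz y \ P', (1 : ℝ) / p ≤ 2 + L := by
    have hsub : Pz y \ P' ⊆ (Pz y \ P) ∪ Icc 1 L := by
      intro p hp
      obtain ⟨h1, h2⟩ := mem_sdiff.1 hp
      by_cases h3 : p ∈ P
      · apply mem_union_right
        rw [mem_Icc]
        refine ⟨(hPzp p h1).one_le, ?_⟩
        by_contra h4
        exact h2 (mem_filter.2 ⟨h3, by omega⟩)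
      · exact mem_union_left _ (Finset.mem_sdiff.2 ⟨h1, h3⟩)
    have h3 := (sum_le_sum_of_subset_of_nonneg hsub (fun i _ _ => hpos i)).trans (sum_union_le' _ hpos)
    have h4 : ∑ p ∈ Icc 1 L, (1 : ℝ) / (p : ℝ) ≤ L := by
      calc ∑ p ∈ Icc 1 L, (1 : ℝ) / (p : ℝ) ≤ ∑ p ∈ Icc 1 L, (1 : ℝ) := by
            apply sum_le_sum
            intro p hp
            rw [mem_Icc] at hp
            have : (1 : ℝ) ≤ p := by exact_mod_cast hp.1
            rw [div_le_one (by linarith)]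
            exact this
        _ = L := by simp
    linarith
  have h1 : ∏ p ∈ P, (if ¬ p ∣ B ∧ L < p then 1 - 1 / (p : ℝ) else 1) =
      ∏ p ∈ P', (if ¬ p ∣ B then 1 - 1 / (p : ℝ) else 1) := by
    rw [hP', prod_filter]
    apply prod_congr rfl
    intro p _
    by_cases h1 : L < p
    · simp [h1]
    · simp [h1]
  rw [h1]
  have h2 := prodF B hB P' (Pz y) hP'sub hPzp (2 + L) hdiff
  rw [prod_inv_primeFactors B hB] at h2
  refine h2.trans ?_
  apply mul_le_mul_of_nonneg_right _ (by positivity)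
  calc (∏ p ∈ Pz y, (1 - 1 / (p : ℝ))) * Real.exp (2 * (2 + L)) ≤ (2 * c₂ / A') * Real.exp (2 * (2 + L)) :=
        mul_le_mul_of_nonneg_right hprod (Real.exp_pos _).le
    _ = _ := by ring

/-- moments of `n / φ(n)` -/
theorem mom1 (k : ℕ) : ∃ C : ℝ, 0 < C ∧ ∀ N : ℕ, ∑ n ∈ Icc 1 N, ((n : ℝ) / n.totient) ^ k ≤ C * N := by
  obtain ⟨Ck, hCk, hpt⟩ := Pool.Agent.Q145.GB.pow_trunc k
  have hsm : Summable (fun d : ℕ => (1 : ℝ) / (d : ℝ) ^ (7 / 4 : ℝ)) :=
    Real.summable_one_div_nat_rpow.2 (by norm_num)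
  set S : ℝ := ∑' d : ℕ, (1 : ℝ) / (d : ℝ) ^ (7 / 4 : ℝ) with hS
  have hS0 : 0 ≤ S := tsum_nonneg fun d => by positivity
  refine ⟨Ck * (1 + S), by positivity, fun N => ?_⟩
  have h1 : ∑ n ∈ Icc 1 N, ((n : ℝ) / n.totient) ^ k ≤
      ∑ n ∈ Icc 1 N, Ck * (1 + ∑ d ∈ (Icc 1 N).filter (fun d => d ∣ n), (1 : ℝ) / (d : ℝ) ^ (3 / 4 : ℝ)) := by
    apply sum_le_sum
    intro n hn
    rw [mem_Icc] at hn
    exact hpt n N (by omega) (by omega) (hn.2.trans (Nat.le_mul_of_pos_right N (by omega)))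
  refine h1.trans ?_
  rw [← mul_sum, sum_add_distrib, sum_const, Nat.card_Icc, nsmul_eq_mul, mul_one, Nat.add_sub_cancel]
  have h2 : ∑ n ∈ Icc 1 N, ∑ d ∈ (Icc 1 N).filter (fun d => d ∣ n), (1 : ℝ) / (d : ℝ) ^ (3 / 4 : ℝ) ≤ S * N := by
    simp_rw [sum_filter]
    rw [sum_comm]
    calc ∑ d ∈ Icc 1 N, ∑ n ∈ Icc 1 N, (if d ∣ n then (1 : ℝ) / (d : ℝ) ^ (3 / 4 : ℝ) else 0)
        ≤ ∑ d ∈ Icc 1 N, (1 : ℝ) / (d : ℝ) ^ (7 / 4 : ℝ) * N := by
          apply sum_le_sum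
          intro d hd
          rw [mem_Icc] at hd
          have hd0 : (0 : ℝ) < d := by exact_mod_cast hd.1
          rw [← sum_filter, sum_const, nsmul_eq_mul]
          have h3 : (((Icc 1 N).filter (fun n => d ∣ n)).card : ℝ) ≤ N / d := by
            have h4 : ((Icc 1 N).filter (fun n => d ∣ n)).card = N / d := by
              have := Nat.Ioc_filter_dvd_card_eq_div N d
              rw [← this]
              congr 1
            rw [h4]
            exact Nat.cast_div_le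
          calc (((Icc 1 N).filter (fun n => d ∣ n)).card : ℝ) * ((1 : ℝ) / (d : ℝ) ^ (3 / 4 : ℝ))
              ≤ N / d * ((1 : ℝ) / (d : ℝ) ^ (3 / 4 : ℝ)) := mul_le_mul_of_nonneg_right h3 (by positivity)
            _ = _ := by
              have h5 : (d : ℝ) ^ (7 / 4 : ℝ) = d * (d : ℝ) ^ (3 / 4 : ℝ) := by
                rw [← Real.rpow_one_add' hd0.le (by norm_num)]
                norm_num
              rw [h5]
              field_simp
      _ = (∑ d ∈ Icc 1 N, (1 : ℝ) / (d : ℝ) ^ (7 / 4 : ℝ)) * N := by rw [sum_mul]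
      _ ≤ S * N := by
        apply mul_le_mul_of_nonneg_right _ (Nat.cast_nonneg N)
        exact hsm.sum_le_tsum _ (fun d _ => by positivity)
  calc Ck * ((N : ℝ) + ∑ n ∈ Icc 1 N, ∑ d ∈ (Icc 1 N).filter (fun d => d ∣ n), (1 : ℝ) / (d : ℝ) ^ (3 / 4 : ℝ))
      ≤ Ck * ((N : ℝ) + S * N) := by gcongr
    _ = _ := by ring

/-- moments over an arithmetic translate -/
theorem mom2 (k : ℕ) : ∃ C : ℝ, 0 < C ∧ ∀ (J N : ℕ) (a : ℤ), a.natAbs ≤ J * N →
    ∑ n ∈ (Icc 1 N).filter (fun n : ℕ => (n : ℤ) ≠ a), (((n : ℤ) - a).natAbs / (((n : ℤ) - a).natAbs.totient : ℝ)) ^ k ≤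
      C * ((J + 1) * N) := by
  obtain ⟨C, hC, h⟩ := mom1 k
  refine ⟨2 * C, by positivity, fun J N a ha => ?_⟩
  set f : ℕ → ℝ := fun n => ((n : ℝ) / n.totient) ^ k with hf
  have hf0 : ∀ n, 0 ≤ f n := fun n => by positivity
  have h1 : ∑ n ∈ (Icc 1 N).filter (fun n : ℕ => (n : ℤ) ≠ a),
      (((n : ℤ) - a).natAbs / (((n : ℤ) - a).natAbs.totient : ℝ)) ^ k =
      ∑ n ∈ (Icc 1 N).filter (fun n : ℕ => (n : ℤ) ≠ a), f ((n : ℤ) - a).natAbs := rfl
  rw [h1]
  have h2 : ∑ n ∈ (Icc 1 N).filter (fun n : ℕ => (n : ℤ) ≠ a), f ((n : ℤ) - a).natAbs =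
      ∑ n ∈ ((Icc 1 N).filter (fun n : ℕ => (n : ℤ) ≠ a)).filter (fun n : ℕ => a < n), f ((n : ℤ) - a).natAbs +
      ∑ n ∈ ((Icc 1 N).filter (fun n : ℕ => (n : ℤ) ≠ a)).filter (fun n : ℕ => ¬ a < n), f ((n : ℤ) - a).natAbs :=
    (sum_filter_add_sum_filter_not _ _ _).symm
  have key : ∀ (s : Finset ℕ), s ⊆ (Icc 1 N).filter (fun n : ℕ => (n : ℤ) ≠ a) →
      Set.InjOn (fun n : ℕ => ((n : ℤ) - a).natAbs) s →
      ∑ n ∈ s, f ((n : ℤ) - a).natAbs ≤ C * ((J + 1) * N) := by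
    intro s hs hinj
    rw [← sum_image hinj (f := f)]
    have h3 : s.image (fun n : ℕ => ((n : ℤ) - a).natAbs) ⊆ Icc 1 ((J + 1) * N) := by
      intro x hx
      obtain ⟨n, hn, rfl⟩ := mem_image.1 hx
      have h4 := mem_filter.1 (hs hn)
      have h5 := mem_Icc.1 h4.1
      rw [mem_Icc]
      constructor
      · have := h4.2
        omega
      · have h6 : ((n : ℤ) - a).natAbs ≤ n + a.natAbs := by omega
        calc ((n : ℤ) - a).natAbs ≤ n + a.natAbs := h6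
          _ ≤ N + J * N := Nat.add_le_add h5.2 ha
          _ = (J + 1) * N := by ring
    refine (sum_le_sum_of_subset_of_nonneg h3 fun i _ _ => hf0 i).trans ?_
    have := h ((J + 1) * N)
    push_cast at this
    exact this
  rw [h2]
  have h3 := key (((Icc 1 N).filter (fun n : ℕ => (n : ℤ) ≠ a)).filter (fun n : ℕ => a < n)) (filter_subset _ _)
    (by
      intro x hx y hy hxy
      simp only [coe_filter, Set.mem_ofPred_eq] at hx hy
      have hxy' : ((x : ℤ) - a).natAbs = ((y : ℤ) - a).natAbs := hxy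
      have h1 := hx.2
      have h2 := hy.2
      omega)
  have h4 := key (((Icc 1 N).filter (fun n : ℕ => (n : ℤ) ≠ a)).filter (fun n : ℕ => ¬ a < n)) (filter_subset _ _)
    (by
      intro x hx y hy hxy
      simp only [coe_filter, Set.mem_ofPred_eq] at hx hy
      have hxy' : ((x : ℤ) - a).natAbs = ((y : ℤ) - a).natAbs := hxy
      have h1 := hx.2
      have h2 := hy.2
      omega)
  linarith

end Pool.Agent.Q145.MT
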