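import Pool.Agent.Q145.MT.Conv
import Pool.Agent.TH101.RG.OneZ

set_option autoImplicit false
set_option maxHeartbeats 4000000

/-! # Prime moduli with large least primes in all classes of rational numbers of small height -/

namespace Pool.Agent.Q145.MT

open Finset Filter
open Pool.Agent.H378R2
open Pool.Agent.TH101.RG
open Pool.Agent.H256R2.SC (ff)

open scoped Classical

theorem wt_mul (a b : ℤ) (ha : a ≠ 0) (hb : b ≠ 0) : wt (a * b) ≤ wt a * wt b := by
  unfold wt
  rw [Int.natAbs_mul]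
  have ha' : 0 < a.natAbs := Int.natAbs_pos.2 ha
  have hb' : 0 < b.natAbs := Int.natAbs_pos.2 hb
  have h1 : (0 : ℝ) < a.natAbs.totient := by exact_mod_cast Nat.totient_pos.2 ha'
  have h2 : (0 : ℝ) < b.natAbs.totient := by exact_mod_cast Nat.totient_pos.2 hb'
  have h3 : (a.natAbs.totient : ℝ) * b.natAbs.totient ≤ ((a.natAbs * b.natAbs).totient : ℝ) := by
    exact_mod_cast Nat.totient_super_multiplicative _ _
  rw [div_mul_div_comm]
  push_cast
  exact div_le_div_of_nonneg_left (by positivity) (by positivity) h3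

theorem ratRes (A J : ℕ) (hJ : 1 ≤ J) : ∃ c : ℝ, 0 < c ∧ ∀ᶠ X : ℝ in atTop, ∀ Z : Finset ℤ,
    (∀ z ∈ Z, z ≠ 0 ∧ |(z : ℝ)| ≤ Real.log X * (Real.log (Real.log X)) ^ A) →
    ∑ z ∈ Z, wt z ≤ c * ff X → ∀ bad : Finset ℕ, (bad.card : ℝ) ≤ X ^ (9 / 10 : ℝ) →
    ∃ p : ℕ, p.Prime ∧ X < p ∧ (p : ℝ) ≤ 3 * X ∧ p ∉ bad ∧ ∀ z ∈ Z, ∀ a j : ℤ, a ≠ 0 → |a| ≤ J → j ≠ 0 → |j| ≤ J →
      ∀ q : ℕ, q.Prime → j * q ≠ z * p + a := by
  set L : ℕ := J.factorial with hL
  have hL0 : 0 < L := Nat.factorial_pos J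
  have hLz : (L : ℤ) ≠ 0 := by exact_mod_cast hL0.ne'
  have hdvd : ∀ a : ℤ, a ≠ 0 → |a| ≤ J → a ∣ (L : ℤ) := by
    intro a ha haJ
    rw [Int.dvd_natCast]
    apply Nat.dvd_factorial (Int.natAbs_pos.2 ha)
    have : (a.natAbs : ℤ) ≤ J := by rw [Int.natCast_natAbs]; exact haJ
    exact_mod_cast this
  obtain ⟨c₁, hc₁, hone⟩ := oneZ (A + 1) 1 (L : ℝ)
  have hwL : 1 ≤ wt L := one_le_wt _ hLz
  refine ⟨c₁ / ((2 * J + 1) * wt L), by positivity, ?_⟩
  have t1 := Real.tendsto_log_atTop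
  have t2 : Tendsto (fun y : ℝ => Real.log (Real.log y)) atTop atTop := t1.comp t1
  filter_upwards [hone 1 squarefree_one, t1.eventually_ge_atTop (L : ℝ), t2.eventually_ge_atTop (L : ℝ), evT,
    (tendsto_rpow_atTop (y := 1 / 2) (by norm_num)).eventually_ge_atTop (4 * (J : ℝ)),
    t1.eventually (Pool.Agent.H378R2.ev_pow_exp (A + 2) 1 1 one_pos), eventually_gt_atTop ((J : ℝ) * 2)]
    with X hX hX1 hX2 hev hJX' hpe hXJ
  obtain ⟨hLg, hA, hAL, hL2, hX16⟩ := hev
  intro Z hZ hZw bad hbad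
  have hX0 : 0 < X := by linarith
  set AA : Finset ℤ := (Icc (-(J : ℤ)) J).filter (fun a => a ≠ 0) with hAA
  have hAAm : ∀ a : ℤ, a ∈ AA ↔ a ≠ 0 ∧ |a| ≤ J := by
    intro a
    rw [hAA, mem_filter, mem_Icc, abs_le]
    tauto
  set Z' : Finset ℤ := (Z ×ˢ AA).image (fun x => x.1 * ((L : ℤ) / x.2)) with hZ'
  set G : ℤ → ℤ := fun z => ((Int.gcd z L : ℕ) : ℤ) with hG
  have hGz : ∀ z, G z ∣ z := fun z => Int.gcd_dvd_left _ _
  have hGL : ∀ z, G z ∣ (L : ℤ) := fun z => Int.gcd_dvd_right _ _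
  have hG0 : ∀ z, G z ≠ 0 := fun z h => hLz (zero_dvd_iff.1 (h ▸ hGL z))
  have hmulz : ∀ z, G z * (z / G z) = z := fun z => Int.mul_ediv_cancel' (hGz z)
  have hmulL : ∀ z, G z * ((L : ℤ) / G z) = L := fun z => Int.mul_ediv_cancel' (hGL z)
  have hLa : ∀ a ∈ AA, a * ((L : ℤ) / a) = L := fun a ha =>
    Int.mul_ediv_cancel' (hdvd a ((hAAm a).1 ha).1 ((hAAm a).1 ha).2)
  have hLa0 : ∀ a ∈ AA, (L : ℤ) / a ≠ 0 := by
    intro a ha h
    have := hLa a ha
    rw [h, mul_zero] at this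
    exact hLz this.symm
  have hLadvd : ∀ a ∈ AA, (L : ℤ) / a ∣ L := by
    intro a ha
    exact ⟨a, by rw [mul_comm]; exact (hLa a ha).symm⟩
  have hZ'm : ∀ z' ∈ Z', ∃ z ∈ Z, ∃ a ∈ AA, z' = z * ((L : ℤ) / a) := by
    intro z' hz'
    obtain ⟨x, hx, rfl⟩ := mem_image.1 hz'
    obtain ⟨h1, h2⟩ := mem_product.1 hx
    exact ⟨x.1, h1, x.2, h2, rfl⟩
  have hZ'0 : ∀ z' ∈ Z', z' ≠ 0 := by
    intro z' hz'
    obtain ⟨z, hz, a, ha, rfl⟩ := hZ'm z' hz'
    exact mul_ne_zero (hZ z hz).1 (hLa0 a ha)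
  have hLabs : ∀ a ∈ AA, |(((L : ℤ) / a : ℤ) : ℝ)| ≤ L := by
    intro a ha
    have h1 : |(L : ℤ) / a| ≤ (L : ℤ) := by
      have h2 := Int.le_of_dvd (by exact_mod_cast hL0) ((abs_dvd ((L : ℤ) / a) L).2 (hLadvd a ha))
      exact h2
    have h3 : ((|(L : ℤ) / a| : ℤ) : ℝ) ≤ ((L : ℤ) : ℝ) := by exact_mod_cast h1
    rw [Int.cast_abs] at h3
    simpa using h3
  have hZ'abs : ∀ z' ∈ Z', |(z' : ℝ)| ≤ Real.log X * (Real.log (Real.log X)) ^ (A + 1) := by
    intro z' hz'
    obtain ⟨z, hz, a, ha, rfl⟩ := hZ'm z' hz'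
    have h1 := (hZ z hz).2
    have h2 := hLabs a ha
    rw [Int.cast_mul, abs_mul, pow_succ, ← mul_assoc]
    have h3 : 0 ≤ Real.log X * (Real.log (Real.log X)) ^ A := by
      apply mul_nonneg (by linarith)
      apply pow_nonneg
      linarith
    exact mul_le_mul h1 (h2.trans hX2) (abs_nonneg _) h3
  have hbig : Real.log X * (Real.log (Real.log X)) ^ (A + 1) ≤ X := by
    have h1 : Real.log (Real.log X) ≤ Real.log X := by linarith
    have h2 : (Real.log (Real.log X)) ^ (A + 1) ≤ (Real.log X) ^ (A + 1) := pow_le_pow_left₀ (by linarith) h1 _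
    calc Real.log X * (Real.log (Real.log X)) ^ (A + 1) ≤ Real.log X * (Real.log X) ^ (A + 1) :=
          mul_le_mul_of_nonneg_left h2 (by linarith)
      _ = (Real.log X) ^ (A + 2) := by ring
      _ ≤ Real.exp (1 * Real.log X) := by
        have := hpe
        simpa using this
      _ = X := by rw [one_mul, Real.exp_log hX0]
  have hsum : ∑ z ∈ Z', ((z.natAbs : ℝ) / (z.natAbs.totient : ℝ)) ≤ c₁ * ff X := by
    have h1 : ∑ z ∈ Z', wt z ≤ ∑ x ∈ Z ×ˢ AA, wt (x.1 * ((L : ℤ) / x.2)) := by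
      rw [hZ']
      apply sum_image_le (Z ×ˢ AA) _ wt (fun x => wt (x.1 * ((L : ℤ) / x.2)))
      · intro x _
        unfold wt
        positivity
      · intro x _
        exact le_rfl
    have h2 : ∑ x ∈ Z ×ˢ AA, wt (x.1 * ((L : ℤ) / x.2)) ≤ ((2 * J + 1) * wt L) * ∑ z ∈ Z, wt z := by
      rw [sum_product, mul_sum]
      apply sum_le_sum
      intro z hz
      have h3 : ∀ a ∈ AA, wt (z * ((L : ℤ) / a)) ≤ wt z * wt L := by
        intro a ha
        refine (wt_mul _ _ (hZ z hz).1 (hLa0 a ha)).trans ?_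
        apply mul_le_mul_of_nonneg_left _ (zero_le_one.trans (one_le_wt _ (hZ z hz).1))
        exact wt_mono _ _ (hLadvd a ha) hLz
      calc ∑ a ∈ AA, wt (z * ((L : ℤ) / a)) ≤ ∑ _a ∈ AA, wt z * wt L := sum_le_sum h3
        _ = AA.card * (wt z * wt L) := by rw [sum_const, nsmul_eq_mul]
        _ ≤ (2 * J + 1) * (wt z * wt L) := by
          apply mul_le_mul_of_nonneg_right
          · have h4 : AA.card ≤ 2 * J + 1 := by
              refine (card_filter_le _ _).trans ?_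
              rw [Int.card_Icc]
              omega
            exact_mod_cast h4
          · have := one_le_wt _ (hZ z hz).1
            positivity
        _ = _ := by ring
    refine h1.trans (h2.trans ?_)
    have h5 : 0 < (2 * (J : ℝ) + 1) * wt L := by positivity
    calc ((2 * J + 1) * wt L) * ∑ z ∈ Z, wt z ≤ ((2 * J + 1) * wt L) * (c₁ / ((2 * J + 1) * wt L) * ff X) :=
          mul_le_mul_of_nonneg_left hZw h5.le
      _ = c₁ * ff X := by field_simp
  have hLX : (L : ℝ) ≤ X := hX1.trans ((Real.log_le_sub_one_of_pos hX0).trans (by linarith))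
  obtain ⟨p, hp, hXp, hp3, hpb, -, hall⟩ := hX (fun z => z / G z) (fun z => (L : ℤ) / G z) L hL0.ne' (one_dvd _)
    (by
      calc ∑ p ∈ L.primeFactors, (1 : ℝ) / p ≤ ∑ p ∈ L.primeFactors, (1 : ℝ) := by
            apply sum_le_sum
            intro p hp
            have : (1 : ℝ) ≤ p := by exact_mod_cast (Nat.prime_of_mem_primeFactors hp).one_le
            rw [div_le_one (by linarith)]
            exact this
        _ = L.primeFactors.card := by rw [sum_const, nsmul_eq_mul, mul_one]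
        _ ≤ L := by
          have h1 : L.primeFactors ⊆ Icc 1 L := by
            intro p hp
            rw [mem_Icc]
            exact ⟨(Nat.prime_of_mem_primeFactors hp).one_le, Nat.le_of_mem_primeFactors hp⟩
          have h2 := card_le_card h1
          rw [Nat.card_Icc, Nat.add_sub_cancel] at h2
          exact_mod_cast h2)
    (by rw [pow_one]; exact hX1)
    (by
      intro p hp hpL c hpc
      obtain ⟨r, hr1, hr2⟩ := exists_kill p hp c L (by
        intro h
        rcases (Nat.prime_iff_prime_int.1 hp).dvd_or_dvd h with h | h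
        · exact hpc h
        · exact hpL (by exact_mod_cast h))
      have hr1' := mem_Icc.1 hr1
      refine ⟨r, fun h => by
        have := Nat.le_of_dvd (by omega) h
        have := hp.two_le
        omega, fun z n hz hn => ?_⟩
      have hpG : ¬ (p : ℤ) ∣ G z := fun h => hpL (by exact_mod_cast h.trans (hGL z))
      have h1 : (p : ℤ) ∣ z * n + L := by
        have h2 : z * n + L = (z - c) * n + c * (n - r) + (c * (r : ℤ) + L) := by ring
        rw [h2]
        exact dvd_add (dvd_add (hz.mul_right _) (hn.mul_left _)) hr2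
      have h3 : z * n + L = G z * (z / G z * n + (L : ℤ) / G z) := by
        rw [mul_add, ← mul_assoc, hmulz, hmulL]
      rw [h3] at h1
      exact ((Nat.prime_iff_prime_int.1 hp).dvd_or_dvd h1).resolve_left hpG)
    1 (Nat.coprime_one_right _) bad hbad Z' (fun z hz => ⟨hZ'0 z hz, hZ'abs z hz⟩)
    (by
      intro z hz
      constructor
      · intro h
        have := hmulz z
        rw [h, mul_zero] at this
        exact hZ'0 z hz this.symm
      · intro h
        have := hmulL z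
        rw [h, mul_zero] at this
        exact hLz this.symm)
    (by
      intro z hz
      rw [pow_one]
      have hle : ∀ x : ℤ, G z ∣ x → |((x / G z : ℤ) : ℝ)| ≤ |(x : ℝ)| := by
        intro x hx
        have h1 : G z * (x / G z) = x := Int.mul_ediv_cancel' hx
        have h2 : (1 : ℤ) ≤ |G z| := Int.one_le_abs (hG0 z)
        have h3 : |x / G z| ≤ |x| := by
          calc |x / G z| ≤ |G z| * |x / G z| := le_mul_of_one_le_left (abs_nonneg _) h2
            _ = |x| := by rw [← abs_mul, h1]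
        exact_mod_cast h3
      refine ⟨(hle z (hGz z)).trans ((hZ'abs z hz).trans hbig), (hle L (hGL z)).trans ?_⟩
      have h9 : |(((L : ℕ) : ℤ) : ℝ)| = L := by
        rw [Int.cast_natCast, Nat.abs_cast]
      rw [h9]
      exact hLX)
    (by
      intro k hk l hl hkl h
      apply hkl
      have h1 : k * L = l * L := by
        calc k * (L : ℤ) = (G k * (k / G k)) * (G l * ((L : ℤ) / G l)) := by rw [hmulz, hmulL]
          _ = (G k * G l) * (k / G k * ((L : ℤ) / G l)) := by ring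
          _ = (G k * G l) * (l / G l * ((L : ℤ) / G k)) := by rw [h]
          _ = (G l * (l / G l)) * (G k * ((L : ℤ) / G k)) := by ring
          _ = l * L := by rw [hmulz, hmulL]
      exact mul_right_cancel₀ hLz h1) hsum
  refine ⟨p, hp, hXp, hp3, hpb, ?_⟩
  intro z hz a j ha haJ hj hjJ q hq heq
  have haA : a ∈ AA := (hAAm a).2 ⟨ha, haJ⟩
  obtain ⟨r, hr, hrX, hrL, hrd⟩ := hall (z * ((L : ℤ) / a)) (mem_image.2 ⟨(z, a), mem_product.2 ⟨hz, haA⟩, rfl⟩)
  have hrp := Nat.prime_iff_prime_int.1 hr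
  have h1 : (r : ℤ) ∣ ((L : ℤ) / a) * (z * p + a) := by
    have h2 : ((L : ℤ) / a) * (z * p + a) = G (z * ((L : ℤ) / a)) *
        (z * ((L : ℤ) / a) / G (z * ((L : ℤ) / a)) * p + (L : ℤ) / G (z * ((L : ℤ) / a))) := by
      linear_combination (-(p : ℤ)) * hmulz (z * ((L : ℤ) / a)) + hLa a haA - hmulL (z * ((L : ℤ) / a))
    rw [h2]
    exact hrd.mul_left _
  have hrL' : ¬ (r : ℤ) ∣ L := fun h => hrL (by exact_mod_cast h)
  have h2 : (r : ℤ) ∣ j * q := by
    rw [heq]
    exact (hrp.dvd_or_dvd h1).resolve_left (fun h => hrL' (h.trans (hLadvd a haA)))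
  have h3 : (r : ℤ) ∣ q := (hrp.dvd_or_dvd h2).resolve_left (fun h => hrL' (h.trans (hdvd j hj hjJ)))
  have h4 : r = q := (Nat.prime_dvd_prime_iff_eq hr hq).1 (by exact_mod_cast h3)
  -- sizes
  have h5 : |((j : ℝ) * q)| ≤ J * X ^ (1 / 1000 : ℝ) := by
    rw [abs_mul, Nat.abs_cast]
    apply mul_le_mul _ (by rw [← h4]; exact hrX) (Nat.cast_nonneg _) (Nat.cast_nonneg _)
    have : ((|j| : ℤ) : ℝ) ≤ J := by exact_mod_cast hjJ
    rwa [Int.cast_abs] at this
  have h6 : X - J ≤ |((z : ℝ) * p + a)| := by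
    have h7 : (1 : ℝ) ≤ |(z : ℝ)| := by
      have : (1 : ℤ) ≤ |z| := Int.one_le_abs (hZ z hz).1
      exact_mod_cast this
    have h8 : |(a : ℝ)| ≤ J := by
      have : ((|a| : ℤ) : ℝ) ≤ J := by exact_mod_cast haJ
      rwa [Int.cast_abs] at this
    have h9 : |(z : ℝ) * p| ≤ |((z : ℝ) * p + a)| + |(a : ℝ)| := by
      have := abs_sub_abs_le_abs_sub ((z : ℝ) * p) (-(a : ℝ))
      rw [abs_neg, sub_neg_eq_add] at this
      linarith
    rw [abs_mul, Nat.abs_cast] at h9
    have hp0 : (0 : ℝ) ≤ p := Nat.cast_nonneg _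
    nlinarith
  have h7 : ((j : ℝ) * q) = (z : ℝ) * p + a := by exact_mod_cast heq
  rw [h7] at h5
  have h8 : J * X ^ (1 / 1000 : ℝ) ≤ X / 4 := by
    have e1 : X ^ (1 / 1000 : ℝ) ≤ X ^ (1 / 2 : ℝ) := Real.rpow_le_rpow_of_exponent_le (by linarith) (by norm_num)
    have e2 : X ^ (1 / 2 : ℝ) * X ^ (1 / 2 : ℝ) = X := by
      rw [← Real.rpow_add hX0]
      norm_num
    have e3 : 0 ≤ X ^ (1 / 2 : ℝ) := by positivity
    have e4 : (0 : ℝ) ≤ J := Nat.cast_nonneg J
    nlinarith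
  have h10 : (J : ℝ) ≤ X / 2 := by linarith
  linarith

end Pool.Agent.Q145.MT
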