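import Pool.Agent.Q145.MT.ProdR
import Pool.Agent.Q145.MT.Gold

set_option autoImplicit false
set_option maxHeartbeats 4000000

/-! # Residues which are shifted squares -/

namespace Pool.Agent.Q145.MT

open Finset Filter
open Pool.Agent.TH101.RG

open scoped Classical

/-- the number whose prime factors are bad for `z` -/
noncomputable def BS {K : ℕ} (μ : Fin K → ℕ) (z : ℤ) : ℕ :=
  z.natAbs * ∏ j, (z ^ 2 - (μ j : ℤ) ^ 2).natAbs

/-- every residue is up to sign in the half system -/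
theorem half_rep (ℓ : ℕ) (hℓ : ℓ.Prime) (h2 : 2 < ℓ) (z : ℤ) (hz : ¬ (ℓ : ℤ) ∣ z) :
    ∃ a : ℕ, a ∈ Icc 1 ((ℓ - 1) / 2) ∧ (ℓ : ℤ) ∣ (a : ℤ) ^ 2 - z ^ 2 := by
  have hl0 : (0 : ℤ) < ℓ := by exact_mod_cast hℓ.pos
  obtain ⟨r, hr⟩ : ∃ r : ℕ, (r : ℤ) = z % ℓ := ⟨(z % ℓ).toNat, Int.toNat_of_nonneg (Int.emod_nonneg z hl0.ne')⟩
  have hrl : r < ℓ := by
    have := Int.emod_lt_of_pos z hl0
    omega
  have hr0 : r ≠ 0 := by
    intro h
    apply hz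
    apply Int.dvd_of_emod_eq_zero
    rw [← hr, h]
    rfl
  have hd : (ℓ : ℤ) ∣ z - r := by
    rw [hr]
    exact Int.dvd_self_sub_emod
  have hodd : ℓ % 2 = 1 := by
    rcases hℓ.eq_two_or_odd with h | h
    · omega
    · exact h
  by_cases h1 : r ≤ (ℓ - 1) / 2
  · refine ⟨r, mem_Icc.2 ⟨by omega, h1⟩, ?_⟩
    have : (r : ℤ) ^ 2 - z ^ 2 = (z - r) * (-(z + r)) := by ring
    rw [this]
    exact hd.mul_right _
  · refine ⟨ℓ - r, mem_Icc.2 ⟨by omega, by omega⟩, ?_⟩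
    have h3 : ((ℓ - r : ℕ) : ℤ) = ℓ - r := by
      push_cast [hrl.le]
      ring
    rw [h3]
    have h4 : ((ℓ : ℤ) - r) ^ 2 - z ^ 2 = ℓ * (ℓ - 2 * r) + (z - r) * (-(z + r)) := by ring
    rw [h4]
    exact dvd_add (dvd_mul_right _ _) (hd.mul_right _)

theorem half_inj (ℓ : ℕ) (hℓ : ℓ.Prime) {a b : ℕ} (ha : a ∈ Icc 1 ((ℓ - 1) / 2))
    (hb : b ∈ Icc 1 ((ℓ - 1) / 2)) {c : ℤ} (h1 : (ℓ : ℤ) ∣ (a : ℤ) ^ 2 - c) (h2 : (ℓ : ℤ) ∣ (b : ℤ) ^ 2 - c) : a = b := by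
  rw [mem_Icc] at ha hb
  have h3 : (ℓ : ℤ) ∣ ((a : ℤ) - b) * (a + b) := by
    have : ((a : ℤ) - b) * (a + b) = ((a : ℤ) ^ 2 - c) - ((b : ℤ) ^ 2 - c) := by ring
    rw [this]
    exact dvd_sub h1 h2
  have hp : Prime (ℓ : ℤ) := Nat.prime_iff_prime_int.1 hℓ
  rcases hp.dvd_or_dvd h3 with h | h
  · by_contra hab
    have h4 : (ℓ : ℤ) ≤ |(a : ℤ) - b| := by
      apply Int.le_of_dvd
      · rw [abs_pos]
        omega
      · rwa [dvd_abs]
    have h5 : |(a : ℤ) - b| < ℓ := by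
      rw [abs_lt]
      omega
    omega
  · have := Int.le_of_dvd (by omega) h
    omega

theorem sqRes {K : ℕ} (C₀ : ℕ) (μ : Fin K → ℕ) (P : Finset ℕ) (hP : ∀ p ∈ P, p.Prime)
    (v : ℕ → ℕ) (hv : ∀ p ∈ P, ∀ j, ¬ (p : ℤ) ∣ (v p : ℤ) + C₀ - (μ j : ℤ) ^ 2)
    (Z : Finset ℤ) :
    ∃ ρ : ℕ → ℕ, (∀ p ∈ P, ∀ j, ¬ (p : ℤ) ∣ (ρ p : ℤ) + C₀ - (μ j : ℤ) ^ 2) ∧
      ((Z.filter (fun z => ∀ p ∈ P, ¬ (p : ℤ) ∣ (ρ p : ℤ) + C₀ - z ^ 2)).card : ℝ) ≤
        ∑ z ∈ Z, (∏ p ∈ P, (if ¬ p ∣ BS μ z ∧ 2 * K + 2 < p then 1 - 1 / (p : ℝ) else 1)) ^ 2 := by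
  set R : ℕ → Finset ℕ := fun p => if 2 * K + 2 < p then
    ((Icc 1 ((p - 1) / 2)).filter (fun a : ℕ => ∀ j, ¬ (p : ℤ) ∣ (a : ℤ) ^ 2 - (μ j : ℤ) ^ 2)).image
      (fun a => a ^ 2 + C₀ * (p - 1)) else {v p} with hR
  have hid : ∀ p ∈ P, ∀ a : ℕ, ∀ x : ℤ, (p : ℤ) ∣ (((a ^ 2 + C₀ * (p - 1) : ℕ) : ℤ) + C₀ - x) ↔ (p : ℤ) ∣ (a : ℤ) ^ 2 - x := by
    intro p hp a x
    have h1 := (hP p hp).one_le
    have h2 : (((a ^ 2 + C₀ * (p - 1) : ℕ) : ℤ) + C₀ - x) = ((a : ℤ) ^ 2 - x) + p * C₀ := by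
      push_cast [h1]
      ring
    rw [h2]
    exact (dvd_add_left (dvd_mul_right _ _))
  have hRne : ∀ p ∈ P, (R p).Nonempty := by
    intro p hp
    simp only [hR]
    split_ifs with h1
    · rw [image_nonempty]
      by_contra hcon
      rw [not_nonempty_iff_eq_empty, filter_eq_empty_iff] at hcon
      have h2 : Icc 1 ((p - 1) / 2) ⊆ (univ : Finset (Fin K)).biUnion (fun j => (Icc 1 ((p - 1) / 2)).filter
          (fun a : ℕ => (p : ℤ) ∣ (a : ℤ) ^ 2 - (μ j : ℤ) ^ 2)) := by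
        intro a ha
        have h3 := hcon ha
        push Not at h3
        obtain ⟨j, hj⟩ := h3
        rw [mem_biUnion]
        exact ⟨j, mem_univ _, mem_filter.2 ⟨ha, hj⟩⟩
      have h3 := (card_le_card h2).trans (card_biUnion_le_card_mul _ _ 1 (fun j _ => by
        rw [card_le_one]
        intro a ha b hb
        rw [mem_filter] at ha hb
        exact half_inj p (hP p hp) ha.1 hb.1 ha.2 hb.2))
      rw [Nat.card_Icc, card_univ, Fintype.card_fin] at h3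
      omega
    · exact singleton_nonempty _
  have hRc : ∀ p ∈ P, 2 * K + 2 < p → ((R p).card : ℝ) ≤ p / 2 := by
    intro p hp h1
    simp only [hR]
    rw [if_pos h1]
    have h2 := (card_image_le (s := (Icc 1 ((p - 1) / 2)).filter (fun a : ℕ => ∀ j, ¬ (p : ℤ) ∣ (a : ℤ) ^ 2 - (μ j : ℤ) ^ 2))
      (f := fun a => a ^ 2 + C₀ * (p - 1))).trans (card_filter_le _ _)
    rw [Nat.card_Icc] at h2
    obtain ⟨cc, hcc⟩ : ∃ cc : ℕ, cc = (((Icc 1 ((p - 1) / 2)).filter (fun a : ℕ => ∀ j, ¬ (p : ℤ) ∣ (a : ℤ) ^ 2 - (μ j : ℤ) ^ 2)).image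
      (fun a => a ^ 2 + C₀ * (p - 1))).card := ⟨_, rfl⟩
    rw [← hcc] at h2 ⊢
    rw [le_div_iff₀ (by norm_num)]
    have h3 : cc * 2 ≤ p := by omega
    exact_mod_cast h3
  set κ : ℕ → ℤ → ℝ := fun p z => if ¬ p ∣ BS μ z ∧ 2 * K + 2 < p then 2 / (p : ℝ) else 0 with hκ
  obtain ⟨ρ, hρ1, hρ2⟩ := greedyR (fun p ρ z => (p : ℤ) ∣ (ρ : ℤ) + C₀ - z ^ 2) κ P R Z hRne
    (by
      intro p hp z _
      simp only [hκ]
      split_ifs with h1
      · have h2 : (2 : ℝ) ≤ p := by exact_mod_cast (hP p hp).two_le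
        rw [div_le_one (by linarith)]
        exact h2
      · norm_num)
    (by
      intro p hp z _
      have hp0 : (0 : ℝ) < p := by exact_mod_cast (hP p hp).pos
      by_cases h1 : ¬ p ∣ BS μ z ∧ 2 * K + 2 < p
      · simp only [hκ]
        rw [if_pos h1]
        have h2 : ¬ (p : ℤ) ∣ z := by
          intro h
          apply h1.1
          exact (Int.natCast_dvd.1 h).mul_right _
        obtain ⟨a, ha, haz⟩ := half_rep p (hP p hp) (by omega) z h2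
        have h3 : a ^ 2 + C₀ * (p - 1) ∈ R p := by
          simp only [hR]
          rw [if_pos h1.2, mem_image]
          refine ⟨a, mem_filter.2 ⟨ha, fun j hj => ?_⟩, rfl⟩
          apply h1.1
          apply Dvd.dvd.mul_left
          refine (Int.natCast_dvd.1 ?_).trans (dvd_prod_of_mem (fun j => (z ^ 2 - (μ j : ℤ) ^ 2).natAbs) (mem_univ j))
          have : z ^ 2 - (μ j : ℤ) ^ 2 = ((a : ℤ) ^ 2 - (μ j : ℤ) ^ 2) - ((a : ℤ) ^ 2 - z ^ 2) := by ring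
          rw [this]
          exact dvd_sub hj haz
        refine le_trans ?_ (?_ : (1 : ℝ) ≤ _)
        · calc 2 / (p : ℝ) * ((R p).card : ℝ) ≤ 2 / (p : ℝ) * (p / 2) :=
                mul_le_mul_of_nonneg_left (hRc p hp h1.2) (by positivity)
            _ = 1 := by field_simp
        · have h5 : 0 < ((R p).filter (fun ρ : ℕ => (p : ℤ) ∣ (ρ : ℤ) + C₀ - z ^ 2)).card :=
            card_pos.2 ⟨_, mem_filter.2 ⟨h3, (hid p hp a _).2 haz⟩⟩
          have h6 : (1 : ℝ) ≤ (((R p).filter (fun ρ : ℕ => (p : ℤ) ∣ (ρ : ℤ) + C₀ - z ^ 2)).card : ℝ) := by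
            exact_mod_cast h5
          refine h6.trans (le_of_eq ?_)
          congr!
      · simp only [hκ]
        rw [if_neg h1, zero_mul]
        positivity) Z (Subset.refl _)
  refine ⟨ρ, ?_, (le_of_eq ?_ : _ ≤ _).trans (hρ2.trans ?_)⟩
  rotate_left
  · congr!
  rotate_left
  · intro p hp j
    have h1 := hρ1 p hp
    simp only [hR] at h1
    split_ifs at h1 with h2
    · obtain ⟨a, ha, ha2⟩ := mem_image.1 h1
      rw [← ha2, hid p hp a]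
      exact (mem_filter.1 ha).2 j
    · rw [mem_singleton] at h1
      rw [h1]
      exact hv p hp j
  · apply sum_le_sum
    intro z _
    rw [← prod_pow]
    apply Finset.prod_le_prod
    · intro p hp
      have hp0 : (2 : ℝ) ≤ p := by exact_mod_cast (hP p hp).two_le
      simp only [hκ]
      split_ifs
      · rw [sub_nonneg, div_le_one (by linarith)]
        exact hp0
      · norm_num
    · intro p hp
      have hp0 : (0 : ℝ) < p := by exact_mod_cast (hP p hp).pos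
      simp only [hκ]
      split_ifs
      · have : (1 - 1 / (p : ℝ)) ^ 2 = 1 - 2 / p + (1 / (p : ℝ)) ^ 2 := by ring
        rw [this]
        have : 0 ≤ (1 / (p : ℝ)) ^ 2 := by positivity
        linarith
      · norm_num

/-- the weight is at most a product of simple ratios -/
theorem BS_ratio {K : ℕ} (hK : 1 ≤ K) (μ : Fin K → ℕ) (z : ℤ) (hz : z ≠ 0) (hne : ∀ j, z ≠ μ j ∧ z ≠ -(μ j : ℤ)) :
    ((BS μ z : ℝ) / (BS μ z).totient) ^ 2 ≤
      ((z.natAbs : ℝ) / (z.natAbs.totient : ℝ)) ^ 6 +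
      ∑ j, (((z - μ j).natAbs : ℝ) / ((z - μ j).natAbs.totient : ℝ)) ^ (6 * K) +
      ∑ j, (((z + μ j).natAbs : ℝ) / ((z + μ j).natAbs.totient : ℝ)) ^ (6 * K) := by
  set r : ℤ → ℝ := fun x => ((x.natAbs : ℝ) / (x.natAbs.totient : ℝ)) with hr
  have hr0 : ∀ x, 0 ≤ r x := fun x => by positivity
  have h1 : z.natAbs ≠ 0 := Int.natAbs_ne_zero.2 hz
  have h2 : ∀ j ∈ (univ : Finset (Fin K)), (z - μ j).natAbs ≠ 0 := fun j _ =>
    Int.natAbs_ne_zero.2 (sub_ne_zero.2 (hne j).1)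
  have h3 : ∀ j ∈ (univ : Finset (Fin K)), (z + μ j).natAbs ≠ 0 := fun j _ =>
    Int.natAbs_ne_zero.2 (fun h => (hne j).2 (by linarith))
  have hB : BS μ z = z.natAbs * ((∏ j, (z - μ j).natAbs) * ∏ j, (z + μ j).natAbs) := by
    unfold BS
    rw [← prod_mul_distrib]
    congr 1
    apply prod_congr rfl
    intro j _
    rw [← Int.natAbs_mul]
    congr 1
    ring
  have hA : (∏ j, (z - μ j).natAbs) ≠ 0 := prod_ne_zero_iff.2 h2
  have hC : (∏ j, (z + μ j).natAbs) ≠ 0 := prod_ne_zero_iff.2 h3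
  have hB0 : BS μ z ≠ 0 := by
    rw [hB]
    exact mul_ne_zero h1 (mul_ne_zero hA hC)
  have h4 : ((BS μ z : ℝ) / (BS μ z).totient) ≤ r z * ((∏ j, r (z - μ j)) * ∏ j, r (z + μ j)) := by
    rw [← prod_inv_primeFactors _ hB0, hB]
    refine (prod_inv_mul_le _ _ h1 (mul_ne_zero hA hC)).trans ?_
    rw [prod_inv_primeFactors _ h1]
    apply mul_le_mul_of_nonneg_left _ (hr0 z)
    refine (prod_inv_mul_le _ _ hA hC).trans ?_
    have e1 : ∏ p ∈ (∏ j, (z - μ j).natAbs).primeFactors, (1 - 1 / (p : ℝ))⁻¹ ≤ ∏ j, r (z - μ j) := by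
      refine (prod_inv_prod_le _ _ h2).trans (le_of_eq ?_)
      apply prod_congr rfl
      intro j hj
      exact prod_inv_primeFactors _ (h2 j hj)
    have e2 : ∏ p ∈ (∏ j, (z + μ j).natAbs).primeFactors, (1 - 1 / (p : ℝ))⁻¹ ≤ ∏ j, r (z + μ j) := by
      refine (prod_inv_prod_le _ _ h3).trans (le_of_eq ?_)
      apply prod_congr rfl
      intro j hj
      exact prod_inv_primeFactors _ (h3 j hj)
    apply mul_le_mul e1 e2
    · exact prod_nonneg fun p hp => (lt_of_lt_of_le one_pos (inv_ge_one (Nat.prime_of_mem_primeFactors hp))).le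
    · exact prod_nonneg fun j _ => hr0 _
  have h5 : 0 ≤ (BS μ z : ℝ) / (BS μ z).totient := by positivity
  have h6 := pow_le_pow_left₀ h5 h4 2
  refine h6.trans ?_
  have hpos1 : 0 ≤ ∏ j, r (z - μ j) := prod_nonneg fun j _ => hr0 _
  have hpos2 : 0 ≤ ∏ j, r (z + μ j) := prod_nonneg fun j _ => hr0 _
  have key : ∀ a b c : ℝ, 0 ≤ a → 0 ≤ b → 0 ≤ c → (a * (b * c)) ^ 2 ≤ a ^ 6 + b ^ 6 + c ^ 6 := by
    intro a b c ha hb hc
    set m := max a (max b c) with hm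
    have h1 : a ≤ m := le_max_left _ _
    have h2 : b ≤ m := (le_max_left _ _).trans (le_max_right _ _)
    have h3 : c ≤ m := (le_max_right _ _).trans (le_max_right _ _)
    have h4 : (a * (b * c)) ^ 2 ≤ m ^ 6 := by
      have : a * (b * c) ≤ m * (m * m) := by gcongr
      calc (a * (b * c)) ^ 2 ≤ (m * (m * m)) ^ 2 := pow_le_pow_left₀ (by positivity) this 2
        _ = m ^ 6 := by ring
    have h5 : m ^ 6 ≤ a ^ 6 + b ^ 6 + c ^ 6 := by
      have ha6 : 0 ≤ a ^ 6 := by positivity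
      have hb6 : 0 ≤ b ^ 6 := by positivity
      have hc6 : 0 ≤ c ^ 6 := by positivity
      rcases max_choice a (max b c) with h | h
      · rw [hm, h]; linarith
      · rcases max_choice b c with h' | h'
        · rw [hm, h, h']; linarith
        · rw [hm, h, h']; linarith
    exact h4.trans h5
  refine (key _ _ _ (hr0 z) hpos1 hpos2).trans ?_
  have hpw : ∀ w : Fin K → ℝ, (∀ j, 0 ≤ w j) → (∏ j, w j) ^ 6 ≤ ∑ j, w j ^ (6 * K) := by
    intro w hw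
    rw [← prod_pow]
    refine (prod_le_sum_pow hK (fun j => w j ^ 6) (fun j => pow_nonneg (hw j) 6)).trans (le_of_eq ?_)
    apply sum_congr rfl
    intro j _
    rw [← pow_mul]
  have e1 := hpw (fun j => r (z - μ j)) (fun j => hr0 _)
  have e2 := hpw (fun j => r (z + μ j)) (fun j => hr0 _)
  simp only [hr] at e1 e2 ⊢
  linarith

theorem sum_le_Icc (f : ℤ → ℝ) (hf : ∀ z, 0 ≤ f z) (M : ℕ) (a : ℤ) (Z : Finset ℤ)
    (hZ : ∀ z ∈ Z, 1 ≤ z ∧ z ≤ M ∧ z ≠ a) :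
    ∑ z ∈ Z, f z ≤ ∑ n ∈ (Icc 1 M).filter (fun n : ℕ => (n : ℤ) ≠ a), f n := by
  have h1 : Z ⊆ ((Icc 1 M).filter (fun n : ℕ => (n : ℤ) ≠ a)).image (fun n : ℕ => (n : ℤ)) := by
    intro z hz
    obtain ⟨h1, h2, h3⟩ := hZ z hz
    rw [mem_image]
    refine ⟨z.toNat, ?_, Int.toNat_of_nonneg (by omega)⟩
    rw [mem_filter, mem_Icc, Int.toNat_of_nonneg (by omega)]
    exact ⟨⟨by omega, by omega⟩, h3⟩
  refine (sum_le_sum_of_subset_of_nonneg h1 (fun i _ _ => hf i)).trans (le_of_eq ?_)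
  exact sum_image (fun x _ y _ hxy => by exact_mod_cast hxy)

/-- the mean square of the weights is bounded -/
theorem sqMom (K : ℕ) (hK : 1 ≤ K) : ∃ C : ℝ, 0 < C ∧ ∀ M : ℕ, ∀ μ : Fin K → ℕ, (∀ j, μ j ≤ M) →
    ∀ Z : Finset ℤ, (∀ z ∈ Z, 1 ≤ z ∧ z ≤ M ∧ ∀ j, z ≠ μ j) →
    ∑ z ∈ Z, ((BS μ z : ℝ) / (BS μ z).totient) ^ 2 ≤ C * M := by
  obtain ⟨C1, hC1, h1⟩ := mom1 6
  obtain ⟨C2, hC2, h2⟩ := mom2 (6 * K)
  refine ⟨C1 + K * (C2 * 2) + K * (C2 * 2), by positivity, fun M μ hμ Z hZ => ?_⟩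
  have e0 : ∑ z ∈ Z, ((BS μ z : ℝ) / (BS μ z).totient) ^ 2 ≤
      ∑ z ∈ Z, (((z.natAbs : ℝ) / (z.natAbs.totient : ℝ)) ^ 6 +
      ∑ j, (((z - μ j).natAbs : ℝ) / ((z - μ j).natAbs.totient : ℝ)) ^ (6 * K) +
      ∑ j, (((z + μ j).natAbs : ℝ) / ((z + μ j).natAbs.totient : ℝ)) ^ (6 * K)) := by
    apply sum_le_sum
    intro z hz
    obtain ⟨h3, -, h4⟩ := hZ z hz
    exact BS_ratio hK μ z (by omega) (fun j => ⟨h4 j, by omega⟩)
  refine e0.trans ?_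
  rw [sum_add_distrib, sum_add_distrib, sum_comm, sum_comm (s := Z) (t := univ)]
  have e1 : ∑ z ∈ Z, ((z.natAbs : ℝ) / (z.natAbs.totient : ℝ)) ^ 6 ≤ C1 * M := by
    refine (sum_le_Icc (fun z : ℤ => ((z.natAbs : ℝ) / (z.natAbs.totient : ℝ)) ^ 6) (fun z => by positivity) M 0 Z
      (fun z hz => ⟨(hZ z hz).1, (hZ z hz).2.1, by have := (hZ z hz).1; omega⟩)).trans ?_
    refine le_trans ?_ (h1 M)
    refine le_trans (sum_le_sum_of_subset_of_nonneg (filter_subset _ _) (fun i _ _ => by positivity)) (le_of_eq ?_)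
    apply sum_congr rfl
    intro n _
    simp
  have e2 : ∑ j, ∑ z ∈ Z, (((z - μ j).natAbs : ℝ) / ((z - μ j).natAbs.totient : ℝ)) ^ (6 * K) ≤ K * (C2 * 2) * M := by
    calc ∑ j, ∑ z ∈ Z, (((z - μ j).natAbs : ℝ) / ((z - μ j).natAbs.totient : ℝ)) ^ (6 * K)
        ≤ ∑ _j : Fin K, C2 * (((1 : ℕ) + 1) * M) := by
          apply sum_le_sum
          intro j _
          refine (sum_le_Icc (fun z : ℤ => (((z - μ j).natAbs : ℝ) / ((z - μ j).natAbs.totient : ℝ)) ^ (6 * K))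
            (fun z => by positivity) M (μ j) Z (fun z hz => ⟨(hZ z hz).1, (hZ z hz).2.1, (hZ z hz).2.2 j⟩)).trans ?_
          exact h2 1 M (μ j) (by have := hμ j; omega)
      _ = K * (C2 * 2) * M := by
          rw [sum_const, card_univ, Fintype.card_fin, nsmul_eq_mul]
          push_cast
          ring
  have e3 : ∑ j, ∑ z ∈ Z, (((z + μ j).natAbs : ℝ) / ((z + μ j).natAbs.totient : ℝ)) ^ (6 * K) ≤ K * (C2 * 2) * M := by
    calc ∑ j, ∑ z ∈ Z, (((z + μ j).natAbs : ℝ) / ((z + μ j).natAbs.totient : ℝ)) ^ (6 * K)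
        ≤ ∑ _j : Fin K, C2 * (((1 : ℕ) + 1) * M) := by
          apply sum_le_sum
          intro j _
          have h5 := sum_le_Icc (fun z : ℤ => (((z - (-(μ j : ℤ))).natAbs : ℝ) /
            ((z - (-(μ j : ℤ))).natAbs.totient : ℝ)) ^ (6 * K))
            (fun z => by positivity) M (-(μ j : ℤ)) Z (fun z hz => ⟨(hZ z hz).1, (hZ z hz).2.1, by
              have := (hZ z hz).1
              omega⟩)
          have h6 := h2 1 M (-(μ j : ℤ)) (by have := hμ j; omega)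
          have h7 := h5.trans h6
          simpa only [sub_neg_eq_add] using h7
      _ = K * (C2 * 2) * M := by
          rw [sum_const, card_univ, Fintype.card_fin, nsmul_eq_mul]
          push_cast
          ring
  linarith

/-- few elements survive -/
theorem sqSurv (K : ℕ) (hK : 1 ≤ K) (c₄ : ℝ) (hc₄ : 0 < c₄) : ∃ c : ℝ, 0 < c ∧ ∀ᶠ X : ℝ in atTop,
    ∀ P : Finset ℕ, (∀ p ∈ P, p.Prime ∧ p ≤ Pool.Agent.H378R2.yy X) →
    ∑ p ∈ Pool.Agent.H318R2.Cr.Pz (Pool.Agent.H378R2.yy X) \ P, (1 : ℝ) / p ≤ 2 →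
    ∀ M : ℕ, (M : ℝ) ≤ c * (Real.log X * (Real.log (Real.log X)) ^ 2) →
    ∀ (C₀ : ℕ) (μ : Fin K → ℕ), (∀ j, μ j ≤ M) →
    ∀ v : ℕ → ℕ, (∀ p ∈ P, ∀ j, ¬ (p : ℤ) ∣ (v p : ℤ) + C₀ - (μ j : ℤ) ^ 2) →
    ∀ Z : Finset ℤ, (∀ z ∈ Z, 1 ≤ z ∧ z ≤ M ∧ ∀ j, z ≠ μ j) →
    ∃ ρ : ℕ → ℕ, (∀ p ∈ P, ∀ j, ¬ (p : ℤ) ∣ (ρ p : ℤ) + C₀ - (μ j : ℤ) ^ 2) ∧
      ((Z.filter (fun z => ∀ p ∈ P, ¬ (p : ℤ) ∣ (ρ p : ℤ) + C₀ - z ^ 2)).card : ℝ) ≤ c₄ * Real.log X := by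
  obtain ⟨C1, hC1, h1⟩ := prodR (2 * K + 2)
  obtain ⟨C2, hC2, h2⟩ := sqMom K hK
  refine ⟨c₄ / (C1 ^ 2 * C2), by positivity, ?_⟩
  have t1 := Real.tendsto_log_atTop
  have t2 : Tendsto (fun y : ℝ => Real.log (Real.log y)) atTop atTop := t1.comp t1
  filter_upwards [h1, t1.eventually_ge_atTop 1, t2.eventually_ge_atTop 1] with X hX hL1 hL2
  intro P hP hPs M hM C₀ μ hμ v hv Z hZ
  obtain ⟨ρ, hρ1, hρ2⟩ := sqRes C₀ μ P (fun p hp => (hP p hp).1) v hv Z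
  refine ⟨ρ, hρ1, hρ2.trans ?_⟩
  have hA : 0 < Real.log (Real.log X) := by linarith
  have hT : 0 < Real.log X := by linarith
  have h3 : ∑ z ∈ Z, (∏ p ∈ P, (if ¬ p ∣ BS μ z ∧ 2 * K + 2 < p then 1 - 1 / (p : ℝ) else 1)) ^ 2 ≤
      ∑ z ∈ Z, (C1 / Real.log (Real.log X)) ^ 2 * ((BS μ z : ℝ) / (BS μ z).totient) ^ 2 := by
    apply sum_le_sum
    intro z hz
    obtain ⟨h4, h5, h6⟩ := hZ z hz
    rw [← mul_pow]
    apply pow_le_pow_left₀
    · apply prod_nonneg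
      intro p hp
      have hp0 : (2 : ℝ) ≤ p := by exact_mod_cast (hP p hp).1.two_le
      split_ifs
      · rw [sub_nonneg, div_le_one (by linarith)]
        linarith
      · norm_num
    · apply hX P hP hPs
      unfold BS
      apply mul_ne_zero (Int.natAbs_ne_zero.2 (by omega))
      apply prod_ne_zero_iff.2
      intro j _
      apply Int.natAbs_ne_zero.2
      intro h7
      have h8 : (z - μ j) * (z + μ j) = 0 := by linarith [h7, (by ring : (z - μ j) * (z + μ j) = z ^ 2 - (μ j : ℤ) ^ 2)]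
      rcases mul_eq_zero.1 h8 with h | h
      · exact h6 j (by linarith)
      · have : (0 : ℤ) ≤ μ j := Int.natCast_nonneg _
        omega
  refine h3.trans ?_
  rw [← mul_sum]
  calc (C1 / Real.log (Real.log X)) ^ 2 * ∑ z ∈ Z, ((BS μ z : ℝ) / (BS μ z).totient) ^ 2
      ≤ (C1 / Real.log (Real.log X)) ^ 2 * (C2 * (c₄ / (C1 ^ 2 * C2) * (Real.log X * (Real.log (Real.log X)) ^ 2))) := by
        apply mul_le_mul_of_nonneg_left _ (by positivity)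
        exact (h2 M μ hμ Z hZ).trans (mul_le_mul_of_nonneg_left hM hC2.le)
    _ = c₄ * Real.log X := by
        field_simp

end Pool.Agent.Q145.MT
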