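import Pool.Agent.TH101.RG.OneZ
import Pool.Agent.Q145.MT.Templ

set_option autoImplicit false
set_option maxHeartbeats 4000000

/-! # Tuples of primes at which every form of a large arbitrary family is composite -/

namespace Pool.Agent.Q145.MT

open Finset Filter
open Pool.Agent.H378R2
open Pool.Agent.H312R2.RG (BVat)
open Pool.Agent.H362R2.RQ (fib)
open Pool.Agent.H256R2.SC (ff)
open Pool.Agent.H318R2.Cr (cz_bounds Pz one_sub_inv_pos)
open Pool.Agent.TH101.RG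

open scoped Classical

/-- the greedy choice of residues for `n` such that many of the forms `α z n + β z` are divisible by one of the primes -/
theorem greedyF {K : ℕ} (t : Fin K → ℕ) (u : ℕ → ℕ) (α β : ℤ → ℤ) (Bd : ℤ → ℕ)
    (hBd : ∀ z : ℤ, ∀ p : ℕ, p.Prime → ¬ p ∣ Bd z → ¬ (p : ℤ) ∣ α z ∧ ∀ j, ¬ (p : ℤ) ∣ α z * t j - β z)
    (P : Finset ℕ) (hP : ∀ p ∈ P, p.Prime)
    (hu : ∀ p ∈ P, ∀ j, ¬ p ∣ u p + t j) : ∀ Z : Finset ℤ, ∃ ρ : ℕ → ℕ,
    (∀ p ∈ P, ∀ j, ¬ p ∣ ρ p + t j) ∧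
    ((Z.filter (fun z => ∀ p ∈ P, ¬ (p : ℤ) ∣ α z * ρ p + β z)).card : ℝ) ≤
      ∑ z ∈ Z, ∏ p ∈ P, (if ¬ p ∣ Bd z then 1 - 1 / (p : ℝ) else 1) := by
  induction P using Finset.induction_on with
  | empty => exact fun Z => ⟨fun _ => 0, by simp, by simp⟩
  | insert q P hq ih =>
    intro Z
    have hih := ih (fun p hp => hP p (mem_insert_of_mem hp)) (fun p hp => hu p (mem_insert_of_mem hp))
    have hqp := hP q (mem_insert_self _ _)
    have hq0 : (0 : ℝ) < q := by exact_mod_cast hqp.pos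
    set Φ : ℤ → ℝ := fun z => ∏ p ∈ P, (if ¬ p ∣ Bd z then 1 - 1 / (p : ℝ) else 1) with hΦ
    have hΦ0 : ∀ z, 0 ≤ Φ z := by
      intro z
      rw [hΦ]
      apply prod_nonneg
      intro p hp
      have hp1 : (1 : ℝ) ≤ p := by exact_mod_cast (hP p (mem_insert_of_mem hp)).one_le
      split_ifs
      · norm_num
      · rw [sub_nonneg, div_le_one (by linarith)]
        exact hp1
    set G : Finset ℤ := Z.filter (fun z => ¬ q ∣ Bd z) with hG
    -- the residues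
    have hres : ∀ z : ℤ, ∃ r : ℕ, r < q ∧ (¬ q ∣ Bd z → (q : ℤ) ∣ α z * r + β z) := by
      intro z
      by_cases hz : q ∣ Bd z
      · exact ⟨0, hqp.pos, fun h => absurd hz h⟩
      · obtain ⟨h1, -⟩ := hBd z q hqp hz
        obtain ⟨ρ, hρ⟩ := solve q hqp (α z) (β z) h1
        refine ⟨ρ % q, Nat.mod_lt _ hqp.pos, fun _ => ?_⟩
        have h2 : (ρ : ℤ) = q * (ρ / q : ℕ) + (ρ % q : ℕ) := by exact_mod_cast (Nat.div_add_mod ρ q).symm
        have h3 : α z * ((ρ % q : ℕ) : ℤ) + β z = α z * ρ + β z - q * (α z * (ρ / q : ℕ)) := by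
          rw [h2]
          push_cast
          ring
        rw [h3]
        exact dvd_sub hρ (dvd_mul_right _ _)
    choose res hres1 hres2 using hres
    obtain ⟨c, hc1, hc2⟩ : ∃ c : ℕ, (∀ j, ¬ q ∣ c + t j) ∧
        1 / (q : ℝ) * ∑ z ∈ G, Φ z ≤ ∑ z ∈ Z.filter (fun z => (q : ℤ) ∣ α z * c + β z), Φ z := by
      obtain ⟨r, hr, hr2⟩ := Finset.exists_le_sum_fiber_of_maps_to_of_nsmul_le_sum
        (s := G) (t := range q) (f := res) (w := Φ)
        (b := 1 / (q : ℝ) * ∑ z ∈ G, Φ z)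
        (fun z _ => mem_range.2 (hres1 z))
        ⟨0, mem_range.2 hqp.pos⟩
        (by
          rw [card_range, nsmul_eq_mul, ← mul_assoc, mul_one_div, div_self hq0.ne', one_mul])
      by_cases hne : (G.filter (fun z : ℤ => res z = r)).Nonempty
      · obtain ⟨z₀, hz₀⟩ := hne
        rw [mem_filter] at hz₀
        have hz₀B : ¬ q ∣ Bd z₀ := by
          have := hz₀.1
          rw [hG, mem_filter] at this
          exact this.2
        refine ⟨r, ?_, hr2.trans ?_⟩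
        · intro j hj
          have h1 := hres2 z₀ hz₀B
          rw [hz₀.2] at h1
          apply (hBd z₀ q hqp hz₀B).2 j
          have h2 : (q : ℤ) ∣ ((r + t j : ℕ) : ℤ) := Int.natCast_dvd_natCast.2 hj
          have h3 : α z₀ * t j - β z₀ = α z₀ * ((r + t j : ℕ) : ℤ) - (α z₀ * r + β z₀) := by
            push_cast
            ring
          rw [h3]
          exact dvd_sub (h2.mul_left _) h1
        · apply sum_le_sum_of_subset_of_nonneg
          · intro z hz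
            rw [mem_filter] at hz ⊢
            rw [hG, mem_filter] at hz
            refine ⟨hz.1.1, ?_⟩
            rw [← hz.2]
            exact hres2 z hz.1.2
          · intro i _ _
            exact hΦ0 i
      · rw [not_nonempty_iff_eq_empty] at hne
        rw [hne, sum_empty] at hr2
        exact ⟨u q, hu q (mem_insert_self _ _), hr2.trans (sum_nonneg fun i _ => hΦ0 i)⟩
    obtain ⟨ρ, hρ1, hρ2⟩ := hih (Z.filter (fun z => ¬ (q : ℤ) ∣ α z * c + β z))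
    refine ⟨fun p => if p = q then c else ρ p, ?_, ?_⟩
    · intro p hp j
      by_cases hpq : p = q
      · simp only [hpq, if_true]
        exact hc1 j
      · simp only [hpq, if_false]
        exact hρ1 p ((mem_insert.1 hp).resolve_left hpq) j
    · have h1 : (Z.filter (fun z => ∀ p ∈ insert q P, ¬ (p : ℤ) ∣ α z * ((if p = q then c else ρ p : ℕ) : ℤ) + β z)).card ≤
          ((Z.filter (fun z => ¬ (q : ℤ) ∣ α z * c + β z)).filter (fun z => ∀ p ∈ P, ¬ (p : ℤ) ∣ α z * ρ p + β z)).card := by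
        apply card_le_card
        intro z hz
        rw [mem_filter] at hz
        rw [mem_filter, mem_filter]
        refine ⟨⟨hz.1, ?_⟩, fun p hp => ?_⟩
        · have := hz.2 q (mem_insert_self _ _)
          rwa [if_pos rfl] at this
        · have := hz.2 p (mem_insert_of_mem hp)
          rwa [if_neg (fun h : p = q => hq (by rw [← h]; exact hp))] at this
      have h1' : ((Z.filter (fun z => ∀ p ∈ insert q P, ¬ (p : ℤ) ∣ α z * ((if p = q then c else ρ p : ℕ) : ℤ) + β z)).card : ℝ) ≤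
          (((Z.filter (fun z => ¬ (q : ℤ) ∣ α z * c + β z)).filter
            (fun z => ∀ p ∈ P, ¬ (p : ℤ) ∣ α z * ρ p + β z)).card : ℝ) := by
        exact_mod_cast h1
      refine h1'.trans (hρ2.trans ?_)
      -- the potential
      have h2 : ∑ z ∈ Z, ∏ p ∈ insert q P, (if ¬ p ∣ Bd z then 1 - 1 / (p : ℝ) else 1) =
          ∑ z ∈ Z, Φ z - 1 / (q : ℝ) * ∑ z ∈ G, Φ z := by
        have h3 : ∀ z, ∏ p ∈ insert q P, (if ¬ p ∣ Bd z then 1 - 1 / (p : ℝ) else 1) =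
            Φ z - (if ¬ q ∣ Bd z then 1 / (q : ℝ) * Φ z else 0) := by
          intro z
          rw [prod_insert hq]
          split_ifs
          · rw [one_mul, sub_zero]
          · rw [sub_mul, one_mul]
        rw [sum_congr rfl fun z _ => h3 z, sum_sub_distrib, ← sum_filter, ← mul_sum]
      have h3 : ∑ z ∈ Z.filter (fun z => ¬ (q : ℤ) ∣ α z * c + β z), Φ z =
          ∑ z ∈ Z, Φ z - ∑ z ∈ Z.filter (fun z => (q : ℤ) ∣ α z * c + β z), Φ z := by
        rw [eq_sub_iff_add_eq, add_comm]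
        exact sum_filter_add_sum_filter_not _ _ _
      rw [h2]
      have h4 : ∑ z ∈ Z.filter (fun z => ¬ (q : ℤ) ∣ α z * c + β z),
          ∏ p ∈ P, (if ¬ p ∣ Bd z then 1 - 1 / (p : ℝ) else 1) =
          ∑ z ∈ Z.filter (fun z => ¬ (q : ℤ) ∣ α z * c + β z), Φ z := rfl
      rw [h4, h3]
      linarith

/-- the weight of the form `a n + b` with respect to the tuple `t` -/
noncomputable def wF {K : ℕ} (t : Fin K → ℕ) (a b : ℤ) : ℝ :=
  ((a.natAbs : ℝ) / (a.natAbs.totient : ℝ)) *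
    ∏ j, (((a * t j - b).natAbs : ℝ) / ((a * t j - b).natAbs.totient : ℝ))

theorem wF_nonneg {K : ℕ} (t : Fin K → ℕ) (a b : ℤ) : 0 ≤ wF t a b :=
  mul_nonneg (by positivity) (prod_nonneg fun j _ => by positivity)

theorem prodF (B : ℕ) (hB : B ≠ 0) (P Sm : Finset ℕ) (hPS : P ⊆ Sm) (hSm : ∀ p ∈ Sm, p.Prime) (C₀ : ℝ)
    (hC : ∑ p ∈ Sm \ P, (1 : ℝ) / p ≤ C₀) :
    ∏ p ∈ P, (if ¬ p ∣ B then 1 - 1 / (p : ℝ) else 1) ≤
      (∏ p ∈ Sm, (1 - 1 / (p : ℝ))) * Real.exp (2 * C₀) * ∏ p ∈ B.primeFactors, (1 - 1 / (p : ℝ))⁻¹ := by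
  have hpos : ∀ p ∈ Sm, 0 < 1 - 1 / (p : ℝ) := fun p hp => one_sub_inv_pos (hSm p hp)
  have h1 : ∏ p ∈ P, (if ¬ p ∣ B then 1 - 1 / (p : ℝ) else 1) =
      (∏ p ∈ P, (1 - 1 / (p : ℝ))) * ∏ p ∈ P.filter (fun p : ℕ => p ∣ B), (1 - 1 / (p : ℝ))⁻¹ := by
    rw [prod_filter, ← prod_mul_distrib]
    apply prod_congr rfl
    intro p hp
    have h2 := (hpos p (hPS hp)).ne'
    by_cases h3 : p ∣ B
    · rw [if_neg (not_not.2 h3), if_pos h3, mul_inv_cancel₀ h2]
    · rw [if_pos h3, if_neg h3, mul_one]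
  have h2 : ∏ p ∈ P, (1 - 1 / (p : ℝ)) ≤ (∏ p ∈ Sm, (1 - 1 / (p : ℝ))) * Real.exp (2 * C₀) := by
    have h3 := inv_prod_le (Sm \ P) (fun q hq => hSm q (mem_sdiff.1 hq).1) C₀ hC
    rw [← prod_sdiff hPS]
    have h4 : 0 < ∏ p ∈ Sm \ P, (1 - 1 / (p : ℝ)) := prod_pos fun p hp => hpos p (mem_sdiff.1 hp).1
    have h5 : 0 < ∏ p ∈ P, (1 - 1 / (p : ℝ)) := prod_pos fun p hp => hpos p (hPS hp)
    rw [prod_inv_distrib] at h3
    have h6 : 1 ≤ (∏ p ∈ Sm \ P, (1 - 1 / (p : ℝ))) * Real.exp (2 * C₀) := by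
      rw [inv_le_comm₀ h4 (Real.exp_pos _)] at h3
      rw [← div_le_iff₀ (Real.exp_pos _), one_div]
      exact h3
    calc ∏ p ∈ P, (1 - 1 / (p : ℝ)) = 1 * ∏ p ∈ P, (1 - 1 / (p : ℝ)) := (one_mul _).symm
      _ ≤ ((∏ p ∈ Sm \ P, (1 - 1 / (p : ℝ))) * Real.exp (2 * C₀)) * ∏ p ∈ P, (1 - 1 / (p : ℝ)) :=
        mul_le_mul_of_nonneg_right h6 h5.le
      _ = _ := by ring
  have h3 : ∏ p ∈ P.filter (fun p : ℕ => p ∣ B), (1 - 1 / (p : ℝ))⁻¹ ≤ ∏ p ∈ B.primeFactors, (1 - 1 / (p : ℝ))⁻¹ := by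
    apply prod_mono_real
    · intro p hp
      rw [mem_filter] at hp
      rw [Nat.mem_primeFactors]
      exact ⟨hSm p (hPS hp.1), hp.2, hB⟩
    · intro p hp
      exact inv_ge_one (Nat.prime_of_mem_primeFactors hp)
  rw [h1]
  apply mul_le_mul h2 h3
  · apply prod_nonneg
    intro p hp
    exact (inv_pos.2 (hpos p (hPS (mem_filter.1 hp).1))).le
  · have : 0 < ∏ p ∈ Sm, (1 - 1 / (p : ℝ)) := prod_pos hpos
    positivity

theorem prod_inv_mul_le (a b : ℕ) (ha : a ≠ 0) (hb : b ≠ 0) :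
    ∏ p ∈ (a * b).primeFactors, (1 - 1 / (p : ℝ))⁻¹ ≤
      (∏ p ∈ a.primeFactors, (1 - 1 / (p : ℝ))⁻¹) * ∏ p ∈ b.primeFactors, (1 - 1 / (p : ℝ))⁻¹ := by
  rw [Nat.primeFactors_mul ha hb, ← prod_union_inter]
  have h1 : 0 < ∏ p ∈ a.primeFactors ∪ b.primeFactors, (1 - 1 / (p : ℝ))⁻¹ := by
    apply prod_pos
    intro p hp
    have hpp : p.Prime := by
      rcases mem_union.1 hp with h | h <;> exact Nat.prime_of_mem_primeFactors h
    exact lt_of_lt_of_le one_pos (inv_ge_one hpp)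
  have h2 : 1 ≤ ∏ p ∈ a.primeFactors ∩ b.primeFactors, (1 - 1 / (p : ℝ))⁻¹ :=
    one_le_prod_real _ _ fun p hp => inv_ge_one (Nat.prime_of_mem_primeFactors (mem_inter.1 hp).1)
  exact le_mul_of_one_le_right h1.le h2

theorem prod_inv_prod_le {ι : Type} (s : Finset ι) (f : ι → ℕ) (hf : ∀ i ∈ s, f i ≠ 0) :
    ∏ p ∈ (∏ i ∈ s, f i).primeFactors, (1 - 1 / (p : ℝ))⁻¹ ≤
      ∏ i ∈ s, ∏ p ∈ (f i).primeFactors, (1 - 1 / (p : ℝ))⁻¹ := by
  induction s using Finset.induction_on with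
  | empty => simp
  | insert a s ha ih =>
    rw [prod_insert ha, prod_insert ha]
    have h1 := ih fun i hi => hf i (mem_insert_of_mem hi)
    have h2 : ∏ i ∈ s, f i ≠ 0 := prod_ne_zero_iff.2 fun i hi => hf i (mem_insert_of_mem hi)
    refine (prod_inv_mul_le _ _ (hf a (mem_insert_self _ _)) h2).trans ?_
    apply mul_le_mul_of_nonneg_left h1
    apply prod_nonneg
    intro p hp
    exact (lt_of_lt_of_le one_pos (inv_ge_one (Nat.prime_of_mem_primeFactors hp))).le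

/-- **Tuples of primes at which all forms of an arbitrary family are composite.** -/
theorem tupG : ∃ η : ℝ, 0 < η ∧ ∀ m : ℕ, 1 ≤ m → ∃ K : ℕ, m ≤ K ∧ ∀ (D : ℕ) (A0 : ℝ), ∃ c : ℝ, 0 < c ∧
    ∀ d z₀ : ℕ, Squarefree d → ∀ᶠ X : ℝ in atTop,
    ∀ (α β : ℤ → ℤ) (g : ℕ), g ≠ 0 → d ∣ g → ∑ p ∈ g.primeFactors, (1 : ℝ) / p ≤ A0 → (g : ℝ) ≤ X ^ D →
    ∀ t : Fin K → ℕ, Function.Injective t → (∀ j, (t j : ℝ) ≤ (Real.log X) ^ 2) →
    (∀ p : ℕ, p.Prime → ∃ v : ℕ, ∀ j, ¬ p ∣ v + t j) →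
    ∀ h : ℕ, (∀ j, (h + t j).Coprime d) →
    ∀ col : Fin K → Fin m, (∀ e, K ≤ 2 * m * fib col e) →
    ∀ bad : Finset ℕ, (bad.card : ℝ) ≤ X ^ (9 / 10 : ℝ) →
    ∀ Z : Finset ℤ, (∀ z ∈ Z, α z ≠ 0 ∧ ∀ j, α z * t j ≠ β z) →
    (∀ z ∈ Z, |(α z : ℝ)| ≤ X ^ D ∧ |(β z : ℝ)| ≤ X ^ D) →
    (∀ k ∈ Z, ∀ l ∈ Z, k ≠ l → α k * β l ≠ α l * β k) →
    ∑ z ∈ Z, wF t (α z) (β z) ≤ c * (Real.log X * Real.log (Real.log X)) →
    ∃ n : ℕ, X < n ∧ (n : ℝ) ≤ 3 * X ∧ n ∉ bad ∧ n ≡ h [MOD d] ∧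
      (∀ j, ∀ p : ℕ, p.Prime → p ≤ z₀ → ¬ p ∣ n + t j) ∧
      (∃ E : Finset (Fin m), η * m ≤ E.card ∧ ∀ e ∈ E, ∃ j, col j = e ∧ (n + t j).Prime) ∧
      ∀ z ∈ Z, ∃ q : ℕ, q.Prime ∧ (q : ℝ) ≤ X ^ (1 / 1000 : ℝ) ∧ ¬ q ∣ g ∧ (q : ℤ) ∣ α z * n + β z := by
  obtain ⟨η, hη, htp⟩ := templT2
  refine ⟨η, hη, fun m hm => ?_⟩
  obtain ⟨K, hmK, htK⟩ := htp m hm
  refine ⟨K, hmK, fun D A0 => ?_⟩
  obtain ⟨Abv, c₄, hc₄, ht⟩ := htK D
  obtain ⟨c₁, c₂, hc₁, hc₁₂, hV⟩ := cz_bounds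
  have hc₂ : 0 < c₂ := hc₁.trans_le hc₁₂
  obtain ⟨c, hcdef⟩ : ∃ c : ℝ, c = c₄ / (2 * c₂ * Real.exp (2 * (A0 + 2))) := ⟨_, rfl⟩
  have hc : 0 < c := by rw [hcdef]; positivity
  have hcc : 2 * c₂ * Real.exp (2 * (A0 + 2)) * c = c₄ := by
    rw [hcdef]
    field_simp
  refine ⟨c, hc, fun d z₀ hd => ?_⟩
  obtain ⟨Zm, hZm⟩ : ∃ Zm : ℕ, Zm = max 4 (max d z₀) := ⟨_, rfl⟩
  have hZ4 : 4 ≤ Zm := by rw [hZm]; exact le_max_left _ _
  have hZd : d ≤ Zm := by rw [hZm]; exact (le_max_left _ _).trans (le_max_right _ _)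
  have hZz : z₀ ≤ Zm := by rw [hZm]; exact (le_max_right _ _).trans (le_max_right _ _)
  obtain ⟨X1, hbv⟩ := bvrel_holds Abv Zm
  have t1 := Real.tendsto_log_atTop
  have t2 : Tendsto (fun y : ℝ => Real.log (Real.log y)) atTop atTop := t1.comp t1
  filter_upwards [ht Zm hZ4, eventually_ge_atTop X1, eventually_ge_atTop 4,
    t1.eventually_ge_atTop 4000, t1.eventually_ge_atTop (1000 * Zm), t2.eventually_ge_atTop (Zm + 1),
    t2.eventually_ge_atTop 100]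
    with X htX hX1 hX4 hL1 hLd hL2d hL2
  intro α β g hg0 hdg hgS hgD t htinj htl hadm h hhd col hcol bad hbad Z hne hle hdet hw
  obtain ⟨ps, S, hps, hS, hBV⟩ := hbv X hX1
  have hX0 : 0 < X := by linarith
  choose! v hv using hadm
  set u : ℕ → ℕ := fun p => if p ∣ d then h else v p with hu
  have hup : ∀ p, p.Prime → ∀ j, ¬ p ∣ u p + t j := by
    intro p hp j
    simp only [hu]
    split_ifs with hpd
    · intro hph
      exact hp.one_lt.ne' (Nat.dvd_one.1 ((hhd j) ▸ Nat.dvd_gcd hph hpd))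
    · exact hv p hp j
  set T := Real.log X with hT
  set A' := Real.log T with hA'
  -- the bad numbers
  set Bd : ℤ → ℕ := fun z => (α z).natAbs * ∏ j, (α z * t j - β z).natAbs with hBd
  have hBdp : ∀ z : ℤ, ∀ p : ℕ, p.Prime → ¬ p ∣ Bd z → ¬ (p : ℤ) ∣ α z ∧ ∀ j, ¬ (p : ℤ) ∣ α z * t j - β z := by
    intro z p hp hpz
    constructor
    · intro h1
      exact hpz ((Int.natCast_dvd.1 h1).mul_right _)
    · intro j h1
      apply hpz
      apply Dvd.dvd.mul_left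
      exact (Int.natCast_dvd.1 h1).trans (dvd_prod_of_mem (fun j => (α z * t j - β z).natAbs) (mem_univ j))
  have hBd0 : ∀ z ∈ Z, Bd z ≠ 0 := by
    intro z hz
    apply mul_ne_zero (Int.natAbs_ne_zero.2 (hne z hz).1)
    apply prod_ne_zero_iff.2
    intro j _
    exact Int.natAbs_ne_zero.2 (sub_ne_zero.2 ((hne z hz).2 j))
  have hBdw : ∀ z ∈ Z, ∏ p ∈ (Bd z).primeFactors, (1 - 1 / (p : ℝ))⁻¹ ≤ wF t (α z) (β z) := by
    intro z hz
    have h1 : (α z).natAbs ≠ 0 := Int.natAbs_ne_zero.2 (hne z hz).1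
    have h2 : ∀ j ∈ (univ : Finset (Fin K)), (α z * t j - β z).natAbs ≠ 0 := fun j _ =>
      Int.natAbs_ne_zero.2 (sub_ne_zero.2 ((hne z hz).2 j))
    refine (prod_inv_mul_le _ _ h1 (prod_ne_zero_iff.2 h2)).trans ?_
    unfold wF
    rw [prod_inv_primeFactors _ h1]
    apply mul_le_mul_of_nonneg_left _ (by positivity)
    refine (prod_inv_prod_le _ _ h2).trans (le_of_eq ?_)
    apply prod_congr rfl
    intro j hj
    exact prod_inv_primeFactors _ (h2 j hj)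
  -- the primes
  set y := yy X with hy
  have hyT : (y : ℝ) ≤ T / 1000 := Nat.floor_le (by positivity)
  have hyT2 : T / 2000 ≤ y := by
    have h1 : T / 1000 < (y : ℝ) + 1 := Nat.lt_floor_add_one _
    linarith
  have hT0 : 0 < T := by linarith
  have hA'0 : 0 < A' := by linarith
  have hy2 : 2 ≤ y := by
    have : (2 : ℝ) ≤ y := by linarith
    exact_mod_cast this
  have hy0 : (0 : ℝ) < y := by linarith
  have hly : A' / 2 ≤ Real.log y := by
    have h1 : Real.log (T / 2000) ≤ Real.log y := Real.log_le_log (by positivity) hyT2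
    rw [Real.log_div hT0.ne' (by norm_num)] at h1
    have h2 : Real.log 2000 ≤ 11 * Real.log 2 := by
      rw [← Real.log_rpow (by norm_num)]
      apply Real.log_le_log (by norm_num)
      norm_num
    have := Real.log_two_lt_d9
    linarith
  set P : Finset ℕ := (PW X S ps).filter (fun p => ¬ p ∣ g) with hP
  have hPp : ∀ p ∈ P, p.Prime := fun p hp => (mem_PW.1 (mem_filter.1 hp).1).2.1
  have hPzp : ∀ p ∈ Pz y, p.Prime := by
    intro p hp
    unfold Pool.Agent.H318R2.Cr.Pz at hp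
    exact (mem_filter.1 hp).2
  have hPsub : P ⊆ Pz y := by
    intro p hp
    have h1 := mem_PW.1 (mem_filter.1 hp).1
    unfold Pool.Agent.H318R2.Cr.Pz
    rw [mem_filter, mem_Ioc]
    exact ⟨⟨h1.2.1.pos, h1.1⟩, h1.2.1⟩
  have hpos : ∀ i : ℕ, 0 ≤ (1 : ℝ) / (i : ℝ) := fun i => by positivity
  have hdiff : ∑ p ∈ Pz y \ P, (1 : ℝ) / p ≤ A0 + 2 := by
    have hsub : Pz y \ P ⊆ (S ∪ ({ps} : Finset ℕ).filter Nat.Prime) ∪ g.primeFactors := by
      intro p hp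
      obtain ⟨h1, h2⟩ := mem_sdiff.1 hp
      have hpp := hPzp p h1
      unfold Pool.Agent.H318R2.Cr.Pz at h1
      rw [mem_filter, mem_Ioc] at h1
      rw [mem_union, mem_union, Nat.mem_primeFactors, mem_filter, mem_singleton]
      by_contra hcon
      push Not at hcon
      obtain ⟨⟨h3, h4⟩, h5⟩ := hcon
      apply h2
      rw [hP, mem_filter, mem_PW]
      exact ⟨⟨h1.1.2, hpp, h3, fun h => h4 h hpp⟩, fun h => hg0 (h5 hpp h)⟩
    have h1 : ∑ q ∈ S, (1 : ℝ) / q ≤ 1 := by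
      refine hS.2.trans ?_
      rw [div_le_one (by positivity)]
      nlinarith only [hL2]
    have h2 : ∑ q ∈ ({ps} : Finset ℕ).filter Nat.Prime, (1 : ℝ) / q ≤ 1 := by
      rw [filter_singleton]
      split_ifs with h
      · rw [sum_singleton, div_le_one (by exact_mod_cast h.pos)]
        exact_mod_cast h.one_lt.le
      · simp
    have h3 : ∑ p ∈ Pz y \ P, (1 : ℝ) / p ≤ (∑ q ∈ S, (1 : ℝ) / q + ∑ q ∈ ({ps} : Finset ℕ).filter Nat.Prime,
        (1 : ℝ) / q) + ∑ q ∈ g.primeFactors, (1 : ℝ) / q := by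
      refine (sum_le_sum_of_subset_of_nonneg hsub (fun i _ _ => hpos i)).trans ?_
      refine (sum_union_le' _ hpos).trans ?_
      apply add_le_add_left
      exact sum_union_le' _ hpos
    linarith
  have hprod : ∏ p ∈ Pz y, (1 - 1 / (p : ℝ)) ≤ 2 * c₂ / A' := by
    have h1 := (hV y hy2).2
    unfold Pool.Agent.H318R2.Cr.V at h1
    have h2 : 0 < Real.log y := by linarith
    rw [← le_div_iff₀ h2] at h1
    refine h1.trans ?_
    rw [div_le_div_iff₀ h2 hA'0]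
    nlinarith
  obtain ⟨ρg, hρ1, hρ2⟩ := greedyF t u α β Bd hBdp P hPp (fun p hp => hup p (hPp p hp)) Z
  set U0 : Finset ℤ := Z.filter (fun z => ∀ p ∈ P, ¬ (p : ℤ) ∣ α z * ρg p + β z) with hU0
  have hU0c : (U0.card : ℝ) ≤ c₄ * T := by
    have h1 : (U0.card : ℝ) ≤ ∑ z ∈ Z, (2 * c₂ / A') * Real.exp (2 * (A0 + 2)) * wF t (α z) (β z) := by
      refine hρ2.trans (sum_le_sum fun z hz => ?_)
      refine (prodF (Bd z) (hBd0 z hz) P (Pz y) hPsub hPzp (A0 + 2) hdiff).trans ?_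
      apply mul_le_mul _ (hBdw z hz) (prod_nonneg fun p hp =>
        (lt_of_lt_of_le one_pos (inv_ge_one (Nat.prime_of_mem_primeFactors hp))).le) (by positivity)
      exact mul_le_mul_of_nonneg_right hprod (Real.exp_pos _).le
    rw [← mul_sum] at h1
    refine h1.trans ?_
    calc (2 * c₂ / A') * Real.exp (2 * (A0 + 2)) * ∑ z ∈ Z, wF t (α z) (β z)
        ≤ (2 * c₂ / A') * Real.exp (2 * (A0 + 2)) * (c * (T * A')) := by gcongr
      _ = (2 * c₂ * Real.exp (2 * (A0 + 2)) * c) * T := by field_simp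
      _ = c₄ * T := by rw [hcc]
  -- the residues
  set ρ : ℕ → ℕ := fun p => if p ∈ P then ρg p else u p with hρ
  have hρt : ∀ p ∈ PW X S ps, ∀ j, ¬ p ∣ ρ p + t j := by
    intro p hp j
    simp only [hρ]
    split_ifs with h1
    · exact hρ1 p h1 j
    · exact hup p (mem_PW.1 hp).2.1 j
  obtain ⟨r, hr⟩ := Nat.chineseRemainderOfFinset ρ (fun p => p) (PW X S ps)
    (fun p hp => (mem_PW.1 hp).2.1.ne_zero)
    (fun p hp q hq hpq => (Nat.coprime_primes (mem_PW.1 (by simpa using hp)).2.1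
      (mem_PW.1 (by simpa using hq)).2.1).2 hpq)
  have hrc : ∀ j, (r + t j).Coprime (WW X S ps) := by
    intro j
    unfold WW
    rw [Nat.coprime_prod_right_iff]
    intro p hp
    have hpp := (mem_PW.1 hp).2.1
    rw [Nat.coprime_comm, Nat.Prime.coprime_iff_not_dvd hpp]
    intro hd
    apply hρt p hp j
    exact (Nat.modEq_zero_iff_dvd).1 (((hr p hp).add_right (t j)).symm.trans ((Nat.modEq_zero_iff_dvd).2 hd))
  have hU0Z : ∀ z ∈ U0, z ∈ Z := fun z hz => (mem_filter.1 hz).1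
  obtain ⟨n, hXn, hn3, hnb, hnr, hE, hU⟩ := htX ps S hps hS hBV t htinj htl U0 hU0c α β
    (fun z hz => hne z (hU0Z z hz))
    (fun z hz => hle z (hU0Z z hz)) (fun k hk l hl => hdet k (hU0Z k hk) l (hU0Z l hl)) g hg0
    hgD r hrc col hcol bad hbad
  refine ⟨n, hXn, hn3, hnb, ?_, ?_, hE, fun z hz => ?_⟩
  · apply modEq_of_primes hd
    intro p hp
    have hpp := Nat.prime_of_mem_primeFactors hp
    have hpd := Nat.dvd_of_mem_primeFactors hp
    have hd0 : 0 < d := Nat.pos_of_ne_zero hd.ne_zero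
    have hpled : p ≤ d := Nat.le_of_dvd hd0 hpd
    have hpPW := small_mem_PW hLd hL2d hps le_rfl hS hpp (hpled.trans hZd)
    have h1 := hr p hpPW
    have h2 : ρ p = u p := by
      simp only [hρ]
      rw [if_neg]
      intro h3
      exact (mem_filter.1 h3).2 (hpd.trans hdg)
    have h3 : u p = h := by simp only [hu]; rw [if_pos hpd]
    rw [h2, h3] at h1
    exact (hnr.of_dvd ((prime_dvd_WW hpp).2 hpPW)).trans h1
  · intro j p hpp hpz hpd
    have hpPW := small_mem_PW hLd hL2d hps le_rfl hS hpp (hpz.trans hZz)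
    have hpW := (prime_dvd_WW (X := X) (S := S) (ps := ps) hpp).2 hpPW
    have h1 : n + t j ≡ r + t j [MOD p] := (hnr.of_dvd hpW).add_right _
    have h2 : p ∣ r + t j := (Nat.modEq_zero_iff_dvd).1 (h1.symm.trans ((Nat.modEq_zero_iff_dvd).2 hpd))
    exact hpp.one_lt.ne' (Nat.dvd_one.1 ((hrc j) ▸ Nat.dvd_gcd h2 hpW))
  · by_cases hzU : z ∈ U0
    · exact hU z hzU
    · have h1 : ∃ p ∈ P, (p : ℤ) ∣ α z * ρg p + β z := by
        by_contra hcon
        push Not at hcon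
        exact hzU (mem_filter.2 ⟨hz, hcon⟩)
      obtain ⟨p, hp, hpz⟩ := h1
      have hpW := (mem_filter.1 hp).1
      have hpg := (mem_filter.1 hp).2
      have hpp := (mem_PW.1 hpW).2.1
      refine ⟨p, hpp, le_rpow_of_le_yy hX0 (by linarith) (mem_PW.1 hpW).1, hpg, ?_⟩
      have h2 : n ≡ ρg p [MOD p] := by
        have h3 := (hnr.of_dvd ((prime_dvd_WW hpp).2 hpW)).trans (hr p hpW)
        have h4 : ρ p = ρg p := by simp only [hρ]; rw [if_pos hp]
        rwa [h4] at h3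
      have h3 : (p : ℤ) ∣ (n : ℤ) - ρg p := Nat.modEq_iff_dvd.1 h2.symm
      have h4 : α z * (n : ℤ) + β z = α z * ((n : ℤ) - ρg p) + (α z * ρg p + β z) := by ring
      rw [h4]
      exact dvd_add (h3.mul_left _) hpz

end Pool.Agent.Q145.MT
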