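import Pool.Agent.Q145.MT.TupZ
import Pool.Agent.TH101.RG.PatZ

set_option autoImplicit false
set_option maxHeartbeats 4000000

/-! # Tuples of primes and prescribed sets of record size free of the differences `j q - i n` -/

namespace Pool.Agent.Q145.MT

open Finset Filter
open Pool.Agent.H378R2
open Pool.Agent.H312R2.RG (ev_ff)
open Pool.Agent.H362R2.RQ (fib)
open Pool.Agent.H256R2.SC (ff)
open Pool.Agent.TH101.RG

open scoped Classical

/-- the weights of multiples -/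
theorem wZ_mul {K : ℕ} (τ : Fin K → ℤ) (i z : ℤ) (hi : i ≠ 0) (ℓ : ℝ) (hℓ : |(i : ℝ)| ≤ ℓ) :
    wZ (fun j => i * τ j) (i * z) ≤ ℓ ^ K * wZ τ z := by
  unfold wZ
  have h1 : ℓ ^ K = ∏ _j : Fin K, ℓ := by simp
  rw [h1, ← prod_mul_distrib]
  apply Finset.prod_le_prod
  · intro j _
    positivity
  · intro j _
    rw [← mul_sub]
    by_cases h0 : z - τ j = 0
    · rw [h0]
      simp
    · refine (ratio_mul_le i (z - τ j) hi h0).trans ?_
      exact mul_le_mul_of_nonneg_right hℓ (by positivity)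

theorem tuple_pattern_free : ∃ η : ℝ, 0 < η ∧ ∀ m : ℕ, 1 ≤ m → ∃ K : ℕ, m ≤ K ∧ ∀ (A J d : ℕ), Squarefree d →
    ∃ c : ℝ, 0 < c ∧ ∀ᶠ X : ℝ in atTop,
    ∀ t : Fin K → ℕ, Function.Injective t → (∀ j, (t j : ℝ) ≤ (Real.log X) ^ 2) →
    (∀ p : ℕ, p.Prime → ∃ v : ℕ, ∀ j, ¬ p ∣ v + t j) →
    ∀ h : ℕ, (∀ j, (h + t j).Coprime d) →
    ∀ col : Fin K → Fin m, (∀ e, K ≤ 2 * m * fib col e) →
    ∀ Z : Finset ℤ, (∀ z ∈ Z, |(z : ℝ)| ≤ Real.log X * (Real.log (Real.log X)) ^ A) →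
    (∀ i : ℤ, 1 ≤ |i| → |i| ≤ J → ∑ z ∈ Z, wZ (fun j => i * t j) z ≤ c * ff X) →
    ∀ bad : Finset ℕ, (bad.card : ℝ) ≤ X ^ (9 / 10 : ℝ) →
    ∃ n : ℕ, X < n ∧ (n : ℝ) ≤ 3 * X ∧ n ∉ bad ∧ n ≡ h [MOD d] ∧
      (∃ E : Finset (Fin m), η * m ≤ E.card ∧ ∀ e ∈ E, ∃ j, col j = e ∧ (n + t j).Prime) ∧
      ∀ i j : ℤ, 1 ≤ |i| → |i| ≤ J → 1 ≤ |j| → |j| ≤ J → ∀ q : ℕ, q.Prime →
        j * q - i * n ∈ Z → ∃ l, q = n + t l := by
  obtain ⟨η, hη, htup⟩ := tupZ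
  refine ⟨η, hη, fun m hm => ?_⟩
  obtain ⟨K, hmK, htupK⟩ := htup m hm
  refine ⟨K, hmK, fun A J d hd => ?_⟩
  obtain ⟨ℓ, hℓ⟩ : ∃ ℓ : ℕ, ℓ = J.factorial := ⟨_, rfl⟩
  have hℓ0 : 0 < ℓ := by rw [hℓ]; exact Nat.factorial_pos J
  have hℓr : (1 : ℝ) ≤ ℓ := by exact_mod_cast hℓ0
  have hd0 : d ≠ 0 := hd.ne_zero
  obtain ⟨c₁, hc₁, hone⟩ := htupK (A + 1) 3 (ℓ + d)
  have hJp : (0 : ℝ) < 3 * (J + 1) * ℓ ^ K := by positivity
  refine ⟨c₁ / (3 * (J + 1) * ℓ ^ K), by positivity, ?_⟩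
  have t1 := Real.tendsto_log_atTop
  have t2 : Tendsto (fun y : ℝ => Real.log (Real.log y)) atTop atTop := t1.comp t1
  filter_upwards [hone d J hd, ev_ff c₁ hc₁, t1.eventually_ge_atTop ((ℓ : ℝ) * d),
    t1.eventually_ge_atTop ((J : ℝ) + 2), t2.eventually_ge_atTop (ℓ + 1 : ℝ), eventually_ge_atTop 4,
    t1.eventually_ge_atTop (ℓ : ℝ),
    t1.eventually (Pool.Agent.H378R2.ev_pow_exp (A + 5) (1 / 40) 1 (by norm_num))]
    with X hX hff hLd hLJ hLℓ hX4 hLℓ2 hE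
  intro t htinj htl hadm h hh col hcol Z hZ hZw bad hbad
  set L := Real.log X with hL
  have hX0 : 0 < X := by linarith
  have hJ0 : (0 : ℝ) ≤ J := Nat.cast_nonneg J
  have hL1 : 1 ≤ L := by linarith
  have hL0 : 0 < L := by linarith
  have hLL : Real.log L ≤ L := (Real.log_le_sub_one_of_pos hL0).trans (by linarith)
  have hLL0 : 0 < Real.log L := by linarith
  set E := Real.exp (1 / 40 * L) with hEd
  rw [one_mul] at hE
  have hE0 : 0 < E := Real.exp_pos _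
  have hELJ : (J : ℝ) + 2 ≤ E := by
    have h1 : L ^ 1 ≤ L ^ (A + 5) := pow_le_pow_right₀ hL1 (by omega)
    rw [pow_one] at h1
    linarith
  have hE1 : 1 ≤ E := by linarith
  have hpowE : ∀ k : ℕ, X ^ ((k : ℝ) / 40) = E ^ k := by
    intro k
    rw [hEd, ← Real.exp_nat_mul, Real.rpow_def_of_pos hX0, ← hL]
    congr 1
    ring
  have e1000 : X ^ (1 / 1000 : ℝ) ≤ E := by
    have h1 := hpowE 1
    rw [pow_one] at h1
    rw [← h1]
    exact Real.rpow_le_rpow_of_exponent_le (by linarith) (by norm_num)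
  have eX : X = E ^ 40 := by
    have h1 := hpowE 40
    rw [← h1]
    norm_num
  -- the data
  set ga : ℕ := ℓ * d with hga
  have hga0 : ga ≠ 0 := by
    rw [hga]
    exact mul_ne_zero hℓ0.ne' hd0
  have hgsum : ∑ p ∈ ga.primeFactors, (1 : ℝ) / p ≤ ℓ + d := by
    have h1 := sum_inv_mul ℓ d hℓ0.ne' hd0
    have h3 := sum_inv_le_self ℓ
    have h4 := sum_inv_le_self d
    rw [← hga] at h1
    linarith
  have hgle : (ga : ℝ) ≤ L ^ 3 := by
    rw [hga]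
    push_cast
    calc (ℓ : ℝ) * d ≤ L := hLd
      _ = L ^ 1 := (pow_one _).symm
      _ ≤ L ^ 3 := pow_le_pow_right₀ hL1 (by norm_num)
  have hℓz : (ℓ : ℤ) ≠ 0 := by exact_mod_cast hℓ0.ne'
  have hpℓ : ∀ p : ℕ, ¬ p ∣ ga → ¬ (p : ℤ) ∣ (ℓ : ℤ) := by
    intro p hp h1
    apply hp
    rw [hga]
    exact (Int.natCast_dvd_natCast.1 h1).mul_right _
  -- the indices
  have hdivℓ : ∀ x : ℤ, 1 ≤ |x| → |x| ≤ J → x ∣ (ℓ : ℤ) := by
    intro x h1 h2
    rw [Int.abs_eq_natAbs] at h1 h2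
    rw [← Int.natAbs_dvd_natAbs, Int.natAbs_natCast, hℓ]
    apply Nat.dvd_factorial
    · exact_mod_cast h1
    · exact_mod_cast h2
  have hquo : ∀ i : ℤ, 1 ≤ |i| → |i| ≤ J → (ℓ : ℤ) = i * ((ℓ : ℤ) / i) ∧ (ℓ : ℤ) / i ≠ 0 ∧
      |((ℓ : ℤ) / i : ℤ)| ≤ (ℓ : ℤ) := by
    intro i h1 h2
    obtain ⟨i₁, hi₁⟩ := hdivℓ i h1 h2
    have hi0 : i ≠ 0 := by
      rintro rfl
      simp at h1
    have e1 : (ℓ : ℤ) / i = i₁ := by
      rw [hi₁]
      exact Int.mul_ediv_cancel_left _ hi0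
    rw [e1]
    refine ⟨hi₁, ?_, ?_⟩
    · rintro rfl
      rw [mul_zero] at hi₁
      exact hℓz hi₁
    · have h3 : |(ℓ : ℤ)| = |i| * |i₁| := by rw [hi₁, abs_mul]
      rw [abs_of_nonneg (by positivity : (0 : ℤ) ≤ ℓ)] at h3
      rw [h3]
      exact le_mul_of_one_le_left (abs_nonneg _) h1
  set I : Finset ℤ := (Icc (-(J : ℤ)) J).filter (fun i => i ≠ 0) with hI
  have hImem : ∀ i : ℤ, i ∈ I ↔ (1 ≤ |i| ∧ |i| ≤ J) := by
    intro i
    rw [hI, mem_filter, mem_Icc, ← abs_le]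
    constructor
    · rintro ⟨h1, h2⟩
      exact ⟨Int.one_le_abs h2, h1⟩
    · rintro ⟨h1, h2⟩
      refine ⟨h2, ?_⟩
      rintro rfl
      simp at h1
  have hIcard : (I.card : ℝ) ≤ 3 * (J + 1) := by
    have h1 : I.card ≤ (Icc (-(J : ℤ)) J).card := card_le_card (filter_subset _ _)
    rw [Int.card_Icc] at h1
    have h2 : I.card ≤ 3 * (J + 1) := by omega
    exact_mod_cast h2
  set τ : Fin K → ℤ := fun j => ℓ * t j with hτ
  set Z' : Finset ℤ := ((I ×ˢ Z).image (fun x => (ℓ : ℤ) / x.1 * x.2)).filter (fun z => ∀ j, z ≠ τ j) with hZ'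
  have hZ'mem : ∀ z ∈ Z', (∀ j, z ≠ τ j) ∧ |(z : ℝ)| ≤ L * (Real.log L) ^ (A + 1) := by
    intro z hz
    rw [hZ', mem_filter, mem_image] at hz
    obtain ⟨⟨⟨i, x⟩, hix, rfl⟩, hz2⟩ := hz
    rw [mem_product, hImem] at hix
    obtain ⟨⟨hi1, hi2⟩, hx⟩ := hix
    obtain ⟨g1, g2, g3⟩ := hquo i hi1 hi2
    refine ⟨hz2, ?_⟩
    push_cast
    have hi3 : |((((ℓ : ℤ) / i : ℤ)) : ℝ)| ≤ ℓ := by exact_mod_cast g3
    have h5 : |((((ℓ : ℤ) / i * x : ℤ)) : ℝ)| ≤ Real.log L * (L * (Real.log L) ^ A) := by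
      push_cast
      rw [abs_mul]
      exact mul_le_mul (by linarith) (hZ x hx) (abs_nonneg _) hLL0.le
    have h6 : L * Real.log L ^ (A + 1) = Real.log L * (L * (Real.log L) ^ A) := by ring
    rw [h6]
    exact_mod_cast h5
  have hZ'w : ∑ z ∈ Z', wZ τ z ≤ c₁ * ff X := by
    have h0 : ∑ z ∈ Z', wZ τ z ≤ ∑ z ∈ (I ×ˢ Z).image (fun x => (ℓ : ℤ) / x.1 * x.2), wZ τ z :=
      sum_le_sum_of_subset_of_nonneg (filter_subset _ _) (fun z _ _ => wZ_nonneg τ z)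
    have h1 := sum_image_le' (I ×ˢ Z) (fun x => (ℓ : ℤ) / x.1 * x.2) (wZ τ) (wZ_nonneg τ)
    rw [sum_product] at h1
    refine h0.trans (h1.trans ?_)
    have h2 : ∀ i ∈ I, ∑ z ∈ Z, wZ τ ((ℓ : ℤ) / i * z) ≤
        ℓ ^ K * (c₁ / (3 * (J + 1) * ℓ ^ K) * ff X) := by
      intro i hi
      rw [hImem] at hi
      obtain ⟨g1, g2, g3⟩ := hquo i hi.1 hi.2
      have hi3 : |((((ℓ : ℤ) / i : ℤ)) : ℝ)| ≤ ℓ := by exact_mod_cast g3
      have hτi : τ = fun j => (ℓ : ℤ) / i * (i * t j) := by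
        funext j
        rw [hτ]
        show (ℓ : ℤ) * t j = (ℓ : ℤ) / i * (i * t j)
        calc (ℓ : ℤ) * t j = (i * ((ℓ : ℤ) / i)) * t j := by rw [← g1]
          _ = _ := by ring
      calc ∑ z ∈ Z, wZ τ ((ℓ : ℤ) / i * z) ≤ ∑ z ∈ Z, (ℓ : ℝ) ^ K * wZ (fun j => i * (t j : ℤ)) z := by
            apply sum_le_sum
            intro z _
            rw [hτi]
            exact wZ_mul (fun j => i * (t j : ℤ)) ((ℓ : ℤ) / i) z g2 ℓ hi3
        _ = ℓ ^ K * ∑ z ∈ Z, wZ (fun j => i * (t j : ℤ)) z := (mul_sum _ _ _).symm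
        _ ≤ _ := mul_le_mul_of_nonneg_left (hZw i hi.1 hi.2) (by positivity)
    refine (sum_le_card_nsmul _ _ _ h2).trans ?_
    rw [nsmul_eq_mul]
    have hffn : 0 ≤ ff X := hff.2.1
    calc (I.card : ℝ) * (ℓ ^ K * (c₁ / (3 * (J + 1) * ℓ ^ K) * ff X)) ≤
        (3 * (J + 1)) * (ℓ ^ K * (c₁ / (3 * (J + 1) * ℓ ^ K) * ff X)) :=
          mul_le_mul_of_nonneg_right hIcard (by positivity)
      _ = c₁ * ff X := by field_simp
  have hLX : L ≤ X := (Real.log_le_sub_one_of_pos hX0).trans (by linarith)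
  have hX1 : 1 ≤ X := by linarith
  have hLA : ∀ B : ℕ, B ≤ A + 1 → L * (Real.log L) ^ B ≤ E := by
    intro B hB
    calc L * (Real.log L) ^ B ≤ L * L ^ B := by gcongr
      _ = L ^ (B + 1) := by ring
      _ ≤ L ^ (A + 5) := pow_le_pow_right₀ hL1 (by omega)
      _ ≤ E := hE
  have hEX : E ≤ X := by
    rw [eX]
    calc E = E ^ 1 := (pow_one _).symm
      _ ≤ E ^ 40 := pow_le_pow_right₀ hE1 (by norm_num)
  obtain ⟨n, hXn, hn3, hnb, hnd, hnJ, hnE, hmain⟩ := hX (fun _ => ℓ) (fun z => z) ga hga0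
    (by rw [hga]; exact dvd_mul_left d ℓ) hgsum hgle t htinj htl hadm τ
    (by
      intro j
      rw [hτ]
      push_cast
      rw [abs_of_nonneg (by positivity)]
      calc (ℓ : ℝ) * t j ≤ L * L ^ 2 := mul_le_mul hLℓ2 (htl j) (Nat.cast_nonneg _) hL0.le
        _ = L ^ 3 := by ring)
    (by
      intro p hp hpg
      obtain ⟨v, hv⟩ := hadm p hp
      refine ⟨-(ℓ * v : ℤ), fun j hd => ?_⟩
      have h1 : -((ℓ : ℤ) * v) - τ j = -((ℓ : ℤ) * ((v + t j : ℕ) : ℤ)) := by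
        rw [hτ]; push_cast; ring
      rw [h1, dvd_neg] at hd
      rcases (Nat.prime_iff_prime_int.1 hp).dvd_mul.1 hd with h2 | h2
      · exact hpℓ p hpg h2
      · exact hv j (Int.natCast_dvd_natCast.1 h2))
    (by
      intro p hp hpg cc hcc
      obtain ⟨ρ, hρ⟩ := solve p hp ℓ cc (hpℓ p hpg)
      refine ⟨ρ, ?_, ?_⟩
      · intro j h1
        apply hcc j
        have h2 : (p : ℤ) ∣ ((ρ + t j : ℕ) : ℤ) := Int.natCast_dvd_natCast.2 h1
        have h3 : cc - τ j = ((ℓ : ℤ) * ρ + cc) - ℓ * ((ρ + t j : ℕ) : ℤ) := by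
          rw [hτ]; push_cast; ring
        rw [h3]
        exact dvd_sub hρ (h2.mul_left _)
      · intro z n h1 h2
        have h3 : (ℓ : ℤ) * n + z = ℓ * (n - ρ) + (ℓ * ρ + cc) + (z - cc) := by ring
        show (p : ℤ) ∣ (ℓ : ℤ) * n + z
        rw [h3]
        exact dvd_add (dvd_add (h2.mul_left _) hρ) h1) h hh col hcol bad hbad Z' hZ'mem
    (fun z hz => ⟨hℓz, fun j h1 => (hZ'mem z hz).1 j (by rw [← h1])⟩)
    (by
      intro z hz
      constructor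
      · push_cast
        rw [abs_of_nonneg (by positivity : (0 : ℝ) ≤ ℓ)]
        calc (ℓ : ℝ) ≤ L := hLℓ2
          _ ≤ X := hLX
          _ = X ^ 1 := (pow_one _).symm
          _ ≤ X ^ 3 := pow_le_pow_right₀ hX1 (by omega)
      · calc |(z : ℝ)| ≤ L * (Real.log L) ^ (A + 1) := (hZ'mem z hz).2
          _ ≤ E := hLA _ le_rfl
          _ ≤ X := hEX
          _ = X ^ 1 := (pow_one _).symm
          _ ≤ X ^ 3 := pow_le_pow_right₀ hX1 (by omega))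
    (by
      intro k _ l _ hkl h1
      exact hkl (mul_left_cancel₀ hℓz h1).symm) hZ'w
  refine ⟨n, hXn, hn3, hnb, hnd, hnE, ?_⟩
  intro i j hi1 hiJ hj1 hjJ q hq hmem
  set k : ℤ := j * q - i * n with hk
  have hkle := hZ k hmem
  -- a small `q` is impossible
  have hsmall : ¬ ((q : ℝ) ≤ E) := by
    intro hqE
    have h1 : |(i : ℝ)| * n ≤ (J : ℝ) * E + E := by
      have h2 : (i : ℝ) * n = j * q - (k : ℤ) := by
        rw [hk]
        push_cast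
        ring
      have h3 : |(i : ℝ)| * n = |(i : ℝ) * n| := by
        rw [abs_mul, abs_of_nonneg (Nat.cast_nonneg n : (0 : ℝ) ≤ n)]
      rw [h3, h2]
      refine (abs_sub _ _).trans ?_
      rw [abs_mul, abs_of_nonneg (Nat.cast_nonneg q : (0 : ℝ) ≤ q)]
      have h4 : |(j : ℝ)| ≤ J := by exact_mod_cast hjJ
      have h5 : |(j : ℝ)| * q ≤ J * E := mul_le_mul h4 hqE (Nat.cast_nonneg q) hJ0
      have h6 := hkle.trans (hLA A (by omega))
      linarith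
    have h2 : (1 : ℝ) ≤ |(i : ℝ)| := by exact_mod_cast hi1
    have h4 : X ≤ |(i : ℝ)| * n := by
      calc X ≤ n := hXn.le
        _ ≤ _ := le_mul_of_one_le_left (by positivity) h2
    have h5 : (J : ℝ) * E + E < E ^ 40 := by
      calc (J : ℝ) * E + E = (J + 1) * E := by ring
        _ < E * E := mul_lt_mul_of_pos_right (by linarith) hE0
        _ = E ^ 2 := by ring
        _ ≤ E ^ 40 := pow_le_pow_right₀ hE1 (by norm_num)
    rw [eX] at h4
    linarith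
  obtain ⟨g1, g2, g3⟩ := hquo i hi1 hiJ
  obtain ⟨i₁, hi₁e⟩ : ∃ i₁ : ℤ, i₁ = (ℓ : ℤ) / i := ⟨_, rfl⟩
  rw [← hi₁e] at g1 g2 g3
  have hi₁ℓ : i₁ ∣ (ℓ : ℤ) := ⟨i, by rw [g1]; ring⟩
  have hid : (ℓ : ℤ) * n + i₁ * k = i₁ * j * q := by
    rw [hk, g1]
    ring
  by_cases hz : ∃ l, i₁ * k = ℓ * t l
  · obtain ⟨l, hl⟩ := hz
    refine ⟨l, ?_⟩
    have h1 : (ℓ : ℤ) * ((n + t l : ℕ) : ℤ) = i₁ * j * q := by
      rw [← hid, hl]
      push_cast
      ring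
    have h2 : i * ((n + t l : ℕ) : ℤ) = j * q := by
      apply mul_left_cancel₀ g2
      rw [g1] at h1
      linarith
    have hndiv : ¬ (q : ℤ) ∣ i := by
      intro h3
      apply hsmall
      have h4 : q ≤ J := by
        have h5 := Int.natCast_dvd.1 h3
        have h6 : 0 < i.natAbs := by
          rw [Int.abs_eq_natAbs] at hi1
          exact_mod_cast hi1
        have h7 : i.natAbs ≤ J := by
          rw [Int.abs_eq_natAbs] at hiJ
          exact_mod_cast hiJ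
        exact (Nat.le_of_dvd h6 h5).trans h7
      have h5 : (q : ℝ) ≤ J := by exact_mod_cast h4
      linarith
    have h3 : (q : ℤ) ∣ i * ((n + t l : ℕ) : ℤ) := by rw [h2]; exact dvd_mul_left _ _
    have h4 : (q : ℤ) ∣ ((n + t l : ℕ) : ℤ) := ((Nat.prime_iff_prime_int.1 hq).dvd_mul.1 h3).resolve_left hndiv
    obtain ⟨s, hs⟩ := Int.natCast_dvd_natCast.1 h4
    have hs1 : s = 1 := by
      by_contra hne
      have h5 : i * s = j := by
        have h6 : (q : ℤ) * (i * s) = q * j := by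
          rw [hs] at h2
          push_cast at h2
          linarith
        exact mul_left_cancel₀ (by exact_mod_cast hq.pos.ne') h6
      have h6 : s ∣ j.natAbs := by
        have h7 : (s : ℤ) ∣ j := ⟨i, by rw [← h5]; ring⟩
        exact Int.natCast_dvd.1 h7
      have hj0 : 0 < j.natAbs := by
        rw [Int.abs_eq_natAbs] at hj1
        exact_mod_cast hj1
      have hjJ' : j.natAbs ≤ J := by
        rw [Int.abs_eq_natAbs] at hjJ
        exact_mod_cast hjJ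
      have h7 : s ≤ J := (Nat.le_of_dvd hj0 h6).trans hjJ'
      have hs0 : 0 < s := Nat.pos_of_dvd_of_pos h6 hj0
      exact hnJ l s.minFac (Nat.minFac_prime hne) ((Nat.minFac_le hs0).trans h7)
        ((Nat.minFac_dvd s).trans ⟨q, by rw [hs]; ring⟩)
    rw [hs, hs1, mul_one]
  · exfalso
    push Not at hz
    obtain ⟨q', hq', hq'X, hq'g, hq'd⟩ := hmain (i₁ * k) (by
      rw [hZ', mem_filter, mem_image]
      refine ⟨⟨(i, k), mem_product.2 ⟨(hImem i).2 ⟨hi1, hiJ⟩, hmem⟩, ?_⟩, hz⟩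
      show (ℓ : ℤ) / i * k = i₁ * k
      rw [← hi₁e])
    rw [hid] at hq'd
    have hq'ℓ : ¬ (q' : ℤ) ∣ (ℓ : ℤ) := hpℓ q' hq'g
    have hqq : q' = q := by
      rcases (Nat.prime_iff_prime_int.1 hq').dvd_mul.1 hq'd with h1 | h1
      · rcases (Nat.prime_iff_prime_int.1 hq').dvd_mul.1 h1 with h2 | h2
        · exact absurd (h2.trans hi₁ℓ) hq'ℓ
        · exact absurd (h2.trans (hdivℓ j hj1 hjJ)) hq'ℓ
      · exact (Nat.prime_dvd_prime_iff_eq hq' hq).1 (by exact_mod_cast h1)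
    apply hsmall
    rw [← hqq]
    exact hq'X.trans e1000

end Pool.Agent.Q145.MT
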