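import Pool.Agent.TH101.RG.OneZ
import Pool.Agent.Q145.MT.Templ

set_option autoImplicit false
set_option maxHeartbeats 4000000

/-! # Tuples of primes at which every form of a large structured family is composite -/

namespace Pool.Agent.Q145.MT

open Finset Filter
open Pool.Agent.H378R2
open Pool.Agent.H312R2.RG (BVat)
open Pool.Agent.H362R2.RQ (fib)
open Pool.Agent.H256R2.SC (ff)
open Pool.Agent.TH101.RG

open scoped Classical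

theorem tupZ : ∃ η : ℝ, 0 < η ∧ ∀ m : ℕ, 1 ≤ m → ∃ K : ℕ, m ≤ K ∧ ∀ (A D : ℕ) (A0 : ℝ), ∃ c : ℝ, 0 < c ∧
    ∀ d z₀ : ℕ, Squarefree d → ∀ᶠ X : ℝ in atTop,
    ∀ (α β : ℤ → ℤ) (g : ℕ), g ≠ 0 → d ∣ g → ∑ p ∈ g.primeFactors, (1 : ℝ) / p ≤ A0 →
    (g : ℝ) ≤ (Real.log X) ^ D →
    ∀ t : Fin K → ℕ, Function.Injective t → (∀ j, (t j : ℝ) ≤ (Real.log X) ^ 2) →
    (∀ p : ℕ, p.Prime → ∃ v : ℕ, ∀ j, ¬ p ∣ v + t j) →
    ∀ τ : Fin K → ℤ, (∀ j, |(τ j : ℝ)| ≤ (Real.log X) ^ D) →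
    (∀ p : ℕ, p.Prime → ¬ p ∣ g → ∃ v : ℤ, ∀ j, ¬ (p : ℤ) ∣ v - τ j) →
    (∀ p : ℕ, p.Prime → ¬ p ∣ g → ∀ c : ℤ, (∀ j, ¬ (p : ℤ) ∣ c - τ j) → ∃ ρ : ℕ, (∀ j, ¬ p ∣ ρ + t j) ∧
      ∀ z n : ℤ, (p : ℤ) ∣ z - c → (p : ℤ) ∣ n - ρ → (p : ℤ) ∣ α z * n + β z) →
    ∀ h : ℕ, (∀ j, (h + t j).Coprime d) →
    ∀ col : Fin K → Fin m, (∀ e, K ≤ 2 * m * fib col e) →
    ∀ bad : Finset ℕ, (bad.card : ℝ) ≤ X ^ (9 / 10 : ℝ) →
    ∀ Z : Finset ℤ, (∀ z ∈ Z, (∀ j, z ≠ τ j) ∧ |(z : ℝ)| ≤ Real.log X * (Real.log (Real.log X)) ^ A) →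
    (∀ z ∈ Z, α z ≠ 0 ∧ ∀ j, α z * t j ≠ β z) → (∀ z ∈ Z, |(α z : ℝ)| ≤ X ^ D ∧ |(β z : ℝ)| ≤ X ^ D) →
    (∀ k ∈ Z, ∀ l ∈ Z, k ≠ l → α k * β l ≠ α l * β k) →
    ∑ z ∈ Z, wZ τ z ≤ c * ff X →
    ∃ n : ℕ, X < n ∧ (n : ℝ) ≤ 3 * X ∧ n ∉ bad ∧ n ≡ h [MOD d] ∧
      (∀ j, ∀ p : ℕ, p.Prime → p ≤ z₀ → ¬ p ∣ n + t j) ∧
      (∃ E : Finset (Fin m), η * m ≤ E.card ∧ ∀ e ∈ E, ∃ j, col j = e ∧ (n + t j).Prime) ∧
      ∀ z ∈ Z, ∃ q : ℕ, q.Prime ∧ (q : ℝ) ≤ X ^ (1 / 1000 : ℝ) ∧ ¬ q ∣ g ∧ (q : ℤ) ∣ α z * n + β z := by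
  obtain ⟨η, hη, htp⟩ := templT2
  refine ⟨η, hη, fun m hm => ?_⟩
  obtain ⟨K, hmK, htK⟩ := htp m hm
  refine ⟨K, hmK, fun A D A0 => ?_⟩
  obtain ⟨Abv, c₄, hc₄, ht⟩ := htK D
  obtain ⟨c, hc, hcov⟩ := covZ K A D A0 c₄ hc₄
  refine ⟨c, hc, fun d z₀ hd => ?_⟩
  obtain ⟨Zm, hZm⟩ : ∃ Zm : ℕ, Zm = max 4 (max d z₀) := ⟨_, rfl⟩
  have hZ4 : 4 ≤ Zm := by rw [hZm]; exact le_max_left _ _
  have hZd : d ≤ Zm := by rw [hZm]; exact (le_max_left _ _).trans (le_max_right _ _)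
  have hZz : z₀ ≤ Zm := by rw [hZm]; exact (le_max_right _ _).trans (le_max_right _ _)
  obtain ⟨X1, hbv⟩ := bvrel_holds Abv Zm
  have t1 := Real.tendsto_log_atTop
  have t2 : Tendsto (fun y : ℝ => Real.log (Real.log y)) atTop atTop := t1.comp t1
  filter_upwards [ht Zm hZ4, hcov, eventually_ge_atTop X1, eventually_ge_atTop 4,
    t1.eventually_ge_atTop 1, t1.eventually_ge_atTop (1000 * Zm), t2.eventually_ge_atTop (Zm + 1)]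
    with X htX hcovX hX1 hX4 hL1 hLd hL2d
  intro α β g hg0 hdg hgS hgD t htinj htl hadm τ hτD hτv hH h hhd col hcol bad hbad Z hZ hne hle hdet hw
  obtain ⟨ps, S, hps, hS, hBV⟩ := hbv X hX1
  have hX0 : 0 < X := by linarith
  have hLX : Real.log X ≤ X := (Real.log_le_sub_one_of_pos hX0).trans (by linarith)
  choose! v hv using hadm
  set u : ℕ → ℕ := fun p => if p ∣ d then h else v p with hu
  have hup : ∀ p, p.Prime → ∀ j, ¬ p ∣ u p + t j := by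
    intro p hp j
    simp only [hu]
    split_ifs with hpd
    · intro hph
      exact hp.one_lt.ne' (Nat.dvd_one.1 ((hhd j) ▸ Nat.dvd_gcd hph hpd))
    · exact hv p hp j
  choose! v' hv' using hτv
  obtain ⟨cl, U0, hU0, hU0c, hcl, hcov'⟩ := hcovX ps S hS g hg0 hgS hgD τ v' hτD
    (fun p hp _ hpg j => hv' p hp hpg j)
    Z (fun z hz => (hZ z hz).2) (fun z hz => (hZ z hz).1) hw
  have hex : ∀ p : ℕ, ∃ ρ : ℕ, p ∈ PW X S ps → ((∀ j, ¬ p ∣ ρ + t j) ∧ (p ∣ g → ρ = u p) ∧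
      (¬ p ∣ g → ∀ z n : ℤ, (p : ℤ) ∣ z - cl p → (p : ℤ) ∣ n - ρ → (p : ℤ) ∣ α z * n + β z)) := by
    intro p
    by_cases hp : p ∈ PW X S ps
    · have hpp := (mem_PW.1 hp).2.1
      by_cases hpg : p ∣ g
      · exact ⟨u p, fun _ => ⟨hup p hpp, fun _ => rfl, fun h => absurd hpg h⟩⟩
      · obtain ⟨ρ, h1, h2⟩ := hH p hpp hpg (cl p) (hcl p hp hpg)
        exact ⟨ρ, fun _ => ⟨h1, fun h => absurd h hpg, fun _ => h2⟩⟩
    · exact ⟨0, fun h => absurd h hp⟩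
  choose ρ hρ using hex
  obtain ⟨r, hr⟩ := Nat.chineseRemainderOfFinset ρ (fun p => p) (PW X S ps)
    (fun p hp => (mem_PW.1 hp).2.1.ne_zero)
    (fun p hp q hq hpq => (Nat.coprime_primes (mem_PW.1 (by simpa using hp)).2.1
      (mem_PW.1 (by simpa using hq)).2.1).2 hpq)
  have hrc : ∀ j, (r + t j).Coprime (WW X S ps) := by
    intro j
    unfold WW
    rw [Nat.coprime_prod_right_iff]
    intro p hp
    have hpp := (mem_PW.1 hp).2.1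
    rw [Nat.coprime_comm, Nat.Prime.coprime_iff_not_dvd hpp]
    intro hd
    apply (hρ p hp).1 j
    exact (Nat.modEq_zero_iff_dvd).1 (((hr p hp).add_right (t j)).symm.trans ((Nat.modEq_zero_iff_dvd).2 hd))
  obtain ⟨n, hXn, hn3, hnb, hnr, hE, hU⟩ := htX ps S hps hS hBV t htinj htl U0 hU0c α β
    (fun z hz => hne z (hU0 hz))
    (fun z hz => hle z (hU0 hz)) (fun k hk l hl => hdet k (hU0 hk) l (hU0 hl)) g hg0
    (hgD.trans (pow_le_pow_left₀ (by linarith) hLX D)) r hrc col hcol bad hbad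
  refine ⟨n, hXn, hn3, hnb, ?_, ?_, hE, fun z hz => ?_⟩
  · apply modEq_of_primes hd
    intro p hp
    have hpp := Nat.prime_of_mem_primeFactors hp
    have hpd := Nat.dvd_of_mem_primeFactors hp
    have hd0 : 0 < d := Nat.pos_of_ne_zero hd.ne_zero
    have hpled : p ≤ d := Nat.le_of_dvd hd0 hpd
    have hpPW := small_mem_PW hLd hL2d hps le_rfl hS hpp (hpled.trans hZd)
    have h1 := hr p hpPW
    have h2 : ρ p = u p := (hρ p hpPW).2.1 (hpd.trans hdg)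
    have h3 : u p = h := by simp only [hu]; rw [if_pos hpd]
    rw [h2, h3] at h1
    exact (hnr.of_dvd ((prime_dvd_WW hpp).2 hpPW)).trans h1
  · intro j p hpp hpz hpd
    have hpPW := small_mem_PW hLd hL2d hps le_rfl hS hpp (hpz.trans hZz)
    have hpW := (prime_dvd_WW (X := X) (S := S) (ps := ps) hpp).2 hpPW
    have h1 : n + t j ≡ r + t j [MOD p] := (hnr.of_dvd hpW).add_right _
    have h2 : p ∣ r + t j := (Nat.modEq_zero_iff_dvd).1 (h1.symm.trans ((Nat.modEq_zero_iff_dvd).2 hpd))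
    exact hpp.one_lt.ne' (Nat.dvd_one.1 ((hrc j) ▸ Nat.dvd_gcd h2 hpW))
  · by_cases hzU : z ∈ U0
    · exact hU z hzU
    · obtain ⟨p, hp, hpg, hpz⟩ := hcov' z hz hzU
      have hpp := (mem_PW.1 hp).2.1
      refine ⟨p, hpp, le_rpow_of_le_yy hX0 (by linarith) (mem_PW.1 hp).1, hpg, ?_⟩
      apply (hρ p hp).2.2 hpg z n hpz
      exact Nat.modEq_iff_dvd.1 (((hnr.of_dvd ((prime_dvd_WW hpp).2 hp)).trans (hr p hp)).symm)

end Pool.Agent.Q145.MT
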