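import Pool.Agent.Q145.MT.Gold

set_option autoImplicit false
set_option maxHeartbeats 4000000

/-! # Limit points of the vectors of the least summands, abstract form -/

namespace Pool.Agent.Q145.MT

open Finset Filter
open Pool.Agent.H362R2.RQ (fib)

open scoped Classical

/-- `p 0 < p 1 < …` are the `r` least numbers `p` of the set `P` such that `N - p` is prime. -/
def LeastP (P : ℕ → Prop) {r : ℕ} (N : ℕ) (p : Fin r → ℕ) : Prop :=
  StrictMono p ∧ (∀ k, P (p k) ∧ p k ≤ N ∧ (N - p k).Prime) ∧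
    ∀ q : ℕ, P q → q ≤ N → (N - q).Prime → (∃ k, q = p k) ∨ ∀ k, p k < q

theorem vectors_abs (P : ℕ → Prop) (hP : ∀ p, P p → p.Prime) (D Y : ℝ → ℝ)
    (hex : ∀ ε : ℝ, 0 < ε → ε < 1 → ∃ y₀ : ℝ, ∀ y : ℝ, y₀ ≤ y → ∃ p : ℕ, P p ∧ (1 - ε) * y < p ∧ (p : ℝ) ≤ y)
    (hD1 : ∀ a : ℝ, ∀ᶠ x : ℝ in atTop, a ≤ D x)
    (hD2 : ∀ ε : ℝ, 0 < ε → ∀ᶠ x : ℝ in atTop, ∀ N : ℝ, x < N → N ≤ 4 * x → D x ≤ D N ∧ D N ≤ (1 + ε) * D x)
    (hY : ∀ B : ℝ, ∀ᶠ x : ℝ in atTop, B * D x ≤ Y x)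
    (η : ℝ) (r m K : ℕ) (hm1 : 1 ≤ m) (hmK : m ≤ K) (hηm : (r : ℝ) ≤ η * m)
    (hsig : ∀ᶠ x : ℝ in atTop, ∀ q : Fin K → ℕ, Function.Injective q →
      (∀ j, (q j).Prime ∧ K < q j ∧ q j ≠ 2 ∧ (q j : ℝ) ≤ Y x) →
      ∀ col : Fin K → Fin m, (∀ e, K ≤ 2 * m * fib col e) →
      ∃ N : ℕ, x < N ∧ (N : ℝ) ≤ 4 * x ∧ Even N ∧ (∀ j, q j ≤ N) ∧
      (∃ E : Finset (Fin m), η * m ≤ E.card ∧ ∀ e ∈ E, ∃ j, col j = e ∧ (N - q j).Prime) ∧
      ∀ p : ℕ, P p → (p : ℝ) ≤ Y x → ∀ p' : ℕ, p'.Prime → p + p' = N → ∃ l, p = q l)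
    (β : Fin K → ℝ) (hβ : StrictMono β) (hβ0 : ∀ j, 0 ≤ β j) (ε : ℝ) (hε : 0 < ε) (N₀ : ℕ) :
    ∃ I : Fin r → Fin K, StrictMono I ∧ ∃ N : ℕ, N₀ ≤ N ∧ Even N ∧
      ∃ p : Fin r → ℕ, LeastP P N p ∧ ∀ k, |(p k : ℝ) / D N - β (I k)| < ε := by
  -- an upper bound and the smallest gap
  obtain ⟨B, hB0, hB⟩ : ∃ B : ℝ, 0 ≤ B ∧ ∀ j, β j ≤ B :=
    ⟨∑ j, β j, sum_nonneg fun j _ => hβ0 j, fun j => single_le_sum (f := β) (fun i _ => hβ0 i) (mem_univ j)⟩
  obtain ⟨δ, hδ0, hδ⟩ : ∃ δ : ℝ, 0 < δ ∧ ∀ i j, i < j → δ < β j - β i := by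
    by_cases hne : (univ.filter (fun x : Fin K × Fin K => x.1 < x.2)).Nonempty
    · obtain ⟨x₀, hx₀, hmin⟩ := exists_min_image _ (fun x : Fin K × Fin K => β x.2 - β x.1) hne
      rw [mem_filter] at hx₀
      have h1 : 0 < β x₀.2 - β x₀.1 := sub_pos.2 (hβ hx₀.2)
      refine ⟨(β x₀.2 - β x₀.1) / 2, by linarith, fun i j hij => ?_⟩
      have := hmin (i, j) (mem_filter.2 ⟨mem_univ _, hij⟩)
      simp only at this
      linarith
    · refine ⟨1, one_pos, fun i j hij => absurd ⟨(i, j), mem_filter.2 ⟨mem_univ _, hij⟩⟩ hne⟩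
  obtain ⟨ε₁, hε₁⟩ : ∃ ε₁ : ℝ, ε₁ = min (min 1 δ) (ε / (2 * (B + 1))) := ⟨_, rfl⟩
  have hε₁0 : 0 < ε₁ := by rw [hε₁]; exact lt_min (lt_min one_pos hδ0) (by positivity)
  have hε₁1 : ε₁ ≤ 1 := by rw [hε₁]; exact (min_le_left _ _).trans (min_le_left _ _)
  have hε₁δ : ε₁ ≤ δ := by rw [hε₁]; exact (min_le_left _ _).trans (min_le_right _ _)
  have hε₁ε : ε₁ * (B + 1) ≤ ε / 2 := by
    have : ε₁ ≤ ε / (2 * (B + 1)) := by rw [hε₁]; exact min_le_right _ _
    rw [le_div_iff₀ (by positivity)] at this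
    linarith
  obtain ⟨ε₂, hε₂⟩ : ∃ ε₂ : ℝ, ε₂ = ε₁ / (B + 2) := ⟨_, rfl⟩
  have hε₂0 : 0 < ε₂ := by rw [hε₂]; positivity
  have hε₂1 : ε₂ < 1 := by
    rw [hε₂, div_lt_one (by positivity)]
    linarith
  have hε₂h : ε₂ ≤ 1 / 2 := by
    rw [hε₂, div_le_div_iff₀ (by positivity) (by norm_num)]
    nlinarith
  obtain ⟨y₀, hy₀⟩ := hex ε₂ hε₂0 hε₂1
  obtain ⟨x, ⟨⟨g1, g2⟩, g3⟩, ⟨hFS, hS1⟩, g5, g6⟩ := ((((hD1 ((|y₀| + 2 * (K + 2)) / ε₁)).and
    (hD2 ε₁ hε₁0)).and hsig).and (((hY (B + 1)).and (hD1 1)).and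
    ((eventually_ge_atTop (N₀ : ℝ)).and (eventually_ge_atTop 1)))).exists
  set S := D x with hS
  have hS0 : 0 < S := by linarith
  rw [div_le_iff₀ hε₁0] at g1
  have hy₀' := abs_nonneg y₀
  have hy₀'' := le_abs_self y₀
  have hKn : (0 : ℝ) ≤ K := Nat.cast_nonneg K
  -- the primes
  have hex : ∀ j : Fin K, ∃ p : ℕ, P p ∧ β j * S < p ∧ (p : ℝ) ≤ (β j + ε₁) * S ∧ (K : ℝ) + 2 < p := by
    intro j
    have hy : |y₀| + 2 * (K + 2) ≤ (β j + ε₁) * S := by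
      have h1 : 0 ≤ β j * S := mul_nonneg (hβ0 j) hS0.le
      nlinarith
    obtain ⟨p, hp, hp1, hp2⟩ := hy₀ ((β j + ε₁) * S) (by linarith)
    refine ⟨p, hp, ?_, hp2, ?_⟩
    · have h1 : ε₂ * (β j + ε₁) ≤ ε₁ := by
        rw [hε₂, div_mul_eq_mul_div, div_le_iff₀ (by positivity)]
        apply mul_le_mul_of_nonneg_left _ hε₁0.le
        have := hB j
        linarith
      have h2 : β j * S ≤ (1 - ε₂) * ((β j + ε₁) * S) := by
        have h3 : (1 - ε₂) * ((β j + ε₁) * S) = β j * S + (ε₁ - ε₂ * (β j + ε₁)) * S := by ring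
        rw [h3]
        have h4 : 0 ≤ (ε₁ - ε₂ * (β j + ε₁)) * S := mul_nonneg (by linarith) hS0.le
        linarith
      linarith
    · have h1 : 1 / 2 * ((β j + ε₁) * S) ≤ (1 - ε₂) * ((β j + ε₁) * S) := by
        apply mul_le_mul_of_nonneg_right (by linarith)
        linarith
      linarith
  choose q hqP hq2 hq3 hq4 using hex
  have hq1 : ∀ j, (q j).Prime := fun j => hP _ (hqP j)
  have hqmono : StrictMono q := by
    intro i j hij
    have h1 := hδ i j hij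
    have h2 : (β i + ε₁) * S ≤ β j * S := mul_le_mul_of_nonneg_right (by linarith) hS0.le
    have h3 : (q i : ℝ) < q j := by linarith [hq3 i, hq2 j]
    exact_mod_cast h3
  have hqF : ∀ j, (q j : ℝ) ≤ Y x := by
    intro j
    refine (hq3 j).trans (le_trans ?_ hFS)
    apply mul_le_mul_of_nonneg_right _ hS0.le
    have := hB j
    linarith
  obtain ⟨N, hN1, hN2, hN3, hqN, ⟨E, hE1, hE2⟩, hN5⟩ := g3 q hqmono.injective (fun j => by
      refine ⟨hq1 j, ?_, ?_, hqF j⟩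
      · have := hq4 j
        have h1 : (K : ℝ) < q j := by linarith
        exact_mod_cast h1
      · intro h
        have := hq4 j
        rw [h] at this
        push_cast at this
        linarith) (Pool.Agent.H362R2.RQ.cmod K m hm1) (Pool.Agent.H362R2.RQ.fib_cmod K m hm1 hmK)
  set H : Finset (Fin K) := univ.filter (fun j => (N - q j).Prime) with hH
  have hHcard : r ≤ H.card := by
    have h1 : E.card ≤ H.card := by
      have h2 : E ⊆ H.image (Pool.Agent.H362R2.RQ.cmod K m hm1) := by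
        intro e he
        obtain ⟨j, hj1, hj2⟩ := hE2 e he
        rw [mem_image]
        exact ⟨j, mem_filter.2 ⟨mem_univ _, hj2⟩, hj1⟩
      exact (card_le_card h2).trans card_image_le
    have h2 : (r : ℝ) ≤ E.card := hηm.trans hE1
    have h3 : r ≤ E.card := by exact_mod_cast h2
    omega
  set e := H.orderEmbOfFin rfl with he
  have hNx : (x : ℝ) ≤ N := hN1.le
  refine ⟨fun k => e (Fin.castLE hHcard k), fun a b hab => e.strictMono (by simpa using hab), N, ?_, hN3,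
    fun k => q (e (Fin.castLE hHcard k)), ⟨?_, ?_, ?_⟩, ?_⟩
  · have : (N₀ : ℝ) ≤ N := by linarith
    exact_mod_cast this
  · exact fun a b hab => hqmono (e.strictMono (by simpa using hab))
  · intro k
    have h1 : e (Fin.castLE hHcard k) ∈ H := H.orderEmbOfFin_mem rfl _
    exact ⟨hqP _, hqN _, (mem_filter.1 h1).2⟩
  · intro p hp hpN hpN'
    by_cases hpF : (p : ℝ) ≤ Y x
    · obtain ⟨l, hl⟩ := hN5 p hp hpF (N - p) hpN' (by omega)
      have hlH : l ∈ H := mem_filter.2 ⟨mem_univ _, by rw [← hl]; exact hpN'⟩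
      obtain ⟨i, hi⟩ : l ∈ Set.range e := by
        rw [he, H.range_orderEmbOfFin rfl]
        exact hlH
      by_cases hir : (i : ℕ) < r
      · left
        refine ⟨⟨i, hir⟩, ?_⟩
        rw [hl, ← hi]
        congr 1
      · right
        intro k
        rw [hl, ← hi]
        apply hqmono
        apply e.strictMono
        show (Fin.castLE hHcard k : ℕ) < i
        have := k.2
        simp only [Fin.val_castLE]
        omega
    · right
      intro k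
      push Not at hpF
      have h1 : (q (e (Fin.castLE hHcard k)) : ℝ) < p := lt_of_le_of_lt (hqF _) hpF
      exact_mod_cast h1
  · intro k
    obtain ⟨s1, s2⟩ := g2 N hN1 hN2
    set j := e (Fin.castLE hHcard k) with hj
    set SN := D N with hSN
    have hSN0 : 0 < SN := lt_of_lt_of_le hS0 s1
    rw [abs_lt]
    constructor
    · have h1 : β j - ε < q j / SN := by
        rw [lt_div_iff₀ hSN0]
        by_cases hneg : β j - ε ≤ 0
        · have h2 : (β j - ε) * SN ≤ 0 := mul_nonpos_of_nonpos_of_nonneg hneg hSN0.le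
          have h3 : (0 : ℝ) < q j := by exact_mod_cast (hq1 j).pos
          linarith
        · push Not at hneg
          have h2 : (β j - ε) * SN ≤ (β j - ε) * ((1 + ε₁) * S) := mul_le_mul_of_nonneg_left s2 hneg.le
          have h3 : (β j - ε) * (1 + ε₁) ≤ β j := by
            have h4 : β j * ε₁ ≤ ε / 2 := by
              have h5 : β j * ε₁ ≤ (B + 1) * ε₁ := by
                apply mul_le_mul_of_nonneg_right _ hε₁0.le
                have := hB j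
                linarith
              linarith
            nlinarith
          have h4 : (β j - ε) * ((1 + ε₁) * S) ≤ β j * S := by
            rw [← mul_assoc]
            exact mul_le_mul_of_nonneg_right h3 hS0.le
          linarith [hq2 j]
      linarith
    · have h1 : q j / SN < β j + ε := by
        rw [div_lt_iff₀ hSN0]
        have h2 : (q j : ℝ) ≤ (β j + ε₁) * SN := by
          refine (hq3 j).trans ?_
          apply mul_le_mul_of_nonneg_left s1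
          have := hβ0 j
          linarith
        have h3 : ε₁ < ε := by nlinarith
        have h4 : (β j + ε₁) * SN < (β j + ε) * SN := mul_lt_mul_of_pos_right (by linarith) hSN0
        linarith
      linarith

/-- from the approximation for strictly increasing `β` to the limit points for non-decreasing `β` -/
theorem limit_abs (P : ℕ → Prop) (D : ℝ → ℝ) (r K : ℕ)
    (h : ∀ β : Fin K → ℝ, StrictMono β → (∀ j, 0 ≤ β j) → ∀ ε : ℝ, 0 < ε → ∀ N₀ : ℕ,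
      ∃ I : Fin r → Fin K, StrictMono I ∧ ∃ N : ℕ, N₀ ≤ N ∧ Even N ∧
        ∃ p : Fin r → ℕ, LeastP P N p ∧ ∀ k, |(p k : ℝ) / D N - β (I k)| < ε)
    (β : Fin K → ℝ) (hβ : Monotone β) (hβ0 : ∀ j, 0 ≤ β j) :
    ∃ I : Fin r → Fin K, StrictMono I ∧ ∀ ε : ℝ, 0 < ε → ∀ N₀ : ℕ, ∃ N : ℕ, N₀ ≤ N ∧ Even N ∧
      ∃ p : Fin r → ℕ, LeastP P N p ∧ ∀ k, |(p k : ℝ) / D N - β (I k)| < ε := by
  have hstep : ∀ n : ℕ, ∃ I : Fin r → Fin K, StrictMono I ∧ ∃ N : ℕ, n ≤ N ∧ Even N ∧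
      ∃ p : Fin r → ℕ, LeastP P N p ∧ ∀ k, |(p k : ℝ) / D N - β (I k)| < 1 / ((n : ℝ) + 1) := by
    intro n
    obtain ⟨δ, hδ⟩ : ∃ δ : ℝ, δ = 1 / (2 * ((n : ℝ) + 1) * (K + 1)) := ⟨_, rfl⟩
    have hδ0 : 0 < δ := by rw [hδ]; positivity
    obtain ⟨I, hI, N, hN, hNe, p, hp, hpk⟩ := h (fun j => β j + δ * (j : ℕ))
      (fun i j hij => by
        have h1 := hβ hij.le
        have h2 : ((i : ℕ) : ℝ) < (j : ℕ) := by exact_mod_cast hij
        have h3 : δ * (i : ℕ) < δ * (j : ℕ) := mul_lt_mul_of_pos_left h2 hδ0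
        show β i + δ * (i : ℕ) < β j + δ * (j : ℕ)
        linarith)
      (fun j => add_nonneg (hβ0 j) (by positivity)) (1 / (2 * ((n : ℝ) + 1))) (by positivity) n
    refine ⟨I, hI, N, hN, hNe, p, hp, fun k => ?_⟩
    have h1 := hpk k
    have h2 : δ * ((I k : ℕ) : ℝ) ≤ 1 / (2 * ((n : ℝ) + 1)) := by
      have h3 : (((I k : Fin K) : ℕ) : ℝ) ≤ K + 1 := by
        have := (I k).2
        exact_mod_cast (by omega : ((I k : Fin K) : ℕ) ≤ K + 1)
      calc δ * ((I k : ℕ) : ℝ) ≤ δ * (K + 1) := mul_le_mul_of_nonneg_left h3 hδ0.le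
        _ = 1 / (2 * ((n : ℝ) + 1)) := by
            rw [hδ]
            field_simp
    have h4 : 1 / (2 * ((n : ℝ) + 1)) + 1 / (2 * ((n : ℝ) + 1)) = 1 / ((n : ℝ) + 1) := by
      field_simp
      norm_num
    have h5 : (0 : ℝ) ≤ δ * ((I k : ℕ) : ℝ) := by positivity
    rw [abs_lt] at h1 ⊢
    obtain ⟨h6, h7⟩ := h1
    constructor <;> linarith
  choose I hI hN using hstep
  obtain ⟨I₀, hI₀⟩ := Finite.exists_infinite_fiber I
  rw [Set.infinite_coe_iff] at hI₀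
  obtain ⟨n₀, hn₀⟩ := hI₀.nonempty
  have hn₀' : I n₀ = I₀ := hn₀
  refine ⟨I₀, hn₀' ▸ hI n₀, fun ε hε N₀ => ?_⟩
  obtain ⟨n, hn, hnN⟩ := hI₀.exists_gt (max N₀ ⌈1 / ε⌉₊)
  have hn' : I n = I₀ := hn
  obtain ⟨N, h1, h2, p, h3, h4⟩ := hN n
  refine ⟨N, ?_, h2, p, h3, fun k => ?_⟩
  · have := le_max_left N₀ ⌈1 / ε⌉₊
    omega
  · have h5 := h4 k
    rw [hn'] at h5
    refine h5.trans_le ?_
    have h6 : 1 / ε ≤ n := by
      refine (Nat.le_ceil _).trans ?_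
      have := le_max_right N₀ ⌈1 / ε⌉₊
      exact_mod_cast (by omega : ⌈1 / ε⌉₊ ≤ n)
    rw [div_le_iff₀ hε] at h6
    rw [div_le_iff₀ (by positivity)]
    nlinarith

end Pool.Agent.Q145.MT
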